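import Pool.Agent.Work.MP_2c6138_pr.Bd.B01

/-! Bundle of small proof modules (one section per former module). -/

section

/-!
# Spectral form, log-convexity, Efron-Stein and positivity of the resampling noise operator
(helper88)
-/

set_option autoImplicit false
set_option linter.unusedSectionVars false
set_option linter.unusedVariables false

namespace Pool.Agent.MP2c

open Finset

namespace Spec

variable {V α : Type} [Fintype V] [DecidableEq V] [Fintype α] [DecidableEq α]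

/-- noise on the coordinates in `s` only -/
noncomputable def TS (μ : α → ℝ) (p : ℝ) (s : Finset V) (f : (V → α) → ℝ) (x : V → α) : ℝ :=
  ∑ y : V → α, (∏ v, if v ∈ s then KK μ p (x v) (y v) else if x v = y v then 1 else 0) * f y

lemma prod_delta (x y : V → α) :
    (∏ v, (if x v = y v then (1 : ℝ) else 0)) = if x = y then 1 else 0 := by
  by_cases h : x = y
  · subst h; simp
  · rw [if_neg h]
    obtain ⟨v, hv⟩ := Function.ne_iff.1 h
    exact Finset.prod_eq_zero (mem_univ v) (by simp [hv])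

lemma TS_empty (μ : α → ℝ) (p : ℝ) (f : (V → α) → ℝ) : TS μ p ∅ f = f := by
  funext x
  simp only [TS, notMem_empty, if_false, prod_delta]
  simp

lemma TS_univ (μ : α → ℝ) (p : ℝ) (f : (V → α) → ℝ) : TS μ p univ f = TT μ p f := by
  funext x
  simp only [TS, TT, mem_univ, if_true]

lemma TS_insert (μ : α → ℝ) (p : ℝ) (s : Finset V) (v : V) (hv : v ∉ s) (f : (V → α) → ℝ) :
    TS μ p (insert v s) f = fun x => (1 - p) * avg μ v (TS μ p s f) x + p * TS μ p s f x := by
  funext x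
  -- common factor
  set R : (V → α) → ℝ := fun y => ∏ u ∈ univ.erase v,
    (if u ∈ s then KK μ p (x u) (y u) else if x u = y u then 1 else 0) with hR
  have h1 : ∀ y : V → α, (∏ u, if u ∈ insert v s then KK μ p (x u) (y u) else
      if x u = y u then 1 else 0) = KK μ p (x v) (y v) * R y := by
    intro y
    rw [← Finset.mul_prod_erase univ _ (mem_univ v), if_pos (mem_insert_self v s)]
    congr 1
    apply Finset.prod_congr rfl
    intro u hu
    have huv : u ≠ v := ne_of_mem_erase hu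
    have : (u ∈ insert v s) ↔ u ∈ s := by simp [huv]
    simp only [this]
  have h2 : ∀ y : V → α, (∏ u, if u ∈ s then KK μ p (x u) (y u) else
      if x u = y u then 1 else 0) = (if x v = y v then 1 else 0) * R y := by
    intro y
    rw [← Finset.mul_prod_erase univ _ (mem_univ v), if_neg hv]
  have h3 : ∀ (a : α) (y : V → α), (∏ u, if u ∈ s then KK μ p (Function.update x v a u) (y u) else
      if Function.update x v a u = y u then 1 else 0) = (if a = y v then 1 else 0) * R y := by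
    intro a y
    rw [← Finset.mul_prod_erase univ _ (mem_univ v), if_neg hv, Function.update_self]
    congr 1
    apply Finset.prod_congr rfl
    intro u hu
    have huv : u ≠ v := ne_of_mem_erase hu
    rw [Function.update_of_ne huv]
  simp only [TS, avg]
  simp only [h1, h2, h3]
  have h4 : ∑ a, μ a * ∑ y : V → α, ((if a = y v then 1 else 0) * R y) * f y =
      ∑ y : V → α, μ (y v) * R y * f y := by
    simp_rw [Finset.mul_sum]
    rw [Finset.sum_comm]
    apply Finset.sum_congr rfl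
    intro y _
    rw [Finset.sum_eq_single (y v)]
    · simp; ring
    · intro b _ hb; simp [hb]
    · simp
  rw [h4, Finset.mul_sum, Finset.mul_sum, ← Finset.sum_add_distrib]
  apply Finset.sum_congr rfl
  intro y _
  simp only [KK]
  split_ifs <;> ring

/-- the expectation of an average -/
lemma EE_avg (μ : α → ℝ) (hμ1 : ∑ a, μ a = 1) (v : V) (h : (V → α) → ℝ) :
    EE μ (avg μ v h) = EE μ h := by
  have e1 : EE μ (avg μ v h) = ∑ q : (V → α) × α,
      ((∏ u, μ (q.1 u)) * μ q.2) * h (Function.update q.1 v q.2) := by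
    rw [Fintype.sum_prod_type]
    simp only [EE, avg, Finset.mul_sum, mul_assoc]
  have e2 : EE μ h = ∑ q : (V → α) × α, ((∏ u, μ (q.1 u)) * μ q.2) * h q.1 := by
    rw [Fintype.sum_prod_type]
    simp only [EE]
    apply Finset.sum_congr rfl
    intro x _
    rw [← Finset.sum_mul, ← Finset.mul_sum, hμ1, mul_one]
  rw [e1, e2]
  let F : (V → α) × α → (V → α) × α := fun q => (Function.update q.1 v q.2, q.1 v)
  have hF : Function.Involutive F := by
    rintro ⟨x, a⟩
    simp [F]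
  refine (Equiv.sum_comp hF.toPerm _).symm.trans ?_ |>.symm
  apply Finset.sum_congr rfl
  rintro ⟨x, a⟩ _
  show ((∏ u, μ (Function.update x v a u)) * μ (x v)) * h (Function.update x v a) = _
  congr 1
  rw [← Finset.mul_prod_erase univ _ (mem_univ v), Function.update_self,
    ← Finset.mul_prod_erase univ (fun u => μ (x u)) (mem_univ v)]
  have : ∏ u ∈ univ.erase v, μ (Function.update x v a u) = ∏ u ∈ univ.erase v, μ (x u) := by
    apply Finset.prod_congr rfl
    intro u hu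
    rw [Function.update_of_ne (ne_of_mem_erase hu)]
  rw [this]; ring

lemma avg_update (μ : α → ℝ) (v : V) (g : (V → α) → ℝ) (x : V → α) (a : α) :
    avg μ v g (Function.update x v a) = avg μ v g x := by
  simp [avg]

lemma avg_mul_avg (μ : α → ℝ) (v : V) (f g : (V → α) → ℝ) :
    avg μ v (fun x => f x * avg μ v g x) = fun x => avg μ v f x * avg μ v g x := by
  funext x
  conv_lhs => rw [avg]
  simp only [avg_update]
  conv_rhs => rw [avg, Finset.sum_mul]
  apply Finset.sum_congr rfl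
  intro a _; ring

lemma avg_idem (μ : α → ℝ) (hμ1 : ∑ a, μ a = 1) (v : V) (g : (V → α) → ℝ) :
    avg μ v (avg μ v g) = avg μ v g := by
  funext x
  conv_lhs => rw [avg]
  simp only [avg_update]
  rw [← Finset.sum_mul, hμ1, one_mul]

lemma avg_comm (μ : α → ℝ) (u v : V) (g : (V → α) → ℝ) :
    avg μ u (avg μ v g) = avg μ v (avg μ u g) := by
  rcases eq_or_ne u v with rfl | huv
  · rfl
  funext x
  simp only [avg, Finset.mul_sum]
  rw [Finset.sum_comm]
  apply Finset.sum_congr rfl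
  intro a _
  apply Finset.sum_congr rfl
  intro b _
  rw [Function.update_comm huv]
  ring

lemma avg_lin (μ : α → ℝ) (v : V) (a b : ℝ) (f g : (V → α) → ℝ) :
    avg μ v (fun x => a * f x + b * g x) = fun x => a * avg μ v f x + b * avg μ v g x := by
  funext x
  simp only [avg, Finset.mul_sum, ← Finset.sum_add_distrib]
  apply Finset.sum_congr rfl
  intro a _; ring

lemma TS_lin (μ : α → ℝ) (p : ℝ) (s : Finset V) (a b : ℝ) (f g : (V → α) → ℝ) :
    TS μ p s (fun x => a * f x + b * g x) = fun x => a * TS μ p s f x + b * TS μ p s g x := by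
  funext x
  simp only [TS, Finset.mul_sum, ← Finset.sum_add_distrib]
  apply Finset.sum_congr rfl
  intro a _; ring

lemma EE_lin (μ : α → ℝ) (a b : ℝ) (f g : (V → α) → ℝ) :
    EE μ (fun x => a * f x + b * g x) = a * EE μ f + b * EE μ g := by
  simp only [EE, Finset.mul_sum, ← Finset.sum_add_distrib]
  apply Finset.sum_congr rfl
  intro a _; ring

lemma EE_add (μ : α → ℝ) (f g : (V → α) → ℝ) :
    EE μ (fun x => f x + g x) = EE μ f + EE μ g := by
  simp only [EE, ← Finset.sum_add_distrib]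
  apply Finset.sum_congr rfl
  intro a _; ring

lemma EE_sub (μ : α → ℝ) (f g : (V → α) → ℝ) :
    EE μ (fun x => f x - g x) = EE μ f - EE μ g := by
  simp only [EE, ← Finset.sum_sub_distrib]
  apply Finset.sum_congr rfl
  intro a _; ring

lemma avg_TS (μ : α → ℝ) (p : ℝ) (v : V) (s : Finset V) (f : (V → α) → ℝ) :
    avg μ v (TS μ p s f) = TS μ p s (avg μ v f) := by
  induction s using Finset.induction_on with
  | empty => simp [TS_empty]
  | insert u s hu ih =>
    rw [TS_insert μ p s u hu, TS_insert μ p s u hu, avg_lin, avg_comm, ih]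

/-- the quadratic form -/
noncomputable def Q (μ : α → ℝ) (p : ℝ) (s : Finset V) (f : (V → α) → ℝ) : ℝ :=
  EE μ (fun x => f x * TS μ p s f x)

/-- the difference operator -/
noncomputable def DD (μ : α → ℝ) (v : V) (f : (V → α) → ℝ) : (V → α) → ℝ :=
  fun x => f x - avg μ v f x

lemma DD_eq (μ : α → ℝ) (v : V) (f : (V → α) → ℝ) :
    DD μ v f = fun x => 1 * f x + (-1) * avg μ v f x := by
  funext x; simp only [DD]; ring

lemma EE_mul_avg (μ : α → ℝ) (hμ1 : ∑ a, μ a = 1) (v : V) (f g : (V → α) → ℝ) :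
    EE μ (fun x => f x * avg μ v g x) = EE μ (fun x => avg μ v f x * avg μ v g x) := by
  rw [← EE_avg μ hμ1 v, avg_mul_avg]

lemma EE_avg_mul (μ : α → ℝ) (hμ1 : ∑ a, μ a = 1) (v : V) (f g : (V → α) → ℝ) :
    EE μ (fun x => avg μ v f x * g x) = EE μ (fun x => avg μ v f x * avg μ v g x) := by
  have := EE_mul_avg μ hμ1 v g f
  simp only [mul_comm] at this ⊢
  rw [this]

lemma TS_DD (μ : α → ℝ) (p : ℝ) (s : Finset V) (v : V) (f : (V → α) → ℝ) :
    TS μ p s (DD μ v f) = fun x => TS μ p s f x - TS μ p s (avg μ v f) x := by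
  rw [DD_eq, TS_lin]
  funext x; ring

lemma Q_insert (μ : α → ℝ) (hμ1 : ∑ a, μ a = 1) (p : ℝ) (s : Finset V) (v : V) (hv : v ∉ s)
    (f : (V → α) → ℝ) :
    Q μ p (insert v s) f = Q μ p s (avg μ v f) + p * Q μ p s (DD μ v f) := by
  have hT := TS_DD μ p s v f
  simp only [Q]
  rw [TS_insert μ p s v hv, hT]
  simp only [avg_TS]
  -- abbreviations
  have e0 : EE μ (fun x => f x * ((1 - p) * TS μ p s (avg μ v f) x + p * TS μ p s f x)) =
      (1 - p) * EE μ (fun x => f x * TS μ p s (avg μ v f) x) +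
        p * EE μ (fun x => f x * TS μ p s f x) := by
    rw [← EE_lin]; congr 1; funext x; ring
  have e1 : EE μ (fun x => DD μ v f x * (TS μ p s f x - TS μ p s (avg μ v f) x)) =
      (EE μ (fun x => f x * TS μ p s f x) - EE μ (fun x => f x * TS μ p s (avg μ v f) x)) -
      (EE μ (fun x => avg μ v f x * TS μ p s f x) -
        EE μ (fun x => avg μ v f x * TS μ p s (avg μ v f) x)) := by
    rw [← EE_sub, ← EE_sub, ← EE_sub]; congr 1; funext x; simp only [DD]; ring
  have e2 : EE μ (fun x => f x * TS μ p s (avg μ v f) x) =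
      EE μ (fun x => avg μ v f x * TS μ p s (avg μ v f) x) := by
    rw [← avg_TS]; exact EE_mul_avg μ hμ1 v f _
  have e3 : EE μ (fun x => avg μ v f x * TS μ p s f x) =
      EE μ (fun x => avg μ v f x * TS μ p s (avg μ v f) x) := by
    rw [← avg_TS]; exact EE_avg_mul μ hμ1 v f _
  rw [e0, e1, e2, e3]
  ring

lemma EE_nonneg (μ : α → ℝ) (hμ0 : ∀ a, 0 ≤ μ a) (f : (V → α) → ℝ) (hf : ∀ x, 0 ≤ f x) :
    0 ≤ EE μ f :=
  Finset.sum_nonneg fun x _ => mul_nonneg (Finset.prod_nonneg fun v _ => hμ0 _) (hf x)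

lemma Q_nonneg (μ : α → ℝ) (hμ0 : ∀ a, 0 ≤ μ a) (hμ1 : ∑ a, μ a = 1) (p : ℝ) (hp : 0 ≤ p)
    (s : Finset V) (f : (V → α) → ℝ) : 0 ≤ Q μ p s f := by
  induction s using Finset.induction_on generalizing f with
  | empty =>
    simp only [Q, TS_empty]
    exact EE_nonneg μ hμ0 _ fun x => mul_self_nonneg _
  | insert v s hv ih =>
    rw [Q_insert μ hμ1 p s v hv]
    exact add_nonneg (ih _) (mul_nonneg hp (ih _))

lemma Q_poly (μ : α → ℝ) (hμ0 : ∀ a, 0 ≤ μ a) (hμ1 : ∑ a, μ a = 1)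
    (s : Finset V) (f : (V → α) → ℝ) : ∃ w : ℕ → ℝ, (∀ j, 0 ≤ w j) ∧
      ∀ p : ℝ, Q μ p s f = ∑ j ∈ range (s.card + 1), w j * p ^ j := by
  induction s using Finset.induction_on generalizing f with
  | empty =>
    refine ⟨fun _ => EE μ (fun x => f x * f x),
      fun _ => EE_nonneg μ hμ0 _ fun x => mul_self_nonneg _, fun p => ?_⟩
    simp [Q, TS_empty]
  | insert v s hv ih =>
    obtain ⟨w1, h1, h1'⟩ := ih (avg μ v f)
    obtain ⟨w2, h2, h2'⟩ := ih (DD μ v f)
    refine ⟨fun j => (if j ≤ s.card then w1 j else 0) + (if j = 0 then 0 else w2 (j - 1)),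
      fun j => ?_, fun p => ?_⟩
    · apply add_nonneg
      · split_ifs
        · exact h1 j
        · exact le_rfl
      · split_ifs
        · exact le_rfl
        · exact h2 _
    · rw [Q_insert μ hμ1 p s v hv, h1', h2', card_insert_of_notMem hv]
      simp only [add_mul, Finset.sum_add_distrib]
      congr 1
      · rw [Finset.sum_range_succ (n := s.card + 1)]
        simp only [Nat.not_succ_le_self, if_false, zero_mul, add_zero]
        apply Finset.sum_congr rfl
        intro j hj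
        rw [if_pos (by rw [mem_range] at hj; omega)]
      · rw [Finset.sum_range_succ' (n := s.card + 1)]
        simp only [if_true, zero_mul, add_zero, Nat.add_sub_cancel, Nat.succ_ne_zero,
          if_false, Finset.mul_sum]
        apply Finset.sum_congr rfl
        intro j _
        rw [pow_succ]; ring

lemma TT_zero (μ : α → ℝ) (f : (V → α) → ℝ) (x : V → α) : TT μ 0 f x = EE μ f := by
  simp [TT, EE, KK]

lemma DD_avg (μ : α → ℝ) (u v : V) (f : (V → α) → ℝ) :
    DD μ u (avg μ v f) = avg μ v (DD μ u f) := by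
  rw [DD_eq, DD_eq, avg_lin, avg_comm]

lemma avg_DD_self (μ : α → ℝ) (hμ1 : ∑ a, μ a = 1) (v : V) (f : (V → α) → ℝ) :
    avg μ v (DD μ v f) = fun _ => 0 := by
  rw [DD_eq, avg_lin, avg_idem μ hμ1]; funext x; ring

lemma DD_DD_self (μ : α → ℝ) (hμ1 : ∑ a, μ a = 1) (v : V) (f : (V → α) → ℝ) :
    DD μ v (DD μ v f) = DD μ v f := by
  funext x
  have h := congrFun (avg_DD_self μ hμ1 v f) x
  show DD μ v f x - avg μ v (DD μ v f) x = DD μ v f x
  rw [h]; ring

lemma efron_stein (μ : α → ℝ) (hμ0 : ∀ a, 0 ≤ μ a) (hμ1 : ∑ a, μ a = 1) (p : ℝ) (hp : 0 ≤ p)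
    (s : Finset V) (f : (V → α) → ℝ) :
    Q μ p s f - Q μ 0 s f ≤ ∑ v ∈ s, Q μ p s (DD μ v f) := by
  induction s using Finset.induction_on generalizing f with
  | empty => simp [Q, TS_empty]
  | insert v s hv ih =>
    rw [Finset.sum_insert hv, Q_insert μ hμ1 p s v hv, Q_insert μ hμ1 0 s v hv,
      Q_insert μ hμ1 p s v hv, DD_DD_self μ hμ1]
    have h1 := ih (avg μ v f)
    have h2 : ∑ u ∈ s, Q μ p s (DD μ u (avg μ v f)) ≤
        ∑ u ∈ s, Q μ p (insert v s) (DD μ u f) := by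
      apply Finset.sum_le_sum
      intro u _
      rw [Q_insert μ hμ1 p s v hv, DD_avg]
      have := mul_nonneg hp (Q_nonneg μ hμ0 hμ1 p hp s (DD μ v (DD μ u f)))
      linarith
    have h3 := Q_nonneg μ hμ0 hμ1 p hp s (avg μ v (DD μ v f))
    linarith

end Spec

open Spec

variable {V α : Type} [Fintype V] [DecidableEq V] [Fintype α] [DecidableEq α]

theorem spectral (μ : α → ℝ) (hμ0 : ∀ a, 0 ≤ μ a) (hμ1 : ∑ a, μ a = 1) (f : (V → α) → ℝ) :
    ∃ w : ℕ → ℝ, (∀ j, 0 ≤ w j) ∧ w 0 = (EE μ f) ^ 2 ∧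
      ∀ p : ℝ, EE μ (fun x => f x * TT μ p f x) = ∑ j ∈ range (Fintype.card V + 1), w j * p ^ j := by
  obtain ⟨w, hw, h⟩ := Q_poly μ hμ0 hμ1 (univ : Finset V) f
  simp only [Q, TS_univ, card_univ] at h
  refine ⟨w, hw, ?_, h⟩
  have h0 := h 0
  rw [Finset.sum_eq_single 0 (by intro j _ hj; simp [hj]) (by simp)] at h0
  simp only [TT_zero, pow_zero, mul_one] at h0
  rw [← h0, pow_two]
  simp only [EE, Finset.sum_mul, mul_assoc]

theorem noise_one (μ : α → ℝ) (hμ0 : ∀ a, 0 ≤ μ a) (hμ1 : ∑ a, μ a = 1) (f : (V → α) → ℝ) :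
    TT μ 1 f = f := by
  funext x
  simp only [TT, KK, sub_self, zero_mul, add_zero, prod_delta]
  simp

/-- log-convexity in the noise level -/
theorem noise_logconvex (μ : α → ℝ) (hμ0 : ∀ a, 0 ≤ μ a) (hμ1 : ∑ a, μ a = 1) (f : (V → α) → ℝ)
    (p : ℝ) (hp0 : 0 ≤ p) (hp1 : p ≤ 1) (s : ℕ) (hs : 1 ≤ s) :
    (EE μ (fun x => f x * TT μ p f x) - (EE μ f) ^ 2) ^ s ≤
      (EE μ (fun x => f x ^ 2) - (EE μ f) ^ 2) ^ (s - 1) *
        (EE μ (fun x => f x * TT μ (p ^ s) f x) - (EE μ f) ^ 2) := by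
  obtain ⟨w, hw, hw0, h⟩ := spectral μ hμ0 hμ1 f
  have hdiff : ∀ q : ℝ, EE μ (fun x => f x * TT μ q f x) - (EE μ f) ^ 2 =
      ∑ j ∈ range (Fintype.card V), w (j + 1) * q ^ (j + 1) := by
    intro q
    rw [h q, Finset.sum_range_succ', ← hw0]; ring
  have hone : EE μ (fun x => f x ^ 2) - (EE μ f) ^ 2 = ∑ j ∈ range (Fintype.card V), w (j + 1) := by
    have := hdiff 1
    rw [noise_one μ hμ0 hμ1] at this
    simp only [one_pow, mul_one] at this
    rw [← this]; congr 2; funext x; ring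
  rw [hdiff, hdiff, hone]
  set W := ∑ j ∈ range (Fintype.card V), w (j + 1) with hW
  have hW0 : 0 ≤ W := Finset.sum_nonneg fun j _ => hw _
  rcases hW0.eq_or_lt with hz | hpos
  · have hall : ∀ j ∈ range (Fintype.card V), w (j + 1) = 0 :=
      (Finset.sum_eq_zero_iff_of_nonneg fun j _ => hw _).1 hz.symm
    have h1 : ∀ q : ℝ, ∑ j ∈ range (Fintype.card V), w (j + 1) * q ^ (j + 1) = 0 := by
      intro q
      apply Finset.sum_eq_zero
      intro j hj; rw [hall j hj, zero_mul]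
    rw [h1, h1, zero_pow (by omega), mul_zero]
  · have hJ := Real.pow_arith_mean_le_arith_mean_pow (range (Fintype.card V))
      (fun j => w (j + 1) / W) (fun j => p ^ (j + 1)) (fun j _ => div_nonneg (hw _) hW0)
      (by rw [← Finset.sum_div]; exact div_self hpos.ne') (fun j _ => pow_nonneg hp0 _) s
    have e1 : ∑ j ∈ range (Fintype.card V), w (j + 1) * p ^ (j + 1) =
        W * ∑ j ∈ range (Fintype.card V), w (j + 1) / W * p ^ (j + 1) := by
      rw [Finset.mul_sum]
      apply Finset.sum_congr rfl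
      intro j _; field_simp
    have e2 : W ^ (s - 1) * ∑ j ∈ range (Fintype.card V), w (j + 1) * (p ^ s) ^ (j + 1) =
        W ^ s * ∑ j ∈ range (Fintype.card V), w (j + 1) / W * (p ^ (j + 1)) ^ s := by
      obtain ⟨t, rfl⟩ : ∃ t, s = t + 1 := ⟨s - 1, by omega⟩
      rw [Nat.add_sub_cancel, Finset.mul_sum, Finset.mul_sum]
      apply Finset.sum_congr rfl
      intro j _
      rw [← pow_mul, ← pow_mul, mul_comm (t + 1) (j + 1)]
      field_simp
      ring
    rw [e1, e2, mul_pow]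
    exact mul_le_mul_of_nonneg_left hJ (pow_nonneg hW0 _)

theorem noise_mono (μ : α → ℝ) (hμ0 : ∀ a, 0 ≤ μ a) (hμ1 : ∑ a, μ a = 1) (f : (V → α) → ℝ)
    (p p' : ℝ) (hp0 : 0 ≤ p) (hpp : p ≤ p') :
    0 ≤ EE μ (fun x => f x * TT μ p f x) - (EE μ f) ^ 2 ∧
    EE μ (fun x => f x * TT μ p f x) ≤ EE μ (fun x => f x * TT μ p' f x) := by
  obtain ⟨w, hw, hw0, h⟩ := spectral μ hμ0 hμ1 f
  constructor
  · rw [h p, Finset.sum_range_succ', ← hw0]
    simp only [pow_zero, mul_one, add_sub_cancel_right]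
    exact Finset.sum_nonneg fun j _ => mul_nonneg (hw _) (pow_nonneg hp0 _)
  · rw [h p, h p']
    exact Finset.sum_le_sum fun j _ => mul_le_mul_of_nonneg_left (pow_le_pow_left₀ hp0 hpp j) (hw j)

/-- Efron-Stein type bound -/
theorem noise_efron_stein (μ : α → ℝ) (hμ0 : ∀ a, 0 ≤ μ a) (hμ1 : ∑ a, μ a = 1) (f : (V → α) → ℝ)
    (p : ℝ) (hp0 : 0 ≤ p) :
    EE μ (fun x => f x * TT μ p f x) - (EE μ f) ^ 2 ≤
      ∑ v : V, EE μ (fun x => (f x - avg μ v f x) * TT μ p (fun z => f z - avg μ v f z) x) := by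
  have h := efron_stein μ hμ0 hμ1 p hp0 (univ : Finset V) f
  simp only [Q, TS_univ, TT_zero] at h
  have h0 : EE μ (fun x => f x * EE μ f) = (EE μ f) ^ 2 := by
    rw [pow_two]; simp only [EE, Finset.sum_mul, mul_assoc]
  rw [h0] at h
  exact h

/-- positivity -/
theorem noise_abs_le (μ : α → ℝ) (hμ0 : ∀ a, 0 ≤ μ a) (p : ℝ) (hp0 : 0 ≤ p) (hp1 : p ≤ 1)
    (g h : (V → α) → ℝ) (hgh : ∀ x, |g x| ≤ h x) :
    EE μ (fun x => g x * TT μ p g x) ≤ EE μ (fun x => h x * TT μ p h x) := by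
  have hK : ∀ a b, 0 ≤ KK μ p a b := by
    intro a b
    unfold KK
    have h1 : 0 ≤ (1 - p) * μ b := mul_nonneg (by linarith) (hμ0 b)
    split_ifs <;> linarith
  unfold EE
  apply Finset.sum_le_sum
  intro x _
  apply mul_le_mul_of_nonneg_left _ (Finset.prod_nonneg fun v _ => hμ0 _)
  show g x * TT μ p g x ≤ h x * TT μ p h x
  unfold TT
  rw [Finset.mul_sum, Finset.mul_sum]
  apply Finset.sum_le_sum
  intro y _
  have hk : 0 ≤ ∏ v, KK μ p (x v) (y v) := Finset.prod_nonneg fun v _ => hK _ _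
  have h1 : g x * g y ≤ h x * h y := by
    calc g x * g y ≤ |g x * g y| := le_abs_self _
      _ = |g x| * |g y| := abs_mul _ _
      _ ≤ h x * h y := mul_le_mul (hgh x) (hgh y) (abs_nonneg _) ((abs_nonneg _).trans (hgh x))
  calc g x * ((∏ v, KK μ p (x v) (y v)) * g y) = (∏ v, KK μ p (x v) (y v)) * (g x * g y) := by ring
    _ ≤ (∏ v, KK μ p (x v) (y v)) * (h x * h y) := mul_le_mul_of_nonneg_left h1 hk
    _ = h x * ((∏ v, KK μ p (x v) (y v)) * h y) := by ring

end Pool.Agent.MP2c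

end

section

/-! Burke property of last passage percolation with boundary. Sites are `(row, column)`;
`(0, i)` carries the `i`-th bottom increment, `(j+1, 0)` the left boundary weight of row `j`,
`(j+1, i)` the bulk weight. (helper96, MP_2c6138_pr) -/

set_option autoImplicit false
set_option linter.unusedSectionVars false

namespace Pool.Agent.MP2c

open MeasureTheory Finset
open scoped ENNReal

/-- vertical increments in a row with weights `y` and bottom increments `u` -/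
def Jq (y u : ℕ → ℕ) : ℕ → ℕ
  | 0 => y 0
  | i + 1 => y (i + 1) + (Jq y u i - u (i + 1))

/-- outgoing horizontal increments -/
def Iq (y u : ℕ → ℕ) : ℕ → ℕ
  | 0 => u 0
  | i + 1 => y (i + 1) + (u (i + 1) - Jq y u i)

/-- row `j` of the environment -/
def row (e : ℕ × ℕ → ℕ) (j : ℕ) : ℕ → ℕ := fun i => e (j + 1, i)

/-- horizontal increments at level `j` -/
def UU (e : ℕ × ℕ → ℕ) : ℕ → ℕ → ℕ
  | 0 => fun i => e (0, i)
  | j + 1 => Iq (row e j) (UU e j)

/-- vertical increments in row `j` -/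
def VV (e : ℕ × ℕ → ℕ) (j : ℕ) : ℕ → ℕ := Jq (row e j) (UU e j)

/-- bottom profile -/
def Xof (e : ℕ × ℕ → ℕ) : ℕ → ℕ := fun i => ∑ k ∈ range i, e (0, k + 1)

/-- the profile of the system at level `j` -/
def GG (e : ℕ × ℕ → ℕ) : ℕ → ℕ → ℕ := Gx (Xof e) (row e)

theorem Xof_succ (e : ℕ × ℕ → ℕ) (i : ℕ) : Xof e (i + 1) = Xof e i + e (0, i + 1) := by
  simp [Xof, sum_range_succ]

theorem up_incr {y X u : ℕ → ℕ} (hX : ∀ i, X (i + 1) = X i + u (i + 1)) (i : ℕ) :
    up y X i = X i + Jq y u i ∧ up y X (i + 1) = up y X i + Iq y u (i + 1) := by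
  have h : ∀ i, up y X i = X i + Jq y u i := by
    intro i
    induction i with
    | zero => rfl
    | succ i ih =>
      have := hX i
      rw [up_succ, ih, Jq]; omega
  refine ⟨h i, ?_⟩
  have := hX i
  rw [h (i + 1), h i, Iq, Jq]; omega

theorem GG_incr (e : ℕ × ℕ → ℕ) (j i : ℕ) :
    GG e j (i + 1) = GG e j i + UU e j (i + 1) := by
  induction j generalizing i with
  | zero => exact Xof_succ e i
  | succ j ih => exact (up_incr ih i).2

theorem GG_vert (e : ℕ × ℕ → ℕ) (j i : ℕ) : GG e (j + 1) i = GG e j i + VV e j i :=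
  (up_incr (GG_incr e j) i).1

theorem GG_zero_zero (e : ℕ × ℕ → ℕ) : GG e 0 0 = 0 := rfl

/-- congruence of the queue recursions up to column `w` -/
theorem Jq_congr {y y' u u' : ℕ → ℕ} {w : ℕ} (hy : ∀ i ≤ w, y i = y' i)
    (hu : ∀ i, 1 ≤ i → i ≤ w → u i = u' i) : ∀ i ≤ w, Jq y u i = Jq y' u' i := by
  intro i
  induction i with
  | zero => intro h; exact hy 0 h
  | succ i ih =>
    intro h
    rw [Jq, Jq, ih (by omega), hy _ h, hu _ (by omega) h]

theorem Iq_congr {y y' u u' : ℕ → ℕ} {w : ℕ} (hy : ∀ i ≤ w, y i = y' i)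
    (hu : ∀ i, 1 ≤ i → i ≤ w → u i = u' i) : ∀ i, 1 ≤ i → i ≤ w → Iq y u i = Iq y' u' i := by
  intro i h1 h2
  obtain ⟨i, rfl⟩ : ∃ k, i = k + 1 := ⟨i - 1, by omega⟩
  rw [Iq, Iq, Jq_congr hy hu i (by omega), hy _ h2, hu _ (by omega) h2]

/-- local moves along row `j`, columns `1..k` -/
def rmv (j : ℕ) : ℕ → (ℕ × ℕ → ℕ) → (ℕ × ℕ → ℕ)
  | 0, e => e
  | k + 1, e => mv3 (0, k + 1) (j + 1, 0) (j + 1, k + 1) (rmv j k e)

theorem rmv_eq (j k : ℕ) (e : ℕ × ℕ → ℕ) (p : ℕ × ℕ) :
    rmv j k e p =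
      if p.1 = 0 ∧ 1 ≤ p.2 ∧ p.2 ≤ k then Iq (row e j) (fun i => e (0, i)) p.2
      else if p.1 = j + 1 ∧ p.2 = 0 then Jq (row e j) (fun i => e (0, i)) k
      else if p.1 = j + 1 ∧ 1 ≤ p.2 ∧ p.2 ≤ k then
        min (e (0, p.2)) (Jq (row e j) (fun i => e (0, i)) (p.2 - 1))
      else e p := by
  induction k generalizing p with
  | zero =>
    obtain ⟨r, i⟩ := p
    simp only [rmv]
    by_cases h : r = j + 1 ∧ i = 0
    · obtain ⟨rfl, rfl⟩ := h
      simp [Jq, row]
    · have h1 : ¬ (r = 0 ∧ 1 ≤ i ∧ i ≤ 0) := by omega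
      have h2 : ¬ (r = j + 1 ∧ 1 ≤ i ∧ i ≤ 0) := by omega
      rw [if_neg h1, if_neg h, if_neg h2]
  | succ k ih =>
    obtain ⟨r, i⟩ := p
    have e1 : rmv j k e (0, k + 1) = e (0, k + 1) := by
      rw [ih]
      have h1 : ¬ ((0 : ℕ) = 0 ∧ 1 ≤ k + 1 ∧ k + 1 ≤ k) := by omega
      simp
    have e2 : rmv j k e (j + 1, 0) = Jq (row e j) (fun i => e (0, i)) k := by
      rw [ih]; simp
    have e3 : rmv j k e (j + 1, k + 1) = e (j + 1, k + 1) := by
      rw [ih]; simp
    simp only [rmv, mv3, e1, e2, e3, Prod.mk.injEq]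
    by_cases h1 : r = 0 ∧ i = k + 1
    · obtain ⟨rfl, rfl⟩ := h1
      simp [Iq, row]
    · rw [if_neg h1]
      by_cases h2 : r = j + 1 ∧ i = 0
      · obtain ⟨rfl, rfl⟩ := h2
        simp [Jq, row]
      · rw [if_neg h2]
        by_cases h3 : r = j + 1 ∧ i = k + 1
        · obtain ⟨rfl, rfl⟩ := h3
          simp
        · rw [if_neg h3, ih]
          simp only
          have a1 : (r = 0 ∧ 1 ≤ i ∧ i ≤ k) ↔ (r = 0 ∧ 1 ≤ i ∧ i ≤ k + 1) := by omega
          have a3 : (r = j + 1 ∧ 1 ≤ i ∧ i ≤ k) ↔ (r = j + 1 ∧ 1 ≤ i ∧ i ≤ k + 1) := by omega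
          simp only [a1, a3, h2, if_false]

/-- all local moves, rows `0..N-1`, columns `1..w` -/
def fmv (w : ℕ) : ℕ → (ℕ × ℕ → ℕ) → (ℕ × ℕ → ℕ)
  | 0, e => e
  | N + 1, e => rmv N w (fmv w N e)

/-- The final state. -/
theorem fmv_eq (w N : ℕ) (e : ℕ × ℕ → ℕ) (p : ℕ × ℕ) :
    fmv w N e p =
      if p.2 = 0 then (if 1 ≤ p.1 ∧ p.1 ≤ N then VV e (p.1 - 1) w else e p)
      else if p.2 ≤ w then
        (if p.1 = 0 then UU e N p.2
         else if p.1 ≤ N then min (UU e (p.1 - 1) p.2) (VV e (p.1 - 1) (p.2 - 1)) else e p)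
      else e p := by
  induction N generalizing p with
  | zero =>
    obtain ⟨r, i⟩ := p
    simp only [fmv]
    by_cases h : i = 0
    · subst h
      have : ¬ (1 ≤ r ∧ r ≤ 0) := by omega
      rw [if_pos rfl, if_neg this]
    · by_cases hr : r = 0
      · subst hr; simp [h, UU]
      · have : ¬ r ≤ 0 := by omega
        simp [h, hr]
  | succ N ih =>
    have hrow : ∀ i ≤ w, row (fmv w N e) N i = row e N i := by
      intro i hi
      simp only [row]
      rw [ih]
      have h1 : ¬ (1 ≤ N + 1 ∧ N + 1 ≤ N) := by omega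
      have h2 : ¬ (N + 1 ≤ N) := by omega
      simp
    have hu : ∀ i, 1 ≤ i → i ≤ w → (fun i => fmv w N e (0, i)) i = UU e N i := by
      intro i h1 h2
      simp only
      rw [ih]
      have h3 : i ≠ 0 := by omega
      simp [h3, h2]
    have hJ := Jq_congr hrow hu
    have hI := Iq_congr hrow hu
    obtain ⟨r, i⟩ := p
    simp only [fmv]
    rw [rmv_eq]
    simp only
    by_cases h1 : r = 0 ∧ 1 ≤ i ∧ i ≤ w
    · obtain ⟨rfl, h1, h2⟩ := h1
      have h3 : i ≠ 0 := by omega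
      rw [if_pos ⟨rfl, h1, h2⟩, hI i h1 h2]
      simp [h3, h2, UU]
    · rw [if_neg h1]
      by_cases h2 : r = N + 1 ∧ i = 0
      · obtain ⟨rfl, rfl⟩ := h2
        rw [if_pos ⟨rfl, rfl⟩, hJ w le_rfl]
        simp [VV]
      · rw [if_neg h2]
        by_cases h3 : r = N + 1 ∧ 1 ≤ i ∧ i ≤ w
        · obtain ⟨rfl, h3, h4⟩ := h3
          have hu' : Pool.Agent.MP2c.fmv w N e (0, i) = UU e N i := hu i h3 h4
          rw [if_pos ⟨rfl, h3, h4⟩, hJ (i - 1) (by omega), hu']
          have h5 : i ≠ 0 := by omega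
          simp [h5, h4, VV]
        · rw [if_neg h3, ih]
          simp only
          by_cases h5 : i = 0
          · subst h5
            have a : (1 ≤ r ∧ r ≤ N) ↔ (1 ≤ r ∧ r ≤ N + 1) := by omega
            simp [a]
          · by_cases h6 : i ≤ w
            · have h7 : r ≠ 0 := by omega
              have h8 : r ≤ N ↔ r ≤ N + 1 := by omega
              simp [h5, h6, h7, h8]
            · simp [h5, h6]

section law
variable {Ω : Type} [MeasurableSpace Ω] [DiscreteMeasurableSpace Ω]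

theorem EnvLaw.rmv {P : Measure Ω} {S : Finset (ℕ × ℕ)} {θ : ℕ × ℕ → ℝ} {E : Ω → ℕ × ℕ → ℕ}
    (h : EnvLaw P S θ E) (j k : ℕ) (h0 : ∀ i, 1 ≤ i → i ≤ k → (0, i) ∈ S)
    (hj0 : (j + 1, 0) ∈ S) (hj : ∀ i, 1 ≤ i → i ≤ k → (j + 1, i) ∈ S)
    (hθ : ∀ p ∈ S, 0 ≤ θ p ∧ θ p < 1)
    (hp : ∀ i, 1 ≤ i → i ≤ k → θ (j + 1, i) = θ (0, i) * θ (j + 1, 0)) :
    EnvLaw P S θ (fun ω => rmv j k (E ω)) := by
  induction k with
  | zero => exact h
  | succ k ih =>
    have ih' := ih (fun i h1 h2 => h0 i h1 (by omega)) (fun i h1 h2 => hj i h1 (by omega))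
      (fun i h1 h2 => hp i h1 (by omega))
    have a1 := h0 (k + 1) (by omega) le_rfl
    have a3 := hj (k + 1) (by omega) le_rfl
    exact ih'.move (p1 := (0, k + 1)) (p2 := (j + 1, 0)) (p3 := (j + 1, k + 1)) (by simp) (by simp)
      (by simp) a1 hj0 a3 (hθ _ a1) (hθ _ hj0) (hp _ (by omega) le_rfl)

/-- **Burke property**: the final state has the same law as the environment. -/
theorem EnvLaw.fmv {P : Measure Ω} {S : Finset (ℕ × ℕ)} {θ : ℕ × ℕ → ℝ} {E : Ω → ℕ × ℕ → ℕ}
    (h : EnvLaw P S θ E) (w N : ℕ) (h0 : ∀ i, 1 ≤ i → i ≤ w → (0, i) ∈ S)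
    (hj0 : ∀ j < N, (j + 1, 0) ∈ S) (hj : ∀ j < N, ∀ i, 1 ≤ i → i ≤ w → (j + 1, i) ∈ S)
    (hθ : ∀ p ∈ S, 0 ≤ θ p ∧ θ p < 1)
    (hp : ∀ j < N, ∀ i, 1 ≤ i → i ≤ w → θ (j + 1, i) = θ (0, i) * θ (j + 1, 0)) :
    EnvLaw P S θ (fun ω => fmv w N (E ω)) := by
  induction N with
  | zero => exact h
  | succ N ih =>
    exact (ih (fun j hj => hj0 j (by omega)) (fun j hj' => hj j (by omega))
      (fun j hj' => hp j (by omega))).rmv N w h0 (hj0 N (by omega)) (hj N (by omega)) hθ
      (hp N (by omega))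

end law

end Pool.Agent.MP2c

end

section

/-! The frozen statement from `SmallCov` and `VarLower`. (helper92, MP_2c6138_pr) -/

set_option autoImplicit false
set_option linter.deprecated false

namespace Pool.Agent.MP2c

open MeasureTheory ProbabilityTheory Finset Filter

namespace Fz

/-! ### the geometric law -/

theorem geo_integrable_iff (q : ℝ) (h0 : 0 ≤ q) (h1 : q ≤ 1) (f : ℕ → ℝ) :
    Integrable f (geo q) ↔ Summable (fun k : ℕ => (1 - q) * q ^ k * |f k|) := by
  have h : ∀ k : ℕ, 0 ≤ (1 - q) * q ^ k := fun k => mul_nonneg (by linarith) (pow_nonneg h0 k)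
  rw [geo, integrable_sum_dirac_iff (by simp)]
  simp only [ENNReal.toReal_ofReal (h _), Real.norm_eq_abs]

theorem geo_integral (q : ℝ) (h0 : 0 ≤ q) (h1 : q ≤ 1) (f : ℕ → ℝ) :
    ∫ k, f k ∂(geo q) = ∑' k : ℕ, (1 - q) * q ^ k * f k := by
  have h : ∀ k : ℕ, 0 ≤ (1 - q) * q ^ k := fun k => mul_nonneg (by linarith) (pow_nonneg h0 k)
  rw [geo, integral_sum_dirac (by simp)]
  simp only [ENNReal.toReal_ofReal (h _), smul_eq_mul]

theorem geo_sq_summable (q : ℝ) (h0 : 0 ≤ q) (h1 : q < 1) :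
    Summable (fun k : ℕ => (1 - q) * q ^ k * (k : ℝ) ^ 2) := by
  have := (summable_pow_mul_geometric_of_norm_lt_one 2
    (show ‖q‖ < 1 by rwa [Real.norm_of_nonneg h0])).mul_left (1 - q)
  refine this.congr fun k => ?_
  ring

theorem geo_sq_integrable (q : ℝ) (h0 : 0 ≤ q) (h1 : q < 1) :
    Integrable (fun k : ℕ => (k : ℝ) ^ 2) (geo q) := by
  rw [geo_integrable_iff q h0 h1.le]
  refine (geo_sq_summable q h0 h1).congr fun k => ?_
  rw [abs_of_nonneg (by positivity)]

theorem geo_memLp (q : ℝ) (h0 : 0 ≤ q) (h1 : q < 1) :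
    MemLp (fun k : ℕ => (k : ℝ)) 2 (geo q) := by
  rw [memLp_two_iff_integrable_sq (Measurable.of_discrete).aestronglyMeasurable]
  exact geo_sq_integrable q h0 h1

theorem geo_tail_summable (q : ℝ) (h0 : 0 ≤ q) (h1 : q < 1) (M : ℕ) :
    Summable (fun k : ℕ => (1 - q) * q ^ k * ((k - M : ℕ) : ℝ) ^ 2) := by
  refine Summable.of_nonneg_of_le (fun k => ?_) (fun k => ?_) (geo_sq_summable q h0 h1)
  · exact mul_nonneg (mul_nonneg (by linarith) (pow_nonneg h0 k)) (by positivity)
  · refine mul_le_mul_of_nonneg_left ?_ (mul_nonneg (by linarith) (pow_nonneg h0 k))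
    have : ((k - M : ℕ) : ℝ) ≤ (k : ℝ) := by exact_mod_cast Nat.sub_le k M
    exact pow_le_pow_left₀ (by positivity) this 2

theorem geo_tail (q : ℝ) (h0 : 0 ≤ q) (h1 : q < 1) (M : ℕ) :
    ∫ k, ((k - M : ℕ) : ℝ) ^ 2 ∂(geo q) = q ^ M * ∫ k, (k : ℝ) ^ 2 ∂(geo q) := by
  rw [geo_integral q h0 h1.le, geo_integral q h0 h1.le]
  rw [← (geo_tail_summable q h0 h1 M).sum_add_tsum_nat_add M]
  have h2 : ∑ i ∈ range M, (1 - q) * q ^ i * ((i - M : ℕ) : ℝ) ^ 2 = 0 := by
    refine Finset.sum_eq_zero fun i hi => ?_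
    have : i - M = 0 := Nat.sub_eq_zero_of_le (Finset.mem_range.1 hi).le
    simp [this]
  rw [h2, zero_add, ← tsum_mul_left]
  refine tsum_congr fun k => ?_
  have : k + M - M = k := by omega
  rw [this]
  ring

theorem pmf_eq (p : ℝ) (hp : 0 < p) (hp1 : p < 1) :
    (geometricPMF hp hp1.le).toMeasure = geo (1 - p) := by
  refine Measure.ext_of_singleton fun k => ?_
  rw [PMF.toMeasure_apply_singleton _ _ (MeasurableSet.of_discrete), geo_singleton]
  show ENNReal.ofReal (geometricPMFReal p k) = _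
  congr 1
  simp only [geometricPMFReal]
  ring

/-! ### covariance perturbation -/

section Cov
variable {Ω : Type} [MeasurableSpace Ω] (P : Measure Ω) [IsProbabilityMeasure P]

theorem cov_abs_le (X Y : Ω → ℝ) (hX : MemLp X 2 P) (hY : MemLp Y 2 P) (a : ℝ) (ha : 0 < a) :
    |covariance X Y P| ≤ (a * ∫ ω, X ω ^ 2 ∂P + (∫ ω, Y ω ^ 2 ∂P) / a) / 2 := by
  have vX : variance X P ≤ ∫ ω, X ω ^ 2 ∂P := variance_le_expectation_sq hX.aestronglyMeasurable
  have vY : variance Y P ≤ ∫ ω, Y ω ^ 2 ∂P := variance_le_expectation_sq hY.aestronglyMeasurable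
  have haX : MemLp (a • X) 2 P := hX.const_smul a
  have h1 := variance_nonneg (a • X + Y) P
  have h2 := variance_nonneg (a • X - Y) P
  rw [variance_add haX hY, covariance_smul_left, variance_smul] at h1
  rw [variance_sub haX hY, covariance_smul_left, variance_smul] at h2
  have e : (a * ∫ ω, X ω ^ 2 ∂P + (∫ ω, Y ω ^ 2 ∂P) / a) / 2 =
      (a ^ 2 * ∫ ω, X ω ^ 2 ∂P + ∫ ω, Y ω ^ 2 ∂P) / (2 * a) := by
    field_simp
  have h3 : a ^ 2 * variance X P ≤ a ^ 2 * ∫ ω, X ω ^ 2 ∂P :=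
    mul_le_mul_of_nonneg_left vX (sq_nonneg a)
  rw [e, le_div_iff₀ (by positivity)]
  rcases abs_cases (covariance X Y P) with ⟨h, _⟩ | ⟨h, _⟩
  · rw [h]; nlinarith
  · rw [h]; nlinarith

theorem cov_perturb (X1 X2 Y1 Y2 : Ω → ℝ) (hX1 : MemLp X1 2 P) (hX2 : MemLp X2 2 P)
    (hY1 : MemLp Y1 2 P) (hY2 : MemLp Y2 2 P) (η B a : ℝ) (ha : 0 < a)
    (h1 : ∫ ω, (X1 ω - Y1 ω) ^ 2 ∂P ≤ η) (h2 : ∫ ω, (X2 ω - Y2 ω) ^ 2 ∂P ≤ η)
    (hB1 : ∫ ω, X2 ω ^ 2 ∂P ≤ B) (hB2 : ∫ ω, Y1 ω ^ 2 ∂P ≤ B) :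
    |covariance X1 X2 P - covariance Y1 Y2 P| ≤ a * η + B / a := by
  have e : covariance X1 X2 P - covariance Y1 Y2 P =
      covariance (X1 - Y1) X2 P + covariance (X2 - Y2) Y1 P := by
    rw [covariance_sub_left hX1 hY1 hX2, covariance_sub_left hX2 hY2 hY1,
      covariance_comm X2 Y1, covariance_comm Y2 Y1, covariance_comm Y1 X2]
    ring
  rw [e]
  refine (abs_add_le _ _).trans ?_
  have i1 := cov_abs_le P (X1 - Y1) X2 (hX1.sub hY1) hX2 a ha
  have i2 := cov_abs_le P (X2 - Y2) Y1 (hX2.sub hY2) hY1 a ha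
  simp only [Pi.sub_apply] at i1 i2
  have j1 : a * ∫ ω, (X1 ω - Y1 ω) ^ 2 ∂P ≤ a * η := mul_le_mul_of_nonneg_left h1 ha.le
  have j2 : a * ∫ ω, (X2 ω - Y2 ω) ^ 2 ∂P ≤ a * η := mul_le_mul_of_nonneg_left h2 ha.le
  have j3 : (∫ ω, X2 ω ^ 2 ∂P) / a ≤ B / a := div_le_div_of_nonneg_right hB1 ha.le
  have j4 : (∫ ω, Y1 ω ^ 2 ∂P) / a ≤ B / a := div_le_div_of_nonneg_right hB2 ha.le
  linarith

end Cov

/-! ### passage time -/

section Box
variable {n : ℕ}

theorem Tch_le_sum (x : Fin n × Fin n → ℕ) : Tch x ≤ ∑ v, x v := by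
  classical
  unfold Tch
  refine Finset.sup_le fun S _ => ?_
  exact Finset.sum_le_sum_of_subset (Finset.subset_univ S)

theorem Tch_mono {x y : Fin n × Fin n → ℕ} (h : ∀ v, x v ≤ y v) : Tch x ≤ Tch y := by
  classical
  unfold Tch
  refine Finset.sup_le fun S hS => ?_
  exact (Finset.sum_le_sum fun v _ => h v).trans
    (Finset.le_sup (f := fun S => ∑ v ∈ S, y v) hS)

theorem Tch_trunc (x : Fin n × Fin n → ℕ) (M : ℕ) :
    Tch x ≤ Tch (fun v => min (x v) M) + ∑ v, (x v - M) := by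
  classical
  unfold Tch
  refine Finset.sup_le fun S hS => ?_
  have h1 : ∑ v ∈ S, x v = ∑ v ∈ S, min (x v) M + ∑ v ∈ S, (x v - M) := by
    rw [← Finset.sum_add_distrib]
    refine Finset.sum_congr rfl fun v _ => ?_
    omega
  rw [h1]
  exact add_le_add (Finset.le_sup (f := fun S => ∑ v ∈ S, min (x v) M) hS)
    (Finset.sum_le_sum_of_subset (Finset.subset_univ S))

variable (q : ℝ) (h0 : 0 ≤ q) (h1 : q < 1)

include h0 h1 in
theorem sum_sq_bound (g : ℕ → ℝ) (hg : Integrable (fun k => g k ^ 2) (geo q)) :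
    Integrable (fun x : Fin n × Fin n → ℕ => (∑ v, g (x v)) ^ 2)
      (Measure.pi (fun _ : Fin n × Fin n => geo q)) ∧
    ∫ x : Fin n × Fin n → ℕ, (∑ v, g (x v)) ^ 2 ∂(Measure.pi (fun _ : Fin n × Fin n => geo q)) ≤
      (n : ℝ) ^ 4 * ∫ k, g k ^ 2 ∂(geo q) := by
  have := isProbabilityMeasure_geo q h0 h1
  have hm : Measurable (fun x : Fin n × Fin n → ℕ => (∑ v, g (x v)) ^ 2) := by
    refine Measurable.pow_const (Finset.measurable_sum _ fun v _ => ?_) 2
    exact (Measurable.of_discrete (f := g)).comp (measurable_pi_apply v)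
  have hi : ∀ v : Fin n × Fin n, Integrable (fun x : Fin n × Fin n → ℕ => g (x v) ^ 2)
      (Measure.pi (fun _ : Fin n × Fin n => geo q)) := fun v =>
    (measurePreserving_eval (fun _ : Fin n × Fin n => geo q) v).integrable_comp_of_integrable hg
  have hb : ∀ x : Fin n × Fin n → ℕ, (∑ v, g (x v)) ^ 2 ≤ (n : ℝ) ^ 2 * ∑ v, g (x v) ^ 2 := by
    intro x
    have := sq_sum_le_card_mul_sum_sq (s := (univ : Finset (Fin n × Fin n))) (f := fun v => g (x v))
    simp only [Finset.card_univ, Fintype.card_prod, Fintype.card_fin, Nat.cast_mul] at this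
    rw [← pow_two] at this
    exact this
  have hs : Integrable (fun x : Fin n × Fin n → ℕ => (n : ℝ) ^ 2 * ∑ v, g (x v) ^ 2)
      (Measure.pi (fun _ : Fin n × Fin n => geo q)) :=
    (integrable_finset_sum _ fun v _ => hi v).const_mul _
  have hI : Integrable (fun x : Fin n × Fin n → ℕ => (∑ v, g (x v)) ^ 2)
      (Measure.pi (fun _ : Fin n × Fin n => geo q)) := by
    refine hs.mono' hm.aestronglyMeasurable (Eventually.of_forall fun x => ?_)
    rw [Real.norm_of_nonneg (sq_nonneg _)]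
    exact hb x
  refine ⟨hI, (integral_mono hI hs hb).trans (le_of_eq ?_)⟩
  rw [integral_const_mul, integral_finset_sum _ fun v _ => hi v]
  have : ∀ v : Fin n × Fin n, ∫ x : Fin n × Fin n → ℕ, g (x v) ^ 2
      ∂(Measure.pi (fun _ : Fin n × Fin n => geo q)) = ∫ k, g k ^ 2 ∂(geo q) := fun v =>
    integral_comp_eval (μ := fun _ : Fin n × Fin n => geo q) (f := fun k => g k ^ 2)
      (Measurable.of_discrete).aestronglyMeasurable
  simp only [this, Finset.sum_const, Finset.card_univ, Fintype.card_prod, Fintype.card_fin,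
    nsmul_eq_mul, Nat.cast_mul]
  ring

/-- second moment of the geometric law -/
noncomputable def m2 (q : ℝ) : ℝ := ∫ k, (k : ℝ) ^ 2 ∂(geo q)

theorem m2_nonneg (q : ℝ) : 0 ≤ m2 q := integral_nonneg fun _ => sq_nonneg _

include h0 h1 in
theorem Tch_sq (f : (Fin n × Fin n → ℕ) → ℝ) (hf : ∀ x, 0 ≤ f x) (hfT : ∀ x, f x ≤ (Tch x : ℝ)) :
    MemLp f 2 (Measure.pi (fun _ : Fin n × Fin n => geo q)) ∧
    ∫ x, f x ^ 2 ∂(Measure.pi (fun _ : Fin n × Fin n => geo q)) ≤ (n : ℝ) ^ 4 * m2 q := by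
  obtain ⟨hI, hle⟩ := sum_sq_bound (n := n) q h0 h1 (fun k => (k : ℝ)) (geo_sq_integrable q h0 h1)
  have hm : Measurable f := Measurable.of_discrete
  have hb : ∀ x, f x ^ 2 ≤ (∑ v, (x v : ℝ)) ^ 2 := by
    intro x
    refine pow_le_pow_left₀ (hf x) ((hfT x).trans ?_) 2
    exact_mod_cast Tch_le_sum x
  have hfI : Integrable (fun x => f x ^ 2) (Measure.pi (fun _ : Fin n × Fin n => geo q)) := by
    refine hI.mono' (hm.pow_const 2).aestronglyMeasurable (Eventually.of_forall fun x => ?_)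
    rw [Real.norm_of_nonneg (sq_nonneg _)]
    exact hb x
  refine ⟨(memLp_two_iff_integrable_sq hm.aestronglyMeasurable).2 hfI, ?_⟩
  exact (integral_mono hfI hI hb).trans hle

include h0 h1 in
theorem Tch_diff_sq (M : ℕ) :
    ∫ x : Fin n × Fin n → ℕ, ((Tch x : ℝ) - (Tch (fun v => min (x v) M) : ℝ)) ^ 2
      ∂(Measure.pi (fun _ : Fin n × Fin n => geo q)) ≤ (n : ℝ) ^ 4 * (q ^ M * m2 q) := by
  have hg : Integrable (fun k : ℕ => (((k - M : ℕ) : ℝ)) ^ 2) (geo q) := by
    rw [geo_integrable_iff q h0 h1.le]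
    refine (geo_tail_summable q h0 h1 M).congr fun k => ?_
    rw [abs_of_nonneg (by positivity)]
  obtain ⟨hI, hle⟩ := sum_sq_bound (n := n) q h0 h1 (fun k => ((k - M : ℕ) : ℝ)) hg
  rw [geo_tail q h0 h1] at hle
  have hb : ∀ x : Fin n × Fin n → ℕ, ((Tch x : ℝ) - (Tch (fun v => min (x v) M) : ℝ)) ^ 2 ≤
      (∑ v, ((x v - M : ℕ) : ℝ)) ^ 2 := by
    intro x
    have a1 : (Tch (fun v => min (x v) M) : ℝ) ≤ (Tch x : ℝ) := by
      exact_mod_cast Tch_mono fun v => min_le_left _ _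
    have a2 : (Tch x : ℝ) ≤ (Tch (fun v => min (x v) M) : ℝ) + ∑ v, ((x v - M : ℕ) : ℝ) := by
      exact_mod_cast Tch_trunc x M
    exact pow_le_pow_left₀ (by linarith) (by linarith) 2
  refine (integral_mono_of_nonneg (Eventually.of_forall fun x => sq_nonneg _) hI
    (Eventually.of_forall hb)).trans hle

end Box

/-! ### the law of the pair -/

/-- law of the pair of weights -/
noncomputable def nu (q e : ℝ) : Measure (ℕ × ℕ) :=
  (Real.toNNReal e) • Measure.map (fun a : ℕ => (a, a)) (geo q) +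
    (Real.toNNReal (1 - e)) • Measure.prod (geo q) (geo q)

section Nu
variable (q e : ℝ) (h0 : 0 ≤ q) (h1 : q < 1) (he0 : 0 ≤ e) (he1 : e ≤ 1)

include he0 he1 in
theorem coef_add : Real.toNNReal e + Real.toNNReal (1 - e) = 1 := by
  rw [← Real.toNNReal_add he0 (by linarith)]
  simp

include h0 h1 he0 he1 in
theorem nu_fst : MeasurePreserving Prod.fst (nu q e) (geo q) := by
  have := isProbabilityMeasure_geo q h0 h1
  refine ⟨measurable_fst, ?_⟩
  unfold nu
  rw [Measure.map_add _ _ measurable_fst, Measure.map_smul, Measure.map_smul,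
    Measure.map_map measurable_fst (Measurable.of_discrete), Measure.map_fst_prod,
    measure_univ, one_smul]
  have : (Prod.fst ∘ fun a : ℕ => (a, a)) = id := rfl
  rw [this, Measure.map_id, ← add_smul, coef_add e he0 he1, one_smul]

include h0 h1 he0 he1 in
theorem nu_snd : MeasurePreserving Prod.snd (nu q e) (geo q) := by
  have := isProbabilityMeasure_geo q h0 h1
  refine ⟨measurable_snd, ?_⟩
  unfold nu
  rw [Measure.map_add _ _ measurable_snd, Measure.map_smul, Measure.map_smul,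
    Measure.map_map measurable_snd (Measurable.of_discrete), Measure.map_snd_prod,
    measure_univ, one_smul]
  have : (Prod.snd ∘ fun a : ℕ => (a, a)) = id := rfl
  rw [this, Measure.map_id, ← add_smul, coef_add e he0 he1, one_smul]

include h0 h1 he0 he1 in
theorem nu_prob : IsProbabilityMeasure (nu q e) := by
  have := isProbabilityMeasure_geo q h0 h1
  have h := nu_fst q e h0 h1 he0 he1
  refine ⟨?_⟩
  have := h.measure_preimage (s := Set.univ) MeasurableSet.univ.nullMeasurableSet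
  simpa using this

/-- truncation -/
def tr (M : ℕ) (k : ℕ) : Fin (M + 1) := ⟨min k M, by omega⟩

include h0 h1 in
theorem geo_tr (M : ℕ) (a : Fin (M + 1)) : (geo q).real (tr M ⁻¹' {a}) = tg q M a := by
  have hp := isProbabilityMeasure_geo q h0 h1
  have hs : ∀ k : ℕ, (geo q).real {k} = (1 - q) * q ^ k := fun k => by
    rw [Measure.real, geo_singleton, ENNReal.toReal_ofReal]
    exact mul_nonneg (by linarith) (pow_nonneg h0 k)
  unfold tg
  split_ifs with h
  · have : tr M ⁻¹' {a} = {(a : ℕ)} := by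
      ext k
      simp only [Set.mem_preimage, Set.mem_singleton_iff, tr, Fin.ext_iff]
      omega
    rw [this, hs]
  · have ha : (a : ℕ) = M := by have := a.2; omega
    have : tr M ⁻¹' {a} = ((Finset.range M : Finset ℕ) : Set ℕ)ᶜ := by
      ext k
      simp only [Set.mem_preimage, Set.mem_singleton_iff, tr, Fin.ext_iff, Finset.coe_range,
        Set.mem_compl_iff, Set.mem_Iio]
      omega
    rw [this, probReal_compl_eq_one_sub (MeasurableSet.of_discrete),
      ← sum_measureReal_singleton]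
    simp only [hs]
    rw [← Finset.mul_sum, geom_sum_eq h1.ne]
    have : q - 1 ≠ 0 := by linarith
    field_simp
    ring

include h0 h1 he0 he1 in
theorem nu_tr (M : ℕ) (z : Fin (M + 1) × Fin (M + 1)) :
    ((nu q e).map (Prod.map (tr M) (tr M))).real {z} =
      tg q M z.1 * KK (tg q M) e z.1 z.2 := by
  have hp := isProbabilityMeasure_geo q h0 h1
  have hm : Measurable (Prod.map (tr M) (tr M)) := Measurable.of_discrete
  rw [map_measureReal_apply hm (MeasurableSet.of_discrete)]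
  have hpre : Prod.map (tr M) (tr M) ⁻¹' {z} = (tr M ⁻¹' {z.1}) ×ˢ (tr M ⁻¹' {z.2}) := by
    ext ⟨a, b⟩
    simp [Prod.ext_iff]
  rw [hpre]
  unfold nu
  rw [measureReal_add_apply, measureReal_nnreal_smul_apply, measureReal_nnreal_smul_apply,
    measureReal_prod_prod,
    map_measureReal_apply (Measurable.of_discrete) (MeasurableSet.of_discrete)]
  rw [geo_tr q h0 h1, geo_tr q h0 h1]
  have h2 : (geo q).real ((fun a : ℕ => (a, a)) ⁻¹' ((tr M ⁻¹' {z.1}) ×ˢ (tr M ⁻¹' {z.2}))) =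
      if z.1 = z.2 then tg q M z.1 else 0 := by
    split_ifs with h
    · rw [← geo_tr q h0 h1, ← h]
      congr 1
      ext k
      simp
    · have : (fun a : ℕ => (a, a)) ⁻¹' ((tr M ⁻¹' {z.1}) ×ˢ (tr M ⁻¹' {z.2})) = ∅ := by
        ext k
        simp only [Set.mem_preimage, Set.mem_prod, Set.mem_singleton_iff, Set.mem_empty_iff_false,
          iff_false, not_and]
        intro ha hb
        exact h (ha.symm.trans hb)
      rw [this]
      simp
  rw [h2, Real.coe_toNNReal e he0, Real.coe_toNNReal (1 - e) (by linarith)]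
  unfold KK
  split_ifs <;> ring

end Nu

section Push
variable {n : ℕ} (q e : ℝ) (h0 : 0 ≤ q) (h1 : q < 1) (he0 : 0 ≤ e) (he1 : e ≤ 1)

include h0 h1 he0 he1 in
theorem integral_tr (M : ℕ)
    (G : (Fin n × Fin n → Fin (M + 1)) → (Fin n × Fin n → Fin (M + 1)) → ℝ) :
    ∫ ω : Fin n × Fin n → ℕ × ℕ, G (fun v => tr M (ω v).1) (fun v => tr M (ω v).2)
      ∂(Measure.pi (fun _ : Fin n × Fin n => nu q e)) =
    ∑ x : Fin n × Fin n → Fin (M + 1), ∑ y : Fin n × Fin n → Fin (M + 1),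
      (∏ v, (tg q M (x v) * KK (tg q M) e (x v) (y v))) * G x y := by
  have hp := nu_prob q e h0 h1 he0 he1
  have hm : Measurable (Prod.map (tr M) (tr M)) := Measurable.of_discrete
  have hp' : IsProbabilityMeasure ((nu q e).map (Prod.map (tr M) (tr M))) :=
    Measure.isProbabilityMeasure_map hm.aemeasurable
  have hmp : MeasurePreserving
      (fun (ω : Fin n × Fin n → ℕ × ℕ) (v : Fin n × Fin n) => Prod.map (tr M) (tr M) (ω v))
      (Measure.pi (fun _ : Fin n × Fin n => nu q e))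
      (Measure.pi (fun _ : Fin n × Fin n => (nu q e).map (Prod.map (tr M) (tr M)))) :=
    measurePreserving_pi _ _ (f := fun _ => Prod.map (tr M) (tr M)) (fun _ => ⟨hm, rfl⟩)
  set H : (Fin n × Fin n → Fin (M + 1) × Fin (M + 1)) → ℝ :=
    fun z => G (fun v => (z v).1) (fun v => (z v).2) with hH
  have e1 : ∫ ω : Fin n × Fin n → ℕ × ℕ, G (fun v => tr M (ω v).1) (fun v => tr M (ω v).2)
      ∂(Measure.pi (fun _ : Fin n × Fin n => nu q e)) =
      ∫ z, H z ∂(Measure.pi (fun _ : Fin n × Fin n => (nu q e).map (Prod.map (tr M) (tr M)))) := by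
    rw [← hmp.map_eq, integral_map hmp.measurable.aemeasurable
      (Measurable.of_discrete).aestronglyMeasurable]
    rfl
  rw [e1, integral_fintype (Integrable.of_finite)]
  have e2 : ∀ z : Fin n × Fin n → Fin (M + 1) × Fin (M + 1),
      (Measure.pi (fun _ : Fin n × Fin n => (nu q e).map (Prod.map (tr M) (tr M)))).real {z} =
      ∏ v, (tg q M (z v).1 * KK (tg q M) e (z v).1 (z v).2) := by
    intro z
    rw [Measure.real, Measure.pi_singleton, ENNReal.toReal_prod]
    exact Finset.prod_congr rfl fun v _ => nu_tr q e h0 h1 he0 he1 M (z v)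
  simp only [e2, smul_eq_mul]
  rw [← Fintype.sum_prod_type' (f := fun x y =>
    (∏ v, (tg q M (x v) * KK (tg q M) e (x v) (y v))) * G x y)]
  exact Fintype.sum_equiv (Equiv.arrowProdEquivProdArrow _ _ _) _ _ (fun z => rfl)

end Push

section Cov2
variable {n : ℕ} (q e : ℝ) (h0 : 0 ≤ q) (h1 : q < 1) (he0 : 0 ≤ e) (he1 : e ≤ 1)

include h0 h1 in
theorem integral_tr1 (M : ℕ) (g : (Fin n × Fin n → Fin (M + 1)) → ℝ) :
    ∫ x : Fin n × Fin n → ℕ, g (fun v => tr M (x v))
      ∂(Measure.pi (fun _ : Fin n × Fin n => geo q)) = EE (tg q M) g := by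
  have hp := isProbabilityMeasure_geo q h0 h1
  have hm : Measurable (tr M) := Measurable.of_discrete
  have hp' : IsProbabilityMeasure ((geo q).map (tr M)) :=
    Measure.isProbabilityMeasure_map hm.aemeasurable
  have hmp : MeasurePreserving
      (fun (x : Fin n × Fin n → ℕ) (v : Fin n × Fin n) => tr M (x v))
      (Measure.pi (fun _ : Fin n × Fin n => geo q))
      (Measure.pi (fun _ : Fin n × Fin n => (geo q).map (tr M))) :=
    measurePreserving_pi _ _ (f := fun _ => tr M) (fun _ => ⟨hm, rfl⟩)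
  have e1 : ∫ x : Fin n × Fin n → ℕ, g (fun v => tr M (x v))
      ∂(Measure.pi (fun _ : Fin n × Fin n => geo q)) =
      ∫ z, g z ∂(Measure.pi (fun _ : Fin n × Fin n => (geo q).map (tr M))) := by
    rw [← hmp.map_eq, integral_map hmp.measurable.aemeasurable
      (Measurable.of_discrete).aestronglyMeasurable]
  rw [e1, integral_fintype (Integrable.of_finite)]
  unfold EE
  refine Finset.sum_congr rfl fun z _ => ?_
  rw [Measure.real, Measure.pi_singleton, ENNReal.toReal_prod, smul_eq_mul]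
  congr 1
  refine Finset.prod_congr rfl fun v _ => ?_
  rw [← Measure.real, map_measureReal_apply hm (MeasurableSet.of_discrete), geo_tr q h0 h1]

include h0 h1 he0 he1 in
theorem mp1 : MeasurePreserving (fun (ω : Fin n × Fin n → ℕ × ℕ) (v : Fin n × Fin n) => (ω v).1)
    (Measure.pi (fun _ : Fin n × Fin n => nu q e))
    (Measure.pi (fun _ : Fin n × Fin n => geo q)) := by
  have hp := isProbabilityMeasure_geo q h0 h1
  exact measurePreserving_pi _ _ (f := fun _ => Prod.fst) (fun _ => nu_fst q e h0 h1 he0 he1)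

include h0 h1 he0 he1 in
theorem mp2 : MeasurePreserving (fun (ω : Fin n × Fin n → ℕ × ℕ) (v : Fin n × Fin n) => (ω v).2)
    (Measure.pi (fun _ : Fin n × Fin n => nu q e))
    (Measure.pi (fun _ : Fin n × Fin n => geo q)) := by
  have hp := isProbabilityMeasure_geo q h0 h1
  exact measurePreserving_pi _ _ (f := fun _ => Prod.snd) (fun _ => nu_snd q e h0 h1 he0 he1)

/-- covariance functional of the truncated passage time at noise level `r` -/
noncomputable def phi (q : ℝ) (n M : ℕ) (r : ℝ) : ℝ :=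
  EE (tg q M) (fun x => TM n M x * TT (tg q M) r (TM n M) x) - (EE (tg q M) (TM n M)) ^ 2

include h0 h1 in
theorem TM_memLp (M : ℕ) : MemLp (fun x : Fin n × Fin n → ℕ => TM n M (fun v => tr M (x v))) 2
      (Measure.pi (fun _ : Fin n × Fin n => geo q)) ∧
    ∫ x : Fin n × Fin n → ℕ, TM n M (fun v => tr M (x v)) ^ 2
      ∂(Measure.pi (fun _ : Fin n × Fin n => geo q)) ≤ (n : ℝ) ^ 4 * m2 q := by
  refine Tch_sq q h0 h1 _ (fun x => ?_) (fun x => ?_)
  · exact Nat.cast_nonneg _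
  · have : Tch (fun v => ((tr M (x v) : Fin (M + 1)) : ℕ)) ≤ Tch x :=
      Tch_mono fun v => min_le_left _ _
    exact Nat.cast_le.2 this

include h0 h1 he0 he1 in
theorem cov_TM (M : ℕ) :
    covariance (fun ω : Fin n × Fin n → ℕ × ℕ => TM n M (fun v => tr M (ω v).1))
      (fun ω => TM n M (fun v => tr M (ω v).2))
      (Measure.pi (fun _ : Fin n × Fin n => nu q e)) = phi q n M e := by
  have hp := nu_prob q e h0 h1 he0 he1
  have hg := isProbabilityMeasure_geo q h0 h1
  have m1 := mp1 (n := n) q e h0 h1 he0 he1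
  have m2' := mp2 (n := n) q e h0 h1 he0 he1
  have hL := (TM_memLp (n := n) q h0 h1 M).1
  have hL1 := hL.comp_measurePreserving m1
  have hL2 := hL.comp_measurePreserving m2'
  have hcov := covariance_eq_sub (μ := Measure.pi (fun _ : Fin n × Fin n => nu q e)) hL1 hL2
  have i1 : ∫ ω : Fin n × Fin n → ℕ × ℕ, TM n M (fun v => tr M (ω v).1)
      ∂(Measure.pi (fun _ : Fin n × Fin n => nu q e)) = EE (tg q M) (TM n M) := by
    rw [← integral_tr1 (n := n) q h0 h1 M, ← m1.map_eq,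
      integral_map m1.measurable.aemeasurable (Measurable.of_discrete).aestronglyMeasurable]
  have i2 : ∫ ω : Fin n × Fin n → ℕ × ℕ, TM n M (fun v => tr M (ω v).2)
      ∂(Measure.pi (fun _ : Fin n × Fin n => nu q e)) = EE (tg q M) (TM n M) := by
    rw [← integral_tr1 (n := n) q h0 h1 M, ← m2'.map_eq,
      integral_map m2'.measurable.aemeasurable (Measurable.of_discrete).aestronglyMeasurable]
  have i3 : ∫ ω : Fin n × Fin n → ℕ × ℕ, TM n M (fun v => tr M (ω v).1) *
      TM n M (fun v => tr M (ω v).2) ∂(Measure.pi (fun _ : Fin n × Fin n => nu q e)) =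
      EE (tg q M) (fun x => TM n M x * TT (tg q M) e (TM n M) x) := by
    rw [integral_tr q e h0 h1 he0 he1 M (fun x y => TM n M x * TM n M y)]
    unfold EE TT
    refine Finset.sum_congr rfl fun x _ => ?_
    beta_reduce
    rw [Finset.mul_sum, Finset.mul_sum]
    refine Finset.sum_congr rfl fun y _ => ?_
    rw [Finset.prod_mul_distrib]
    ring
  refine Eq.trans hcov ?_
  unfold phi
  rw [← i3]
  have j1 : (∫ ω : Fin n × Fin n → ℕ × ℕ, ((fun x : Fin n × Fin n → ℕ =>
      TM n M (fun v => tr M (x v))) ∘ fun ω v => (ω v).1) ω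
      ∂(Measure.pi (fun _ : Fin n × Fin n => nu q e))) = EE (tg q M) (TM n M) := i1
  have j2 : (∫ ω : Fin n × Fin n → ℕ × ℕ, ((fun x : Fin n × Fin n → ℕ =>
      TM n M (fun v => tr M (x v))) ∘ fun ω v => (ω v).2) ω
      ∂(Measure.pi (fun _ : Fin n × Fin n => nu q e))) = EE (tg q M) (TM n M) := i2
  rw [j1, j2, pow_two]
  rfl

include h0 h1 in
theorem tg_sum (M : ℕ) : ∑ a, tg q M a = 1 := by
  have hg := isProbabilityMeasure_geo q h0 h1
  have := integral_tr1 (n := 1) q h0 h1 M (fun _ => 1)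
  simp only [integral_const, probReal_univ, smul_eq_mul, mul_one, EE] at this
  have h2 := Finset.prod_univ_sum (fun _ : Fin 1 × Fin 1 => (univ : Finset (Fin (M + 1))))
    (fun _ a => tg q M a)
  rw [Fintype.piFinset_univ, ← this] at h2
  simpa using h2

include h0 h1 in
theorem tg_nonneg (M : ℕ) (a : Fin (M + 1)) : 0 ≤ tg q M a := by
  unfold tg
  split_ifs
  · exact mul_nonneg (by linarith) (pow_nonneg h0 _)
  · exact pow_nonneg h0 _

include h0 h1 in
theorem var_TM (M : ℕ) :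
    covariance (fun x : Fin n × Fin n → ℕ => TM n M (fun v => tr M (x v)))
      (fun x : Fin n × Fin n → ℕ => TM n M (fun v => tr M (x v)))
      (Measure.pi (fun _ : Fin n × Fin n => geo q)) = phi q n M 1 := by
  have hg := isProbabilityMeasure_geo q h0 h1
  have hL := (TM_memLp (n := n) q h0 h1 M).1
  rw [covariance_eq_sub hL hL]
  unfold phi
  rw [noise_one _ (tg_nonneg q h0 h1 M) (tg_sum q h0 h1 M), ← integral_tr1 (n := n) q h0 h1 M,
    ← integral_tr1 (n := n) q h0 h1 M, pow_two]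
  rfl

end Cov2

section Close
variable {n : ℕ} (q e : ℝ) (h0 : 0 ≤ q) (h1 : q < 1) (he0 : 0 ≤ e) (he1 : e ≤ 1)

include h0 h1 he0 he1 in
theorem int1 (f : (Fin n × Fin n → ℕ) → ℝ) :
    ∫ ω : Fin n × Fin n → ℕ × ℕ, f (fun v => (ω v).1)
      ∂(Measure.pi (fun _ : Fin n × Fin n => nu q e)) =
    ∫ x, f x ∂(Measure.pi (fun _ : Fin n × Fin n => geo q)) := by
  have m := mp1 (n := n) q e h0 h1 he0 he1
  rw [← m.map_eq, integral_map m.measurable.aemeasurable
    (Measurable.of_discrete).aestronglyMeasurable]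

include h0 h1 he0 he1 in
theorem int2 (f : (Fin n × Fin n → ℕ) → ℝ) :
    ∫ ω : Fin n × Fin n → ℕ × ℕ, f (fun v => (ω v).2)
      ∂(Measure.pi (fun _ : Fin n × Fin n => nu q e)) =
    ∫ x, f x ∂(Measure.pi (fun _ : Fin n × Fin n => geo q)) := by
  have m := mp2 (n := n) q e h0 h1 he0 he1
  rw [← m.map_eq, integral_map m.measurable.aemeasurable
    (Measurable.of_discrete).aestronglyMeasurable]

theorem err_bound (hn : 1 ≤ n) (M : ℕ) (hM : q ^ M ≤ ((n : ℝ) ^ 20)⁻¹) :
    (n : ℝ) ^ 10 * ((n : ℝ) ^ 4 * (q ^ M * m2 q)) + ((n : ℝ) ^ 4 * m2 q) / (n : ℝ) ^ 10 ≤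
      2 * m2 q / n := by
  have hn' : (1 : ℝ) ≤ n := by exact_mod_cast hn
  have hn0 : (0 : ℝ) < n := by linarith
  have hm := m2_nonneg q
  have a1 : (n : ℝ) ^ 10 * ((n : ℝ) ^ 4 * (q ^ M * m2 q)) ≤ m2 q / n := by
    have : (n : ℝ) ^ 10 * ((n : ℝ) ^ 4 * (q ^ M * m2 q)) ≤
        (n : ℝ) ^ 10 * ((n : ℝ) ^ 4 * (((n : ℝ) ^ 20)⁻¹ * m2 q)) := by
      gcongr
    refine this.trans ?_
    have e2 : (n : ℝ) ^ 10 * ((n : ℝ) ^ 4 * (((n : ℝ) ^ 20)⁻¹ * m2 q)) = m2 q / (n : ℝ) ^ 6 := by
      field_simp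
    rw [e2]
    exact div_le_div_of_nonneg_left hm hn0 (le_self_pow₀ hn' (by norm_num))
  have a2 : ((n : ℝ) ^ 4 * m2 q) / (n : ℝ) ^ 10 ≤ m2 q / n := by
    have e2 : ((n : ℝ) ^ 4 * m2 q) / (n : ℝ) ^ 10 = m2 q / (n : ℝ) ^ 6 := by
      field_simp
    rw [e2]
    exact div_le_div_of_nonneg_left hm hn0 (le_self_pow₀ hn' (by norm_num))
  calc _ ≤ m2 q / n + m2 q / n := add_le_add a1 a2
    _ = _ := by ring

theorem T_memLp (h0 : 0 ≤ q) (h1 : q < 1) :
    MemLp (fun x : Fin n × Fin n → ℕ => (Tch x : ℝ)) 2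
      (Measure.pi (fun _ : Fin n × Fin n => geo q)) ∧
    ∫ x : Fin n × Fin n → ℕ, (Tch x : ℝ) ^ 2
      ∂(Measure.pi (fun _ : Fin n × Fin n => geo q)) ≤ (n : ℝ) ^ 4 * m2 q :=
  Tch_sq q h0 h1 _ (fun x => Nat.cast_nonneg _) (fun x => le_rfl)

include h0 h1 he0 he1 in
theorem cov_close (hn : 1 ≤ n) (M : ℕ) (hM : q ^ M ≤ ((n : ℝ) ^ 20)⁻¹) :
    |covariance (fun ω : Fin n × Fin n → ℕ × ℕ => (Tch (fun v => (ω v).1) : ℝ))
      (fun ω => (Tch (fun v => (ω v).2) : ℝ))
      (Measure.pi (fun _ : Fin n × Fin n => nu q e)) - phi q n M e| ≤ 2 * m2 q / n := by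
  have hp := nu_prob q e h0 h1 he0 he1
  have m1 := mp1 (n := n) q e h0 h1 he0 he1
  have m2' := mp2 (n := n) q e h0 h1 he0 he1
  have hL := (TM_memLp (n := n) q h0 h1 M).1
  have hT := (T_memLp (n := n) q h0 h1).1
  have hn' : (1 : ℝ) ≤ n := by exact_mod_cast hn
  rw [← cov_TM (n := n) q e h0 h1 he0 he1 M]
  refine (cov_perturb (Measure.pi (fun _ : Fin n × Fin n => nu q e)) _ _ _ _
    (hT.comp_measurePreserving m1) (hT.comp_measurePreserving m2')
    (hL.comp_measurePreserving m1) (hL.comp_measurePreserving m2')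
    ((n : ℝ) ^ 4 * (q ^ M * m2 q)) ((n : ℝ) ^ 4 * m2 q) ((n : ℝ) ^ 10) (by positivity)
    ?_ ?_ ?_ ?_).trans (err_bound q hn M hM)
  · refine le_trans (le_of_eq (int1 q e h0 h1 he0 he1 (fun x : Fin n × Fin n → ℕ =>
      ((Tch x : ℝ) - TM n M (fun v => tr M (x v))) ^ 2))) ?_
    exact Tch_diff_sq q h0 h1 M
  · refine le_trans (le_of_eq (int2 q e h0 h1 he0 he1 (fun x : Fin n × Fin n → ℕ =>
      ((Tch x : ℝ) - TM n M (fun v => tr M (x v))) ^ 2))) ?_
    exact Tch_diff_sq q h0 h1 M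
  · refine le_trans (le_of_eq (int2 q e h0 h1 he0 he1 (fun x : Fin n × Fin n → ℕ =>
      ((Tch x : ℝ)) ^ 2))) ?_
    exact (T_memLp q h0 h1).2
  · refine le_trans (le_of_eq (int1 q e h0 h1 he0 he1 (fun x : Fin n × Fin n → ℕ =>
      (TM n M (fun v => tr M (x v))) ^ 2))) ?_
    exact (TM_memLp q h0 h1 M).2

include h0 h1 in
theorem var_close (hn : 1 ≤ n) (M : ℕ) (hM : q ^ M ≤ ((n : ℝ) ^ 20)⁻¹) :
    |variance (fun x : Fin n × Fin n → ℕ => (Tch x : ℝ))
      (Measure.pi (fun _ : Fin n × Fin n => geo q)) - phi q n M 1| ≤ 2 * m2 q / n := by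
  have hp := isProbabilityMeasure_geo q h0 h1
  have hL := TM_memLp (n := n) q h0 h1 M
  have hT := T_memLp (n := n) q h0 h1
  have hn' : (1 : ℝ) ≤ n := by exact_mod_cast hn
  rw [← var_TM (n := n) q h0 h1 M, ← covariance_self hT.1.aemeasurable]
  exact (cov_perturb (Measure.pi (fun _ : Fin n × Fin n => geo q)) _ _ _ _
    hT.1 hT.1 hL.1 hL.1
    ((n : ℝ) ^ 4 * (q ^ M * m2 q)) ((n : ℝ) ^ 4 * m2 q) ((n : ℝ) ^ 10) (by positivity)
    (Tch_diff_sq q h0 h1 M) (Tch_diff_sq q h0 h1 M) hT.2 hL.2).trans (err_bound q hn M hM)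

end Close

/-! ### asymptotics -/

theorem tendsto_of_pow (u w : ℕ → ℝ) (s : ℕ) (hu : ∀ᶠ n in atTop, 0 ≤ u n)
    (h : ∀ᶠ n in atTop, u n ^ s ≤ w n) (hw : Tendsto w atTop (nhds 0)) :
    Tendsto u atTop (nhds 0) := by
  rw [Metric.tendsto_atTop'] at *
  intro ε hε
  obtain ⟨N1, hN1⟩ := eventually_atTop.1 hu
  obtain ⟨N2, hN2⟩ := eventually_atTop.1 h
  obtain ⟨N3, hN3⟩ := hw (ε ^ s) (by positivity)
  refine ⟨max N1 (max N2 N3), fun n hn => ?_⟩
  have hn1 : N1 < n := lt_of_le_of_lt (le_max_left _ _) hn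
  have hn2 : N2 < n := lt_of_le_of_lt ((le_max_left _ _).trans (le_max_right _ _)) hn
  have hn3 : N3 < n := lt_of_le_of_lt ((le_max_right _ _).trans (le_max_right _ _)) hn
  have h1 := hN1 n hn1.le
  have h2 := hN2 n hn2.le
  have h3 := hN3 n hn3
  rw [Real.dist_eq, sub_zero] at h3 ⊢
  rw [abs_of_nonneg h1]
  have h4 : u n ^ s < ε ^ s := lt_of_le_of_lt (h2.trans (le_abs_self _)) h3
  exact lt_of_pow_lt_pow_left₀ s hε.le h4

theorem trunc_choice (q : ℝ) (h0 : 0 < q) (h1 : q < 1) :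
    ∃ (M : ℕ → ℕ) (K : ℕ), (∀ n : ℕ, 1 ≤ n → q ^ (M n) ≤ ((n : ℝ) ^ 20)⁻¹) ∧
      ∀ n : ℕ, 3 ≤ n → (M n : ℝ) ≤ K * Real.log n := by
  have hl : Real.log q < 0 := Real.log_neg h0 h1
  set K0 : ℝ := 20 / (-Real.log q) with hK0
  have hK0p : 0 < K0 := div_pos (by norm_num) (by linarith)
  refine ⟨fun n => ⌈K0 * Real.log n⌉₊, ⌈K0⌉₊ + 1, ?_, ?_⟩
  · intro n hn
    have hn' : (1 : ℝ) ≤ n := by exact_mod_cast hn
    have hn0 : (0 : ℝ) < n := by linarith
    have h2 : K0 * Real.log n ≤ (⌈K0 * Real.log n⌉₊ : ℝ) := Nat.le_ceil _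
    rw [← Real.exp_log (show (0 : ℝ) < ((n : ℝ) ^ 20)⁻¹ by positivity),
      ← Real.exp_log (show (0 : ℝ) < q ^ ⌈K0 * Real.log n⌉₊ by positivity)]
    refine Real.exp_le_exp.2 ?_
    rw [Real.log_pow, Real.log_inv, Real.log_pow]
    have h3 : (⌈K0 * Real.log n⌉₊ : ℝ) * Real.log q ≤ K0 * Real.log n * Real.log q :=
      mul_le_mul_of_nonpos_right h2 hl.le
    have h4 : K0 * Real.log n * Real.log q = -(20 * Real.log n) := by
      have hne : Real.log q ≠ 0 := hl.ne
      rw [hK0, div_neg]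
      field_simp
    push_cast
    linarith
  · intro n hn
    have hn' : (3 : ℝ) ≤ n := by exact_mod_cast hn
    have hlog : 1 ≤ Real.log n := by
      rw [Real.le_log_iff_exp_le (by linarith)]
      exact (Real.exp_one_lt_d9.le.trans (by norm_num)).trans hn'
    have h2 : (⌈K0 * Real.log n⌉₊ : ℝ) < K0 * Real.log n + 1 :=
      Nat.ceil_lt_add_one (by positivity)
    have h3 : K0 ≤ (⌈K0⌉₊ : ℝ) := Nat.le_ceil _
    have h4 : K0 * Real.log n ≤ (⌈K0⌉₊ : ℝ) * Real.log n :=
      mul_le_mul_of_nonneg_right h3 (by linarith)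
    push_cast
    linarith

theorem corr_tendsto (q e : ℝ) (h0 : 0 < q) (h1 : q < 1) (he0 : 0 ≤ e) (he1 : e < 1)
    (hs : SmallCov q) (hv : VarLower q) :
    Tendsto (fun n : ℕ =>
      covariance (fun ω : Fin n × Fin n → ℕ × ℕ => (Tch (fun v => (ω v).1) : ℝ))
        (fun ω => (Tch (fun v => (ω v).2) : ℝ)) (Measure.pi (fun _ : Fin n × Fin n => nu q e)) /
      Real.sqrt (variance (fun ω : Fin n × Fin n → ℕ × ℕ => (Tch (fun v => (ω v).1) : ℝ))
        (Measure.pi (fun _ : Fin n × Fin n => nu q e)) *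
        variance (fun ω : Fin n × Fin n → ℕ × ℕ => (Tch (fun v => (ω v).2) : ℝ))
        (Measure.pi (fun _ : Fin n × Fin n => nu q e)))) atTop (nhds 0) := by
  obtain ⟨c, p, hc, hp0, hp1, H⟩ := hs
  obtain ⟨M, K, hM, hMK⟩ := trunc_choice q h0 h1
  obtain ⟨n0, hn0⟩ := H K
  obtain ⟨s0, hs0⟩ := exists_pow_lt_of_lt_one hp0 he1
  set s := s0 + 1 with hsdef
  have hes : e ^ s ≤ p := by
    rw [hsdef, pow_succ]
    have : e ^ s0 * e ≤ e ^ s0 * 1 := mul_le_mul_of_nonneg_left he1.le (pow_nonneg he0 _)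
    linarith
  have hes0 : 0 ≤ e ^ s := pow_nonneg he0 _
  set ε0 : ℝ := min (c / 2) (1 / 3) with hε0
  have hε0p : 0 < ε0 := lt_min (by linarith) (by norm_num)
  have hε1 : ε0 ≤ c / 2 := min_le_left _ _
  have hε2 : ε0 ≤ 1 / 3 := min_le_right _ _
  obtain ⟨n1, hn1⟩ := hv ε0 hε0p
  set v : ℕ → ℝ := fun n => variance (fun x : Fin n × Fin n → ℕ => (Tch x : ℝ))
    (Measure.pi (fun _ : Fin n × Fin n => geo q)) with hvdef
  have hv0 : ∀ n, 0 ≤ v n := fun n => variance_nonneg _ _
  have hden : ∀ n : ℕ, Real.sqrt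
      (variance (fun ω : Fin n × Fin n → ℕ × ℕ => (Tch (fun v => (ω v).1) : ℝ))
        (Measure.pi (fun _ : Fin n × Fin n => nu q e)) *
        variance (fun ω : Fin n × Fin n → ℕ × ℕ => (Tch (fun v => (ω v).2) : ℝ))
        (Measure.pi (fun _ : Fin n × Fin n => nu q e))) = v n := by
    intro n
    have a1 := (mp1 (n := n) q e h0.le h1 he0 he1.le).variance_fun_comp
      (f := fun x : Fin n × Fin n → ℕ => (Tch x : ℝ)) (Measurable.of_discrete).aemeasurable
    have a2 := (mp2 (n := n) q e h0.le h1 he0 he1.le).variance_fun_comp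
      (f := fun x : Fin n × Fin n → ℕ => (Tch x : ℝ)) (Measurable.of_discrete).aemeasurable
    rw [a1, a2]
    exact Real.sqrt_mul_self (hv0 n)
  simp only [hden]
  -- the functional
  have hμ0 : ∀ M : ℕ, ∀ a, 0 ≤ tg q M a := fun M => tg_nonneg q h0.le h1 M
  have hμ1 : ∀ M : ℕ, ∑ a, tg q M a = 1 := fun M => tg_sum q h0.le h1 M
  have hphi0 : ∀ n : ℕ, ∀ r : ℝ, 0 ≤ r → 0 ≤ phi q n (M n) r := fun n r hr =>
    (noise_mono (tg q (M n)) (hμ0 _) (hμ1 _) (TM n (M n)) r r hr le_rfl).1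
  have hphi_mono : ∀ n : ℕ, ∀ r r' : ℝ, 0 ≤ r → r ≤ r' →
      phi q n (M n) r ≤ phi q n (M n) r' := fun n r r' hr hrr =>
    sub_le_sub_right (noise_mono (tg q (M n)) (hμ0 _) (hμ1 _) (TM n (M n)) r r' hr hrr).2 _
  have hphi_log : ∀ n : ℕ, phi q n (M n) e ^ s ≤ phi q n (M n) 1 ^ s0 * phi q n (M n) (e ^ s) := by
    intro n
    have := noise_logconvex (tg q (M n)) (hμ0 _) (hμ1 _) (TM n (M n)) e he0 he1.le s (by omega)
    have e1 : EE (tg q (M n)) (fun x => TM n (M n) x ^ 2) - (EE (tg q (M n)) (TM n (M n))) ^ 2 =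
        phi q n (M n) 1 := by
      unfold phi
      rw [noise_one _ (hμ0 _) (hμ1 _)]
      simp only [pow_two]
    rw [e1] at this
    exact this
  -- main estimate
  have key : ∀ᶠ n : ℕ in atTop, 1 ≤ n ∧ 1 ≤ v n ∧
      (phi q n (M n) e / v n) ^ s ≤ 2 ^ s0 * (n : ℝ) ^ (-(c / 2)) := by
    filter_upwards [eventually_ge_atTop n0, eventually_ge_atTop n1, eventually_ge_atTop 3,
      eventually_ge_atTop ⌈2 * m2 q⌉₊] with n a0 a1 a3 a4
    have hn1' : (1 : ℝ) ≤ n := by exact_mod_cast (by omega : 1 ≤ n)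
    have hnpos : (0 : ℝ) < n := by linarith
    have hvn : (n : ℝ) ^ ((2 / 3 : ℝ) - ε0) ≤ v n := hn1 n a1
    have hv1 : 1 ≤ v n := by
      refine le_trans ?_ hvn
      exact Real.one_le_rpow hn1' (by linarith)
    have hcl := var_close (n := n) q h0.le h1 (by omega) (M n) (hM n (by omega))
    have hδ : 2 * m2 q / n ≤ 1 := by
      rw [div_le_one hnpos]
      exact (Nat.le_ceil _).trans (by exact_mod_cast a4)
    have hp2 : phi q n (M n) 1 ≤ 2 * v n := by
      have := (abs_le.1 hcl).1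
      have h5 : v n = variance (fun x : Fin n × Fin n → ℕ => (Tch x : ℝ))
        (Measure.pi (fun _ : Fin n × Fin n => geo q)) := rfl
      rw [← h5] at this
      linarith
    have hq10 : q ^ (M n) ≤ ((n : ℝ) ^ (10 : ℕ))⁻¹ := by
      refine (hM n (by omega)).trans ?_
      rw [inv_le_inv₀ (by positivity) (by positivity)]
      exact pow_le_pow_right₀ hn1' (by norm_num)
    have hsm : phi q n (M n) p ≤ (n : ℝ) ^ ((2 / 3 : ℝ) - c) :=
      hn0 n (M n) a0 hq10 (hMK n a3)
    refine ⟨by omega, hv1, ?_⟩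
    have hb : phi q n (M n) e ^ s ≤ (2 * v n) ^ s0 * (n : ℝ) ^ ((2 / 3 : ℝ) - c) := by
      refine (hphi_log n).trans ?_
      refine mul_le_mul (pow_le_pow_left₀ (hphi0 n 1 zero_le_one) hp2 s0)
        ((hphi_mono n _ _ hes0 hes).trans hsm) (hphi0 n _ hes0) (by positivity)
    rw [div_pow, div_le_iff₀ (by positivity)]
    refine hb.trans ?_
    rw [hsdef, pow_succ, mul_pow]
    have h6 : (n : ℝ) ^ ((2 / 3 : ℝ) - c) ≤ (n : ℝ) ^ (-(c / 2)) * v n := by
      calc (n : ℝ) ^ ((2 / 3 : ℝ) - c) ≤ (n : ℝ) ^ (-(c / 2) + ((2 / 3 : ℝ) - ε0)) :=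
            Real.rpow_le_rpow_of_exponent_le hn1' (by linarith)
        _ = (n : ℝ) ^ (-(c / 2)) * (n : ℝ) ^ ((2 / 3 : ℝ) - ε0) := Real.rpow_add hnpos _ _
        _ ≤ _ := mul_le_mul_of_nonneg_left hvn (by positivity)
    have h7 : 0 ≤ (2 : ℝ) ^ s0 * v n ^ s0 := by positivity
    calc 2 ^ s0 * v n ^ s0 * (n : ℝ) ^ ((2 / 3 : ℝ) - c) ≤
          2 ^ s0 * v n ^ s0 * ((n : ℝ) ^ (-(c / 2)) * v n) := mul_le_mul_of_nonneg_left h6 h7
      _ = _ := by ring
  have hw : Tendsto (fun n : ℕ => (2 : ℝ) ^ s0 * (n : ℝ) ^ (-(c / 2))) atTop (nhds 0) := by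
    have := (tendsto_rpow_neg_atTop (show 0 < c / 2 by linarith)).comp
      (tendsto_natCast_atTop_atTop (R := ℝ))
    simpa using this.const_mul ((2 : ℝ) ^ s0)
  have hu : Tendsto (fun n : ℕ => phi q n (M n) e / v n) atTop (nhds 0) :=
    tendsto_of_pow _ _ s (Eventually.of_forall fun n => div_nonneg (hphi0 n e he0) (hv0 n))
      (key.mono fun n hn => hn.2.2) hw
  have hδ : Tendsto (fun n : ℕ => 2 * m2 q / (n : ℝ)) atTop (nhds 0) :=
    tendsto_const_div_atTop_nhds_zero_nat _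
  have hsum := hu.add hδ
  rw [add_zero] at hsum
  refine squeeze_zero_norm' ?_ hsum
  filter_upwards [key] with n hn
  obtain ⟨k1, k2, _⟩ := hn
  have hcc := cov_close (n := n) q e h0.le h1 he0 he1.le k1 (M n) (hM n k1)
  have hm : 0 ≤ 2 * m2 q / (n : ℝ) := by have := m2_nonneg q; positivity
  rw [Real.norm_eq_abs, abs_div, abs_of_nonneg (hv0 n)]
  have h8 : |covariance (fun ω : Fin n × Fin n → ℕ × ℕ => (Tch (fun v => (ω v).1) : ℝ))
        (fun ω => (Tch (fun v => (ω v).2) : ℝ)) (Measure.pi (fun _ : Fin n × Fin n => nu q e))| ≤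
        phi q n (M n) e + 2 * m2 q / n := by
    have h9 := abs_sub_abs_le_abs_sub (covariance (fun ω : Fin n × Fin n → ℕ × ℕ =>
        (Tch (fun v => (ω v).1) : ℝ))
        (fun ω => (Tch (fun v => (ω v).2) : ℝ)) (Measure.pi (fun _ : Fin n × Fin n => nu q e)))
        (phi q n (M n) e)
    rw [abs_of_nonneg (hphi0 n e he0)] at h9
    linarith
  calc _ ≤ (phi q n (M n) e + 2 * m2 q / n) / v n := div_le_div_of_nonneg_right h8 (hv0 n)
    _ = phi q n (M n) e / v n + 2 * m2 q / n / v n := add_div _ _ _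
    _ ≤ _ := by
        have := div_le_self hm k2
        linarith

end Fz

open Classical in
theorem frozen_of (h : ∀ q : ℝ, 0 < q → q < 1 → SmallCov q ∧ VarLower q) :
    ∀ p : ℝ, ∀ hp : 0 < p, ∀ hp1 : p < 1, ∀ t : ℝ, 0 < t →
      Tendsto
        (fun n : ℕ =>
          covariance
              (fun ω : Fin n × Fin n → ℕ × ℕ =>
                (((Finset.univ.filter (fun S : Finset (Fin n × Fin n) =>
                    IsChain (· ≤ ·) (S : Set (Fin n × Fin n)))).sup
                    (fun S => ∑ v ∈ S, (ω v).1) : ℕ) : ℝ))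
              (fun ω : Fin n × Fin n → ℕ × ℕ =>
                (((Finset.univ.filter (fun S : Finset (Fin n × Fin n) =>
                    IsChain (· ≤ ·) (S : Set (Fin n × Fin n)))).sup
                    (fun S => ∑ v ∈ S, (ω v).2) : ℕ) : ℝ))
              (Measure.pi (fun _ : Fin n × Fin n =>
                (Real.toNNReal (Real.exp (-t))) •
                    Measure.map (fun a : ℕ => (a, a)) (geometricPMF hp hp1.le).toMeasure +
                  (Real.toNNReal (1 - Real.exp (-t))) •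
                    Measure.prod (geometricPMF hp hp1.le).toMeasure
                      (geometricPMF hp hp1.le).toMeasure))
            /
            Real.sqrt
              (variance
                  (fun ω : Fin n × Fin n → ℕ × ℕ =>
                    (((Finset.univ.filter (fun S : Finset (Fin n × Fin n) =>
                        IsChain (· ≤ ·) (S : Set (Fin n × Fin n)))).sup
                        (fun S => ∑ v ∈ S, (ω v).1) : ℕ) : ℝ))
                  (Measure.pi (fun _ : Fin n × Fin n =>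
                    (Real.toNNReal (Real.exp (-t))) •
                        Measure.map (fun a : ℕ => (a, a)) (geometricPMF hp hp1.le).toMeasure +
                      (Real.toNNReal (1 - Real.exp (-t))) •
                        Measure.prod (geometricPMF hp hp1.le).toMeasure
                          (geometricPMF hp hp1.le).toMeasure)) *
                variance
                  (fun ω : Fin n × Fin n → ℕ × ℕ =>
                    (((Finset.univ.filter (fun S : Finset (Fin n × Fin n) =>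
                        IsChain (· ≤ ·) (S : Set (Fin n × Fin n)))).sup
                        (fun S => ∑ v ∈ S, (ω v).2) : ℕ) : ℝ))
                  (Measure.pi (fun _ : Fin n × Fin n =>
                    (Real.toNNReal (Real.exp (-t))) •
                        Measure.map (fun a : ℕ => (a, a)) (geometricPMF hp hp1.le).toMeasure +
                      (Real.toNNReal (1 - Real.exp (-t))) •
                        Measure.prod (geometricPMF hp hp1.le).toMeasure
                          (geometricPMF hp hp1.le).toMeasure))))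
        atTop (nhds 0) := by
  intro p hp hp1 t ht
  have hq0 : 0 < 1 - p := by linarith
  have hq1 : 1 - p < 1 := by linarith
  obtain ⟨hs, hv⟩ := h (1 - p) hq0 hq1
  have := Fz.corr_tendsto (1 - p) (Real.exp (-t)) hq0 hq1 (Real.exp_pos _).le
    (Real.exp_lt_one_iff.2 (by linarith)) hs hv
  rw [Fz.pmf_eq p hp hp1]
  exact this

end Pool.Agent.MP2c

end

section

/-! Monotonicity in the parameters and exponential tilting for geometric environments.
(helper96, MP_2c6138_pr) -/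

set_option autoImplicit false
set_option linter.unusedSectionVars false

namespace Pool.Agent.MP2c

open MeasureTheory Finset
open scoped ENNReal

theorem geo_Ici (a : ℝ) (h0 : 0 ≤ a) (h1 : a < 1) (k : ℕ) : geo a (Set.Ici k) = ENNReal.ofReal (a ^ k) := by
  have h1' : 0 ≤ 1 - a := by linarith
  have e : geo a (Set.Ici k) = ∑' j : ℕ, geo a {k + j} := by
    rw [← measure_iUnion]
    · congr 1
      ext x
      simp only [Set.mem_Ici, Set.mem_iUnion, Set.mem_singleton_iff]
      constructor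
      · intro h; exact ⟨x - k, by omega⟩
      · rintro ⟨j, rfl⟩; omega
    · intro i j hij
      simp only [Function.onFun, Set.disjoint_singleton]
      omega
    · intro i; exact MeasurableSet.of_discrete
  rw [e]
  simp only [geo_singleton]
  rw [← ENNReal.ofReal_tsum_of_nonneg (fun j => by positivity)]
  · congr 1
    have : ∀ j : ℕ, (1 - a) * a ^ (k + j) = ((1 - a) * a ^ k) * a ^ j := by intro j; rw [pow_add]; ring
    simp only [this]
    rw [tsum_mul_left, tsum_geometric_of_lt_one h0 h1]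
    have : (1 - a) ≠ 0 := by linarith
    field_simp
  · have : ∀ j : ℕ, (1 - a) * a ^ (k + j) = ((1 - a) * a ^ k) * a ^ j := by intro j; rw [pow_add]; ring
    simp only [this]
    exact (summable_geometric_of_lt_one h0 h1).mul_left _

theorem map_min_geo (a b : ℝ) (ha0 : 0 ≤ a) (ha1 : a < 1) (hb0 : 0 ≤ b) (hb1 : b < 1) :
    ((geo a).prod (geo b)).map (fun z => min z.1 z.2) = geo (a * b) := by
  refine Measure.ext_of_singleton fun k => ?_
  rw [Measure.map_apply (Measurable.of_discrete) (measurableSet_singleton _), geo_singleton]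
  have hset : (fun z : ℕ × ℕ => min z.1 z.2) ⁻¹' {k} =
      ({k} ×ˢ Set.Ici k) ∪ (Set.Ici (k + 1) ×ˢ {k}) := by
    ext ⟨x, y⟩
    simp only [Set.mem_preimage, Set.mem_singleton_iff, Set.mem_union, Set.mem_prod, Set.mem_Ici]
    omega
  have hdisj : Disjoint (({k} : Set ℕ) ×ˢ Set.Ici k) (Set.Ici (k + 1) ×ˢ ({k} : Set ℕ)) := by
    rw [Set.disjoint_left]
    rintro ⟨x, y⟩ h1 h2
    simp only [Set.mem_prod, Set.mem_singleton_iff, Set.mem_Ici] at h1 h2
    omega
  rw [hset, measure_union hdisj (MeasurableSet.of_discrete), Measure.prod_prod, Measure.prod_prod,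
    geo_Ici b hb0 hb1, geo_Ici a ha0 ha1, geo_singleton, geo_singleton,
    ← ENNReal.ofReal_mul (mul_nonneg (by linarith) (by positivity)), ← ENNReal.ofReal_mul (by positivity),
    ← ENNReal.ofReal_add (mul_nonneg (mul_nonneg (by linarith) (by positivity)) (by positivity))
      (mul_nonneg (by positivity) (mul_nonneg (by linarith) (by positivity)))]
  congr 1
  rw [mul_pow]; ring

variable {κ : Type} [DecidableEq κ]
variable {Ω : Type} [MeasurableSpace Ω] [DiscreteMeasurableSpace Ω]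
variable {Ω' : Type} [MeasurableSpace Ω'] [DiscreteMeasurableSpace Ω']

theorem envLaw_of_map {P : Measure Ω} {S : Finset κ} {θ : κ → ℝ} {E : Ω → κ → ℕ}
    (h : P.map (fun ω => rst S (E ω)) = Measure.pi (fun p : ↥S => geo (θ p))) : EnvLaw P S θ E := by
  intro x
  have h2 : {ω | ∀ p ∈ S, E ω p = x p} = (fun ω => rst S (E ω)) ⁻¹' {rst S x} := by
    ext ω
    simp only [Set.mem_preimage, Set.mem_singleton_iff, Set.mem_ofPred_eq]
    constructor
    · intro hx; funext p; exact hx p.1 p.2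
    · intro hx p hp
      exact congrFun hx ⟨p, hp⟩
  rw [h2, ← Measure.map_apply (Measurable.of_discrete) (measurableSet_singleton _), h,
    Measure.pi_singleton, ← Finset.prod_coe_sort S (fun p => geo (θ p) {x p})]
  rfl

/-- two laws with the same parameters give the same expectations -/
theorem EnvLaw.lintegral_same {P : Measure Ω} {P' : Measure Ω'} {S : Finset κ} {θ : κ → ℝ}
    {E : Ω → κ → ℕ} {E' : Ω' → κ → ℕ}
    (h : EnvLaw P S θ E) (h' : EnvLaw P' S θ E') (F : (κ → ℕ) → ℝ≥0∞) (hF : Dep S F) :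
    ∫⁻ ω, F (E ω) ∂P = ∫⁻ ω, F (E' ω) ∂P' := by
  rw [h.lintegral F hF, h'.lintegral F hF]

/-- Monotonicity in the parameters. -/
theorem EnvLaw.mono_param {P : Measure Ω} {P' : Measure Ω'} {S : Finset κ} {θ θ' : κ → ℝ}
    {E : Ω → κ → ℕ} {E' : Ω' → κ → ℕ}
    (h : EnvLaw P S θ E) (h' : EnvLaw P' S θ' E') (hθ0 : ∀ p ∈ S, 0 ≤ θ p)
    (hθ : ∀ p ∈ S, θ p ≤ θ' p) (hθ1 : ∀ p ∈ S, θ' p < 1) (F : (κ → ℕ) → ℝ≥0∞) (hF : Dep S F)
    (hmono : ∀ e e' : κ → ℕ, (∀ p ∈ S, e p ≤ e' p) → (∀ p ∈ S, θ p = θ' p → e p = e' p) →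
      F e ≤ F e') :
    ∫⁻ ω, F (E ω) ∂P ≤ ∫⁻ ω, F (E' ω) ∂P' := by
  classical
  set r : κ → ℝ := fun p => if θ p < θ' p then θ p / θ' p else 0 with hr
  have hr0 : ∀ p ∈ S, 0 ≤ r p := by
    intro p hp
    simp only [hr]
    split_ifs
    · exact div_nonneg (hθ0 p hp) ((hθ0 p hp).trans (hθ p hp))
    · exact le_rfl
  have hr1 : ∀ p ∈ S, r p < 1 := by
    intro p hp
    simp only [hr]
    split_ifs with hlt
    · have : 0 < θ' p := lt_of_le_of_lt (hθ0 p hp) hlt
      rw [div_lt_one this]; exact hlt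
    · exact zero_lt_one
  set ν : ↥S → Measure (ℕ × ℕ) := fun p => (geo (θ' p)).prod (geo (r p)) with hν
  set Q : Measure (↥S → ℕ × ℕ) := Measure.pi ν with hQ
  have hprob : ∀ p : ↥S, IsProbabilityMeasure (ν p) := by
    intro p
    have := isProbabilityMeasure_geo (θ' p) ((hθ0 p p.2).trans (hθ p p.2)) (hθ1 p p.2)
    have := isProbabilityMeasure_geo (r p) (hr0 p p.2) (hr1 p p.2)
    simp only [hν]
    infer_instance
  set f : ↥S → ℕ × ℕ → ℕ := fun p z => if θ p < θ' p then min z.1 z.2 else z.1 with hf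
  have hmapf : ∀ p : ↥S, (ν p).map (f p) = geo (θ p) := by
    intro p
    simp only [hν, hf]
    by_cases hlt : θ p < θ' p
    · have hpos : 0 < θ' p := lt_of_le_of_lt (hθ0 p p.2) hlt
      have : r p = θ p / θ' p := by simp only [hr, if_pos hlt]
      simp only [if_pos hlt]
      rw [map_min_geo _ _ hpos.le (hθ1 p p.2) (hr0 p p.2) (hr1 p p.2), this]
      congr 1
      field_simp
    · simp only [if_neg hlt]
      have heq : θ p = θ' p := le_antisymm (hθ p p.2) (not_lt.1 hlt)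
      have := isProbabilityMeasure_geo (r p) (hr0 p p.2) (hr1 p p.2)
      rw [heq]
      exact Measure.map_fst_prod.trans (by simp)
  have hmap1 : ∀ p : ↥S, (ν p).map Prod.fst = geo (θ' p) := by
    intro p
    have := isProbabilityMeasure_geo (r p) (hr0 p p.2) (hr1 p p.2)
    exact Measure.map_fst_prod.trans (by simp)
  have hE1 : EnvLaw Q S θ (fun z => ext S (fun p => f p (z p))) := by
    refine envLaw_of_map ?_
    have e1 : (fun z : ↥S → ℕ × ℕ => rst S (ext S (fun p => f p (z p)))) =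
        fun z p => f p (z p) := by
      funext z p
      simp [rst, ext]
    have : ∀ p : ↥S, SigmaFinite ((ν p).map (f p)) := by
      intro p; rw [hmapf p]; infer_instance
    rw [e1, hQ, Measure.pi_map_pi (fun p => Measurable.of_discrete.aemeasurable)]
    simp only [hmapf]
  have hE2 : EnvLaw Q S θ' (fun z => ext S (fun p => (z p).1)) := by
    refine envLaw_of_map ?_
    have e1 : (fun z : ↥S → ℕ × ℕ => rst S (ext S (fun p => (z p).1))) =
        fun z p => Prod.fst (z p) := by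
      funext z p
      simp [rst, ext]
    have : ∀ p : ↥S, SigmaFinite ((ν p).map Prod.fst) := by
      intro p; rw [hmap1 p]; infer_instance
    rw [e1, hQ, Measure.pi_map_pi (fun p => Measurable.of_discrete.aemeasurable)]
    simp only [hmap1]
  rw [h.lintegral_same hE1 F hF, h'.lintegral_same hE2 F hF]
  refine lintegral_mono (fun z => hmono _ _ ?_ ?_)
  · intro p hp
    simp only [ext, hp, dite_true, hf]
    split_ifs
    · exact min_le_left _ _
    · exact le_rfl
  · intro p hp heq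
    simp only [ext, hp, dite_true, hf]
    rw [if_neg (by rw [heq]; exact lt_irrefl _)]

/-- Exponential tilting. -/
theorem EnvLaw.tilt {P : Measure Ω} {P' : Measure Ω'} {S : Finset κ} {θ θ' : κ → ℝ}
    {E : Ω → κ → ℕ} {E' : Ω' → κ → ℕ}
    (h : EnvLaw P S θ E) (h' : EnvLaw P' S θ' E') {A : Finset κ} (hAS : A ⊆ S) (u : ℝ) (hu : 0 < u)
    (hA : ∀ p ∈ A, θ' p = θ p * u) (hnA : ∀ p ∈ S, p ∉ A → θ' p = θ p)
    (hθ : ∀ p ∈ A, 0 ≤ θ p ∧ θ p < 1) (hθ1 : ∀ p ∈ A, θ p * u < 1)
    (F : (κ → ℕ) → ℝ≥0∞) (hF : Dep S F) :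
    ∫⁻ ω, ENNReal.ofReal (u ^ (∑ p ∈ A, E ω p)) * F (E ω) ∂P =
      ENNReal.ofReal (∏ p ∈ A, (1 - θ p) / (1 - θ p * u)) * ∫⁻ ω, F (E' ω) ∂P' := by
  refine h.lintegral_congr h' (fun e => ENNReal.ofReal (u ^ (∑ p ∈ A, e p)) * F e) F ?_ hF _ ?_
  · intro e e' he
    simp only
    rw [hF e e' he, Finset.sum_congr rfl (fun p hp => he p (hAS hp))]
  · intro x
    rw [← Finset.prod_sdiff hAS, ← Finset.prod_sdiff hAS]
    have h1 : ∏ p ∈ S \ A, geo (θ' p) {x p} = ∏ p ∈ S \ A, geo (θ p) {x p} := by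
      refine Finset.prod_congr rfl (fun p hp => ?_)
      rw [mem_sdiff] at hp
      rw [hnA p hp.1 hp.2]
    have h2 : (∏ p ∈ A, geo (θ p) {x p}) * ENNReal.ofReal (u ^ (∑ p ∈ A, x p)) =
        ENNReal.ofReal (∏ p ∈ A, (1 - θ p) / (1 - θ p * u)) * ∏ p ∈ A, geo (θ' p) {x p} := by
      rw [← Finset.prod_pow_eq_pow_sum, ENNReal.ofReal_prod_of_nonneg (fun p _ => by positivity),
        ENNReal.ofReal_prod_of_nonneg, ← Finset.prod_mul_distrib, ← Finset.prod_mul_distrib]
      · refine Finset.prod_congr rfl (fun p hp => ?_)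
        rw [hA p hp, geo_singleton, geo_singleton]
        have h0 := hθ p hp
        have h1 := hθ1 p hp
        have h2 : 0 ≤ 1 - θ p := by linarith
        have h3 : 0 < 1 - θ p * u := by linarith
        have h4 := h0.1
        rw [← ENNReal.ofReal_mul (by positivity), ← ENNReal.ofReal_mul (by positivity)]
        congr 1
        rw [mul_pow]
        field_simp
      · intro p hp
        have h0 := hθ p hp
        have h1 := hθ1 p hp
        exact div_nonneg (by linarith) (by linarith)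
    rw [h1]
    calc _ = (∏ p ∈ S \ A, geo (θ p) {x p}) * ((∏ p ∈ A, geo (θ p) {x p}) *
          ENNReal.ofReal (u ^ (∑ p ∈ A, x p))) * F x := by ring
      _ = _ := by rw [h2]; ring

theorem EnvLaw.prob {P : Measure Ω} {S : Finset κ} {θ : κ → ℝ} {E : Ω → κ → ℕ}
    (h : EnvLaw P S θ E) (hθ : ∀ p ∈ S, 0 ≤ θ p ∧ θ p < 1) : P Set.univ = 1 := by
  have := (h.subset (empty_subset S) hθ) (fun _ => 0)
  simpa using this

end Pool.Agent.MP2c

end

section

/-! Moment generating function of the passage time with boundary, exit point bounds.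
(helper96, MP_2c6138_pr) -/

set_option autoImplicit false
set_option linter.unusedSectionVars false

namespace Pool.Agent.MP2c

open MeasureTheory Finset
open scoped ENNReal

/-- the sites of the system with `m` columns and `N` rows -/
def bx (m N : ℕ) : Finset (ℕ × ℕ) := ((range (N + 1)) ×ˢ (range (m + 1))).erase (0, 0)

theorem mem_bx {m N : ℕ} {p : ℕ × ℕ} : p ∈ bx m N ↔ p ≠ (0, 0) ∧ p.1 ≤ N ∧ p.2 ≤ m := by
  simp only [bx, mem_erase, mem_product, mem_range]
  constructor
  · rintro ⟨h1, h2, h3⟩; exact ⟨h1, by omega, by omega⟩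
  · rintro ⟨h1, h2, h3⟩; exact ⟨h1, by omega, by omega⟩

/-- parameters of the system -/
def sth (a : ℝ) (b c : ℕ → ℝ) : ℕ × ℕ → ℝ := fun p =>
  if p.1 = 0 then a else if p.2 = 0 then b (p.1 - 1) else c (p.1 - 1)

theorem GG_congr {m N : ℕ} {e e' : ℕ × ℕ → ℕ} (h : ∀ p ∈ bx m N, e p = e' p) :
    ∀ j ≤ N, ∀ i ≤ m, GG e j i = GG e' j i := by
  intro j hj i hi
  refine Gx_congr j (i := m) ?_ ?_ i hi
  · intro k hk
    refine Finset.sum_congr rfl (fun l hl => h _ (mem_bx.2 ⟨by simp, by simp, ?_⟩))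
    rw [mem_range] at hl
    simp only; omega
  · intro r hr k hk
    exact h _ (mem_bx.2 ⟨by simp, by simp only; omega, by simpa using hk⟩)

theorem VV_congr {m N : ℕ} {e e' : ℕ × ℕ → ℕ} (h : ∀ p ∈ bx m N, e p = e' p) :
    ∀ j < N, ∀ i ≤ m, VV e j i = VV e' j i := by
  intro j hj i hi
  have h1 := GG_congr h (j + 1) hj i hi
  have h2 := GG_congr h j hj.le i hi
  rw [GG_vert, GG_vert] at h1
  omega

theorem UU_congr {m N : ℕ} {e e' : ℕ × ℕ → ℕ} (h : ∀ p ∈ bx m N, e p = e' p) :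
    ∀ j ≤ N, ∀ i, 1 ≤ i → i ≤ m → UU e j i = UU e' j i := by
  intro j hj i h1 hi
  obtain ⟨i, rfl⟩ : ∃ k, i = k + 1 := ⟨i - 1, by omega⟩
  have h1 := GG_congr h j hj (i + 1) hi
  have h2 := GG_congr h j hj i (by omega)
  rw [GG_incr, GG_incr] at h1
  omega

theorem GG_eq_sum (e : ℕ × ℕ → ℕ) (N m : ℕ) :
    GG e N m = ∑ i ∈ range m, e (0, i + 1) + ∑ j ∈ range N, VV e j m := by
  induction N with
  | zero => simp [GG, Xof]
  | succ N ih => rw [GG_vert, ih, sum_range_succ]; ring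

variable {Ω : Type} [MeasurableSpace Ω] [DiscreteMeasurableSpace Ω]

theorem prod_bx0 (m : ℕ) (f : ℕ × ℕ → ℝ) :
    ∏ p ∈ (range m).image (fun i => ((0 : ℕ), i + 1)), f p = ∏ i ∈ range m, f (0, i + 1) :=
  Finset.prod_image (by intro a _ b _ h; simpa using h)

theorem sum_bx0 (m : ℕ) (f : ℕ × ℕ → ℕ) :
    ∑ p ∈ (range m).image (fun i => ((0 : ℕ), i + 1)), f p = ∑ i ∈ range m, f (0, i + 1) :=
  Finset.sum_image (by intro a _ b _ h; simpa using h)

theorem prod_bx1 (m : ℕ) (f : ℕ × ℕ → ℝ) :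
    ∏ p ∈ (range m).image (fun i => (i + 1, (0 : ℕ))), f p = ∏ i ∈ range m, f (i + 1, 0) :=
  Finset.prod_image (by intro a _ b _ h; simpa using h)

theorem sum_bx1 (m : ℕ) (f : ℕ × ℕ → ℕ) :
    ∑ p ∈ (range m).image (fun i => (i + 1, (0 : ℕ))), f p = ∑ i ∈ range m, f (i + 1, 0) :=
  Finset.sum_image (by intro a _ b _ h; simpa using h)

/-- Exact moment generating function. -/
theorem mgf_GG {P : Measure Ω} {E : Ω → ℕ × ℕ → ℕ} (m N : ℕ) (α u : ℝ) (β : ℕ → ℝ)
    (hu : 0 < u) (hα0 : 0 ≤ α) (hα1 : α < 1) (hαu : α * u < 1)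
    (hβ0 : ∀ j, 0 ≤ β j) (hβ1 : ∀ j, β j < 1) (hβu : ∀ j, β j * u < 1)
    (h : EnvLaw P (bx m N) (sth α β (fun j => α * u * β j)) E) :
    ∫⁻ ω, ENNReal.ofReal (u ^ (GG (E ω) N m)) ∂P =
      ENNReal.ofReal (((1 - α) / (1 - α * u)) ^ m * ∏ j ∈ range N, (1 - β j) / (1 - β j * u)) := by
  have hαu0 : 0 ≤ α * u := by positivity
  set θ' := sth (α * u) β (fun j => α * u * β j) with hθ'
  have hθ'01 : ∀ p ∈ bx m N, 0 ≤ θ' p ∧ θ' p < 1 := by
    intro p _
    simp only [hθ', sth]
    split_ifs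
    · exact ⟨hαu0, hαu⟩
    · exact ⟨hβ0 _, hβ1 _⟩
    · exact ⟨mul_nonneg hαu0 (hβ0 _), by
        have := hβ0 (p.1 - 1)
        have := hβ1 (p.1 - 1)
        nlinarith⟩
  have hcan := envLaw_pi (bx m N) θ'
  set A := (range m).image (fun i => ((0 : ℕ), i + 1)) with hA
  have hAS : A ⊆ bx m N := by
    intro p hp
    simp only [hA, mem_image, mem_range] at hp
    obtain ⟨i, hi, rfl⟩ := hp
    exact mem_bx.2 ⟨by simp, by simp, by simp only; omega⟩
  have hT := h.tilt hcan hAS u hu (by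
      intro p hp
      simp only [hA, mem_image, mem_range] at hp
      obtain ⟨i, hi, rfl⟩ := hp
      simp [hθ', sth]) (by
      intro p hp hpA
      have hp0 : p.1 ≠ 0 := by
        intro h0
        obtain ⟨h1, h2, h3⟩ := mem_bx.1 hp
        apply hpA
        simp only [hA, mem_image, mem_range]
        have : p.2 ≠ 0 := by
          intro h4; exact h1 (Prod.ext h0 h4)
        exact ⟨p.2 - 1, by omega, Prod.ext h0.symm (by simp only; omega)⟩
      simp [hθ', sth, hp0]) (by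
      intro p hp
      simp only [hA, mem_image, mem_range] at hp
      obtain ⟨i, hi, rfl⟩ := hp
      simp [sth, hα0, hα1]) (by
      intro p hp
      simp only [hA, mem_image, mem_range] at hp
      obtain ⟨i, hi, rfl⟩ := hp
      simp [sth, hαu])
      (fun e => ENNReal.ofReal (u ^ (∑ j ∈ range N, VV e j m))) (by
        intro e e' he
        simp only
        rw [Finset.sum_congr rfl (fun j hj => VV_congr he j (mem_range.1 hj) m le_rfl)])
  have e1 : ∀ ω, ENNReal.ofReal (u ^ (GG (E ω) N m)) =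
      ENNReal.ofReal (u ^ (∑ p ∈ A, E ω p)) * ENNReal.ofReal (u ^ (∑ j ∈ range N, VV (E ω) j m)) := by
    intro ω
    rw [GG_eq_sum, hA, sum_bx0, pow_add, ENNReal.ofReal_mul (by positivity)]
  rw [lintegral_congr e1, hT]
  -- second step: Burke
  have hB := hcan.fmv m N (fun i h1 h2 => mem_bx.2 ⟨by simp; omega, by simp, h2⟩)
    (fun j hj => mem_bx.2 ⟨by simp, hj, by simp⟩)
    (fun j hj i h1 h2 => mem_bx.2 ⟨by simp, hj, h2⟩) hθ'01
    (fun j hj i h1 h2 => by
      have : i ≠ 0 := by omega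
      simp [hθ', sth, this])
  set θ'' := sth (α * u) (fun j => β j * u) (fun j => α * u * β j) with hθ''
  have hcan2 := envLaw_pi (bx m N) θ''
  set A2 := (range N).image (fun j => (j + 1, (0 : ℕ))) with hA2
  have hAS2 : A2 ⊆ bx m N := by
    intro p hp
    simp only [hA2, mem_image, mem_range] at hp
    obtain ⟨i, hi, rfl⟩ := hp
    exact mem_bx.2 ⟨by simp, by simp only; omega, by simp⟩
  have hT2 := hB.tilt hcan2 hAS2 u hu (by
      intro p hp
      simp only [hA2, mem_image, mem_range] at hp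
      obtain ⟨i, hi, rfl⟩ := hp
      simp [hθ', hθ'', sth]) (by
      intro p hp hpA
      by_cases hp0 : p.1 = 0
      · simp [hθ', hθ'', sth, hp0]
      · have hp2 : p.2 ≠ 0 := by
          intro h0
          obtain ⟨h1, h2, h3⟩ := mem_bx.1 hp
          apply hpA
          simp only [hA2, mem_image, mem_range]
          exact ⟨p.1 - 1, by omega, Prod.ext (by simp only; omega) h0.symm⟩
        simp [hθ', hθ'', sth, hp0, hp2]) (by
      intro p hp
      simp only [hA2, mem_image, mem_range] at hp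
      obtain ⟨i, hi, rfl⟩ := hp
      simp [hθ', sth, hβ0, hβ1]) (by
      intro p hp
      simp only [hA2, mem_image, mem_range] at hp
      obtain ⟨i, hi, rfl⟩ := hp
      simp [hθ', sth, hβu])
      (fun _ => 1) (fun _ _ _ => rfl)
  have e2 : ∀ x : ↥(bx m N) → ℕ, ENNReal.ofReal (u ^ (∑ j ∈ range N, VV (ext (bx m N) x) j m)) =
      ENNReal.ofReal (u ^ (∑ p ∈ A2, fmv m N (ext (bx m N) x) p)) * 1 := by
    intro x
    rw [hA2, sum_bx1, mul_one]
    congr 2
    refine Finset.sum_congr rfl (fun j hj => ?_)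
    rw [fmv_eq]
    have : j + 1 ≤ N := mem_range.1 hj
    simp [this]
  rw [lintegral_congr e2, hT2]
  have hprob : ∫⁻ (ω : ↥(bx m N) → ℕ), (1 : ℝ≥0∞) ∂(Measure.pi (fun p : ↥(bx m N) => geo (θ'' p))) = 1 := by
    rw [lintegral_one]
    refine hcan2.prob ?_
    intro p _
    simp only [hθ'', sth]
    split_ifs
    · exact ⟨hαu0, hαu⟩
    · exact ⟨mul_nonneg (hβ0 _) hu.le, hβu _⟩
    · exact ⟨mul_nonneg hαu0 (hβ0 _), by
        have := hβ0 (p.1 - 1)
        have := hβ1 (p.1 - 1)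
        nlinarith⟩
  rw [hprob, mul_one, ← ENNReal.ofReal_mul]
  · congr 1
    rw [hA, hA2, prod_bx0, prod_bx1]
    simp only [sth, hθ', if_true, Nat.add_eq_zero_iff, one_ne_zero, and_false, if_false,
      Nat.add_sub_cancel, Finset.prod_const, card_range]
  · rw [hA, prod_bx0]
    refine Finset.prod_nonneg (fun i _ => ?_)
    simp only [sth, if_true]
    exact div_nonneg (by linarith) (by linarith)

/-- remove the left boundary -/
def hz (e : ℕ × ℕ → ℕ) : ℕ × ℕ → ℕ := fun p => if p.2 = 0 then 0 else e p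
/-- remove the bottom boundary -/
def vz (e : ℕ × ℕ → ℕ) : ℕ × ℕ → ℕ := fun p => if p.1 = 0 then 0 else e p

theorem Xof_hz (e : ℕ × ℕ → ℕ) : Xof (hz e) = Xof e := by
  funext i; simp [Xof, hz]
theorem Xof_vz (e : ℕ × ℕ → ℕ) : Xof (vz e) = 0 := by
  funext i; simp [Xof, vz]
theorem row_vz (e : ℕ × ℕ → ℕ) : row (vz e) = row e := by
  funext j i; simp [row, vz]
theorem row_env (e : ℕ × ℕ → ℕ) : row e = env (fun j => e (j + 1, 0)) (row e) := by
  funext j i
  cases i with
  | zero => rfl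
  | succ i => rfl
theorem row_hz (e : ℕ × ℕ → ℕ) : row (hz e) = env 0 (row e) := by
  funext j i
  cases i with
  | zero => simp [row, hz]
  | succ i => simp [row, hz]

theorem GG_max (e : ℕ × ℕ → ℕ) (j i : ℕ) : GG e j i = max (GG (hz e) j i) (GG (vz e) j i) := by
  have h := Gx_max (Xof e) (fun j => e (j + 1, 0)) (row e) rfl j i
  rw [← row_env] at h
  rw [GG, GG, GG, Xof_hz, Xof_vz, row_vz, row_hz, h]

/-- horizontal increments: `ver ≤ hor` -/
theorem GG_vz_hz (e : ℕ × ℕ → ℕ) (j i : ℕ) :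
    GG (vz e) j (i + 1) + GG (hz e) j i ≤ GG (hz e) j (i + 1) + GG (vz e) j i := by
  refine Gx_attract (fun j => ?_) (fun j i => ?_) (fun i => ?_) j i
  · simp [row, hz]
  · simp [row, hz, vz]
  · rw [Xof_vz, Xof_hz, Xof_succ]; simp

theorem up_mono_all {y y' X X' : ℕ → ℕ} (hy : ∀ i, y i ≤ y' i) (hX : ∀ i, X i ≤ X' i) (i : ℕ) :
    up y X i ≤ up y' X' i := by
  induction i with
  | zero => have := hy 0; have := hX 0; simp; omega
  | succ i ih =>
    have := hy (i + 1); have := hX (i + 1)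
    rw [up_succ, up_succ]; omega

theorem Gx_mono_all {X X' : ℕ → ℕ} {e e' : ℕ → ℕ → ℕ} (he : ∀ j i, e j i ≤ e' j i)
    (hX : ∀ i, X i ≤ X' i) (j i : ℕ) : Gx X e j i ≤ Gx X' e' j i := by
  induction j generalizing i with
  | zero => exact hX i
  | succ j ih => exact up_mono_all (he j) ih i

theorem GG_mono {e e' : ℕ × ℕ → ℕ} (he : ∀ p, e p ≤ e' p) (j i : ℕ) : GG e j i ≤ GG e' j i :=
  Gx_mono_all (fun j i => he (j + 1, i)) (fun i => Finset.sum_le_sum (fun k _ => he _)) j i

/-- Cauchy-Schwarz in the form used for exit bounds. -/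
theorem cs_aux {P : Measure Ω} (H : Set Ω) (g1 g2 : Ω → ℝ) (h1 : ∀ ω, 0 < g1 ω)
    (h12 : ∀ ω, g1 ω * g2 ω = 1) :
    (P H) ^ 2 ≤ (∫⁻ ω in H, ENNReal.ofReal (g1 ω) ∂P) * ∫⁻ ω in H, ENNReal.ofReal (g2 ω) ∂P := by
  have hconj : Real.HolderConjugate 2 2 := Real.HolderConjugate.two_two
  have h := ENNReal.lintegral_mul_le_Lp_mul_Lq (P.restrict H) hconj
    (f := fun ω => (ENNReal.ofReal (g1 ω)) ^ ((1 : ℝ) / 2))
    (g := fun ω => (ENNReal.ofReal (g2 ω)) ^ ((1 : ℝ) / 2))
    (Measurable.of_discrete.aemeasurable) (Measurable.of_discrete.aemeasurable)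
  have e1 : ∀ ω, ((fun ω => (ENNReal.ofReal (g1 ω)) ^ ((1 : ℝ) / 2)) *
      (fun ω => (ENNReal.ofReal (g2 ω)) ^ ((1 : ℝ) / 2))) ω = 1 := by
    intro ω
    simp only [Pi.mul_apply]
    rw [← ENNReal.mul_rpow_of_nonneg _ _ (by norm_num), ← ENNReal.ofReal_mul (h1 ω).le, h12]
    simp
  have e2 : ∀ x : ℝ≥0∞, (x ^ ((1 : ℝ) / 2)) ^ (2 : ℝ) = x := by
    intro x; rw [← ENNReal.rpow_mul]; norm_num
  simp only [e2] at h
  rw [lintegral_congr e1] at h
  simp only [lintegral_one, MeasurableSet.of_discrete, Measure.restrict_apply, Set.univ_inter] at h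
  calc (P H) ^ 2 ≤ ((∫⁻ ω in H, ENNReal.ofReal (g1 ω) ∂P) ^ ((1 : ℝ) / 2) *
        (∫⁻ ω in H, ENNReal.ofReal (g2 ω) ∂P) ^ ((1 : ℝ) / 2)) ^ 2 := by gcongr
    _ = _ := by
      rw [mul_pow]
      have e3 : ∀ x : ℝ≥0∞, (x ^ ((1 : ℝ) / 2)) ^ 2 = x := by
        intro x
        rw [← ENNReal.rpow_natCast, ← ENNReal.rpow_mul]; norm_num
      rw [e3, e3]

theorem dep_GG {m N : ℕ} : Dep (bx m N) (fun e => GG e N m) := fun _ _ he => GG_congr he N le_rfl m le_rfl

theorem dep_hz {β : Type} {m N : ℕ} {F : (ℕ × ℕ → ℕ) → β} (hF : Dep (bx m N) F) :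
    Dep (bx m N) (fun e => F (hz e)) := by
  intro e e' he
  refine hF _ _ (fun p hp => ?_)
  simp only [hz]
  split_ifs
  · rfl
  · exact he p hp

theorem dep_vz {β : Type} {m N : ℕ} {F : (ℕ × ℕ → ℕ) → β} (hF : Dep (bx m N) F) :
    Dep (bx m N) (fun e => F (vz e)) := by
  intro e e' he
  refine hF _ _ (fun p hp => ?_)
  simp only [vz]
  split_ifs
  · rfl
  · exact he p hp

theorem GG_hz_congr {m N : ℕ} {e e' : ℕ × ℕ → ℕ} (h : ∀ p ∈ bx m N, e p = e' p) :
    GG (hz e) N m = GG (hz e') N m := dep_hz (F := fun e => GG e N m) dep_GG e e' h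

theorem GG_vz_congr {m N : ℕ} {e e' : ℕ × ℕ → ℕ} (h : ∀ p ∈ bx m N, e p = e' p) :
    GG (vz e) N m = GG (vz e') N m := dep_vz (F := fun e => GG e N m) dep_GG e e' h

theorem lint_ite {Q : Measure Ω} (p : Ω → Prop) [DecidablePred p] :
    (∫⁻ ω, (if p ω then (1 : ℝ≥0∞) else 0) ∂Q) = Q {ω | p ω} := by
  rw [← lintegral_indicator_one (MeasurableSet.of_discrete)]
  refine lintegral_congr (fun ω => ?_)
  simp only [Set.indicator_apply, Set.mem_ofPred_eq, Pi.one_apply]

theorem hz_le (e : ℕ × ℕ → ℕ) (p : ℕ × ℕ) : hz e p ≤ e p := by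
  simp only [hz]; split_ifs <;> simp
theorem vz_le (e : ℕ × ℕ → ℕ) (p : ℕ × ℕ) : vz e p ≤ e p := by
  simp only [vz]; split_ifs <;> simp

theorem pow_int_aux {v : ℝ} (hv : 1 < v) (n : ℕ) : v ^ n * (v⁻¹) ^ n = 1 := by
  rw [← mul_pow, mul_inv_cancel₀ (by linarith), one_pow]

theorem sth_mem01 {a : ℝ} {b c : ℕ → ℝ} (ha0 : 0 ≤ a) (ha1 : a < 1) (hb0 : ∀ j, 0 ≤ b j)
    (hb1 : ∀ j, b j < 1) (hc0 : ∀ j, 0 ≤ c j) (hc1 : ∀ j, c j < 1) (p : ℕ × ℕ) :
    0 ≤ sth a b c p ∧ sth a b c p < 1 := by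
  simp only [sth]
  split_ifs
  · exact ⟨ha0, ha1⟩
  · exact ⟨hb0 _, hb1 _⟩
  · exact ⟨hc0 _, hc1 _⟩

/-- Exit bound: exiting through the bottom boundary is unlikely. -/
theorem exit_x {P : Measure Ω} {E : Ω → ℕ × ℕ → ℕ} (m N : ℕ) (a v : ℝ) (b : ℕ → ℝ)
    (hv : 1 < v) (ha0 : 0 < a) (hav : a * v ^ 2 < 1) (hb0 : ∀ j, 0 ≤ b j) (hb1 : ∀ j, b j < 1)
    (h : EnvLaw P (bx m N) (sth a b (fun j => a * b j)) E) :
    (P {ω | GG (vz (E ω)) N m ≤ GG (hz (E ω)) N m}) ^ 2 ≤
      ENNReal.ofReal (((1 - a * v) ^ 2 / ((1 - a) * (1 - a * v ^ 2))) ^ m *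
        ∏ j ∈ range N, ((1 - b j) * (1 - b j / v ^ 2) / (1 - b j / v) ^ 2)) := by
  have hv0 : 0 < v := by linarith
  have hav1 : a * v < 1 := by nlinarith
  have ha1 : a < 1 := by nlinarith
  have hab1 : ∀ j, a * b j < 1 := fun j => by nlinarith [hb0 j, hb1 j]
  have hab0 : ∀ j, 0 ≤ a * b j := fun j => mul_nonneg ha0.le (hb0 j)
  set θ1 := sth (a * v) b (fun j => a * b j) with hθ1
  have hcan := envLaw_pi (bx m N) θ1
  set Q := Measure.pi (fun p : ↥(bx m N) => geo (θ1 p)) with hQ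
  set E1 : (↥(bx m N) → ℕ) → ℕ × ℕ → ℕ := fun x => ext (bx m N) x with hE1
  -- (i) domination
  have step1 : P {ω | GG (vz (E ω)) N m ≤ GG (hz (E ω)) N m} ≤
      Q {ω | GG (vz (E1 ω)) N m ≤ GG (hz (E1 ω)) N m} := by
    have := h.mono_param hcan (fun p _ => (sth_mem01 ha0.le ha1 hb0 hb1 hab0 hab1 p).1)
      (fun p _ => by
        simp only [hθ1, sth]
        split_ifs
        · nlinarith
        · exact le_rfl
        · exact le_rfl)
      (fun p _ => (sth_mem01 (by positivity) hav1 hb0 hb1 hab0 hab1 p).2)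
      (fun e => if GG (vz e) N m ≤ GG (hz e) N m then 1 else 0) (by
        intro e e' he
        simp only
        rw [GG_hz_congr he, GG_vz_congr he]) (by
        intro e e' hle heq
        have hvz : GG (vz e) N m = GG (vz e') N m := by
          refine GG_congr (m := m) (N := N) (fun p hp => ?_) N le_rfl m le_rfl
          simp only [vz]
          split_ifs with h0
          · rfl
          · refine heq p hp ?_
            simp [hθ1, sth, h0]
        have hhz : GG (hz e) N m ≤ GG (hz e') N m := by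
          have e1 : GG (hz e) N m = GG (hz (ext (bx m N) (rst (bx m N) e))) N m :=
            (GG_hz_congr (fun p hp => ext_rst_apply _ e hp)).symm
          have e2 : GG (hz e') N m = GG (hz (ext (bx m N) (rst (bx m N) e'))) N m :=
            (GG_hz_congr (fun p hp => ext_rst_apply _ e' hp)).symm
          rw [e1, e2]
          refine GG_mono (fun p => ?_) N m
          simp only [hz, ext, rst]
          split_ifs with h1 h2
          · exact le_rfl
          · exact hle p h2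
          · exact le_rfl
        rw [hvz]
        split_ifs with h1 h2
        · exact le_rfl
        · exact absurd (h1.trans hhz) h2
        · exact zero_le_one
        · exact le_rfl)
    rw [← lint_ite, ← lint_ite]
    exact this
  -- (ii) Cauchy-Schwarz
  have step2 := cs_aux (P := Q) {ω | GG (vz (E1 ω)) N m ≤ GG (hz (E1 ω)) N m}
    (fun ω => v ^ (GG (E1 ω) N m)) (fun ω => (v⁻¹) ^ (GG (E1 ω) N m)) (fun ω => by positivity)
    (fun ω => pow_int_aux hv _)
  -- second factor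
  have step3 : ∫⁻ ω in {ω | GG (vz (E1 ω)) N m ≤ GG (hz (E1 ω)) N m},
      ENNReal.ofReal ((v⁻¹) ^ (GG (E1 ω) N m)) ∂Q ≤
      ENNReal.ofReal (((1 - a * v) / (1 - a)) ^ m * ∏ j ∈ range N, (1 - b j) / (1 - b j / v)) := by
    refine (setLIntegral_le_lintegral _ _).trans ?_
    have := mgf_GG (P := Q) (E := E1) m N (a * v) v⁻¹ b (by positivity) (by positivity) hav1
      (by rw [mul_assoc, mul_inv_cancel₀ hv0.ne', mul_one]; exact ha1) hb0 hb1
      (fun j => by
        have : b j * v⁻¹ ≤ b j := by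
          have := hb0 j
          exact mul_le_of_le_one_right this (inv_le_one_of_one_le₀ hv.le)
        linarith [hb1 j]) (by
        have : (fun j => a * v * v⁻¹ * b j) = (fun j => a * b j) := by
          funext j; field_simp
        rw [this]; exact hcan)
    rw [this]
    have e1 : a * v * v⁻¹ = a := by field_simp
    simp only [e1, ← div_eq_mul_inv]
    exact le_rfl
  -- first factor
  set θ2 := sth (a * v) (fun j => b j / v ^ 2) (fun j => a * b j) with hθ2
  have hcan2 := envLaw_pi (bx m N) θ2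
  have hb2 : ∀ j, b j / v ^ 2 < 1 := fun j => by
    rw [div_lt_one (by positivity)]
    have := hb1 j
    nlinarith
  have hbv : ∀ j, b j / v < 1 := fun j => by
    rw [div_lt_one (by positivity)]
    have := hb1 j
    linarith
  have step4 : ∫⁻ ω in {ω | GG (vz (E1 ω)) N m ≤ GG (hz (E1 ω)) N m},
      ENNReal.ofReal (v ^ (GG (E1 ω) N m)) ∂Q ≤
      ENNReal.ofReal (((1 - a * v) / (1 - a * v ^ 2)) ^ m *
        ∏ j ∈ range N, (1 - b j / v ^ 2) / (1 - b j / v)) := by
    have s1 : ∫⁻ ω in {ω | GG (vz (E1 ω)) N m ≤ GG (hz (E1 ω)) N m},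
        ENNReal.ofReal (v ^ (GG (E1 ω) N m)) ∂Q ≤ ∫⁻ ω, ENNReal.ofReal (v ^ (GG (hz (E1 ω)) N m)) ∂Q := by
      refine le_trans (setLIntegral_mono' (MeasurableSet.of_discrete)
        (g := fun ω => ENNReal.ofReal (v ^ (GG (hz (E1 ω)) N m))) (fun ω hω => ?_))
        (setLIntegral_le_lintegral _ _)
      have hω' : GG (vz (E1 ω)) N m ≤ GG (hz (E1 ω)) N m := hω
      rw [GG_max, max_eq_left hω']
    refine s1.trans ?_
    -- forget the left boundary
    set S0 := (bx m N).filter (fun p => p.2 ≠ 0) with hS0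
    have hdep0 : Dep S0 (fun e => ENNReal.ofReal (v ^ (GG (hz e) N m))) := by
      intro e e' he
      have : GG (hz e) N m = GG (hz e') N m := by
        refine GG_congr (m := m) (N := N) (fun p hp => ?_) N le_rfl m le_rfl
        simp only [hz]
        split_ifs with h0
        · rfl
        · exact he p (mem_filter.2 ⟨hp, h0⟩)
      simp only [this]
    have hl1 := hcan.subset (S' := S0) (filter_subset _ _)
      (fun p _ => sth_mem01 (by positivity) hav1 hb0 hb1 hab0 hab1 p)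
    have hl2 := hcan2.subset (S' := S0) (filter_subset _ _)
      (fun p _ => sth_mem01 (by positivity) hav1 (fun j => div_nonneg (hb0 j) (by positivity)) hb2
        hab0 hab1 p)
    have hl1' : EnvLaw Q S0 θ2 E1 := by
      intro x
      rw [hl1 x]
      refine Finset.prod_congr rfl (fun p hp => ?_)
      have : p.2 ≠ 0 := (mem_filter.1 hp).2
      simp [hθ1, hθ2, sth, this]
    rw [hl1'.lintegral_same hl2 _ hdep0]
    refine le_trans (lintegral_mono (g := fun ω => ENNReal.ofReal (v ^ (GG (ext (bx m N) ω) N m)))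
      (fun ω => ?_)) ?_
    · exact ENNReal.ofReal_le_ofReal (pow_le_pow_right₀ hv.le (GG_mono (hz_le _) N m))
    · have := mgf_GG (P := Measure.pi (fun p : ↥(bx m N) => geo (θ2 p)))
        (E := fun x => ext (bx m N) x) m N (a * v) v (fun j => b j / v ^ 2) (by positivity)
        (by positivity) hav1 (by rw [mul_assoc, ← pow_two]; exact hav)
        (fun j => div_nonneg (hb0 j) (by positivity)) hb2
        (fun j => by
          have : b j / v ^ 2 * v = b j / v := by field_simp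
          rw [this]; exact hbv j) (by
          have : (fun j => a * v * v * (b j / v ^ 2)) = (fun j => a * b j) := by
            funext j; field_simp
          rw [this]; exact hcan2)
      rw [this]
      have e1 : a * v * v = a * v ^ 2 := by ring
      have e2 : ∀ j, b j / v ^ 2 * v = b j / v := fun j => by field_simp
      simp only [e1, e2]
      exact le_rfl
  calc (P {ω | GG (vz (E ω)) N m ≤ GG (hz (E ω)) N m}) ^ 2
      ≤ (Q {ω | GG (vz (E1 ω)) N m ≤ GG (hz (E1 ω)) N m}) ^ 2 := by gcongr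
    _ ≤ _ := step2
    _ ≤ ENNReal.ofReal (((1 - a * v) / (1 - a * v ^ 2)) ^ m *
        ∏ j ∈ range N, (1 - b j / v ^ 2) / (1 - b j / v)) *
        ENNReal.ofReal (((1 - a * v) / (1 - a)) ^ m * ∏ j ∈ range N, (1 - b j) / (1 - b j / v)) := by
      gcongr
    _ = _ := by
      rw [← ENNReal.ofReal_mul]
      · congr 1
        rw [mul_mul_mul_comm, ← mul_pow, ← Finset.prod_mul_distrib]
        congr 1
        · congr 1
          rw [div_mul_div_comm]
          congr 1 <;> ring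
        · refine Finset.prod_congr rfl (fun j _ => ?_)
          rw [div_mul_div_comm]
          congr 1 <;> ring
      · refine mul_nonneg (pow_nonneg (div_nonneg (by linarith) (by linarith)) _)
          (Finset.prod_nonneg (fun j _ => div_nonneg ?_ ?_))
        · linarith [hb2 j]
        · linarith [hbv j]

/-- Exit bound: exiting through the left boundary is unlikely. -/
theorem exit_y {P : Measure Ω} {E : Ω → ℕ × ℕ → ℕ} (m N : ℕ) (a v : ℝ) (b : ℕ → ℝ)
    (hv : 1 < v) (ha0 : 0 < a) (ha1 : a < 1) (hb0 : ∀ j, 0 ≤ b j) (hbv : ∀ j, b j * v ^ 2 < 1)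
    (h : EnvLaw P (bx m N) (sth a b (fun j => a * b j)) E) :
    (P {ω | GG (hz (E ω)) N m ≤ GG (vz (E ω)) N m}) ^ 2 ≤
      ENNReal.ofReal (((1 - a) * (1 - a / v ^ 2) / (1 - a / v) ^ 2) ^ m *
        ∏ j ∈ range N, ((1 - b j * v) ^ 2 / ((1 - b j) * (1 - b j * v ^ 2)))) := by
  have hv0 : 0 < v := by linarith
  have hb1 : ∀ j, b j < 1 := fun j => by
    have := hb0 j; have := hbv j
    nlinarith
  have hbv1 : ∀ j, b j * v < 1 := fun j => by
    have := hb0 j; have := hbv j
    nlinarith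
  have hab1 : ∀ j, a * b j < 1 := fun j => by nlinarith [hb0 j, hb1 j]
  have hab0 : ∀ j, 0 ≤ a * b j := fun j => mul_nonneg ha0.le (hb0 j)
  have hbv0 : ∀ j, 0 ≤ b j * v := fun j => mul_nonneg (hb0 j) hv0.le
  set θ1 := sth a (fun j => b j * v) (fun j => a * b j) with hθ1
  have hcan := envLaw_pi (bx m N) θ1
  set Q := Measure.pi (fun p : ↥(bx m N) => geo (θ1 p)) with hQ
  set E1 : (↥(bx m N) → ℕ) → ℕ × ℕ → ℕ := fun x => ext (bx m N) x with hE1
  -- (i) domination
  have step1 : P {ω | GG (hz (E ω)) N m ≤ GG (vz (E ω)) N m} ≤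
      Q {ω | GG (hz (E1 ω)) N m ≤ GG (vz (E1 ω)) N m} := by
    have := h.mono_param hcan (fun p _ => (sth_mem01 ha0.le ha1 hb0 hb1 hab0 hab1 p).1)
      (fun p _ => by
        simp only [hθ1, sth]
        split_ifs
        · exact le_rfl
        · have := hb0 (p.1 - 1)
          nlinarith
        · exact le_rfl)
      (fun p _ => (sth_mem01 ha0.le ha1 hbv0 hbv1 hab0 hab1 p).2)
      (fun e => if GG (hz e) N m ≤ GG (vz e) N m then 1 else 0) (by
        intro e e' he
        simp only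
        rw [GG_hz_congr he, GG_vz_congr he]) (by
        intro e e' hle heq
        have hhz : GG (hz e) N m = GG (hz e') N m := by
          refine GG_congr (m := m) (N := N) (fun p hp => ?_) N le_rfl m le_rfl
          simp only [hz]
          split_ifs with h0
          · rfl
          · refine heq p hp ?_
            simp [hθ1, sth, h0]
        have hvz : GG (vz e) N m ≤ GG (vz e') N m := by
          have e1 : GG (vz e) N m = GG (vz (ext (bx m N) (rst (bx m N) e))) N m :=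
            (GG_vz_congr (fun p hp => ext_rst_apply _ e hp)).symm
          have e2 : GG (vz e') N m = GG (vz (ext (bx m N) (rst (bx m N) e'))) N m :=
            (GG_vz_congr (fun p hp => ext_rst_apply _ e' hp)).symm
          rw [e1, e2]
          refine GG_mono (fun p => ?_) N m
          simp only [vz, ext, rst]
          split_ifs with h1 h2
          · exact le_rfl
          · exact hle p h2
          · exact le_rfl
        rw [hhz]
        split_ifs with h1 h2
        · exact le_rfl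
        · exact absurd (h1.trans hvz) h2
        · exact zero_le_one
        · exact le_rfl)
    rw [← lint_ite, ← lint_ite]
    exact this
  -- (ii) Cauchy-Schwarz
  have step2 := cs_aux (P := Q) {ω | GG (hz (E1 ω)) N m ≤ GG (vz (E1 ω)) N m}
    (fun ω => v ^ (GG (E1 ω) N m)) (fun ω => (v⁻¹) ^ (GG (E1 ω) N m)) (fun ω => by positivity)
    (fun ω => pow_int_aux hv _)
  -- second factor
  have hav1 : a * v⁻¹ < 1 := by
    have : a * v⁻¹ ≤ a := mul_le_of_le_one_right ha0.le (inv_le_one_of_one_le₀ hv.le)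
    linarith
  have step3 : ∫⁻ ω in {ω | GG (hz (E1 ω)) N m ≤ GG (vz (E1 ω)) N m},
      ENNReal.ofReal ((v⁻¹) ^ (GG (E1 ω) N m)) ∂Q ≤
      ENNReal.ofReal (((1 - a) / (1 - a / v)) ^ m * ∏ j ∈ range N, (1 - b j * v) / (1 - b j)) := by
    refine (setLIntegral_le_lintegral _ _).trans ?_
    have := mgf_GG (P := Q) (E := E1) m N a v⁻¹ (fun j => b j * v) (by positivity) ha0.le ha1
      hav1 hbv0 hbv1
      (fun j => by
        rw [mul_assoc, mul_inv_cancel₀ hv0.ne', mul_one]; exact hb1 j) (by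
        have : (fun j => a * v⁻¹ * (b j * v)) = (fun j => a * b j) := by
          funext j; field_simp
        rw [this]; exact hcan)
    rw [this]
    have e1 : ∀ j, b j * v * v⁻¹ = b j := fun j => by field_simp
    simp only [e1, ← div_eq_mul_inv]
    exact le_rfl
  -- first factor
  have ha2 : a / v ^ 2 < 1 := by
    rw [div_lt_one (by positivity)]
    nlinarith
  have hav : a / v < 1 := by
    rw [div_lt_one (by positivity)]
    linarith
  set θ2 := sth (a / v ^ 2) (fun j => b j * v) (fun j => a * b j) with hθ2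
  have hcan2 := envLaw_pi (bx m N) θ2
  have step4 : ∫⁻ ω in {ω | GG (hz (E1 ω)) N m ≤ GG (vz (E1 ω)) N m},
      ENNReal.ofReal (v ^ (GG (E1 ω) N m)) ∂Q ≤
      ENNReal.ofReal (((1 - a / v ^ 2) / (1 - a / v)) ^ m *
        ∏ j ∈ range N, (1 - b j * v) / (1 - b j * v ^ 2)) := by
    have s1 : ∫⁻ ω in {ω | GG (hz (E1 ω)) N m ≤ GG (vz (E1 ω)) N m},
        ENNReal.ofReal (v ^ (GG (E1 ω) N m)) ∂Q ≤ ∫⁻ ω, ENNReal.ofReal (v ^ (GG (vz (E1 ω)) N m)) ∂Q := by
      refine le_trans (setLIntegral_mono' (MeasurableSet.of_discrete)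
        (g := fun ω => ENNReal.ofReal (v ^ (GG (vz (E1 ω)) N m))) (fun ω hω => ?_))
        (setLIntegral_le_lintegral _ _)
      have hω' : GG (hz (E1 ω)) N m ≤ GG (vz (E1 ω)) N m := hω
      rw [GG_max, max_eq_right hω']
    refine s1.trans ?_
    -- forget the bottom boundary
    set S0 := (bx m N).filter (fun p => p.1 ≠ 0) with hS0
    have hdep0 : Dep S0 (fun e => ENNReal.ofReal (v ^ (GG (vz e) N m))) := by
      intro e e' he
      have : GG (vz e) N m = GG (vz e') N m := by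
        refine GG_congr (m := m) (N := N) (fun p hp => ?_) N le_rfl m le_rfl
        simp only [vz]
        split_ifs with h0
        · rfl
        · exact he p (mem_filter.2 ⟨hp, h0⟩)
      simp only [this]
    have hl1 := hcan.subset (S' := S0) (filter_subset _ _)
      (fun p _ => sth_mem01 ha0.le ha1 hbv0 hbv1 hab0 hab1 p)
    have hl2 := hcan2.subset (S' := S0) (filter_subset _ _)
      (fun p _ => sth_mem01 (by positivity) ha2 hbv0 hbv1 hab0 hab1 p)
    have hl1' : EnvLaw Q S0 θ2 E1 := by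
      intro x
      rw [hl1 x]
      refine Finset.prod_congr rfl (fun p hp => ?_)
      have : p.1 ≠ 0 := (mem_filter.1 hp).2
      simp [hθ1, hθ2, sth, this]
    rw [hl1'.lintegral_same hl2 _ hdep0]
    refine le_trans (lintegral_mono (g := fun ω => ENNReal.ofReal (v ^ (GG (ext (bx m N) ω) N m)))
      (fun ω => ?_)) ?_
    · exact ENNReal.ofReal_le_ofReal (pow_le_pow_right₀ hv.le (GG_mono (vz_le _) N m))
    · have := mgf_GG (P := Measure.pi (fun p : ↥(bx m N) => geo (θ2 p)))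
        (E := fun x => ext (bx m N) x) m N (a / v ^ 2) v (fun j => b j * v) hv0
        (by positivity) ha2 (by
          have : a / v ^ 2 * v = a / v := by field_simp
          rw [this]; exact hav)
        hbv0 hbv1
        (fun j => by rw [mul_assoc, ← pow_two]; exact hbv j) (by
          have : (fun j => a / v ^ 2 * v * (b j * v)) = (fun j => a * b j) := by
            funext j; field_simp
          rw [this]; exact hcan2)
      rw [this]
      have e1 : ∀ j, b j * v * v = b j * v ^ 2 := fun j => by ring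
      have e2 : a / v ^ 2 * v = a / v := by field_simp
      simp only [e1, e2]
      exact le_rfl
  calc (P {ω | GG (hz (E ω)) N m ≤ GG (vz (E ω)) N m}) ^ 2
      ≤ (Q {ω | GG (hz (E1 ω)) N m ≤ GG (vz (E1 ω)) N m}) ^ 2 := by gcongr
    _ ≤ _ := step2
    _ ≤ ENNReal.ofReal (((1 - a / v ^ 2) / (1 - a / v)) ^ m *
        ∏ j ∈ range N, (1 - b j * v) / (1 - b j * v ^ 2)) *
        ENNReal.ofReal (((1 - a) / (1 - a / v)) ^ m * ∏ j ∈ range N, (1 - b j * v) / (1 - b j)) := by
      gcongr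
    _ = _ := by
      rw [← ENNReal.ofReal_mul]
      · congr 1
        rw [mul_mul_mul_comm, ← mul_pow, ← Finset.prod_mul_distrib]
        congr 1
        · congr 1
          rw [div_mul_div_comm]
          congr 1 <;> ring
        · refine Finset.prod_congr rfl (fun j _ => ?_)
          rw [div_mul_div_comm]
          congr 1 <;> ring
      · refine mul_nonneg (pow_nonneg (div_nonneg (by linarith) (by linarith)) _)
          (Finset.prod_nonneg (fun j _ => div_nonneg ?_ ?_))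
        · linarith [hbv1 j]
        · linarith [hbv j]

end Pool.Agent.MP2c

end
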