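import Mathlib

/-! Bundle of small proof modules (one section per former module). -/

section

/-! Real estimates for the exit bounds. (helper96, MP_2c6138_pr) -/

set_option autoImplicit false

namespace Pool.Agent.MP2c

/-- `κ(x) = x/(1-x)^2` -/
noncomputable def kap (x : ℝ) : ℝ := x / (1 - x) ^ 2

/-- `(v-1)^2/v` -/
noncomputable def cv (v : ℝ) : ℝ := (v - 1) ^ 2 / v

theorem g_eq (x v : ℝ) (hx : x < 1) (hv : 0 < v) :
    (1 - x * v) * (1 - x / v) / (1 - x) ^ 2 = 1 - kap x * cv v := by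
  have h1 : (1 - x) ≠ 0 := by linarith
  unfold kap cv
  field_simp
  ring

theorem exp_aux {t : ℝ} (h0 : 0 ≤ t) (h1 : t ≤ 1 / 2) : 1 / (1 - t) ≤ Real.exp (t + t ^ 2) := by
  have h2 : 0 < 1 - t := by linarith
  rw [div_le_iff₀ h2]
  have h3 := Real.quadratic_le_exp_of_nonneg (x := t + t ^ 2) (by positivity)
  have h4 : 1 ≤ (1 + (t + t ^ 2) + (t + t ^ 2) ^ 2 / 2) * (1 - t) := by
    have : 0 ≤ t ^ 2 := by positivity
    have h5 : 0 ≤ (1 / 2 - t) := by linarith
    nlinarith [mul_nonneg this h5, mul_nonneg (mul_nonneg this h5) h0, mul_nonneg (mul_nonneg this h5) this,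
      mul_nonneg (mul_nonneg (mul_nonneg this h5) this) h0]
  calc (1 : ℝ) ≤ (1 + (t + t ^ 2) + (t + t ^ 2) ^ 2 / 2) * (1 - t) := h4
    _ ≤ _ := by gcongr

theorem core_bound (k1 k2 c : ℝ) (n1 n2 : ℕ) (hk1 : 0 ≤ k1) (hk2 : 0 ≤ k2) (hc : 0 ≤ c)
    (h1 : k1 * c ≤ 1 / 2) (h2 : k2 * c ≤ 1 / 2) :
    (1 - k1 * c) ^ n1 * (1 / (1 - k2 * c)) ^ n2 ≤
      Real.exp (-(c * (n1 * k1 - n2 * k2)) + n2 * (k2 * c) ^ 2) := by
  have a1 : (1 - k1 * c) ^ n1 ≤ Real.exp (-(k1 * c)) ^ n1 := by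
    have := Real.one_sub_le_exp_neg (k1 * c)
    have h0 : 0 ≤ 1 - k1 * c := by linarith
    gcongr
  have a2 : (1 / (1 - k2 * c)) ^ n2 ≤ Real.exp (k2 * c + (k2 * c) ^ 2) ^ n2 := by
    have h0 : 0 ≤ 1 / (1 - k2 * c) := by
      have : 0 < 1 - k2 * c := by linarith
      positivity
    exact pow_le_pow_left₀ h0 (exp_aux (by positivity) h2) n2
  have b0 : 0 ≤ (1 / (1 - k2 * c)) ^ n2 := by
    have : 0 < 1 - k2 * c := by linarith
    positivity
  calc (1 - k1 * c) ^ n1 * (1 / (1 - k2 * c)) ^ n2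
      ≤ Real.exp (-(k1 * c)) ^ n1 * Real.exp (k2 * c + (k2 * c) ^ 2) ^ n2 :=
        mul_le_mul a1 a2 b0 (by positivity)
    _ = _ := by
      rw [← Real.exp_nat_mul, ← Real.exp_nat_mul, ← Real.exp_add]
      congr 1; ring

theorem cv_lower {h : ℝ} (h0 : 0 ≤ h) : h ^ 2 ≤ cv (Real.exp h) := by
  have e1 : cv (Real.exp h) = (2 * Real.sinh (h / 2)) ^ 2 := by
    have hs : Real.exp h = Real.exp (h / 2) ^ 2 := by
      rw [← Real.exp_nat_mul]; congr 1; push_cast; ring
    have hp : 0 < Real.exp (h / 2) := Real.exp_pos _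
    rw [Real.sinh_eq, Real.exp_neg]
    unfold cv
    rw [hs]
    field_simp
  rw [e1]
  have : h / 2 ≤ Real.sinh (h / 2) := Real.self_le_sinh_iff.2 (by positivity)
  have h2 : h ≤ 2 * Real.sinh (h / 2) := by linarith
  gcongr

theorem exp_sub_one_le {h : ℝ} (h0 : 0 ≤ h) (h1 : h ≤ 1) : Real.exp h - 1 ≤ 2 * h := by
  have := Real.abs_exp_sub_one_le (x := h) (by rw [abs_of_nonneg h0]; exact h1)
  rw [abs_of_nonneg h0] at this
  exact (le_abs_self _).trans this

theorem cv_upper {h : ℝ} (h0 : 0 ≤ h) (h1 : h ≤ 1) : cv (Real.exp h) ≤ 4 * h ^ 2 := by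
  unfold cv
  have h2 := exp_sub_one_le h0 h1
  have h3 : 1 ≤ Real.exp h := Real.one_le_exp h0
  calc (Real.exp h - 1) ^ 2 / Real.exp h ≤ (Real.exp h - 1) ^ 2 := div_le_self (by positivity) h3
    _ ≤ (2 * h) ^ 2 := by
      have : 0 ≤ Real.exp h - 1 := by linarith
      gcongr
    _ = _ := by ring

theorem kap_sub {x y : ℝ} (hx : 0 ≤ x) (hxy : x ≤ y) (hy : y < 1) : y - x ≤ kap y - kap x := by
  unfold kap
  have h1 : 0 < 1 - y := by linarith
  have h2 : 0 < 1 - x := by linarith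
  rw [div_sub_div _ _ (by positivity) (by positivity), le_div_iff₀ (by positivity)]
  have e : y * (1 - x) ^ 2 - (1 - y) ^ 2 * x = (y - x) * (1 - x * y) := by ring
  rw [e]
  have h3 : (1 - y) ^ 2 * (1 - x) ^ 2 ≤ 1 - x * y := by
    have a1 : (1 - y) ^ 2 ≤ 1 - y := by nlinarith
    have a2 : (1 - x) ^ 2 ≤ 1 := by nlinarith
    have a3 : 1 - y ≤ 1 - x * y := by nlinarith
    calc (1 - y) ^ 2 * (1 - x) ^ 2 ≤ (1 - y) * 1 := by
          apply mul_le_mul a1 a2 (by positivity) (by linarith)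
      _ ≤ _ := by linarith
  have h4 : 0 ≤ y - x := by linarith
  nlinarith

theorem kap_lip {x y r : ℝ} (hx : 0 ≤ x) (hxy : x ≤ y) (hy : y ≤ r) (hr : r < 1) :
    kap y - kap x ≤ (y - x) / (1 - r) ^ 4 := by
  unfold kap
  have h1 : 0 < 1 - y := by linarith
  have h2 : 0 < 1 - x := by linarith
  have h3 : 0 < 1 - r := by linarith
  rw [div_sub_div _ _ (by positivity) (by positivity)]
  have e : y * (1 - x) ^ 2 - (1 - y) ^ 2 * x = (y - x) * (1 - x * y) := by ring
  rw [e, div_le_div_iff₀ (by positivity) (by positivity)]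
  have a1 : 1 - x * y ≤ 1 := by nlinarith
  have a2 : (1 - r) ^ 4 ≤ (1 - y) ^ 2 * (1 - x) ^ 2 := by
    have b1 : (1 - r) ^ 2 ≤ (1 - y) ^ 2 := by gcongr
    have b2 : (1 - r) ^ 2 ≤ (1 - x) ^ 2 := by
      have : 1 - r ≤ 1 - x := by linarith
      gcongr
    calc (1 - r) ^ 4 = (1 - r) ^ 2 * (1 - r) ^ 2 := by ring
      _ ≤ _ := by gcongr
  have h4 : 0 ≤ y - x := by linarith
  have h5 : 0 ≤ 1 - x * y := by nlinarith
  calc (y - x) * (1 - x * y) * (1 - r) ^ 4 ≤ (y - x) * 1 * ((1 - y) ^ 2 * (1 - x) ^ 2) := by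
        apply mul_le_mul _ a2 (by positivity) (by linarith)
        exact mul_le_mul_of_nonneg_left a1 h4
    _ = _ := by ring

theorem kap_nonneg {x : ℝ} (hx : 0 ≤ x) : 0 ≤ kap x := by unfold kap; positivity

theorem kap_mono {x y : ℝ} (hx : 0 ≤ x) (hxy : x ≤ y) (hy : y < 1) : kap x ≤ kap y := by
  have := kap_sub hx hxy hy; linarith

theorem le_kap {x : ℝ} (hx : 0 ≤ x) (hx1 : x < 1) : x ≤ kap x := by
  have := kap_sub le_rfl hx hx1
  simpa [kap] using this

/-- final form: product bound from a linear inequality on the curvatures -/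
theorem final_bound {r h x1 x2 δ : ℝ} {n1 n2 N : ℕ} (hr : r < 1) (hh0 : 0 < h) (hh1 : h ≤ 1)
    (hx1 : 0 ≤ x1) (hx1r : x1 ≤ r) (hx2 : 0 ≤ x2) (hx2r : x2 ≤ r)
    (hn2 : (n2 : ℝ) ≤ 2 * N)
    (hδ : δ * N ≤ n1 * kap x1 - n2 * kap x2) (hhδ : 16 * kap r ^ 2 * h ^ 2 ≤ δ)
    (hsm : kap r * (4 * h ^ 2) ≤ 1 / 2) :
    ((1 - x1 * Real.exp h) * (1 - x1 / Real.exp h) / (1 - x1) ^ 2) ^ n1 *
      ((1 - x2) ^ 2 / ((1 - x2 / Real.exp h) * (1 - x2 * Real.exp h))) ^ n2 ≤
      Real.exp (-(h ^ 2 * δ * N / 2)) := by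
  have hx1' : x1 < 1 := by linarith
  have hx2' : x2 < 1 := by linarith
  have hk1 := kap_nonneg hx1
  have hk2 := kap_nonneg hx2
  have hk1r := kap_mono hx1 hx1r hr
  have hk2r := kap_mono hx2 hx2r hr
  have hcl := cv_lower hh0.le
  have hcu := cv_upper hh0.le hh1
  have hc0 : 0 ≤ cv (Real.exp h) := le_trans (by positivity) hcl
  have hN : (0 : ℝ) ≤ N := Nat.cast_nonneg _
  have s1 : kap x1 * cv (Real.exp h) ≤ 1 / 2 := le_trans (mul_le_mul hk1r hcu hc0 (hk1.trans hk1r)) hsm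
  have s2 : kap x2 * cv (Real.exp h) ≤ 1 / 2 := le_trans (mul_le_mul hk2r hcu hc0 (hk2.trans hk2r)) hsm
  have e2 : (1 - x2) ^ 2 / ((1 - x2 / Real.exp h) * (1 - x2 * Real.exp h)) =
      1 / (1 - kap x2 * cv (Real.exp h)) := by
    rw [← g_eq x2 _ hx2' (Real.exp_pos h), one_div_div, mul_comm (1 - x2 * Real.exp h)]
  rw [g_eq x1 _ hx1' (Real.exp_pos h), e2]
  refine (core_bound _ _ _ n1 n2 hk1 hk2 hc0 s1 s2).trans (Real.exp_le_exp.2 ?_)
  set c := cv (Real.exp h)
  have t1 : (n2 : ℝ) * (kap x2 * c) ^ 2 ≤ 2 * N * (kap r * c) ^ 2 := by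
    have : kap x2 * c ≤ kap r * c := mul_le_mul_of_nonneg_right hk2r hc0
    have h0 : 0 ≤ kap x2 * c := mul_nonneg hk2 hc0
    exact mul_le_mul hn2 (pow_le_pow_left₀ h0 this 2) (by positivity) (by positivity)
  have t2 : 2 * N * (kap r * c) ^ 2 ≤ c * (δ * N) / 2 := by
    have : 4 * kap r ^ 2 * c ≤ δ := by
      have hk : 0 ≤ kap r ^ 2 := by positivity
      nlinarith
    have h3 : 0 ≤ c * N := mul_nonneg hc0 hN
    nlinarith
  have t3 : h ^ 2 * δ * N / 2 ≤ c * (δ * N) / 2 := by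
    have hδ0 : 0 ≤ δ := le_trans (by positivity) hhδ
    have : 0 ≤ δ * N := mul_nonneg hδ0 hN
    nlinarith
  have t4 : c * (δ * N) ≤ c * (n1 * kap x1 - n2 * kap x2) := mul_le_mul_of_nonneg_left hδ hc0
  linarith

end Pool.Agent.MP2c

end

section

/-! Finite product spaces: expectation, one-coordinate averages, site-resampling noise operator.
(helper96, MP_2c6138_pr) -/

set_option autoImplicit false

namespace Pool.Agent.MP2c

open Finset

section
variable {V α : Type} [Fintype V] [DecidableEq V] [Fintype α] [DecidableEq α]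

/-- Expectation of `f` when the coordinates are independent with weights `μ`. -/
noncomputable def EE (μ : α → ℝ) (f : (V → α) → ℝ) : ℝ := ∑ x : V → α, (∏ v, μ (x v)) * f x

/-- One-site noise kernel: keep with probability `p`, else resample from `μ`. -/
noncomputable def KK (μ : α → ℝ) (p : ℝ) (a b : α) : ℝ := (if a = b then p else 0) + (1 - p) * μ b

/-- The noise operator (every coordinate kept with probability `p`, else resampled). -/
noncomputable def TT (μ : α → ℝ) (p : ℝ) (f : (V → α) → ℝ) (x : V → α) : ℝ :=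
  ∑ y : V → α, (∏ v, KK μ p (x v) (y v)) * f y

/-- Average over the coordinate `v`. -/
noncomputable def avg (μ : α → ℝ) (v : V) (f : (V → α) → ℝ) (x : V → α) : ℝ :=
  ∑ a, μ a * f (Function.update x v a)

/-- Replace the coordinates in `W` by those of `y`. -/
def mix (W : Finset V) (y x : V → α) : V → α := fun v => if v ∈ W then y v else x v

end

end Pool.Agent.MP2c

end

section

/-! Geometric law on ℕ. (helper96, MP_2c6138_pr) -/

set_option autoImplicit false

namespace Pool.Agent.MP2c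

open MeasureTheory

/-- Geometric law: mass `(1-a) a^k` at `k`. -/
noncomputable def geo (a : ℝ) : Measure ℕ :=
  Measure.sum (fun k : ℕ => ENNReal.ofReal ((1 - a) * a ^ k) • Measure.dirac k)

theorem lintegral_geo (a : ℝ) (f : ℕ → ENNReal) :
    ∫⁻ k, f k ∂(geo a) = ∑' k : ℕ, ENNReal.ofReal ((1 - a) * a ^ k) * f k := by
  simp [geo, lintegral_sum_measure, lintegral_smul_measure, lintegral_dirac]

theorem geo_singleton (a : ℝ) (k : ℕ) : geo a {k} = ENNReal.ofReal ((1 - a) * a ^ k) := by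
  rw [← lintegral_indicator_one (MeasurableSet.of_discrete), lintegral_geo, tsum_eq_single k]
  · simp
  · intro j hj
    simp [hj]

theorem geo_univ (a : ℝ) (h0 : 0 ≤ a) (h1 : a < 1) : geo a Set.univ = 1 := by
  have h : ∫⁻ _, (1 : ENNReal) ∂(geo a) = geo a Set.univ := by simp
  rw [← h, lintegral_geo]
  simp only [mul_one]
  rw [← ENNReal.ofReal_tsum_of_nonneg, tsum_mul_left, tsum_geometric_of_lt_one h0 h1,
    mul_inv_cancel₀ (by linarith), ENNReal.ofReal_one]
  · intro k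
    have : 0 ≤ 1 - a := by linarith
    positivity
  · exact (summable_geometric_of_lt_one h0 h1).mul_left _

theorem isProbabilityMeasure_geo (a : ℝ) (h0 : 0 ≤ a) (h1 : a < 1) : IsProbabilityMeasure (geo a) :=
  ⟨geo_univ a h0 h1⟩

instance (a : ℝ) : SigmaFinite (geo a) := by
  refine ⟨⟨⟨fun n => Set.Iic n, fun _ => trivial, fun n => ?_, ?_⟩⟩⟩
  · have : (geo a) (Set.Iic n) = ∑ k ∈ Finset.Iic n, geo a {k} := by
      rw [← Finset.coe_Iic, ← measure_biUnion_finset]
      · congr 1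
        ext x; simp
      · intro i _ j _ hij
        simpa using hij
      · intro i _; exact MeasurableSet.of_discrete
    rw [this]
    exact ENNReal.sum_lt_top.mpr (fun k _ => by rw [geo_singleton]; exact ENNReal.ofReal_lt_top)
  · ext x
    simp only [Set.mem_iUnion, Set.mem_Iic, Set.mem_univ, iff_true]
    exact ⟨x, le_rfl⟩

end Pool.Agent.MP2c

end

section

/-! Choice of the parameters (item D1 of MP_2c6138_pr). -/

set_option autoImplicit false
set_option linter.unusedSectionVars false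
set_option linter.unusedVariables false
set_option maxHeartbeats 1000000

namespace Pool.Agent.MP2c

open Filter Topology

/-- choice of the parameters -/
theorem params_ev {s g t0 h0 C1 Cq A δ ε M : ℝ} (hs0 : 0 < s) (hg : 0 < g) (ht0 : 0 < t0)
    (hh0 : 0 < h0) (hC1 : 1 ≤ C1) (hA : 0 < A) (hδ : 0 < δ) (hδ1 : δ ≤ 1 / 12)
    (hδε : 2 * δ ≤ ε) (hM : 0 ≤ M) :
    ∀ᶠ x : ℝ in atTop, ∃ w : ℝ, 1 ≤ x ∧ 1 ≤ w ∧ w ^ 3 = A * δ * Real.log x ∧
      x ^ (δ - 1 / 3 : ℝ) ≤ h0 ∧ x ^ (δ - 1 / 3 : ℝ) ≤ 1 ∧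
      3 * (w * x ^ (-(1 / 3) : ℝ)) ≤ t0 ∧
      2 * (C1 * x ^ (δ - 1 / 3 : ℝ) * x + 1) < x ∧
      2 * (C1 * x ^ (δ - 1 / 3 : ℝ) * x + 1) ≤ x ^ (2 / 3 + ε : ℝ) ∧
      4 * C1 * (x ^ (δ - 1 / 3 : ℝ)) ^ 3 * x + 5 ≤ x ^ (4 * δ : ℝ) ∧
      w * x ^ (-(1 / 3) : ℝ) * (x ^ (1 / 3 - δ / 2 : ℝ) + 1) ≤ Real.log 2 ∧
      x ^ (δ / 2 : ℝ) ≤ s * (x ^ (δ - 1 / 3 : ℝ)) ^ 3 * x / 4 ∧
      M * Real.log x + Cq ≤ x ^ (δ / 2 : ℝ) ∧
      g * (w * x ^ (-(1 / 3) : ℝ)) + Real.log 32 + w ≤ 2 * δ * Real.log x ∧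
      2 * (g * (w * x ^ (-(1 / 3) : ℝ))) + Real.log 1024 ≤ 4 * δ * Real.log x := by
  have hlog := Real.tendsto_log_atTop
  have hAδ : 0 < A * δ := by positivity
  have hwT : Tendsto (fun x : ℝ => (A * δ * Real.log x) ^ (1 / 3 : ℝ)) atTop atTop :=
    (tendsto_rpow_atTop (by norm_num)).comp (hlog.const_mul_atTop hAδ)
  -- smallness of log against powers
  have hlo : ∀ r : ℝ, 0 < r → Tendsto (fun x : ℝ => Real.log x * x ^ (-r)) atTop (𝓝 0) := by
    intro r hr
    have h1 := (isLittleO_log_rpow_atTop hr).tendsto_div_nhds_zero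
    refine h1.congr' ?_
    filter_upwards [eventually_gt_atTop 0] with x hx
    rw [Real.rpow_neg hx.le, div_eq_mul_inv]
  have e1 := eventually_ge_atTop (1 : ℝ)
  have ew := hwT.eventually_ge_atTop (max 1 A)
  have eL1 := hlog.eventually_ge_atTop ((g * t0 + Real.log 32) / δ)
  have eL2 := hlog.eventually_ge_atTop ((2 * (g * t0) + Real.log 1024) / (4 * δ))
  have eh : Tendsto (fun x : ℝ => x ^ (δ - 1 / 3 : ℝ)) atTop (𝓝 0) := by
    have := tendsto_rpow_neg_atTop (y := 1 / 3 - δ) (by linarith)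
    refine this.congr (fun x => ?_)
    congr 1; ring
  have eh1 := eh.eventually_le_const hh0
  have eh2 := eh.eventually_le_const (show (0 : ℝ) < 1 by norm_num)
  have eh3 := eh.eventually_le_const (show (0 : ℝ) < 1 / (8 * C1) by positivity)
  have ex8 := eventually_ge_atTop (8 : ℝ)
  have exδ := (tendsto_rpow_atTop hδ).eventually_ge_atTop (4 * C1 + 5)
  have ey := (tendsto_rpow_atTop (show 0 < δ / 2 by positivity)).eventually_ge_atTop (max (4 / s) 1)
  have eM : ∀ᶠ x : ℝ in atTop, M * Real.log x + Cq ≤ x ^ (δ / 2 : ℝ) := by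
    have h1 := (hlo (δ / 2) (by positivity)).eventually_le_const
      (show (0 : ℝ) < 1 / (2 * (M + 1)) by positivity)
    have h2 := (tendsto_rpow_atTop (show 0 < δ / 2 by positivity)).eventually_ge_atTop (2 * Cq)
    filter_upwards [h1, h2, eventually_ge_atTop 1] with x h1 h2 h3
    have hx : 0 < x := by linarith
    have h4 : Real.log x ≤ x ^ (δ / 2 : ℝ) / (2 * (M + 1)) := by
      rw [Real.rpow_neg hx.le] at h1
      have hp : 0 < x ^ (δ / 2 : ℝ) := by positivity
      have := mul_le_mul_of_nonneg_right h1 hp.le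
      calc Real.log x = Real.log x * (x ^ (δ / 2 : ℝ))⁻¹ * x ^ (δ / 2 : ℝ) := by field_simp
        _ ≤ _ := this
        _ = _ := by ring
    have hl : 0 ≤ Real.log x := Real.log_nonneg h3
    have h5 : M * Real.log x ≤ x ^ (δ / 2 : ℝ) / 2 := by
      calc M * Real.log x ≤ (M + 1) * Real.log x := by nlinarith
        _ ≤ (M + 1) * (x ^ (δ / 2 : ℝ) / (2 * (M + 1))) := by gcongr
        _ = _ := by field_simp
    linarith
  -- A δ log x x^{-r} small
  have hsm : ∀ r : ℝ, 0 < r → ∀ η : ℝ, 0 < η → ∀ᶠ x : ℝ in atTop, A * δ * Real.log x * x ^ (-r) ≤ η := by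
    intro r hr η hη
    have h1 := ((hlo r hr).const_mul (A * δ)).eventually_le_const (u := η) (by simpa using hη)
    filter_upwards [h1] with x hx
    calc _ = A * δ * (Real.log x * x ^ (-r)) := by ring
      _ ≤ _ := hx
  have es1 := hsm (1 / 3) (by norm_num) (t0 / 3) (by positivity)
  have hl2 : 0 < Real.log 2 := Real.log_pos (by norm_num)
  have es2 := hsm (1 / 3) (by norm_num) (Real.log 2 / 2) (by positivity)
  have es3 := hsm (δ / 2) (by positivity) (Real.log 2 / 2) (by positivity)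
  filter_upwards [e1, ew, eL1, eL2, eh1, eh2, eh3, ex8, exδ, ey, eM, es1, es2, es3] with x e1 ew eL1 eL2
    eh1 eh2 eh3 ex8 exδ ey eM es1 es2 es3
  have hx : 0 < x := by linarith
  have hL0 : 0 ≤ Real.log x := Real.log_nonneg e1
  set w := (A * δ * Real.log x) ^ (1 / 3 : ℝ) with hw
  have hw1 : 1 ≤ w := (le_max_left _ _).trans ew
  have hwA : A ≤ w := (le_max_right _ _).trans ew
  have hw3 : w ^ 3 = A * δ * Real.log x := by
    rw [hw, ← Real.rpow_natCast, ← Real.rpow_mul (by positivity)]; norm_num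
  have hww : w ≤ A * δ * Real.log x := by
    rw [← hw3]
    nlinarith [mul_le_mul hw1 hw1 (by norm_num) (by linarith)]
  have hw2 : w ≤ δ * Real.log x := by
    have h1 : A * w ≤ A * (δ * Real.log x) := by
      calc A * w ≤ w * w := by gcongr
        _ ≤ w ^ 3 := by nlinarith
        _ = _ := by rw [hw3]; ring
    exact le_of_mul_le_mul_left h1 hA
  have hτ0 : 0 < w * x ^ (-(1 / 3) : ℝ) := by positivity
  have hτt : w * x ^ (-(1 / 3) : ℝ) ≤ t0 / 3 := by
    calc _ ≤ A * δ * Real.log x * x ^ (-(1 / 3) : ℝ) := by gcongr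
      _ ≤ _ := es1
  have hh3x : (x ^ (δ - 1 / 3 : ℝ)) ^ 3 * x = x ^ (3 * δ : ℝ) := by
    rw [← Real.rpow_natCast, ← Real.rpow_mul hx.le]
    nth_rewrite 2 [← Real.rpow_one x]
    rw [← Real.rpow_add hx]
    congr 1; push_cast; ring
  have hhx : x ^ (δ - 1 / 3 : ℝ) * x = x ^ (2 / 3 + δ : ℝ) := by
    nth_rewrite 2 [← Real.rpow_one x]
    rw [← Real.rpow_add hx]
    congr 1; ring
  have hy1 : 1 ≤ x ^ (δ / 2 : ℝ) := (le_max_right _ _).trans ey
  have hys : 4 / s ≤ x ^ (δ / 2 : ℝ) := (le_max_left _ _).trans ey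
  refine ⟨w, e1, hw1, hw3, eh1, eh2, by linarith, ?_, ?_, ?_, ?_, ?_, eM, ?_, ?_⟩
  · -- 2 z0 < n
    have h1 : C1 * x ^ (δ - 1 / 3 : ℝ) ≤ 1 / 8 := by
      calc C1 * x ^ (δ - 1 / 3 : ℝ) ≤ C1 * (1 / (8 * C1)) := by gcongr
        _ = _ := by field_simp
    have h2 : C1 * x ^ (δ - 1 / 3 : ℝ) * x ≤ 1 / 8 * x := by gcongr
    linarith
  · have h1 : C1 * x ^ (δ - 1 / 3 : ℝ) * x = C1 * x ^ (2 / 3 + δ : ℝ) := by rw [mul_assoc, hhx]
    rw [h1]
    have h2 : 1 ≤ x ^ (2 / 3 + δ : ℝ) := Real.one_le_rpow e1 (by positivity)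
    calc 2 * (C1 * x ^ (2 / 3 + δ : ℝ) + 1) ≤ (4 * C1 + 5) * x ^ (2 / 3 + δ : ℝ) := by nlinarith
      _ ≤ x ^ δ * x ^ (2 / 3 + δ : ℝ) := by gcongr
      _ = x ^ (δ + (2 / 3 + δ) : ℝ) := (Real.rpow_add hx _ _).symm
      _ ≤ _ := Real.rpow_le_rpow_of_exponent_le e1 (by linarith)
  · have h1 : 4 * C1 * (x ^ (δ - 1 / 3 : ℝ)) ^ 3 * x = 4 * C1 * x ^ (3 * δ : ℝ) := by
      rw [mul_assoc, hh3x]
    rw [h1]
    have h2 : 1 ≤ x ^ (3 * δ : ℝ) := Real.one_le_rpow e1 (by positivity)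
    calc 4 * C1 * x ^ (3 * δ : ℝ) + 5 ≤ (4 * C1 + 5) * x ^ (3 * δ : ℝ) := by nlinarith
      _ ≤ x ^ δ * x ^ (3 * δ : ℝ) := by gcongr
      _ = x ^ (δ + 3 * δ : ℝ) := (Real.rpow_add hx _ _).symm
      _ = _ := by congr 1; ring
  · have h1 : w * x ^ (-(1 / 3) : ℝ) * x ^ (1 / 3 - δ / 2 : ℝ) = w * x ^ (-(δ / 2) : ℝ) := by
      rw [mul_assoc, ← Real.rpow_add hx]; congr 2; ring
    have h2 : w * x ^ (-(δ / 2) : ℝ) ≤ Real.log 2 / 2 := by
      calc _ ≤ A * δ * Real.log x * x ^ (-(δ / 2) : ℝ) := by gcongr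
        _ ≤ _ := es3
    have h3 : w * x ^ (-(1 / 3) : ℝ) ≤ Real.log 2 / 2 := by
      calc _ ≤ A * δ * Real.log x * x ^ (-(1 / 3) : ℝ) := by gcongr
        _ ≤ _ := es2
    rw [mul_add, h1, mul_one]
    linarith
  · have h1 : s * (x ^ (δ - 1 / 3 : ℝ)) ^ 3 * x / 4 = s / 4 * x ^ (3 * δ : ℝ) := by
      rw [mul_assoc, hh3x]; ring
    rw [h1]
    have h2 : x ^ (3 * δ : ℝ) = (x ^ (δ / 2 : ℝ)) ^ 6 := by
      rw [← Real.rpow_natCast, ← Real.rpow_mul hx.le]; congr 1; push_cast; ring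
    rw [h2]
    set y := x ^ (δ / 2 : ℝ) with hy
    have h3 : 1 ≤ s / 4 * y := by
      rw [div_le_iff₀ hs0] at hys
      linarith
    have h4 : 1 ≤ y ^ 4 := one_le_pow₀ hy1
    calc y = 1 * 1 * y := by ring
      _ ≤ (s / 4 * y) * y ^ 4 * y := by gcongr
      _ = _ := by ring
  · rw [div_le_iff₀ hδ] at eL1
    have : g * (w * x ^ (-(1 / 3) : ℝ)) ≤ g * t0 := by
      gcongr
      linarith
    linarith
  · rw [div_le_iff₀ (by positivity)] at eL2
    have : g * (w * x ^ (-(1 / 3) : ℝ)) ≤ g * t0 := by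
      gcongr
      linarith
    linarith

end Pool.Agent.MP2c

end

section

/-! Deterministic facts about last passage profiles (queues in tandem).
Columns are indexed by `i`; column `0` is the boundary column. (helper96, MP_2c6138_pr) -/

set_option autoImplicit false

namespace Pool.Agent.MP2c

/-- One row update of a last passage profile `X` with row weights `y`. -/
def up (y X : ℕ → ℕ) : ℕ → ℕ
  | 0 => X 0 + y 0
  | i + 1 => y (i + 1) + max (up y X i) (X (i + 1))

/-- Profile after `j` rows `e 0, …, e (j-1)`, started from the profile `X`. -/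
def Gx (X : ℕ → ℕ) (e : ℕ → ℕ → ℕ) : ℕ → ℕ → ℕ
  | 0 => X
  | j + 1 => up (e j) (Gx X e j)

@[simp] theorem up_zero (y X : ℕ → ℕ) : up y X 0 = X 0 + y 0 := rfl
theorem up_succ (y X : ℕ → ℕ) (i : ℕ) : up y X (i + 1) = y (i + 1) + max (up y X i) (X (i + 1)) := rfl
@[simp] theorem Gx_zero (X : ℕ → ℕ) (e : ℕ → ℕ → ℕ) : Gx X e 0 = X := rfl
theorem Gx_succ (X : ℕ → ℕ) (e : ℕ → ℕ → ℕ) (j : ℕ) : Gx X e (j + 1) = up (e j) (Gx X e j) := rfl

/-- `up` only depends on the entries up to `i`. -/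
theorem up_congr {y y' X X' : ℕ → ℕ} {i : ℕ} (hy : ∀ k ≤ i, y k = y' k) (hX : ∀ k ≤ i, X k = X' k) :
    up y X i = up y' X' i := by
  induction i with
  | zero => simp [hy 0 le_rfl, hX 0 le_rfl]
  | succ i ih =>
    rw [up_succ, up_succ, hy _ le_rfl, hX _ le_rfl,
      ih (fun k hk => hy k (by omega)) (fun k hk => hX k (by omega))]

theorem Gx_congr {X X' : ℕ → ℕ} {e e' : ℕ → ℕ → ℕ} {i : ℕ} (j : ℕ) (hX : ∀ k ≤ i, X k = X' k)
    (he : ∀ r < j, ∀ k ≤ i, e r k = e' r k) : ∀ k ≤ i, Gx X e j k = Gx X' e' j k := by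
  induction j with
  | zero => simpa using hX
  | succ j ih =>
    intro k hk
    rw [Gx_succ, Gx_succ]
    exact up_congr (fun l hl => he j (by omega) l (by omega))
      (fun l hl => ih (fun r hr l hl => he r (by omega) l hl) l (by omega))

theorem Gx_add (X : ℕ → ℕ) (e : ℕ → ℕ → ℕ) (j k : ℕ) :
    Gx X e (j + k) = Gx (Gx X e j) (fun r => e (j + r)) k := by
  induction k with
  | zero => rfl
  | succ k ih => rw [← add_assoc, Gx_succ, Gx_succ, ih]

theorem le_up (y X : ℕ → ℕ) (i : ℕ) : X i ≤ up y X i := by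
  cases i with
  | zero => simp
  | succ i => rw [up_succ]; omega

theorem up_mono (y X : ℕ → ℕ) : Monotone (up y X) := by
  refine monotone_nat_of_le_succ (fun i => ?_)
  rw [up_succ]; omega

/-- comparison of increments, one row -/
theorem up_attract {y y' X X' : ℕ → ℕ} (hy0 : y' 0 ≤ y 0) (hy : ∀ i, y (i + 1) = y' (i + 1))
    (hX : ∀ i, X (i + 1) + X' i ≤ X' (i + 1) + X i) (i : ℕ) :
    up y' X' i + X i ≤ up y X i + X' i ∧
    up y X (i + 1) + up y' X' i ≤ up y' X' (i + 1) + up y X i := by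
  have key : ∀ i, up y' X' i + X i ≤ up y X i + X' i := by
    intro i
    induction i with
    | zero => simp; omega
    | succ i ih =>
      have := hX i
      rw [up_succ, up_succ, hy i]
      omega
  refine ⟨key i, ?_⟩
  have h1 := key i
  have h2 := hX i
  rw [up_succ, up_succ, hy i]
  omega

/-- Attractiveness: with larger left boundary and smaller bottom increments, the horizontal
increments are smaller. -/
theorem Gx_attract {X X' : ℕ → ℕ} {e e' : ℕ → ℕ → ℕ} (he0 : ∀ j, e' j 0 ≤ e j 0)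
    (he : ∀ j i, e j (i + 1) = e' j (i + 1))
    (hX : ∀ i, X (i + 1) + X' i ≤ X' (i + 1) + X i) (j i : ℕ) :
    Gx X e j (i + 1) + Gx X' e' j i ≤ Gx X' e' j (i + 1) + Gx X e j i := by
  induction j generalizing i with
  | zero => exact hX i
  | succ j ih =>
    rw [Gx_succ, Gx_succ]
    exact (up_attract (he0 j) (he j) ih i).2

/-- summed version -/
theorem incr_le_of_step {F F' : ℕ → ℕ} (h : ∀ i, F (i + 1) + F' i ≤ F' (i + 1) + F i) {i k : ℕ}
    (hik : i ≤ k) : F k + F' i ≤ F' k + F i := by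
  induction k, hik using Nat.le_induction with
  | base => omega
  | succ k hk ih => have := h k; omega

/-- environment with boundary column `b` and bulk `w` -/
def env (b : ℕ → ℕ) (w : ℕ → ℕ → ℕ) : ℕ → ℕ → ℕ := fun j i => if i = 0 then b j else w j i

@[simp] theorem env_zero (b : ℕ → ℕ) (w : ℕ → ℕ → ℕ) (j : ℕ) : env b w j 0 = b j := rfl
@[simp] theorem env_succ (b : ℕ → ℕ) (w : ℕ → ℕ → ℕ) (j i : ℕ) : env b w j (i + 1) = w j (i + 1) := rfl

/-- max-linearity -/
theorem Gx_max (X b : ℕ → ℕ) (w : ℕ → ℕ → ℕ) (hX : X 0 = 0) (j i : ℕ) :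
    Gx X (env b w) j i = max (Gx X (env 0 w) j i) (Gx 0 (env b w) j i) := by
  induction j generalizing i with
  | zero => simp
  | succ j ih =>
    have h0 : ∀ j, Gx X (env 0 w) j 0 = 0 := by
      intro j
      induction j with
      | zero => exact hX
      | succ j ih => rw [Gx_succ, up_zero, ih]; rfl
    rw [Gx_succ, Gx_succ, Gx_succ]
    induction i with
    | zero =>
      rw [up_zero, up_zero, up_zero, ih 0, h0]
      simp
    | succ i ihi =>
      rw [up_succ, up_succ, up_succ, ihi, ih (i + 1), env_succ, env_succ]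
      omega

/-- The row swap (queue interchange) identity. `y`, `z` are two rows of weights, `s` is the
workload of the auxiliary system. -/
theorem row_swap {y z s R D X : ℕ → ℕ} (hs : ∀ i, s (i + 1) = z (i + 1) + (s i - y (i + 1)))
    (hR : ∀ i, R (i + 1) = min (y (i + 1)) (s i))
    (hD : ∀ i, D (i + 1) = z (i + 1) + (y (i + 1) - s i))
    (hy0 : y 0 = 0) (hz0 : z 0 = 0) (hR0 : R 0 = 0) (hD0 : D 0 = 0) (i : ℕ) :
    up z (up y X) i = up D (up R X) i := by
  have key : ∀ i, up z (up y X) i = up D (up R X) i ∧ up R X i ≤ up y X i ∧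
      up z (up y X) i ≤ up y X i + s i ∧
      (up R X i < up y X i → up y X i + s i ≤ up z (up y X) i) := by
    intro i
    induction i with
    | zero => simp [hy0, hz0, hR0, hD0]
    | succ i ih =>
      obtain ⟨h1, h2, h3, h4⟩ := ih
      have hs' := hs i
      have hR' := hR i
      have hD' := hD i
      rw [up_succ z, up_succ D, up_succ y, up_succ R]
      omega
  exact (key i).1

end Pool.Agent.MP2c

end

section

/-! Interface statements between the parts of the proof. (helper96, MP_2c6138_pr) -/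

set_option autoImplicit false

namespace Pool.Agent.MP2c

open MeasureTheory ProbabilityTheory Finset

open Classical in
/-- Passage time of the `n × n` box: maximal weight of a chain (as in the frozen statement). -/
noncomputable def Tch {n : ℕ} (x : Fin n × Fin n → ℕ) : ℕ :=
  (Finset.univ.filter (fun S : Finset (Fin n × Fin n) => IsChain (· ≤ ·) (S : Set (Fin n × Fin n)))).sup
    (fun S => ∑ v ∈ S, x v)

/-- some chain through `v` has weight at least `T - y` -/
def NG {n : ℕ} (y : ℕ) (v : Fin n × Fin n) (x : Fin n × Fin n → ℕ) : Prop :=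
  ∃ S : Finset (Fin n × Fin n), IsChain (· ≤ ·) (S : Set (Fin n × Fin n)) ∧ v ∈ S ∧
    Tch x ≤ ∑ w ∈ S, x w + y

/-- number of steps to the closer corner -/
def dd {n : ℕ} (v : Fin n × Fin n) : ℕ := min (v.1.1 + v.2.1) (2 * (n - 1) - (v.1.1 + v.2.1))

/-- Bounds for near geodesics (to be proved by helper96). -/
def NearGeoBound (q : ℝ) : Prop :=
  ∀ ε : ℝ, 0 < ε → ∃ C c : ℝ, 0 < C ∧ 0 < c ∧ ∃ d0 : ℕ, 1 ≤ d0 ∧
    ∀ (n : ℕ) (v : Fin n × Fin n), d0 ≤ dd v →
      (∀ y : ℕ, (Measure.pi (fun _ : Fin n × Fin n => geo q)) {x | NG y v x} ≤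
        ENNReal.ofReal (C * ((y : ℝ) + 1) ^ 2 * (dd v : ℝ) ^ (-(2 / 3 : ℝ) + ε) +
          Real.exp (-(dd v : ℝ) ^ c))) ∧
      (∀ y : ℕ, (y : ℝ) ≤ (dd v : ℝ) ^ (1 / 4 : ℝ) →
        (dd v : ℝ) ^ (2 / 3 + ε : ℝ) ≤ |(v.1.1 : ℝ) - (v.2.1 : ℝ)| →
        (Measure.pi (fun _ : Fin n × Fin n => geo q)) {x | NG y v x} ≤
          ENNReal.ofReal (Real.exp (-(dd v : ℝ) ^ c)))

/-- Lower bound for the variance. -/
def VarLower (q : ℝ) : Prop :=
  ∀ ε : ℝ, 0 < ε → ∃ n0 : ℕ, ∀ n : ℕ, n0 ≤ n →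
    (n : ℝ) ^ ((2 / 3 : ℝ) - ε) ≤
      variance (fun x : Fin n × Fin n → ℕ => (Tch x : ℝ)) (Measure.pi (fun _ : Fin n × Fin n => geo q))

/-- geometric weights truncated at `M` -/
noncomputable def tg (q : ℝ) (M : ℕ) : Fin (M + 1) → ℝ :=
  fun k => if (k : ℕ) < M then (1 - q) * q ^ (k : ℕ) else q ^ M

/-- passage time as a real function of truncated weights -/
noncomputable def TM (n M : ℕ) (x : Fin n × Fin n → Fin (M + 1)) : ℝ := (Tch (fun v => (x v : ℕ)) : ℝ)

/-- Small covariance at one fixed noise level, for truncated weights. -/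
def SmallCov (q : ℝ) : Prop :=
  ∃ c p : ℝ, 0 < c ∧ 0 < p ∧ p ≤ 1 ∧ ∀ K : ℕ, ∃ n0 : ℕ, ∀ n M : ℕ, n0 ≤ n →
    q ^ M ≤ ((n : ℝ) ^ (10 : ℕ))⁻¹ → (M : ℝ) ≤ K * Real.log n →
    EE (tg q M) (fun x => TM n M x * TT (tg q M) p (TM n M) x) - (EE (tg q M) (TM n M)) ^ 2 ≤
      (n : ℝ) ^ ((2 / 3 : ℝ) - c)

end Pool.Agent.MP2c

end

section

/-! Random environments with independent geometric coordinates. (helper96, MP_2c6138_pr) -/

set_option autoImplicit false
set_option linter.unusedSectionVars false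

namespace Pool.Agent.MP2c

open MeasureTheory Finset
open scoped ENNReal

variable {κ : Type} [DecidableEq κ]

/-- Restriction of an environment to a finite set of sites. -/
def rst (S : Finset κ) (e : κ → ℕ) : (↥S → ℕ) := fun p => e p.1

/-- Extension by zero. -/
def ext (S : Finset κ) (x : ↥S → ℕ) : κ → ℕ := fun p => if h : p ∈ S then x ⟨p, h⟩ else 0

theorem ext_rst_apply (S : Finset κ) (e : κ → ℕ) {p : κ} (hp : p ∈ S) : ext S (rst S e) p = e p := by
  simp [ext, rst, hp]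

/-- `F` only depends on the coordinates in `S`. -/
def Dep {β : Type} (S : Finset κ) (F : (κ → ℕ) → β) : Prop :=
  ∀ e e' : κ → ℕ, (∀ p ∈ S, e p = e' p) → F e = F e'

theorem Dep.ext_rst {β : Type} {S : Finset κ} {F : (κ → ℕ) → β} (hF : Dep S F) (e : κ → ℕ) :
    F (ext S (rst S e)) = F e := hF _ _ (fun _ hp => ext_rst_apply S e hp)

theorem Dep.mono {β : Type} {S S' : Finset κ} {F : (κ → ℕ) → β} (hF : Dep S F) (h : S ⊆ S') :
    Dep S' F := fun e e' he => hF e e' (fun p hp => he p (h hp))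

theorem Dep.comp {β γ : Type} {S : Finset κ} {F : (κ → ℕ) → β} (hF : Dep S F) (g : β → γ) :
    Dep S (fun e => g (F e)) := fun e e' he => by simp only [hF e e' he]

variable {Ω : Type} [MeasurableSpace Ω] [DiscreteMeasurableSpace Ω]
variable {Ω' : Type} [MeasurableSpace Ω'] [DiscreteMeasurableSpace Ω']

/-- On the sites of `S`, the environment `E` has independent geometric coordinates. -/
def EnvLaw (P : Measure Ω) (S : Finset κ) (θ : κ → ℝ) (E : Ω → κ → ℕ) : Prop :=
  ∀ x : κ → ℕ, P {ω | ∀ p ∈ S, E ω p = x p} = ∏ p ∈ S, geo (θ p) {x p}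

theorem EnvLaw.map_eq {P : Measure Ω} {S : Finset κ} {θ : κ → ℝ} {E : Ω → κ → ℕ}
    (h : EnvLaw P S θ E) :
    P.map (fun ω => rst S (E ω)) = Measure.pi (fun p : ↥S => geo (θ p)) := by
  refine Measure.ext_of_singleton fun x => ?_
  rw [Measure.map_apply (Measurable.of_discrete) (measurableSet_singleton _), Measure.pi_singleton]
  have h1 := h (ext S x)
  have h2 : (fun ω => rst S (E ω)) ⁻¹' {x} = {ω | ∀ p ∈ S, E ω p = ext S x p} := by
    ext ω
    simp only [Set.mem_preimage, Set.mem_singleton_iff, Set.mem_ofPred_eq]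
    constructor
    · intro hx p hp
      rw [← hx]
      exact (ext_rst_apply S (E ω) hp).symm
    · intro hx
      funext p
      have := hx p.1 p.2
      simp only [ext, p.2, dite_true] at this
      exact this
  rw [h2, h1, ← Finset.prod_coe_sort]
  refine Finset.prod_congr rfl (fun p _ => ?_)
  simp [ext]

theorem EnvLaw.lintegral {P : Measure Ω} {S : Finset κ} {θ : κ → ℝ} {E : Ω → κ → ℕ}
    (h : EnvLaw P S θ E) (F : (κ → ℕ) → ℝ≥0∞) (hF : Dep S F) :
    ∫⁻ ω, F (E ω) ∂P = ∑' x : ↥S → ℕ, (∏ p ∈ S, geo (θ p) {ext S x p}) * F (ext S x) := by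
  have h1 : ∫⁻ ω, F (E ω) ∂P = ∫⁻ ω, (fun x => F (ext S x)) (rst S (E ω)) ∂P := by
    refine lintegral_congr (fun ω => ?_)
    exact (hF.ext_rst (E ω)).symm
  rw [h1, ← lintegral_map (f := fun x : ↥S → ℕ => F (ext S x)) (g := fun ω => rst S (E ω))
    (Measurable.of_discrete) (Measurable.of_discrete), h.map_eq, lintegral_countable']
  refine tsum_congr (fun x => ?_)
  rw [Measure.pi_singleton, mul_comm]
  congr 1
  rw [← Finset.prod_coe_sort S (fun p => geo (θ p) {ext S x p})]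
  refine Finset.prod_congr rfl (fun p _ => ?_)
  simp [ext]

/-- Change of parameters. -/
theorem EnvLaw.lintegral_congr {P : Measure Ω} {P' : Measure Ω'} {S : Finset κ} {θ θ' : κ → ℝ}
    {E : Ω → κ → ℕ} {E' : Ω' → κ → ℕ}
    (h : EnvLaw P S θ E) (h' : EnvLaw P' S θ' E') (F F' : (κ → ℕ) → ℝ≥0∞) (hF : Dep S F)
    (hF' : Dep S F') (c : ℝ≥0∞)
    (hc : ∀ x : κ → ℕ, (∏ p ∈ S, geo (θ p) {x p}) * F x = c * ((∏ p ∈ S, geo (θ' p) {x p}) * F' x)) :
    ∫⁻ ω, F (E ω) ∂P = c * ∫⁻ ω, F' (E' ω) ∂P' := by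
  rw [h.lintegral F hF, h'.lintegral F' hF', ← ENNReal.tsum_mul_left]
  exact tsum_congr (fun x => hc _)

theorem EnvLaw.subset {P : Measure Ω} {S S' : Finset κ} {θ : κ → ℝ} {E : Ω → κ → ℕ}
    (h : EnvLaw P S θ E) (hS : S' ⊆ S) (hθ : ∀ p ∈ S, 0 ≤ θ p ∧ θ p < 1) : EnvLaw P S' θ E := by
  intro x
  have h2 : {ω | ∀ p ∈ S', E ω p = x p} = (fun ω => rst S (E ω)) ⁻¹'
      (Set.pi Set.univ (fun p : ↥S => if p.1 ∈ S' then {x p.1} else Set.univ)) := by
    ext ω
    simp only [Set.mem_ofPred_eq, Set.mem_preimage, Set.mem_pi, Set.mem_univ, forall_true_left]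
    constructor
    · intro hx p
      by_cases hp : p.1 ∈ S'
      · simp [hp, rst, hx p.1 hp]
      · simp [hp]
    · intro hx p hp
      have := hx ⟨p, hS hp⟩
      simpa [hp, rst] using this
  rw [h2, ← Measure.map_apply (Measurable.of_discrete) (MeasurableSet.of_discrete), h.map_eq,
    Measure.pi_pi]
  have h3 : ∀ p : ↥S, geo (θ p) (if p.1 ∈ S' then {x p.1} else Set.univ) =
      (fun q : κ => if q ∈ S' then geo (θ q) {x q} else 1) p.1 := by
    intro p
    by_cases hp : p.1 ∈ S'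
    · simp [hp]
    · simp only [hp, if_false]
      exact geo_univ _ (hθ p.1 p.2).1 (hθ p.1 p.2).2
  rw [Finset.prod_congr rfl (fun p _ => h3 p),
    Finset.prod_coe_sort S (fun q : κ => if q ∈ S' then geo (θ q) {x q} else 1),
    Finset.prod_ite, Finset.prod_const_one, mul_one]
  congr 1
  ext p
  simp only [mem_filter]
  exact ⟨fun hp => hp.2, fun hp => ⟨hS hp, hp⟩⟩

/-- Independence of functions of disjoint sets of sites. -/
theorem EnvLaw.indep {P : Measure Ω} {S : Finset κ} {θ : κ → ℝ} {E : Ω → κ → ℕ}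
    (h : EnvLaw P S θ E) (hθ : ∀ p ∈ S, 0 ≤ θ p ∧ θ p < 1) {S1 S2 : Finset κ} (h1 : S1 ⊆ S)
    (h2 : S2 ⊆ S) (hd : Disjoint S1 S2) (F1 F2 : (κ → ℕ) → ℝ≥0∞) (hF1 : Dep S1 F1)
    (hF2 : Dep S2 F2) :
    ∫⁻ ω, F1 (E ω) * F2 (E ω) ∂P = (∫⁻ ω, F1 (E ω) ∂P) * ∫⁻ ω, F2 (E ω) ∂P := by
  have hl1 := h.subset h1 hθ
  have hl2 := h.subset h2 hθ
  have hl12 := h.subset (union_subset h1 h2) hθ
  have hjoint : P.map (fun ω => (rst S1 (E ω), rst S2 (E ω))) =
      (P.map (fun ω => rst S1 (E ω))).prod (P.map (fun ω => rst S2 (E ω))) := by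
    rw [hl1.map_eq, hl2.map_eq]
    refine Measure.ext_of_singleton fun x => ?_
    rw [Measure.map_apply (Measurable.of_discrete) (measurableSet_singleton _)]
    obtain ⟨x, y⟩ := x
    have hs : ({(x, y)} : Set ((↥S1 → ℕ) × (↥S2 → ℕ))) = {x} ×ˢ {y} := by simp
    rw [hs, Measure.prod_prod, Measure.pi_singleton, Measure.pi_singleton]
    have h3 : (fun ω => (rst S1 (E ω), rst S2 (E ω))) ⁻¹' ({x} ×ˢ {y}) =
        {ω | ∀ p ∈ S1 ∪ S2, E ω p = (if p ∈ S1 then ext S1 x p else ext S2 y p)} := by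
      ext ω
      simp only [Set.mem_preimage, Set.mem_prod, Set.mem_singleton_iff, Set.mem_ofPred_eq, mem_union]
      constructor
      · rintro ⟨hx, hy⟩ p hp
        by_cases hp1 : p ∈ S1
        · rw [if_pos hp1, ← hx, ext_rst_apply S1 (E ω) hp1]
        · rw [if_neg hp1, ← hy, ext_rst_apply S2 (E ω) (hp.resolve_left hp1)]
      · intro hx
        constructor
        · funext p
          have := hx p.1 (Or.inl p.2)
          rw [if_pos p.2] at this
          simp only [ext, p.2, dite_true] at this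
          exact this
        · funext p
          have hp1 : p.1 ∉ S1 := fun hp => (Finset.disjoint_left.1 hd) hp p.2
          have := hx p.1 (Or.inr p.2)
          rw [if_neg hp1] at this
          simp only [ext, p.2, dite_true] at this
          exact this
    rw [h3, hl12, Finset.prod_union hd]
    congr 1
    · rw [← Finset.prod_coe_sort]
      refine Finset.prod_congr rfl (fun p _ => ?_)
      simp [ext]
    · rw [← Finset.prod_coe_sort]
      refine Finset.prod_congr rfl (fun p _ => ?_)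
      have hp1 : p.1 ∉ S1 := fun hp => (Finset.disjoint_left.1 hd) hp p.2
      simp [ext, hp1]
  have e1 : ∀ ω, F1 (E ω) = (fun x => F1 (ext S1 x)) (rst S1 (E ω)) := fun ω => (hF1.ext_rst _).symm
  have e2 : ∀ ω, F2 (E ω) = (fun x => F2 (ext S2 x)) (rst S2 (E ω)) := fun ω => (hF2.ext_rst _).symm
  have hA : ∫⁻ ω, F1 (E ω) * F2 (E ω) ∂P =
      ∫⁻ z, (F1 (ext S1 z.1) * F2 (ext S2 z.2)) ∂(P.map (fun ω => (rst S1 (E ω), rst S2 (E ω)))) := by
    rw [lintegral_map (Measurable.of_discrete) (Measurable.of_discrete)]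
    exact MeasureTheory.lintegral_congr (fun ω => by rw [e1 ω, e2 ω])
  have : SigmaFinite (P.map (fun ω => rst S1 (E ω))) := by rw [hl1.map_eq]; infer_instance
  have : SigmaFinite (P.map (fun ω => rst S2 (E ω))) := by rw [hl2.map_eq]; infer_instance
  rw [hA, hjoint, lintegral_prod_mul (f := fun x : ↥S1 → ℕ => F1 (ext S1 x))
    (g := fun y : ↥S2 → ℕ => F2 (ext S2 y)) (Measurable.of_discrete.aemeasurable)
    (Measurable.of_discrete.aemeasurable),
    lintegral_map (Measurable.of_discrete) (Measurable.of_discrete),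
    lintegral_map (Measurable.of_discrete) (Measurable.of_discrete)]
  congr 1
  · exact MeasureTheory.lintegral_congr (fun ω => (e1 ω).symm)
  · exact MeasureTheory.lintegral_congr (fun ω => (e2 ω).symm)

/-- Renaming of sites. -/
theorem EnvLaw.rename {κ' : Type} [DecidableEq κ'] {P : Measure Ω} {S' : Finset κ'} {θ : κ → ℝ}
    {E : Ω → κ → ℕ} {ren : κ' → κ} (hren : Function.Injective ren)
    (h : EnvLaw P (S'.image ren) θ E) :
    EnvLaw P S' (fun p => θ (ren p)) (fun ω p => E ω (ren p)) := by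
  intro x
  have h1 := h (Function.extend ren x 0)
  have h2 : {ω | ∀ p ∈ S'.image ren, E ω p = Function.extend ren x 0 p} =
      {ω | ∀ p ∈ S', E ω (ren p) = x p} := by
    ext ω
    simp only [mem_image, forall_exists_index, and_imp, forall_apply_eq_imp_iff₂, Set.mem_ofPred_eq,
      hren.extend_apply]
  rw [h2] at h1
  rw [h1, Finset.prod_image (fun a _ b _ hab => hren hab)]
  refine Finset.prod_congr rfl (fun p _ => ?_)
  rw [hren.extend_apply]

/-- The canonical environment. -/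
theorem envLaw_pi (S : Finset κ) (θ : κ → ℝ) :
    EnvLaw (Measure.pi (fun p : ↥S => geo (θ p))) S θ (fun x => ext S x) := by
  intro x
  have h2 : {ω : ↥S → ℕ | ∀ p ∈ S, ext S ω p = x p} = {rst S x} := by
    ext ω
    simp only [Set.mem_ofPred_eq, Set.mem_singleton_iff]
    constructor
    · intro hx
      funext p
      have := hx p.1 p.2
      simp only [ext, p.2, dite_true] at this
      exact this
    · rintro rfl p hp
      exact ext_rst_apply S x hp
  rw [h2, Measure.pi_singleton, ← Finset.prod_coe_sort S (fun p => geo (θ p) {x p})]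
  rfl

/-- the queue involution on three sites -/
def mv3 (p1 p2 p3 : κ) (e : κ → ℕ) : κ → ℕ := fun p =>
  if p = p1 then e p3 + (e p1 - e p2)
  else if p = p2 then e p3 + (e p2 - e p1)
  else if p = p3 then min (e p1) (e p2)
  else e p

theorem mv3_mv3 {p1 p2 p3 : κ} (h12 : p1 ≠ p2) (h13 : p1 ≠ p3) (h23 : p2 ≠ p3) (e : κ → ℕ) :
    mv3 p1 p2 p3 (mv3 p1 p2 p3 e) = e := by
  funext p
  have a1 : mv3 p1 p2 p3 e p1 = e p3 + (e p1 - e p2) := by simp [mv3]
  have a2 : mv3 p1 p2 p3 e p2 = e p3 + (e p2 - e p1) := by simp [mv3, h12.symm]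
  have a3 : mv3 p1 p2 p3 e p3 = min (e p1) (e p2) := by simp [mv3, h13.symm, h23.symm]
  by_cases hp1 : p = p1
  · subst hp1
    have : mv3 p p2 p3 (mv3 p p2 p3 e) p =
        mv3 p p2 p3 e p3 + (mv3 p p2 p3 e p - mv3 p p2 p3 e p2) := by
      simp only [mv3, if_true]
    rw [this, a1, a2, a3]; omega
  by_cases hp2 : p = p2
  · subst hp2
    have : mv3 p1 p p3 (mv3 p1 p p3 e) p =
        mv3 p1 p p3 e p3 + (mv3 p1 p p3 e p - mv3 p1 p p3 e p1) := by
      simp only [mv3, if_true, hp1, if_false]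
    rw [this, a1, a2, a3]; omega
  by_cases hp3 : p = p3
  · subst hp3
    have : mv3 p1 p2 p (mv3 p1 p2 p e) p = min (mv3 p1 p2 p e p1) (mv3 p1 p2 p e p2) := by
      simp only [mv3, if_true, hp1, hp2, if_false]
    rw [this, a1, a2]; omega
  · simp [mv3, hp1, hp2, hp3]

theorem mv3_eq_iff {p1 p2 p3 : κ} (h12 : p1 ≠ p2) (h13 : p1 ≠ p3) (h23 : p2 ≠ p3) {S : Finset κ}
    (h1 : p1 ∈ S) (h2 : p2 ∈ S) (h3 : p3 ∈ S) (e x : κ → ℕ) :
    (∀ p ∈ S, mv3 p1 p2 p3 e p = x p) ↔ ∀ p ∈ S, e p = mv3 p1 p2 p3 x p := by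
  have dep : ∀ e e' : κ → ℕ, (∀ p ∈ S, e p = e' p) → ∀ p ∈ S, mv3 p1 p2 p3 e p = mv3 p1 p2 p3 e' p := by
    intro e e' he p hp
    simp only [mv3, he p1 h1, he p2 h2, he p3 h3, he p hp]
  constructor
  · intro h p hp
    have := dep _ _ h p hp
    rwa [mv3_mv3 h12 h13 h23] at this
  · intro h p hp
    have := dep _ _ h p hp
    rwa [mv3_mv3 h12 h13 h23] at this

theorem geo_triple (a b : ℝ) (ha : 0 ≤ a) (ha1 : a < 1) (hb : 0 ≤ b) (hb1 : b < 1) (i j w : ℕ) :
    geo a {w + (i - j)} * geo b {w + (j - i)} * geo (a * b) {min i j} =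
      geo a {i} * geo b {j} * geo (a * b) {w} := by
  simp only [geo_singleton]
  have h1 : 0 ≤ 1 - a := by linarith
  have h2 : 0 ≤ 1 - b := by linarith
  have h3 : 0 ≤ 1 - a * b := by nlinarith
  rw [← ENNReal.ofReal_mul (by positivity), ← ENNReal.ofReal_mul (by positivity),
    ← ENNReal.ofReal_mul (by positivity), ← ENNReal.ofReal_mul (by positivity)]
  congr 1
  rw [mul_pow, mul_pow]
  have e1 : a ^ (w + (i - j)) * a ^ (min i j) = a ^ i * a ^ w := by
    rw [← pow_add, ← pow_add]; congr 1; omega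
  have e2 : b ^ (w + (j - i)) * b ^ (min i j) = b ^ j * b ^ w := by
    rw [← pow_add, ← pow_add]; congr 1; omega
  calc (1 - a) * a ^ (w + (i - j)) * ((1 - b) * b ^ (w + (j - i))) *
        ((1 - a * b) * (a ^ min i j * b ^ min i j))
      = (1 - a) * (1 - b) * (1 - a * b) * (a ^ (w + (i - j)) * a ^ (min i j)) *
          (b ^ (w + (j - i)) * b ^ (min i j)) := by ring
    _ = _ := by rw [e1, e2]; ring

/-- The local move preserves the law. -/
theorem EnvLaw.move {P : Measure Ω} {S : Finset κ} {θ : κ → ℝ} {E : Ω → κ → ℕ}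
    (h : EnvLaw P S θ E) {p1 p2 p3 : κ} (h12 : p1 ≠ p2) (h13 : p1 ≠ p3) (h23 : p2 ≠ p3)
    (h1 : p1 ∈ S) (h2 : p2 ∈ S) (h3 : p3 ∈ S) (hθ1 : 0 ≤ θ p1 ∧ θ p1 < 1)
    (hθ2 : 0 ≤ θ p2 ∧ θ p2 < 1) (hθ3 : θ p3 = θ p1 * θ p2) :
    EnvLaw P S θ (fun ω => mv3 p1 p2 p3 (E ω)) := by
  intro x
  simp only [mv3_eq_iff h12 h13 h23 h1 h2 h3]
  rw [h (mv3 p1 p2 p3 x)]
  have hm2 : p2 ∈ S.erase p1 := mem_erase.2 ⟨h12.symm, h2⟩
  have hm3 : p3 ∈ (S.erase p1).erase p2 := mem_erase.2 ⟨h23.symm, mem_erase.2 ⟨h13.symm, h3⟩⟩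
  rw [← Finset.mul_prod_erase S _ h1, ← Finset.mul_prod_erase (S.erase p1) _ hm2,
    ← Finset.mul_prod_erase ((S.erase p1).erase p2) _ hm3,
    ← Finset.mul_prod_erase S _ h1, ← Finset.mul_prod_erase (S.erase p1) _ hm2,
    ← Finset.mul_prod_erase ((S.erase p1).erase p2) _ hm3]
  have hrest : ∏ p ∈ ((S.erase p1).erase p2).erase p3, geo (θ p) {mv3 p1 p2 p3 x p} =
      ∏ p ∈ ((S.erase p1).erase p2).erase p3, geo (θ p) {x p} := by
    refine Finset.prod_congr rfl (fun p hp => ?_)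
    simp only [mem_erase] at hp
    simp [mv3, hp.1, hp.2.1, hp.2.2.1]
  rw [hrest]
  have a1 : mv3 p1 p2 p3 x p1 = x p3 + (x p1 - x p2) := by simp [mv3]
  have a2 : mv3 p1 p2 p3 x p2 = x p3 + (x p2 - x p1) := by simp [mv3, h12.symm]
  have a3 : mv3 p1 p2 p3 x p3 = min (x p1) (x p2) := by simp [mv3, h13.symm, h23.symm]
  have ht := geo_triple (θ p1) (θ p2) hθ1.1 hθ1.2 hθ2.1 hθ2.2 (x p1) (x p2) (x p3)
  rw [a1, a2, a3, hθ3]
  calc _ = (geo (θ p1) {x p3 + (x p1 - x p2)} * geo (θ p2) {x p3 + (x p2 - x p1)} *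
        geo (θ p1 * θ p2) {min (x p1) (x p2)}) *
        ∏ p ∈ ((S.erase p1).erase p2).erase p3, geo (θ p) {x p} := by ring
    _ = _ := by rw [ht]; ring

end Pool.Agent.MP2c

end

section

/-! Random walk persistence with geometric steps, stochastic domination of geometric laws, and a
third order expansion. (helper24, for helper96, MP_2c6138_pr, item C) -/

set_option autoImplicit false
namespace Pool.Agent.MP2c
open MeasureTheory Finset

theorem lintegral_geo_tail (a θ : ℝ) (ha0 : 0 ≤ a) (ha1 : a < 1) (hθ : 0 ≤ θ) (h : a * θ < 1)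
    (n : ℕ) :
    ∫⁻ k, (if n ≤ k then ENNReal.ofReal θ ^ k else 0) ∂(geo a) =
      ENNReal.ofReal ((1 - a) / (1 - a * θ)) * ENNReal.ofReal (a * θ) ^ n := by
  have h0 : 0 ≤ a * θ := mul_nonneg ha0 hθ
  have h1a : 0 ≤ 1 - a := by linarith
  rw [lintegral_geo]
  have hinj : Function.Injective (fun j : ℕ => j + n) := add_left_injective n
  rw [← hinj.tsum_eq]
  · have e : ∀ j : ℕ, ENNReal.ofReal ((1 - a) * a ^ (j + n)) *
        (if n ≤ j + n then ENNReal.ofReal θ ^ (j + n) else 0) =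
        ENNReal.ofReal ((1 - a) * (a * θ) ^ n * (a * θ) ^ j) := by
      intro j
      rw [if_pos (by omega), ← ENNReal.ofReal_pow hθ, ← ENNReal.ofReal_mul (by positivity)]
      congr 1
      rw [mul_pow, mul_pow]
      ring
    simp only [e]
    rw [← ENNReal.ofReal_tsum_of_nonneg, tsum_mul_left, tsum_geometric_of_lt_one h0 h,
      ← ENNReal.ofReal_pow h0, ← ENNReal.ofReal_mul]
    · congr 1
      rw [div_eq_mul_inv]
      ring
    · apply div_nonneg h1a
      linarith
    · intro j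
      positivity
    · exact (summable_geometric_of_lt_one h0 h).mul_left _
  · intro k hk
    rw [Function.mem_support] at hk
    by_cases hnk : n ≤ k
    · exact ⟨k - n, by simp; omega⟩
    · exfalso
      apply hk
      simp [hnk]

theorem lintegral_geo_tail_one (a : ℝ) (ha0 : 0 ≤ a) (ha1 : a < 1) (n : ℕ) :
    ∫⁻ k, (if n ≤ k then 1 else 0) ∂(geo a) = ENNReal.ofReal a ^ n := by
  have := lintegral_geo_tail a 1 ha0 ha1 zero_le_one (by linarith) n
  simp only [ENNReal.ofReal_one, one_pow, mul_one] at this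
  rw [this, div_self (by linarith), ENNReal.ofReal_one, one_mul]

theorem geo_mono_one (a b : ℝ) (ha : 0 ≤ a) (hab : a ≤ b) (hb : b < 1)
    (g : ℕ → ENNReal) (hg : Monotone g) :
    ∫⁻ x, g x ∂(geo a) ≤ ∫⁻ x, g x ∂(geo b) := by
  obtain ⟨d, hd⟩ : ∃ d : ℕ → ENNReal, ∀ k, g k = ∑' n, d n * (if n ≤ k then 1 else 0) := by
    refine ⟨fun n => Nat.rec (g 0) (fun m _ => g (m + 1) - g m) n, fun k => ?_⟩
    have hfin : ∀ k, ∑' n, (Nat.rec (g 0) (fun m _ => g (m + 1) - g m) n : ENNReal) *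
        (if n ≤ k then 1 else 0) = ∑ n ∈ Finset.range (k + 1),
          (Nat.rec (g 0) (fun m _ => g (m + 1) - g m) n : ENNReal) := by
      intro k
      rw [tsum_eq_sum (s := Finset.range (k + 1))]
      · refine Finset.sum_congr rfl (fun n hn => ?_)
        rw [Finset.mem_range] at hn
        rw [if_pos (by omega), mul_one]
      · intro n hn
        rw [Finset.mem_range] at hn
        rw [if_neg (by omega), mul_zero]
    rw [hfin]
    induction k with
    | zero => simp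
    | succ k ih =>
      rw [Finset.sum_range_succ, ← ih]
      exact (add_tsub_cancel_of_le (hg (Nat.le_succ k))).symm
  have key : ∀ c : ℝ, 0 ≤ c → c < 1 → ∫⁻ x, g x ∂(geo c) = ∑' n, d n * ENNReal.ofReal c ^ n := by
    intro c h0 h1
    simp only [hd]
    rw [lintegral_tsum (fun _ => Measurable.aemeasurable Measurable.of_discrete)]
    refine tsum_congr (fun n => ?_)
    rw [lintegral_const_mul _ Measurable.of_discrete, lintegral_geo_tail_one c h0 h1]
  rw [key a ha (by linarith), key b (by linarith) hb]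
  refine ENNReal.tsum_le_tsum (fun n => ?_)
  gcongr

/-- Peeling the first coordinate. -/
theorem lintegral_pi_succ {m : ℕ} (μ : Measure ℕ) [SigmaFinite μ] (f : (Fin (m + 1) → ℕ) → ENNReal) :
    ∫⁻ x, f x ∂(Measure.pi (fun _ : Fin (m + 1) => μ)) =
      ∫⁻ x, ∫⁻ X, f (Fin.cons x X) ∂(Measure.pi (fun _ : Fin m => μ)) ∂μ := by
  have hmp := measurePreserving_piFinSuccAbove (fun _ : Fin (m + 1) => μ) 0
  have h1 := (hmp.symm).lintegral_comp (f := f) Measurable.of_discrete
  rw [← h1, lintegral_prod _ (Measurable.aemeasurable Measurable.of_discrete)]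
  refine lintegral_congr (fun x => lintegral_congr (fun X => ?_))
  have e : (MeasurableEquiv.piFinSuccAbove (fun _ : Fin (m + 1) => ℕ) 0).symm (x, X) =
      Fin.cons x X := by
    simp [MeasurableEquiv.piFinSuccAbove]
    rfl
  rw [e]

/-- stochastic domination -/
theorem geo_mono {m : ℕ} (a b : ℝ) (ha : 0 ≤ a) (hab : a ≤ b) (hb : b < 1)
    (f : (Fin m → ℕ) → ENNReal) (hf : Monotone f) :
    ∫⁻ x, f x ∂(Measure.pi (fun _ : Fin m => geo a)) ≤
      ∫⁻ x, f x ∂(Measure.pi (fun _ : Fin m => geo b)) := by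
  induction m with
  | zero =>
    rw [Measure.pi_of_empty _ (fun i => i.elim0), Measure.pi_of_empty _ (fun i => i.elim0)]
  | succ m ih =>
    rw [lintegral_pi_succ, lintegral_pi_succ]
    calc ∫⁻ x, ∫⁻ X, f (Fin.cons x X) ∂(Measure.pi (fun _ : Fin m => geo a)) ∂(geo a)
        ≤ ∫⁻ x, ∫⁻ X, f (Fin.cons x X) ∂(Measure.pi (fun _ : Fin m => geo b)) ∂(geo a) := by
          refine lintegral_mono (fun x => ih _ (fun X X' h => hf ?_))
          intro i
          refine Fin.cases ?_ (fun j => ?_) i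
          · simp
          · simpa using h j
      _ ≤ _ := by
          refine geo_mono_one a b ha hab hb _ (fun x x' h => lintegral_mono (fun X => hf ?_))
          intro i
          refine Fin.cases ?_ (fun j => ?_) i
          · simpa using h
          · simp

/-- The survival probabilities, by recursion. -/
noncomputable def uu (α β : ℝ) : ℕ → ℕ → ENNReal
  | 0, _ => 1
  | (K + 1), y => ∫⁻ x, ∫⁻ z, (if x ≤ y + z then uu α β K (y + z - x) else 0) ∂(geo β) ∂(geo α)

/-- The tilted survival probabilities, by recursion. -/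
noncomputable def vv (α β : ℝ) (R Q : ENNReal) : ℕ → ℕ → ENNReal
  | 0, _ => 1
  | (K + 1), y => ∫⁻ x, ∫⁻ z, (if x ≤ y + z then R ^ x * Q ^ z * vv α β R Q K (y + z - x) else 0)
      ∂(geo β) ∂(geo α)

/-- the event -/
def evt (K y : ℕ) : Set ((Fin K → ℕ) × (Fin K → ℕ)) :=
  {w | ∀ k ≤ K, ∑ i ∈ univ.filter (fun i : Fin K => i.1 < k), w.1 i ≤
        y + ∑ i ∈ univ.filter (fun i : Fin K => i.1 < k), w.2 i}

theorem sum_filter_cons {K : ℕ} (x : ℕ) (X : Fin K → ℕ) (k : ℕ) :
    ∑ i ∈ univ.filter (fun i : Fin (K + 1) => i.1 < k + 1), (Fin.cons x X : Fin (K + 1) → ℕ) i =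
      x + ∑ i ∈ univ.filter (fun i : Fin K => i.1 < k), X i := by
  rw [Finset.sum_filter, Finset.sum_filter, Fin.sum_univ_succ]
  simp

theorem mem_evt_succ {K : ℕ} (y x z : ℕ) (X Y : Fin K → ℕ) :
    ((Fin.cons x X : Fin (K + 1) → ℕ), (Fin.cons z Y : Fin (K + 1) → ℕ)) ∈ evt (K + 1) y ↔
      x ≤ y + z ∧ (X, Y) ∈ evt K (y + z - x) := by
  simp only [evt, Set.mem_ofPred_eq]
  constructor
  · intro h
    have h1 : x ≤ y + z := by
      have := h (0 + 1) (by omega)
      rw [sum_filter_cons, sum_filter_cons] at this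
      simpa using this
    refine ⟨h1, fun k hk => ?_⟩
    have := h (k + 1) (by omega)
    rw [sum_filter_cons, sum_filter_cons] at this
    omega
  · rintro ⟨h1, h⟩ k hk
    rcases Nat.eq_zero_or_pos k with h0 | h0
    · subst h0; simp
    · obtain ⟨k', rfl⟩ : ∃ k', k = k' + 1 := ⟨k - 1, by omega⟩
      have := h k' (by omega)
      rw [sum_filter_cons, sum_filter_cons]
      omega

open Classical in
theorem measure_evt (α β : ℝ) (K : ℕ) : ∀ y : ℕ,
    ∫⁻ X, ∫⁻ Y, (if (X, Y) ∈ evt K y then 1 else 0) ∂(Measure.pi (fun _ : Fin K => geo β))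
      ∂(Measure.pi (fun _ : Fin K => geo α)) = uu α β K y := by
  induction K with
  | zero =>
    intro y
    rw [Measure.pi_of_empty _ (fun i => i.elim0), Measure.pi_of_empty _ (fun i => i.elim0)]
    rw [lintegral_dirac, lintegral_dirac, uu, if_pos]
    intro k hk
    simp
  | succ K ih =>
    intro y
    rw [lintegral_pi_succ]
    simp only [lintegral_pi_succ (geo β)]
    rw [uu]
    refine lintegral_congr (fun x => ?_)
    rw [lintegral_lintegral_swap (Measurable.aemeasurable Measurable.of_discrete)]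
    refine lintegral_congr (fun z => ?_)
    simp only [mem_evt_succ]
    by_cases h : x ≤ y + z
    · simp only [h, true_and, if_true]
      exact ih _
    · simp [h]

theorem persist_measure (α β : ℝ) (K y : ℕ) :
    ((Measure.pi (fun _ : Fin K => geo α)).prod (Measure.pi (fun _ : Fin K => geo β)))
      (evt K y) = uu α β K y := by
  classical
  rw [← measure_evt, ← lintegral_indicator_one (MeasurableSet.of_discrete),
    lintegral_prod _ (Measurable.aemeasurable Measurable.of_discrete)]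
  rfl

theorem uu_le_one (α β : ℝ) (hα0 : 0 ≤ α) (hα : α < 1) (hβ0 : 0 ≤ β) (hβ : β < 1) (K : ℕ) :
    ∀ y : ℕ, uu α β K y ≤ 1 := by
  have := isProbabilityMeasure_geo α hα0 hα
  have := isProbabilityMeasure_geo β hβ0 hβ
  induction K with
  | zero => intro y; rw [uu]
  | succ K ih =>
    intro y
    rw [uu]
    calc ∫⁻ x, ∫⁻ z, (if x ≤ y + z then uu α β K (y + z - x) else 0) ∂(geo β) ∂(geo α)
        ≤ ∫⁻ _, ∫⁻ _, 1 ∂(geo β) ∂(geo α) := by
          refine lintegral_mono (fun x => lintegral_mono (fun z => ?_))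
          dsimp only
          split_ifs
          · exact ih _
          · exact zero_le_one
      _ = 1 := by simp

/-- the memoryless identity -/
theorem wald (α β : ℝ) (hα0 : 0 < α) (hα : α < 1) (hβ0 : 0 < β) (hβ : β < 1)
    (hαβ : α ≤ β) (K : ℕ) : ∀ y : ℕ,
    ENNReal.ofReal ((1 - α) / (1 - β)) * ENNReal.ofReal (β / α) ^ (y + 1) +
      vv α β (ENNReal.ofReal (β / α)) (ENNReal.ofReal (α / β)) K y =
    1 + ENNReal.ofReal ((1 - α) / (1 - β)) * ENNReal.ofReal (β / α) ^ (y + 1) * uu α β K y := by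
  set R := ENNReal.ofReal (β / α) with hR
  set Q := ENNReal.ofReal (α / β) with hQ
  set κ := ENNReal.ofReal ((1 - α) / (1 - β)) with hκ
  have hRtop : R ≠ ⊤ := ENNReal.ofReal_ne_top
  have hκtop : κ ≠ ⊤ := ENNReal.ofReal_ne_top
  have hRQ : R * Q = 1 := by
    rw [hR, hQ, ← ENNReal.ofReal_mul (by positivity)]
    rw [show β / α * (α / β) = 1 by field_simp, ENNReal.ofReal_one]
  have := isProbabilityMeasure_geo α hα0.le hα
  have := isProbabilityMeasure_geo β hβ0.le hβ
  have hB : α * (β / α) = β := by field_simp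
  have hA : β * (α / β) = α := by field_simp
  -- one-dimensional facts
  have F1 : ∀ n : ℕ, ∫⁻ x, (if n ≤ x then R ^ x else 0) ∂(geo α) = κ * ENNReal.ofReal β ^ n := by
    intro n
    have := lintegral_geo_tail α (β / α) hα0.le hα (by positivity) (by rw [hB]; exact hβ) n
    rw [hB] at this
    exact this
  have F2 : ∀ n : ℕ, ∫⁻ x, (if n ≤ x then 1 else 0) ∂(geo α) = ENNReal.ofReal α ^ n := 
    lintegral_geo_tail_one α hα0.le hα
  have F3 : κ * ∫⁻ z, Q ^ z ∂(geo β) = 1 := by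
    have := lintegral_geo_tail β (α / β) hβ0.le hβ (by positivity) (by rw [hA]; exact hα) 0
    simp only [Nat.zero_le, if_true, pow_zero, mul_one] at this
    rw [hA] at this
    rw [this, hκ, ← ENNReal.ofReal_mul (div_nonneg (by linarith) (by linarith))]
    rw [show (1 - α) / (1 - β) * ((1 - β) / (1 - α)) = 1 by
      have h1 : 1 - α ≠ 0 := by linarith
      have h2 : 1 - β ≠ 0 := by linarith
      field_simp, ENNReal.ofReal_one]
  -- the weight identity
  have hpow : ∀ x y z : ℕ, x ≤ y + z → R ^ x * Q ^ z * R ^ (y + z - x + 1) = R ^ (y + 1) := by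
    intro x y z h
    have h1 : R ^ x * Q ^ z * R ^ (y + z - x + 1) = R ^ (x + (y + z - x + 1)) * Q ^ z := by
      rw [pow_add R x]; ring
    rw [h1, show x + (y + z - x + 1) = (y + 1) + z by omega, pow_add, mul_assoc, ← mul_pow, hRQ,
      one_pow, mul_one]
  -- base identity
  have base : ∀ y : ℕ,
      1 + κ * R ^ (y + 1) * (∫⁻ x, ∫⁻ z, (if x ≤ y + z then 1 else 0) ∂(geo β) ∂(geo α)) =
      κ * R ^ (y + 1) + ∫⁻ x, ∫⁻ z, (if x ≤ y + z then R ^ x * Q ^ z else 0) ∂(geo β) ∂(geo α) := by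
    intro y
    have hT : (∫⁻ x, ∫⁻ z, (if x ≤ y + z then 1 else 0) ∂(geo β) ∂(geo α)) +
        ∫⁻ z, ENNReal.ofReal α ^ (y + z + 1) ∂(geo β) = 1 := by
      rw [lintegral_lintegral_swap (Measurable.aemeasurable Measurable.of_discrete),
        ← lintegral_add_left Measurable.of_discrete]
      have : ∀ z : ℕ, ∫⁻ x, (if x ≤ y + z then 1 else 0) ∂(geo α) +
          ENNReal.ofReal α ^ (y + z + 1) = 1 := by
        intro z
        rw [← F2, ← lintegral_add_left Measurable.of_discrete]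
        have e : ∀ x : ℕ, (if x ≤ y + z then (1 : ENNReal) else 0) +
            (if y + z + 1 ≤ x then 1 else 0) = 1 := by
          intro x
          by_cases h : x ≤ y + z
          · rw [if_pos h, if_neg (by omega), add_zero]
          · rw [if_neg h, if_pos (by omega), zero_add]
        simp only [e]
        simp
      simp only [this]
      simp
    have hW : (∫⁻ x, ∫⁻ z, (if x ≤ y + z then R ^ x * Q ^ z else 0) ∂(geo β) ∂(geo α)) +
        ∫⁻ z, κ * ENNReal.ofReal β ^ (y + z + 1) * Q ^ z ∂(geo β) = 1 := by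
      rw [lintegral_lintegral_swap (Measurable.aemeasurable Measurable.of_discrete),
        ← lintegral_add_left Measurable.of_discrete]
      have : ∀ z : ℕ, ∫⁻ x, (if x ≤ y + z then R ^ x * Q ^ z else 0) ∂(geo α) +
          κ * ENNReal.ofReal β ^ (y + z + 1) * Q ^ z = κ * Q ^ z := by
        intro z
        rw [← F1, ← lintegral_mul_const _ Measurable.of_discrete,
          ← lintegral_add_left Measurable.of_discrete]
        have e : ∀ x : ℕ, (if x ≤ y + z then R ^ x * Q ^ z else 0) +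
            (if y + z + 1 ≤ x then R ^ x else 0) * Q ^ z = (if 0 ≤ x then R ^ x else 0) * Q ^ z := by
          intro x
          by_cases h : x ≤ y + z
          · rw [if_pos h, if_neg (by omega), if_pos (Nat.zero_le _), zero_mul, add_zero]
          · rw [if_neg h, if_pos (by omega), if_pos (Nat.zero_le _), zero_add]
        simp only [e]
        rw [lintegral_mul_const _ Measurable.of_discrete, F1, pow_zero, mul_one]
      simp only [this]
      rw [lintegral_const_mul _ Measurable.of_discrete, F3]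
    have hE : κ * R ^ (y + 1) * ∫⁻ z, ENNReal.ofReal α ^ (y + z + 1) ∂(geo β) =
        ∫⁻ z, κ * ENNReal.ofReal β ^ (y + z + 1) * Q ^ z ∂(geo β) := by
      rw [← lintegral_const_mul _ Measurable.of_discrete]
      refine lintegral_congr (fun z => ?_)
      have hb : ENNReal.ofReal β = R * ENNReal.ofReal α := by
        rw [hR, ← ENNReal.ofReal_mul (by positivity)]
        congr 1
        field_simp
      rw [hb, mul_pow, show y + z + 1 = (y + 1) + z by omega, pow_add R (y + 1) z]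
      calc κ * R ^ (y + 1) * ENNReal.ofReal α ^ (y + 1 + z) =
          κ * R ^ (y + 1) * ENNReal.ofReal α ^ (y + 1 + z) * 1 := by rw [mul_one]
        _ = κ * R ^ (y + 1) * ENNReal.ofReal α ^ (y + 1 + z) * (R * Q) ^ z := by
            rw [hRQ, one_pow]
        _ = _ := by rw [mul_pow]; ring
    calc 1 + κ * R ^ (y + 1) * (∫⁻ x, ∫⁻ z, (if x ≤ y + z then 1 else 0) ∂(geo β) ∂(geo α))
        = ((∫⁻ x, ∫⁻ z, (if x ≤ y + z then R ^ x * Q ^ z else 0) ∂(geo β) ∂(geo α)) +
        ∫⁻ z, κ * ENNReal.ofReal β ^ (y + z + 1) * Q ^ z ∂(geo β)) +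
          κ * R ^ (y + 1) * (∫⁻ x, ∫⁻ z, (if x ≤ y + z then 1 else 0) ∂(geo β) ∂(geo α)) := by
          rw [hW]
      _ = κ * R ^ (y + 1) * ((∫⁻ x, ∫⁻ z, (if x ≤ y + z then 1 else 0) ∂(geo β) ∂(geo α)) +
          ∫⁻ z, ENNReal.ofReal α ^ (y + z + 1) ∂(geo β)) +
          ∫⁻ x, ∫⁻ z, (if x ≤ y + z then R ^ x * Q ^ z else 0) ∂(geo β) ∂(geo α) := by
          rw [← hE]; ring
      _ = _ := by rw [hT, mul_one]
  induction K with
  | zero => intro y; rw [uu, vv, mul_one, add_comm]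
  | succ K ih =>
    intro y
    -- the summed induction hypothesis
    have hsum : κ * R ^ (y + 1) * (∫⁻ x, ∫⁻ z, (if x ≤ y + z then 1 else 0) ∂(geo β) ∂(geo α)) +
        vv α β R Q (K + 1) y =
        (∫⁻ x, ∫⁻ z, (if x ≤ y + z then R ^ x * Q ^ z else 0) ∂(geo β) ∂(geo α)) +
          κ * R ^ (y + 1) * uu α β (K + 1) y := by
      rw [uu, vv, ← lintegral_const_mul _ Measurable.of_discrete,
        ← lintegral_const_mul _ Measurable.of_discrete,
        ← lintegral_add_left Measurable.of_discrete, ← lintegral_add_left Measurable.of_discrete]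
      refine lintegral_congr (fun x => ?_)
      rw [← lintegral_const_mul _ Measurable.of_discrete,
        ← lintegral_const_mul _ Measurable.of_discrete,
        ← lintegral_add_left Measurable.of_discrete, ← lintegral_add_left Measurable.of_discrete]
      refine lintegral_congr (fun z => ?_)
      by_cases h : x ≤ y + z
      · simp only [h, if_true, mul_one]
        rw [← hpow x y z h]
        calc κ * (R ^ x * Q ^ z * R ^ (y + z - x + 1)) +
              R ^ x * Q ^ z * vv α β R Q K (y + z - x) =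
            R ^ x * Q ^ z * (κ * R ^ (y + z - x + 1) + vv α β R Q K (y + z - x)) := by ring
          _ = _ := by rw [ih (y + z - x)]; ring
      · simp [h]
    have hb := base y
    set T := ∫⁻ x, ∫⁻ z, (if x ≤ y + z then (1 : ENNReal) else 0) ∂(geo β) ∂(geo α) with hT
    set W := ∫⁻ x, ∫⁻ z, (if x ≤ y + z then R ^ x * Q ^ z else 0) ∂(geo β) ∂(geo α) with hW
    have hTle : T ≤ 1 := by
      calc T ≤ ∫⁻ _, ∫⁻ _, 1 ∂(geo β) ∂(geo α) := by
            refine lintegral_mono (fun x => lintegral_mono (fun z => ?_))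
            dsimp only
            split_ifs
            · exact le_rfl
            · exact zero_le_one
        _ = 1 := by simp
    have hWtop : W ≠ ⊤ := by
      have h1 : κ * R ^ (y + 1) * T ≠ ⊤ :=
        ENNReal.mul_ne_top (ENNReal.mul_ne_top hκtop (ENNReal.pow_ne_top hRtop))
          (ne_top_of_le_ne_top ENNReal.one_ne_top hTle)
      have h2 : κ * R ^ (y + 1) + W ≠ ⊤ := by
        rw [← hb]
        exact ENNReal.add_ne_top.mpr ⟨ENNReal.one_ne_top, h1⟩
      exact (ENNReal.add_ne_top.mp h2).2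
    have : κ * R ^ (y + 1) + vv α β R Q (K + 1) y + W =
        1 + κ * R ^ (y + 1) * uu α β (K + 1) y + W := by
      calc κ * R ^ (y + 1) + vv α β R Q (K + 1) y + W =
          (κ * R ^ (y + 1) + W) + vv α β R Q (K + 1) y := by ring
        _ = 1 + (κ * R ^ (y + 1) * T + vv α β R Q (K + 1) y) := by rw [← hb]; ring
        _ = _ := by rw [hsum]; ring
    exact (ENNReal.add_left_inj hWtop).mp this

theorem vv_le (α β : ℝ) (hα0 : 0 < α) (hα : α < 1) (hβ0 : 0 < β) (hβ : β < 1)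
    (hαβ : α ≤ β) (K : ℕ) : ∀ y : ℕ,
    vv α β (ENNReal.ofReal (β / α)) (ENNReal.ofReal (α / β)) K y ≤
      ENNReal.ofReal (Real.sqrt (β / α)) ^ y *
        ENNReal.ofReal ((1 - α) * (1 - β) / (1 - Real.sqrt (α * β)) ^ 2) ^ K := by
  set H := ENNReal.ofReal (Real.sqrt (β / α)) with hH
  set G := ENNReal.ofReal (Real.sqrt (α / β)) with hG
  have hHG : H * G = 1 := by
    rw [hH, hG, ← ENNReal.ofReal_mul (Real.sqrt_nonneg _), ← Real.sqrt_mul (by positivity)]
    rw [show β / α * (α / β) = 1 by field_simp, Real.sqrt_one, ENNReal.ofReal_one]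
  have hHH : ENNReal.ofReal (β / α) = H * H := by
    rw [hH, ← ENNReal.ofReal_mul (Real.sqrt_nonneg _), Real.mul_self_sqrt (by positivity)]
  have hGG : ENNReal.ofReal (α / β) = G * G := by
    rw [hG, ← ENNReal.ofReal_mul (Real.sqrt_nonneg _), Real.mul_self_sqrt (by positivity)]
  have hs1 : α * Real.sqrt (β / α) = Real.sqrt (α * β) := by
    rw [show α * β = α ^ 2 * (β / α) by field_simp, Real.sqrt_mul (by positivity),
      Real.sqrt_sq hα0.le]
  have hs2 : β * Real.sqrt (α / β) = Real.sqrt (α * β) := by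
    rw [show α * β = β ^ 2 * (α / β) by field_simp, Real.sqrt_mul (by positivity),
      Real.sqrt_sq hβ0.le]
  have hslt : Real.sqrt (α * β) < 1 := by
    rw [Real.sqrt_lt' one_pos]
    nlinarith
  have hFx : ∫⁻ x, H ^ x ∂(geo α) = ENNReal.ofReal ((1 - α) / (1 - Real.sqrt (α * β))) := by
    have := lintegral_geo_tail α (Real.sqrt (β / α)) hα0.le hα (Real.sqrt_nonneg _)
      (by rw [hs1]; exact hslt) 0
    simp only [Nat.zero_le, if_true, pow_zero, mul_one] at this
    rw [hs1] at this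
    exact this
  have hFz : ∫⁻ z, G ^ z ∂(geo β) = ENNReal.ofReal ((1 - β) / (1 - Real.sqrt (α * β))) := by
    have := lintegral_geo_tail β (Real.sqrt (α / β)) hβ0.le hβ (Real.sqrt_nonneg _)
      (by rw [hs2]; exact hslt) 0
    simp only [Nat.zero_le, if_true, pow_zero, mul_one] at this
    rw [hs2] at this
    exact this
  set P := ENNReal.ofReal ((1 - α) * (1 - β) / (1 - Real.sqrt (α * β)) ^ 2) with hP
  have hPeq : (∫⁻ x, H ^ x ∂(geo α)) * (∫⁻ z, G ^ z ∂(geo β)) = P := by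
    rw [hFx, hFz, hP, ← ENNReal.ofReal_mul (div_nonneg (by linarith) (by linarith))]
    congr 1
    rw [div_mul_div_comm, sq]
  induction K with
  | zero =>
    intro y
    rw [vv, pow_zero, mul_one]
    apply one_le_pow₀
    rw [hH, ENNReal.one_le_ofReal, Real.one_le_sqrt, one_le_div hα0]
    exact hαβ
  | succ K ih =>
    intro y
    rw [vv]
    calc ∫⁻ x, ∫⁻ z, (if x ≤ y + z then ENNReal.ofReal (β / α) ^ x * ENNReal.ofReal (α / β) ^ z *
            vv α β (ENNReal.ofReal (β / α)) (ENNReal.ofReal (α / β)) K (y + z - x) else 0)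
            ∂(geo β) ∂(geo α)
        ≤ ∫⁻ x, ∫⁻ z, H ^ y * P ^ K * (H ^ x * G ^ z) ∂(geo β) ∂(geo α) := by
          refine lintegral_mono (fun x => lintegral_mono (fun z => ?_))
          dsimp only
          split_ifs with h
          · calc ENNReal.ofReal (β / α) ^ x * ENNReal.ofReal (α / β) ^ z *
                  vv α β (ENNReal.ofReal (β / α)) (ENNReal.ofReal (α / β)) K (y + z - x)
                ≤ ENNReal.ofReal (β / α) ^ x * ENNReal.ofReal (α / β) ^ z *
                  (H ^ (y + z - x) * P ^ K) := by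
                  gcongr
                  exact ih _
              _ = H ^ (x + (y + z - x)) * G ^ z * (H ^ x * G ^ z) * P ^ K := by
                  rw [hHH, hGG, pow_add]; ring
              _ = H ^ y * P ^ K * (H ^ x * G ^ z) := by
                  rw [show x + (y + z - x) = y + z by omega, pow_add]
                  calc H ^ y * H ^ z * G ^ z * (H ^ x * G ^ z) * P ^ K =
                      H ^ y * (H * G) ^ z * (H ^ x * G ^ z) * P ^ K := by rw [mul_pow]; ring
                    _ = _ := by rw [hHG, one_pow]; ring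
              _ ≤ _ := le_rfl
          · exact zero_le
      _ = H ^ y * P ^ K * ((∫⁻ x, H ^ x ∂(geo α)) * (∫⁻ z, G ^ z ∂(geo β))) := by
          simp only [lintegral_const_mul _ (Measurable.of_discrete (α := ℕ))]
          rw [lintegral_mul_const _ Measurable.of_discrete]
      _ = H ^ y * P ^ (K + 1) := by rw [hPeq, pow_succ]; ring

theorem persistence (α β : ℝ) (hα : 0 < α) (hαβ : α ≤ β) (hβ : β < 1) (K y : ℕ) :
    ((Measure.pi (fun _ : Fin K => geo α)).prod (Measure.pi (fun _ : Fin K => geo β)))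
      {w | ∀ k ≤ K, ∑ i ∈ univ.filter (fun i : Fin K => i.1 < k), w.1 i ≤
        y + ∑ i ∈ univ.filter (fun i : Fin K => i.1 < k), w.2 i} ≤
    ENNReal.ofReal (1 - (α / β) ^ (y + 1) * ((1 - β) / (1 - α)) +
      (β / α) ^ ((y : ℝ) / 2) * ((1 - α) * (1 - β) / (1 - Real.sqrt (α * β)) ^ 2) ^ K) := by
  have hα1 : α < 1 := lt_of_le_of_lt hαβ hβ
  have hβ0 : 0 < β := lt_of_lt_of_le hα hαβ
  have h1 := persist_measure α β K y
  rw [evt] at h1
  rw [h1]
  have h2 := wald α β hα hα1 hβ0 hβ hαβ K y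
  have h3 := vv_le α β hα hα1 hβ0 hβ hαβ K y
  have h4 := uu_le_one α β hα.le hα1 hβ0.le hβ K y
  have h5 : 1 + ENNReal.ofReal ((1 - α) / (1 - β)) * ENNReal.ofReal (β / α) ^ (y + 1) *
      uu α β K y ≤ ENNReal.ofReal ((1 - α) / (1 - β)) * ENNReal.ofReal (β / α) ^ (y + 1) +
      ENNReal.ofReal (Real.sqrt (β / α)) ^ y *
        ENNReal.ofReal ((1 - α) * (1 - β) / (1 - Real.sqrt (α * β)) ^ 2) ^ K := by
    rw [← h2]
    gcongr
  have hutop : uu α β K y ≠ ⊤ := ne_top_of_le_ne_top ENNReal.one_ne_top h4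
  obtain ⟨u, hu0, hu⟩ : ∃ u : ℝ, 0 ≤ u ∧ uu α β K y = ENNReal.ofReal u :=
    ⟨(uu α β K y).toReal, ENNReal.toReal_nonneg, (ENNReal.ofReal_toReal hutop).symm⟩
  rw [hu] at h5 ⊢
  have hslt : Real.sqrt (α * β) < 1 := by
    rw [Real.sqrt_lt' one_pos]
    nlinarith
  have hκ : 0 < (1 - α) / (1 - β) := div_pos (by linarith) (by linarith)
  have hr : 0 < β / α := by positivity
  have hρ : 0 ≤ (1 - α) * (1 - β) / (1 - Real.sqrt (α * β)) ^ 2 :=
    div_nonneg (mul_nonneg (by linarith) (by linarith)) (sq_nonneg _)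
  rw [← ENNReal.ofReal_pow hr.le, ← ENNReal.ofReal_mul hκ.le, ← ENNReal.ofReal_mul (by positivity),
    ← ENNReal.ofReal_one, ← ENNReal.ofReal_add zero_le_one (by positivity),
    ← ENNReal.ofReal_pow (Real.sqrt_nonneg _), ← ENNReal.ofReal_pow hρ,
    ← ENNReal.ofReal_mul (by positivity), ← ENNReal.ofReal_add (by positivity) (by positivity),
    ENNReal.ofReal_le_ofReal_iff (by positivity)] at h5
  apply ENNReal.ofReal_le_ofReal
  have hsq : Real.sqrt (β / α) ^ y = (β / α) ^ ((y : ℝ) / 2) := by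
    rw [Real.sqrt_eq_rpow, ← Real.rpow_natCast, ← Real.rpow_mul hr.le]
    congr 1
    ring
  rw [hsq] at h5
  set c := (1 - α) / (1 - β) * (β / α) ^ (y + 1) with hc
  have hc1 : 1 ≤ c := by
    have h1 : 1 ≤ (1 - α) / (1 - β) := by
      rw [one_le_div (by linarith)]
      linarith
    have h2 : 1 ≤ (β / α) ^ (y + 1) := one_le_pow₀ (by rw [one_le_div hα]; exact hαβ)
    nlinarith
  have hcinv : (α / β) ^ (y + 1) * ((1 - β) / (1 - α)) = c⁻¹ := by
    rw [hc, mul_inv, ← inv_pow, inv_div, inv_div]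
    ring
  rw [hcinv]
  set V := (β / α) ^ ((y : ℝ) / 2) * ((1 - α) * (1 - β) / (1 - Real.sqrt (α * β)) ^ 2) ^ K with hV
  have hV0 : 0 ≤ V := by positivity
  have hc0 : 0 < c := by linarith
  have h6 : u ≤ 1 - c⁻¹ + V * c⁻¹ := by
    have : c * u ≤ c * (1 - c⁻¹ + V * c⁻¹) := by
      have e : c * (1 - c⁻¹ + V * c⁻¹) = c - 1 + V := by
        field_simp
      rw [e]
      linarith
    exact le_of_mul_le_mul_left this hc0
  have h7 : V * c⁻¹ ≤ V := by
    have : c⁻¹ ≤ 1 := inv_le_one_of_one_le₀ hc1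
    nlinarith
  linarith

theorem sinh_lower (y : ℝ) (hy : 0 ≤ y) : y + y ^ 3 / 6 ≤ Real.sinh y := by
  have h := sum_le_hasSum (Finset.range 2) (fun n _ => by positivity) (Real.hasSum_sinh y)
  have h2 : ∑ n ∈ Finset.range 2, y ^ (2 * n + 1) / ((2 * n + 1).factorial : ℝ)
      = y + y ^ 3 / 6 := by
    simp [Finset.sum_range_succ, Nat.factorial]
    norm_num
  rw [← h2]
  exact h

theorem sinh_upper (y : ℝ) (hy : 0 ≤ y) : Real.sinh y ≤ y + y ^ 3 * Real.cosh y := by
  have h := (hasSum_nat_add_iff' 1).mpr (Real.hasSum_sinh y)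
  have hc := (Real.hasSum_cosh y).mul_left (y ^ 3)
  have := hasSum_le (fun n => ?_) h hc
  · simp at this
    linarith
  · have e : y ^ (2 * (n + 1) + 1) = y ^ 3 * y ^ (2 * n) := by ring
    rw [e, mul_div_assoc]
    refine mul_le_mul_of_nonneg_left ?_ (by positivity)
    refine div_le_div_of_nonneg_left (by positivity) (by positivity) ?_
    exact_mod_cast Nat.factorial_le (by omega)

theorem cosh_le_exp' (y : ℝ) (hy : 0 ≤ y) : Real.cosh y ≤ Real.exp y := by
  rw [Real.cosh_eq]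
  have : Real.exp (-y) ≤ Real.exp y := Real.exp_le_exp.mpr (by linarith)
  linarith

/-- the third order expansion -/
theorem cube_bound (s : ℝ) (h0 : 0 < s) (h1 : s < 1) :
    ∃ c C t0 : ℝ, 0 < c ∧ 0 < C ∧ 0 < t0 ∧ ∀ t : ℝ, 0 < t → t ≤ t0 →
      s * Real.exp (t / 2) < 1 ∧
      s / (1 - s) * t + c * t ^ 3 ≤
        Real.log ((1 - s * Real.exp (-(t / 2))) / (1 - s * Real.exp (t / 2))) ∧
      Real.log ((1 - s * Real.exp (-(t / 2))) / (1 - s * Real.exp (t / 2))) ≤
        s / (1 - s) * t + C * t ^ 3 := by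
  set q := Real.sqrt s with hq
  have hq0 : 0 < q := Real.sqrt_pos.mpr h0
  have hqs : q * q = s := Real.mul_self_sqrt h0.le
  have hq1 : q < 1 := by nlinarith
  have hsumm : Summable (fun n : ℕ => ((n : ℝ) + 1) ^ 2 * q ^ (n + 1)) := by
    have h := summable_pow_mul_geometric_of_norm_lt_one 2 (r := q)
      (by rw [Real.norm_eq_abs, abs_of_pos hq0]; exact hq1)
    have h2 := (summable_nat_add_iff 1).mpr h
    refine h2.congr (fun n => ?_)
    push_cast
    ring
  have hlog : Real.log s < 0 := Real.log_neg h0 h1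
  refine ⟨s / 24, (∑' n : ℕ, ((n : ℝ) + 1) ^ 2 * q ^ (n + 1)) / 4 + 1, -Real.log s, by positivity,
    ?_, by linarith, ?_⟩
  · have : 0 ≤ ∑' n : ℕ, ((n : ℝ) + 1) ^ 2 * q ^ (n + 1) := tsum_nonneg (fun n => by positivity)
    linarith
  intro t ht ht0
  have hexp : s * Real.exp (t / 2) ≤ q := by
    have : Real.exp (t / 2) ≤ Real.exp (-Real.log s / 2) := Real.exp_le_exp.mpr (by linarith)
    have h2 : Real.exp (-Real.log s / 2) * q = 1 := by
      have : q = Real.exp (Real.log s / 2) := by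
        rw [hq, ← Real.exp_log h0, ← Real.exp_half, Real.exp_log h0]
      rw [this, ← Real.exp_add]
      rw [show -Real.log s / 2 + Real.log s / 2 = 0 by ring, Real.exp_zero]
    calc s * Real.exp (t / 2) ≤ s * Real.exp (-Real.log s / 2) :=
          mul_le_mul_of_nonneg_left this h0.le
      _ = q * (Real.exp (-Real.log s / 2) * q) := by rw [← hqs]; ring
      _ = q := by rw [h2, mul_one]
  have hpos1 : 0 < s * Real.exp (t / 2) := mul_pos h0 (Real.exp_pos _)
  have hpos2 : 0 < s * Real.exp (-(t / 2)) := mul_pos h0 (Real.exp_pos _)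
  have hlt1 : s * Real.exp (t / 2) < 1 := lt_of_le_of_lt hexp hq1
  have hlt2 : s * Real.exp (-(t / 2)) < 1 := by
    have : Real.exp (-(t / 2)) ≤ Real.exp (t / 2) := Real.exp_le_exp.mpr (by linarith)
    nlinarith
  have hA := Real.hasSum_pow_div_log_of_abs_lt_one (x := s * Real.exp (t / 2))
    (by rw [abs_of_pos hpos1]; exact hlt1)
  have hB := Real.hasSum_pow_div_log_of_abs_lt_one (x := s * Real.exp (-(t / 2)))
    (by rw [abs_of_pos hpos2]; exact hlt2)
  have hAB := hA.sub hB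
  have hlogeq : Real.log ((1 - s * Real.exp (-(t / 2))) / (1 - s * Real.exp (t / 2))) =
      -Real.log (1 - s * Real.exp (t / 2)) - -Real.log (1 - s * Real.exp (-(t / 2))) := by
    rw [Real.log_div (by linarith) (by linarith)]; ring
  rw [← hlogeq] at hAB
  have hterm : ∀ n : ℕ, (s * Real.exp (t / 2)) ^ (n + 1) / ((n : ℝ) + 1) -
      (s * Real.exp (-(t / 2))) ^ (n + 1) / ((n : ℝ) + 1) =
      s ^ (n + 1) / ((n : ℝ) + 1) * (2 * Real.sinh (((n : ℝ) + 1) * (t / 2))) := by
    intro n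
    rw [Real.sinh_eq, mul_pow, mul_pow, ← Real.exp_nat_mul, ← Real.exp_nat_mul]
    push_cast
    rw [show ((n : ℝ) + 1) * -(t / 2) = -(((n : ℝ) + 1) * (t / 2)) by ring]
    ring
  have hgeo : HasSum (fun n : ℕ => s ^ (n + 1) * t) (s / (1 - s) * t) := by
    have := ((hasSum_geometric_of_lt_one h0.le h1).mul_left s).mul_right t
    have e1 : (fun n : ℕ => s ^ (n + 1) * t) = fun i : ℕ => s * s ^ i * t := by
      funext n; ring
    rw [e1, div_eq_mul_inv]
    exact this
  refine ⟨hlt1, ?_, ?_⟩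
  · -- lower bound
    have hlow : HasSum (fun n : ℕ => s ^ (n + 1) * t + (if n = 0 then s / 24 * t ^ 3 else 0))
        (s / (1 - s) * t + s / 24 * t ^ 3) := hgeo.add (hasSum_ite_eq 0 _)
    refine hasSum_le (fun n => ?_) hlow hAB
    rw [hterm]
    have hn : (0 : ℝ) < (n : ℝ) + 1 := by positivity
    have hy : 0 ≤ ((n : ℝ) + 1) * (t / 2) := by positivity
    have hs := sinh_lower _ hy
    have hcoef : 0 ≤ s ^ (n + 1) / ((n : ℝ) + 1) * 2 := by positivity
    have h2 := mul_le_mul_of_nonneg_left hs hcoef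
    have h3 : s ^ (n + 1) / ((n : ℝ) + 1) * 2 * (((n : ℝ) + 1) * (t / 2) +
        (((n : ℝ) + 1) * (t / 2)) ^ 3 / 6) = s ^ (n + 1) * t + s ^ (n + 1) * ((n : ℝ) + 1) ^ 2 *
          t ^ 3 / 24 := by
      field_simp
      ring
    rw [h3] at h2
    have h4 : (if n = 0 then s / 24 * t ^ 3 else 0) ≤ s ^ (n + 1) * ((n : ℝ) + 1) ^ 2 *
          t ^ 3 / 24 := by
      split_ifs with h
      · subst h
        simp
        apply le_of_eq
        ring
      · positivity
    linarith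
  · have hup : HasSum (fun n : ℕ => s ^ (n + 1) * t + ((n : ℝ) + 1) ^ 2 * q ^ (n + 1) * (t ^ 3 / 4))
        (s / (1 - s) * t + (∑' n : ℕ, ((n : ℝ) + 1) ^ 2 * q ^ (n + 1)) * (t ^ 3 / 4)) :=
      hgeo.add (hsumm.hasSum.mul_right _)
    have hle := hasSum_le (fun n => ?_) hAB hup
    · have : 0 < t ^ 3 := by positivity
      nlinarith
    rw [hterm]
    have hn : (0 : ℝ) < (n : ℝ) + 1 := by positivity
    have hy : 0 ≤ ((n : ℝ) + 1) * (t / 2) := by positivity
    have hs := sinh_upper _ hy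
    have hs2 := cosh_le_exp' _ hy
    have hs3 : Real.sinh (((n : ℝ) + 1) * (t / 2)) ≤ ((n : ℝ) + 1) * (t / 2) +
        (((n : ℝ) + 1) * (t / 2)) ^ 3 * Real.exp (((n : ℝ) + 1) * (t / 2)) :=
      hs.trans (by
        have := mul_le_mul_of_nonneg_left hs2 (pow_nonneg hy 3)
        linarith)
    have hcoef : 0 ≤ s ^ (n + 1) / ((n : ℝ) + 1) * 2 := by positivity
    have h2 := mul_le_mul_of_nonneg_left hs3 hcoef
    have h3 : s ^ (n + 1) / ((n : ℝ) + 1) * 2 * (((n : ℝ) + 1) * (t / 2) +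
        (((n : ℝ) + 1) * (t / 2)) ^ 3 * Real.exp (((n : ℝ) + 1) * (t / 2))) =
        s ^ (n + 1) * t + ((n : ℝ) + 1) ^ 2 * (s * Real.exp (t / 2)) ^ (n + 1) * (t ^ 3 / 4) := by
      have e2 : (s * Real.exp (t / 2)) ^ (n + 1) =
          s ^ (n + 1) * Real.exp (((n : ℝ) + 1) * (t / 2)) := by
        rw [mul_pow, ← Real.exp_nat_mul]
        push_cast
        ring
      rw [e2]
      field_simp
      ring
    rw [h3] at h2
    have h4 : (s * Real.exp (t / 2)) ^ (n + 1) ≤ q ^ (n + 1) :=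
      pow_le_pow_left₀ hpos1.le hexp _
    have h5 := mul_le_mul_of_nonneg_left h4 (show 0 ≤ ((n : ℝ) + 1) ^ 2 * (t ^ 3 / 4) by positivity)
    linarith


end Pool.Agent.MP2c

end
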