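import Pool.Agent.Work.MP_2c6138_pr.Bd.B04
import Pool.Agent.Work.MP_2c6138_pr.Bd.B01

/-! Bundle of small proof modules (one section per former module). -/

section

/-! Crossing probabilities for the exit profile, explicit bounds (item D1 of MP_2c6138_pr). -/

set_option autoImplicit false
set_option linter.unusedSectionVars false
set_option linter.unusedVariables false

namespace Pool.Agent.MP2c

open MeasureTheory Finset
open scoped ENNReal

/-- the constant of the near crossing bound -/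
noncomputable def Cp {s : ℝ} (cs : Cst s) : ℝ := 6 * s / (1 - cs.r) ^ 2

theorem Cp_pos {s : ℝ} (cs : Cst s) : 0 < Cp cs := by
  have := cs.hs0
  have := cs.hr1
  have : 0 < 1 - cs.r := by linarith
  unfold Cp; positivity

section real
variable {s : ℝ} (cs : Cst s) {h : ℝ} (hh0 : 0 < h) (hh1 : h ≤ cs.h0)
include hh0 hh1

theorem frac_mono {a : ℝ} (ha0 : 0 ≤ a) (has : a ≤ s) :
    0 ≤ (1 - a) / (1 - a * Real.exp h) ∧
    (1 - a) / (1 - a * Real.exp h) ≤ (1 - s) / (1 - s * Real.exp h) := by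
  have h1 := (exp4_lt_one cs hh0 hh1 (t := h) (by rw [abs_of_pos hh0]; linarith)).2
  have hv : 1 ≤ Real.exp h := Real.one_le_exp hh0.le
  have h2 : a * Real.exp h ≤ s * Real.exp h := by gcongr
  have hs1 := cs.hs1
  refine ⟨div_nonneg (by linarith) (by linarith), ?_⟩
  rw [div_le_div_iff₀ (by linarith) (by linarith)]
  nlinarith

theorem far_ratio {a : ℝ} (ha0 : 0 ≤ a) (has : a ≤ s) :
    0 ≤ (1 - a) / (1 - a * Real.exp h) * ((1 - s * Real.exp (4 * h)) /
      (1 - s * Real.exp (4 * h) / Real.exp h)) ∧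
    (1 - a) / (1 - a * Real.exp h) * ((1 - s * Real.exp (4 * h)) /
      (1 - s * Real.exp (4 * h) / Real.exp h)) ≤ Real.exp (-(3 * s * h ^ 2)) := by
  obtain ⟨f1, f2⟩ := frac_mono cs hh0 hh1 ha0 has
  have hs0 := cs.hs0
  have hs1 := cs.hs1
  have h1 := (exp4_lt_one cs hh0 hh1 (t := h) (by rw [abs_of_pos hh0]; linarith))
  have h3 := (exp4_lt_one cs hh0 hh1 (t := 3 * h) (by rw [abs_of_pos (by positivity)]; linarith))
  have h4 := (exp4_lt_one cs hh0 hh1 (t := 4 * h) (by rw [abs_of_pos (by positivity)]; linarith))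
  have e3 : s * Real.exp (4 * h) / Real.exp h = s * Real.exp (3 * h) := by
    rw [mul_div_assoc, ← Real.exp_sub]; congr 2; ring
  rw [e3]
  have g1 : 0 ≤ (1 - s * Real.exp (4 * h)) / (1 - s * Real.exp (3 * h)) :=
    div_nonneg (by linarith) (by linarith)
  refine ⟨mul_nonneg f1 g1, ?_⟩
  refine (mul_le_mul_of_nonneg_right f2 g1).trans ?_
  set v := Real.exp h with hv
  have hv1 : 1 + h ≤ v := by rw [hv]; linarith [Real.add_one_le_exp h]
  have ev3 : Real.exp (3 * h) = v ^ 3 := by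
    rw [hv, ← Real.exp_nat_mul]; congr 1
  have ev4 : Real.exp (4 * h) = v ^ 4 := by
    rw [hv, ← Real.exp_nat_mul]; congr 1
  rw [ev3] at h3 ⊢
  rw [ev4] at h4 ⊢
  have d1 : 0 < 1 - s * v := by linarith [h1.2]
  have d3 : 0 < 1 - s * v ^ 3 := by linarith [h3.2]
  have key : (1 - s) / (1 - s * v) * ((1 - s * v ^ 4) / (1 - s * v ^ 3)) =
      1 - s * ((v - 1) * (v ^ 3 - 1)) / ((1 - s * v) * (1 - s * v ^ 3)) := by
    field_simp
    ring
  rw [key]
  have hden : (1 - s * v) * (1 - s * v ^ 3) ≤ 1 := by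
    have : s * v > 0 := h1.1
    have : s * v ^ 3 > 0 := h3.1
    nlinarith
  have hden0 : 0 < (1 - s * v) * (1 - s * v ^ 3) := mul_pos d1 d3
  have hnum : 3 * s * h ^ 2 ≤ s * ((v - 1) * (v ^ 3 - 1)) := by
    have a1 : h ≤ v - 1 := by linarith
    have a2 : 3 * h ≤ v ^ 3 - 1 := by
      have : 1 + 3 * h ≤ v ^ 3 := by
        rw [← ev3]; linarith [Real.add_one_le_exp (3 * h)]
      linarith
    have : h * (3 * h) ≤ (v - 1) * (v ^ 3 - 1) := mul_le_mul a1 a2 (by positivity) (by linarith)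
    nlinarith
  have hq : 3 * s * h ^ 2 ≤ s * ((v - 1) * (v ^ 3 - 1)) / ((1 - s * v) * (1 - s * v ^ 3)) := by
    rw [le_div_iff₀ hden0]
    have : 0 ≤ 3 * s * h ^ 2 := by positivity
    nlinarith
  have := Real.one_sub_le_exp_neg (3 * s * h ^ 2)
  linarith

theorem near_ratio {a : ℝ} (ha0 : 0 ≤ a) (has : a ≤ s) :
    0 ≤ (1 - a) / (1 - a * Real.exp h) * ((1 - s * Real.exp (-(2 * h))) /
      (1 - s * Real.exp (-(2 * h)) / Real.exp h)) ∧
    (1 - a) / (1 - a * Real.exp h) * ((1 - s * Real.exp (-(2 * h))) /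
      (1 - s * Real.exp (-(2 * h)) / Real.exp h)) ≤ Real.exp (Cp cs * h ^ 2) := by
  obtain ⟨f1, f2⟩ := frac_mono cs hh0 hh1 ha0 has
  have hs0 := cs.hs0
  have hs1 := cs.hs1
  have h1 := (exp4_lt_one cs hh0 hh1 (t := h) (by rw [abs_of_pos hh0]; linarith))
  have h1r := (exp_bounds cs hh0 hh1 (t := h) (by rw [abs_of_pos hh0]; linarith)).2
  have h2 := (exp4_lt_one cs hh0 hh1 (t := -(2 * h)) (by rw [abs_neg, abs_of_pos (by positivity)]; linarith))
  have h3 := (exp4_lt_one cs hh0 hh1 (t := -(3 * h)) (by rw [abs_neg, abs_of_pos (by positivity)]; linarith))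
  have h3r := (exp_bounds cs hh0 hh1 (t := -(3 * h)) (by rw [abs_neg, abs_of_pos (by positivity)]; linarith)).2
  have hr1 := cs.hr1
  have e3 : s * Real.exp (-(2 * h)) / Real.exp h = s * Real.exp (-(3 * h)) := by
    rw [mul_div_assoc, ← Real.exp_sub]; congr 2; ring
  rw [e3]
  have g1 : 0 ≤ (1 - s * Real.exp (-(2 * h))) / (1 - s * Real.exp (-(3 * h))) :=
    div_nonneg (by linarith) (by linarith)
  refine ⟨mul_nonneg f1 g1, ?_⟩
  refine (mul_le_mul_of_nonneg_right f2 g1).trans ?_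
  set v := Real.exp h with hv
  set w := Real.exp (-(3 * h)) with hw
  have hh : h ≤ 1 := (common1 cs hh0 hh1).1
  have hv1 : v - 1 ≤ 2 * h := exp_sub_one_le hh0.le hh
  have hv0 : 1 ≤ v := Real.one_le_exp hh0.le
  have hw1 : 1 - w ≤ 3 * h := by rw [hw]; linarith [Real.one_sub_le_exp_neg (3 * h)]
  have hw0 : w ≤ 1 := Real.exp_le_one_iff.2 (by linarith)
  have e2 : Real.exp (-(2 * h)) = v * w := by rw [hv, hw, ← Real.exp_add]; congr 1; ring
  rw [e2]
  have d1 : 0 < 1 - s * v := by linarith [h1.2]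
  have d3 : 0 < 1 - s * w := by linarith [h3.2]
  have key : (1 - s) / (1 - s * v) * ((1 - s * (v * w)) / (1 - s * w)) =
      1 + s * ((v - 1) * (1 - w)) / ((1 - s * v) * (1 - s * w)) := by
    field_simp
    ring
  rw [key]
  have hr0 : 0 < 1 - cs.r := by linarith
  have hden : (1 - cs.r) ^ 2 ≤ (1 - s * v) * (1 - s * w) := by
    rw [pow_two]
    exact mul_le_mul (by linarith) (by linarith) hr0.le d1.le
  have hnum : s * ((v - 1) * (1 - w)) ≤ s * (2 * h * (3 * h)) := by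
    apply mul_le_mul_of_nonneg_left _ hs0.le
    exact mul_le_mul hv1 hw1 (by linarith) (by positivity)
  have hq : s * ((v - 1) * (1 - w)) / ((1 - s * v) * (1 - s * w)) ≤ Cp cs * h ^ 2 := by
    calc s * ((v - 1) * (1 - w)) / ((1 - s * v) * (1 - s * w)) ≤ s * (2 * h * (3 * h)) / (1 - cs.r) ^ 2 :=
          div_le_div₀ (by positivity) hnum (by positivity) hden
      _ = _ := by unfold Cp; ring
  have := Real.add_one_le_exp (Cp cs * h ^ 2)
  linarith

end real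

section prob
variable {Ω : Type} [MeasurableSpace Ω] [DiscreteMeasurableSpace Ω]
variable {s : ℝ} (cs : Cst s) {h : ℝ} (hh0 : 0 < h) (hh1 : h ≤ cs.h0)
include hh0 hh1

theorem cross_far {P : Measure Ω} {E : Ω → ℕ × ℕ → ℕ} {n z z' : ℕ} (hz : z < z') (hz' : z' < n)
    {a : ℝ} {b : ℕ → ℝ} (ha0 : 0 ≤ a) (has : a ≤ s)
    (h01 : ∀ p ∈ bx n n, 0 ≤ sth a b (fun _ => s ^ 2) p ∧ sth a b (fun _ => s ^ 2) p < 1)
    (hE : EnvLaw P (bx n n) (sth a b (fun _ => s ^ 2)) E) (hzC : cs.C1 * h * n ≤ z) :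
    P {ω | Az n z (E ω) ≤ Az n z' (E ω)} ≤
      ENNReal.ofReal (Real.exp (-(3 * s * h ^ 2 * ((z' - z : ℕ) : ℝ)))) +
        ENNReal.ofReal (Real.exp (-(s * h ^ 3 * n / 4))) := by
  have hs1 := cs.hs1
  have h1 := (exp4_lt_one cs hh0 hh1 (t := h) (by rw [abs_of_pos hh0]; linarith))
  have h4 := (exp4_lt_one cs hh0 hh1 (t := 4 * h) (by rw [abs_of_pos (by positivity)]; linarith))
  have hav : a * Real.exp h < 1 := lt_of_le_of_lt (by gcongr) h1.2
  have hm : ((n - z : ℕ) : ℝ) ≤ n * (1 - cs.C1 * h) := by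
    rw [Nat.cast_sub (by omega)]
    nlinarith
  have key := cross_aux (P := P) (E := E) 0 hz hz' (v := Real.exp h) (a' := s * Real.exp (4 * h))
    (B := ENNReal.ofReal (Real.exp (-(s * h ^ 3 * n / 4)))) h01 hE ha0
    (by linarith) (Real.one_lt_exp_iff.2 hh0) hav h4.1.le h4.2
    (fun ψ h1 h2 h3 => lower_far cs hh0 hh1 hm (law_rfl2 (Nat.sub_le _ _) h01 hE) ψ h1 h2 h3)
  simp only [add_zero, pow_zero, one_mul] at key
  refine key.trans (add_le_add (ENNReal.ofReal_le_ofReal ?_) le_rfl)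
  obtain ⟨r1, r2⟩ := far_ratio cs hh0 hh1 ha0 has
  calc _ ≤ (Real.exp (-(3 * s * h ^ 2))) ^ (z' - z) := pow_le_pow_left₀ r1 r2 _
    _ = _ := by rw [← Real.exp_nat_mul]; congr 1; ring

theorem cross_near {P : Measure Ω} {E : Ω → ℕ × ℕ → ℕ} {n z z' : ℕ} (D : ℕ) (hz : z < z') (hz' : z' < n)
    {a : ℝ} {b : ℕ → ℝ} (ha0 : 0 ≤ a) (has : a ≤ s)
    (h01 : ∀ p ∈ bx n n, 0 ≤ sth a b (fun _ => s ^ 2) p ∧ sth a b (fun _ => s ^ 2) p < 1)
    (hE : EnvLaw P (bx n n) (sth a b (fun _ => s ^ 2)) E) :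
    P {ω | Az n z (E ω) + D ≤ Az n z' (E ω)} ≤
      ENNReal.ofReal (Real.exp (-(h * D)) * Real.exp (Cp cs * h ^ 2 * ((z' - z : ℕ) : ℝ))) +
        ENNReal.ofReal (Real.exp (-(s * h ^ 3 * n / 4))) := by
  have hs1 := cs.hs1
  have h1 := (exp4_lt_one cs hh0 hh1 (t := h) (by rw [abs_of_pos hh0]; linarith))
  have h2 := (exp4_lt_one cs hh0 hh1 (t := -(2 * h)) (by rw [abs_neg, abs_of_pos (by positivity)]; linarith))
  have hav : a * Real.exp h < 1 := lt_of_le_of_lt (by gcongr) h1.2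
  have hc1 := cs.hc1
  have hm : ((n - z : ℕ) : ℝ) ≤ n * (1 + cs.c1 * h) := by
    have e1 : ((n - z : ℕ) : ℝ) ≤ n := by exact_mod_cast Nat.sub_le _ _
    have : (0 : ℝ) ≤ n * (cs.c1 * h) := by positivity
    linarith
  have key := cross_aux (P := P) (E := E) D hz hz' (v := Real.exp h) (a' := s * Real.exp (-(2 * h)))
    (B := ENNReal.ofReal (Real.exp (-(s * h ^ 3 * n / 4)))) h01 hE ha0
    (by linarith) (Real.one_lt_exp_iff.2 hh0) hav h2.1.le h2.2
    (fun ψ h1 h2 h3 => lower_near cs hh0 hh1 hm (law_rfl2 (Nat.sub_le _ _) h01 hE) ψ h1 h2 h3)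
  refine key.trans (add_le_add (ENNReal.ofReal_le_ofReal ?_) le_rfl)
  obtain ⟨r1, r2⟩ := near_ratio cs hh0 hh1 ha0 has
  have e1 : (Real.exp h)⁻¹ ^ D = Real.exp (-(h * D)) := by
    rw [← Real.exp_neg, ← Real.exp_nat_mul]; congr 1; ring
  rw [e1]
  apply mul_le_mul_of_nonneg_left _ (Real.exp_pos _).le
  calc _ ≤ (Real.exp (Cp cs * h ^ 2)) ^ (z' - z) := pow_le_pow_left₀ r1 r2 _
    _ = _ := by rw [← Real.exp_nat_mul]; congr 1; ring

end prob

end Pool.Agent.MP2c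

end

section

/-! Exponential moments for the exit profile (item D1 of MP_2c6138_pr). -/

set_option autoImplicit false
set_option linter.unusedSectionVars false
set_option linter.unusedVariables false

namespace Pool.Agent.MP2c

open MeasureTheory Finset
open scoped ENNReal

/-- the exponential moment per site -/
noncomputable def rho (s t : ℝ) : ℝ := (1 - s * Real.exp (-(t / 2))) / (1 - s * Real.exp (t / 2))

theorem rho_pos {s t : ℝ} (hs0 : 0 < s) (ht : 0 ≤ t) (h : s * Real.exp (t / 2) < 1) : 0 < rho s t := by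
  have : s * Real.exp (-(t / 2)) ≤ s * Real.exp (t / 2) := by gcongr; linarith
  exact div_pos (by linarith) (by linarith)

theorem bz_le (e : ℕ × ℕ → ℕ) (p : ℕ × ℕ) : bz e p ≤ e p := by
  simp only [bz]; split_ifs <;> simp

section law
variable {Ω : Type} [MeasurableSpace Ω] [DiscreteMeasurableSpace Ω]

theorem sth01 {s a b : ℝ} (hs0 : 0 < s) (hs1 : s < 1) (ha0 : 0 ≤ a) (ha1 : a < 1) (hb0 : 0 ≤ b)
    (hb1 : b < 1) (p : ℕ × ℕ) : 0 ≤ sth a (fun _ => b) (fun _ => s ^ 2) p ∧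
      sth a (fun _ => b) (fun _ => s ^ 2) p < 1 :=
  sth_mem01 ha0 ha1 (fun _ => hb0) (fun _ => hb1) (fun _ => by positivity)
    (fun _ => by nlinarith) p

/-- the law with equal boundaries is invariant under transposition -/
theorem law_swap {P : Measure Ω} {E : Ω → ℕ × ℕ → ℕ} {n : ℕ} {a q : ℝ}
    (hE : EnvLaw P (bx n n) (sth a (fun _ => a) (fun _ => q)) E) :
    EnvLaw P (bx n n) (sth a (fun _ => a) (fun _ => q)) (fun ω p => E ω p.swap) := by
  have himg : (bx n n).image Prod.swap = bx n n := by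
    ext p
    simp only [mem_image, mem_bx]
    constructor
    · rintro ⟨p', ⟨h1, h2, h3⟩, rfl⟩
      refine ⟨fun h => h1 ?_, h3, h2⟩
      have := congrArg Prod.swap h
      simpa using this
    · rintro ⟨h1, h2, h3⟩
      refine ⟨p.swap, ⟨fun h => h1 ?_, h3, h2⟩, by simp⟩
      have := congrArg Prod.swap h
      simpa using this
  have h1 := EnvLaw.rename (S' := bx n n) Prod.swap_injective (h := by rw [himg]; exact hE)
  refine h1.congr' (fun ω p _ => rfl) (fun p hp => ?_)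
  rw [mem_bx] at hp
  obtain ⟨i, j⟩ := p
  simp only [sth, Prod.swap]
  by_cases hi : i = 0
  · by_cases hj : j = 0
    · exact absurd (by rw [hi, hj]) hp.1
    · simp [hi, hj]
  · by_cases hj : j = 0
    · simp [hi, hj]
    · simp [hi, hj]

theorem hor_lower {P : Measure Ω} {E : Ω → ℕ × ℕ → ℕ} {n : ℕ} {s τ : ℝ} (hs0 : 0 < s) (hs1 : s < 1)
    (hτ : 0 < τ) (hsτ : s * Real.exp (τ / 2) < 1)
    (hE : EnvLaw P (bx n n) (sth (s * Real.exp (-(τ / 2))) (fun _ => s * Real.exp (-(τ / 2)))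
      (fun _ => s ^ 2)) E) :
    ENNReal.ofReal (rho s τ ^ (2 * n)) ≤
      2 * ∫⁻ ω, ENNReal.ofReal (Real.exp τ ^ (GG (hz (E ω)) n n)) ∂P := by
  set a := s * Real.exp (-(τ / 2)) with ha
  have ha0 : 0 < a := by positivity
  have has : a ≤ s := by
    rw [ha]; exact mul_le_of_le_one_right hs0.le (Real.exp_le_one_iff.2 (by linarith))
  have ha1 : a < 1 := by linarith
  have hau : a * Real.exp τ = s * Real.exp (τ / 2) := by
    rw [ha, mul_assoc, ← Real.exp_add]; congr 2; ring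
  have haa : a * Real.exp τ * a = s ^ 2 := by
    rw [hau, ha]
    have : Real.exp (τ / 2) * Real.exp (-(τ / 2)) = 1 := by rw [← Real.exp_add]; simp
    calc s * Real.exp (τ / 2) * (s * Real.exp (-(τ / 2))) =
        s ^ 2 * (Real.exp (τ / 2) * Real.exp (-(τ / 2))) := by ring
      _ = _ := by rw [this, mul_one]
  have hm := mgf_GG (P := P) (E := E) n n a (Real.exp τ) (fun _ => a) (Real.exp_pos _) ha0.le ha1
    (by rw [hau]; exact hsτ) (fun _ => ha0.le) (fun _ => ha1) (fun _ => by rw [hau]; exact hsτ)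
    (by
      have : (fun j : ℕ => a * Real.exp τ * (fun _ : ℕ => a) j) = (fun _ => s ^ 2) := by
        funext j; exact haa
      rw [this]; exact hE)
  have hr : ((1 - a) / (1 - a * Real.exp τ)) ^ n * ∏ j ∈ range n, (1 - a) / (1 - a * Real.exp τ) =
      rho s τ ^ (2 * n) := by
    rw [Finset.prod_const, card_range, hau, ← pow_add]
    unfold rho
    congr 1; ring
  rw [hr] at hm
  rw [← hm]
  have hswap : ∫⁻ ω, ENNReal.ofReal (Real.exp τ ^ (GG (vz (E ω)) n n)) ∂P =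
      ∫⁻ ω, ENNReal.ofReal (Real.exp τ ^ (GG (hz (E ω)) n n)) ∂P := by
    have h1 := (law_swap hE).lintegral_same hE
      (fun e => ENNReal.ofReal (Real.exp τ ^ (GG (hz e) n n))) (by
        intro e e' he
        simp only
        rw [GG_hz_congr he])
    rw [← h1]
    refine lintegral_congr (fun ω => ?_)
    rw [GG_vz_swap]
  calc ∫⁻ ω, ENNReal.ofReal (Real.exp τ ^ (GG (E ω) n n)) ∂P
      ≤ ∫⁻ ω, (ENNReal.ofReal (Real.exp τ ^ (GG (hz (E ω)) n n)) +
          ENNReal.ofReal (Real.exp τ ^ (GG (vz (E ω)) n n))) ∂P := by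
        refine lintegral_mono (fun ω => ?_)
        rw [GG_max]
        rcases le_total (GG (hz (E ω)) n n) (GG (vz (E ω)) n n) with h | h
        · rw [max_eq_right h]; exact le_add_self
        · rw [max_eq_left h]; exact le_self_add
    _ = _ := by
      rw [lintegral_add_right _ (Measurable.of_discrete), hswap, two_mul]

theorem hor_upper {P : Measure Ω} {E : Ω → ℕ × ℕ → ℕ} {n : ℕ} {s τ b : ℝ} (hs0 : 0 < s) (hs1 : s < 1)
    (hτ : 0 < τ) (hsτ : s * Real.exp (3 * τ / 2) < 1) (hb0 : 0 ≤ b) (hb1 : b < 1)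
    (hE : EnvLaw P (bx n n) (sth (s * Real.exp (-(τ / 2))) (fun _ => b) (fun _ => s ^ 2)) E) :
    ∫⁻ ω, ENNReal.ofReal ((Real.exp (2 * τ)) ^ (GG (hz (E ω)) n n)) ∂P ≤
      ENNReal.ofReal (rho s τ ^ n * rho s (3 * τ) ^ n) := by
  set a := s * Real.exp (-(τ / 2)) with ha
  have ha0 : 0 < a := by positivity
  have has : a ≤ s := by
    rw [ha]; exact mul_le_of_le_one_right hs0.le (Real.exp_le_one_iff.2 (by linarith))
  have ha1 : a < 1 := by linarith
  set b' := s * Real.exp (-(3 * τ / 2)) with hb'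
  have hb'0 : 0 < b' := by positivity
  have hb's : b' ≤ s := by
    rw [hb']; exact mul_le_of_le_one_right hs0.le (Real.exp_le_one_iff.2 (by linarith))
  have hb'1 : b' < 1 := by linarith
  have hau : a * Real.exp (2 * τ) = s * Real.exp (3 * τ / 2) := by
    rw [ha, mul_assoc, ← Real.exp_add]; congr 2; ring
  have hbu : b' * Real.exp (2 * τ) = s * Real.exp (τ / 2) := by
    rw [hb', mul_assoc, ← Real.exp_add]; congr 2; ring
  have hsτ2 : s * Real.exp (τ / 2) < 1 := lt_of_le_of_lt (by gcongr; linarith) hsτ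
  have hab : a * Real.exp (2 * τ) * b' = s ^ 2 := by
    rw [hau, hb']
    have : Real.exp (3 * τ / 2) * Real.exp (-(3 * τ / 2)) = 1 := by rw [← Real.exp_add]; simp
    calc s * Real.exp (3 * τ / 2) * (s * Real.exp (-(3 * τ / 2))) =
        s ^ 2 * (Real.exp (3 * τ / 2) * Real.exp (-(3 * τ / 2))) := by ring
      _ = _ := by rw [this, mul_one]
  have h1u : 1 ≤ Real.exp (2 * τ) := Real.one_le_exp (by linarith)
  -- change of the left boundary
  set θ2 := sth a (fun _ => b') (fun _ => s ^ 2) with hθ2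
  have hcan2 := envLaw_pi (bx n n) θ2
  set S0 := (bx n n).filter (fun p => p.2 ≠ 0) with hS0
  have hdep0 : Dep S0 (fun e => ENNReal.ofReal (Real.exp (2 * τ) ^ (GG (hz e) n n))) := by
    intro e e' he
    have : GG (hz e) n n = GG (hz e') n n := by
      refine GG_congr (m := n) (N := n) (fun p hp => ?_) n le_rfl n le_rfl
      simp only [hz]
      split_ifs with h0
      · rfl
      · exact he p (mem_filter.2 ⟨hp, h0⟩)
    simp only [this]
  have hl1 := hE.subset (S' := S0) (filter_subset _ _) (fun p _ => sth01 hs0 hs1 ha0.le ha1 hb0 hb1 p)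
  have hl2 := hcan2.subset (S' := S0) (filter_subset _ _)
    (fun p _ => sth01 hs0 hs1 ha0.le ha1 hb'0.le hb'1 p)
  have hl1' : EnvLaw P S0 θ2 E := by
    intro x
    rw [hl1 x]
    refine Finset.prod_congr rfl (fun p hp => ?_)
    have : p.2 ≠ 0 := (mem_filter.1 hp).2
    simp [hθ2, sth, this]
  rw [hl1'.lintegral_same hl2 _ hdep0]
  refine le_trans (lintegral_mono (g := fun ω =>
    ENNReal.ofReal (Real.exp (2 * τ) ^ (GG (ext (bx n n) ω) n n))) (fun ω => ?_)) ?_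
  · exact ENNReal.ofReal_le_ofReal (pow_le_pow_right₀ h1u (GG_mono (hz_le _) n n))
  · have := mgf_GG (P := Measure.pi (fun p : ↥(bx n n) => geo (θ2 p)))
      (E := fun x => ext (bx n n) x) n n a (Real.exp (2 * τ)) (fun _ => b') (Real.exp_pos _)
      ha0.le ha1 (by rw [hau]; exact hsτ) (fun _ => hb'0.le) (fun _ => hb'1)
      (fun _ => by rw [hbu]; exact hsτ2) (by
        have : (fun j : ℕ => a * Real.exp (2 * τ) * (fun _ : ℕ => b') j) = (fun _ => s ^ 2) := by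
          funext j; exact hab
        rw [this]; exact hcan2)
    rw [this]
    refine ENNReal.ofReal_le_ofReal (le_of_eq ?_)
    rw [Finset.prod_const, card_range, hau, hbu, ← mul_pow, ← mul_pow]
    congr 1
    unfold rho
    rw [← ha, ← hb', div_mul_div_comm, div_mul_div_comm, mul_comm (1 - s * Real.exp (τ / 2))]

theorem mgf_Az {P : Measure Ω} {E : Ω → ℕ × ℕ → ℕ} {n z : ℕ} (hz : z < n) {s τ b : ℝ} (hs0 : 0 < s)
    (hs1 : s < 1) (hτ : 0 < τ) (hsτ : s * Real.exp (τ / 2) < 1) (hb0 : 0 ≤ b) (hb1 : b < 1)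
    (hE : EnvLaw P (bx n n) (sth (s * Real.exp (-(τ / 2))) (fun _ => b) (fun _ => s ^ 2)) E) :
    ∫⁻ ω, ENNReal.ofReal (Real.exp τ ^ (Az n z (E ω))) ∂P =
      ENNReal.ofReal (rho s τ ^ (z + 1)) * ∫⁻ ω, ENNReal.ofReal (Real.exp τ ^ (Tz n z (E ω))) ∂P := by
  classical
  set a := s * Real.exp (-(τ / 2)) with ha
  have ha0 : 0 < a := by positivity
  have has : a ≤ s := by
    rw [ha]; exact mul_le_of_le_one_right hs0.le (Real.exp_le_one_iff.2 (by linarith))
  have ha1 : a < 1 := by linarith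
  have hau : a * Real.exp τ = s * Real.exp (τ / 2) := by
    rw [ha, mul_assoc, ← Real.exp_add]; congr 2; ring
  have h01 : ∀ p ∈ bx n n, 0 ≤ sth a (fun _ => b) (fun _ => s ^ 2) p ∧
      sth a (fun _ => b) (fun _ => s ^ 2) p < 1 := fun p _ => sth01 hs0 hs1 ha0.le ha1 hb0 hb1 p
  set S1 : Finset (ℕ × ℕ) := (range (z + 1)).image (fun i => ((0 : ℕ), i + 1)) with hS1
  have hS1sub : S1 ⊆ bx n n := by
    intro p hp
    rw [hS1, mem_image] at hp
    obtain ⟨i, hi, rfl⟩ := hp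
    rw [mem_range] at hi
    rw [mem_bx]
    refine ⟨by simp, by simp, ?_⟩
    simp only; omega
  have hdisj : Disjoint S1 (bb n n) := by
    rw [Finset.disjoint_left]
    intro p hp hp'
    rw [hS1, mem_image] at hp
    obtain ⟨i, hi, rfl⟩ := hp
    rw [mem_bb] at hp'
    simp at hp'
  have hX : ∀ e : ℕ × ℕ → ℕ, Xof e (z + 1) = ∑ p ∈ S1, e p := fun e => by rw [hS1, sum_bx0]; rfl
  have hind := hE.indep h01 hS1sub (filter_subset _ _) hdisj
    (fun e => ENNReal.ofReal (Real.exp τ ^ (∑ p ∈ S1, e p)))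
    (fun e => ENNReal.ofReal (Real.exp τ ^ (Tz n z e)))
    (by
      intro e e' he
      simp only
      rw [Finset.sum_congr rfl he])
    (by
      intro e e' he
      simp only
      have : Tz n z e = Tz n z e' := by
        unfold Tz
        refine GG_congr (m := n - z) (N := n) (fun p hp => ?_) n le_rfl _ le_rfl
        rw [mem_bx] at hp
        simp only [bz]
        split_ifs with h0
        · rfl
        · push Not at h0
          simp only [rfl2]
          refine he _ ?_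
          change (n + 1 - p.1, n + 1 - p.2) ∈ bb n n
          rw [mem_bb]
          simp only
          omega
      rw [this])
  have h1 : ∫⁻ ω, ENNReal.ofReal (Real.exp τ ^ (Az n z (E ω))) ∂P =
      ∫⁻ ω, ENNReal.ofReal (Real.exp τ ^ (∑ p ∈ S1, E ω p)) *
        ENNReal.ofReal (Real.exp τ ^ (Tz n z (E ω))) ∂P := by
    refine lintegral_congr (fun ω => ?_)
    rw [Az, hX, pow_add, ENNReal.ofReal_mul (by positivity)]
  rw [h1, hind, hE.exp_sum h01 hS1sub (Real.exp τ) (Real.exp_pos _) (by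
    intro p hp
    rw [hS1, mem_image] at hp
    obtain ⟨i, hi, rfl⟩ := hp
    simp only [sth, if_true]
    rw [hau]; exact hsτ)]
  congr 2
  rw [hS1, prod_bx0]
  simp only [sth, if_true]
  rw [Finset.prod_const, card_range, hau]
  rfl

theorem mgf_Tz {P : Measure Ω} {E : Ω → ℕ × ℕ → ℕ} {n z : ℕ} (hz : z ≤ n) {s τ a b : ℝ} (hs0 : 0 < s)
    (hs1 : s < 1) (hτ : 0 < τ) (hsτ : s * Real.exp τ < 1) (ha0 : 0 ≤ a) (ha1 : a < 1) (hb0 : 0 ≤ b)
    (hb1 : b < 1) (hE : EnvLaw P (bx n n) (sth a (fun _ => b) (fun _ => s ^ 2)) E) :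
    ∫⁻ ω, ENNReal.ofReal ((Real.exp (2 * τ)) ^ (Tz n z (E ω))) ∂P ≤
      ENNReal.ofReal (rho s (2 * τ) ^ (n - z + n)) := by
  set c := s * Real.exp (-τ) with hc
  have hc0 : 0 < c := by positivity
  have hcs : c ≤ s := by
    rw [hc]; exact mul_le_of_le_one_right hs0.le (Real.exp_le_one_iff.2 (by linarith))
  have hc1 : c < 1 := by linarith
  have hcu : c * Real.exp (2 * τ) = s * Real.exp τ := by
    rw [hc, mul_assoc, ← Real.exp_add]; congr 2; ring
  have hcc : c * Real.exp (2 * τ) * c = s ^ 2 := by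
    rw [hcu, hc]
    have : Real.exp τ * Real.exp (-τ) = 1 := by rw [← Real.exp_add]; simp
    calc s * Real.exp τ * (s * Real.exp (-τ)) = s ^ 2 * (Real.exp τ * Real.exp (-τ)) := by ring
      _ = _ := by rw [this, mul_one]
  have h1u : 1 ≤ Real.exp (2 * τ) := Real.one_le_exp (by linarith)
  have hW := law_rfl2 (m := n - z) (Nat.sub_le _ _) (fun p _ => sth01 hs0 hs1 ha0 ha1 hb0 hb1 p) hE
  set θ3 := sth c (fun _ => c) (fun _ => s ^ 2) with hθ3
  have hcan3 := envLaw_pi (bx (n - z) n) θ3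
  have hcan3' : EnvLaw (Measure.pi (fun p : ↥(bx (n - z) n) => geo (θ3 p))) (bb (n - z) n)
      (fun _ => s ^ 2) (fun x => ext (bx (n - z) n) x) := by
    refine (hcan3.subset (filter_subset _ _)
      (fun p _ => sth01 hs0 hs1 hc0.le hc1 hc0.le hc1 p)).congr' (fun _ _ _ => rfl) (fun p hp => ?_)
    change p ∈ bb (n - z) n at hp
    rw [mem_bb] at hp
    have h2 : p.1 ≠ 0 := by omega
    have h3 : p.2 ≠ 0 := by omega
    simp [hθ3, sth, h2, h3]
  have htr := hW.lintegral_same hcan3'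
    (fun e => ENNReal.ofReal ((Real.exp (2 * τ)) ^ (GG (bz e) n (n - z)))) (by
      intro e e' he
      simp only
      have : GG (bz e) n (n - z) = GG (bz e') n (n - z) := by
        refine GG_congr (m := n - z) (N := n) (fun p hp => ?_) n le_rfl _ le_rfl
        rw [mem_bx] at hp
        simp only [bz]
        split_ifs with h0
        · rfl
        · push Not at h0
          refine he _ ?_
          rw [mem_bb]
          omega
      rw [this])
  have h1 : ∫⁻ ω, ENNReal.ofReal ((Real.exp (2 * τ)) ^ (Tz n z (E ω))) ∂P =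
      ∫⁻ ω, ENNReal.ofReal ((Real.exp (2 * τ)) ^ (GG (bz (rfl2 n n (E ω))) n (n - z))) ∂P := rfl
  rw [h1, htr]
  refine le_trans (lintegral_mono (g := fun ω =>
    ENNReal.ofReal (Real.exp (2 * τ) ^ (GG (ext (bx (n - z) n) ω) n (n - z)))) (fun ω => ?_)) ?_
  · exact ENNReal.ofReal_le_ofReal (pow_le_pow_right₀ h1u (GG_mono (bz_le _) n _))
  · have := mgf_GG (P := Measure.pi (fun p : ↥(bx (n - z) n) => geo (θ3 p)))
      (E := fun x => ext (bx (n - z) n) x) (n - z) n c (Real.exp (2 * τ)) (fun _ => c) (Real.exp_pos _)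
      hc0.le hc1 (by rw [hcu]; exact hsτ) (fun _ => hc0.le) (fun _ => hc1)
      (fun _ => by rw [hcu]; exact hsτ) (by
        have : (fun j : ℕ => c * Real.exp (2 * τ) * (fun _ : ℕ => c) j) = (fun _ => s ^ 2) := by
          funext j; exact hcc
        rw [this]; exact hcan3)
    rw [this]
    refine ENNReal.ofReal_le_ofReal (le_of_eq ?_)
    rw [Finset.prod_const, card_range, hcu, ← pow_add]
    congr 1
    unfold rho
    have e1 : 2 * τ / 2 = τ := by ring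
    rw [e1, ← hc]

/-- the tail of `Tz` in terms of `LT` -/
theorem LT_eq {P : Measure Ω} {E : Ω → ℕ × ℕ → ℕ} {n z : ℕ} {s a b : ℝ} (hs0 : 0 < s)
    (hs1 : s < 1) (ha0 : 0 ≤ a) (ha1 : a < 1) (hb0 : 0 ≤ b)
    (hb1 : b < 1) (hE : EnvLaw P (bx n n) (sth a (fun _ => b) (fun _ => s ^ 2)) E) (t : ℝ) :
    P {ω | t ≤ (Tz n z (E ω) : ℝ)} = LT (s ^ 2) (n - z) n t := by
  classical
  have hW := law_rfl2 (m := n - z) (Nat.sub_le _ _) (fun p _ => sth01 hs0 hs1 ha0 ha1 hb0 hb1 p) hE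
  have htr := hW.lintegral_same (envLaw_pi (bb (n - z) n) (fun _ => s ^ 2))
    (fun e => if t ≤ (GG (bz e) n (n - z) : ℝ) then 1 else 0) (by
      intro e e' he
      simp only
      have : GG (bz e) n (n - z) = GG (bz e') n (n - z) := by
        refine GG_congr (m := n - z) (N := n) (fun p hp => ?_) n le_rfl _ le_rfl
        rw [mem_bx] at hp
        simp only [bz]
        split_ifs with h0
        · rfl
        · push Not at h0
          refine he _ ?_
          rw [mem_bb]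
          omega
      rw [this])
  rw [lint_ite, lint_ite] at htr
  exact htr

end law

end Pool.Agent.MP2c

end

section

/-! The finite form of the second moment argument (item D1 of MP_2c6138_pr). -/

set_option autoImplicit false
set_option linter.unusedSectionVars false
set_option linter.unusedVariables false

namespace Pool.Agent.MP2c

open MeasureTheory Finset
open scoped ENNReal

section law
variable {Ω : Type} [MeasurableSpace Ω] [DiscreteMeasurableSpace Ω]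

/-- Cauchy-Schwarz on a set -/
theorem cs_set {P : Measure Ω} (H : Set Ω) (f : Ω → ℝ≥0∞) :
    (∫⁻ ω in H, f ω ∂P) ^ 2 ≤ (∫⁻ ω, (f ω) ^ 2 ∂P) * P H := by
  have hconj : Real.HolderConjugate 2 2 := Real.HolderConjugate.two_two
  have h := ENNReal.lintegral_mul_le_Lp_mul_Lq (P.restrict H) hconj
    (f := f) (g := fun _ => 1)
    (Measurable.of_discrete.aemeasurable) (Measurable.of_discrete.aemeasurable)
  simp only [Pi.mul_apply, mul_one, ENNReal.one_rpow, lintegral_one, MeasurableSet.of_discrete,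
    Measure.restrict_apply, Set.univ_inter] at h
  have h2 : ∀ x : ℝ≥0∞, x ^ (2 : ℝ) = x ^ 2 := fun x => by
    rw [← ENNReal.rpow_natCast]; norm_num
  simp only [h2] at h
  have e3 : ∀ x : ℝ≥0∞, (x ^ ((1 : ℝ) / 2)) ^ 2 = x := by
    intro x
    rw [← ENNReal.rpow_natCast, ← ENNReal.rpow_mul]; norm_num
  calc (∫⁻ ω in H, f ω ∂P) ^ 2
      ≤ ((∫⁻ ω in H, (f ω) ^ 2 ∂P) ^ ((1 : ℝ) / 2) * (P H) ^ ((1 : ℝ) / 2)) ^ 2 := by gcongr
    _ = (∫⁻ ω in H, (f ω) ^ 2 ∂P) * P H := by rw [mul_pow, e3, e3]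
    _ ≤ _ := by gcongr; exact Measure.restrict_le_self

/-- Paley-Zygmund -/
theorem paley {P : Measure Ω} (hP : P Set.univ = 1) (T : Ω → ℕ) {U m1 m2 : ℝ} (hU : 0 < U)
    (hm1 : 0 < m1) (hm2 : 0 < m2) (h1 : ENNReal.ofReal m1 ≤ ∫⁻ ω, ENNReal.ofReal (U ^ T ω) ∂P)
    (h2 : ∫⁻ ω, ENNReal.ofReal ((U ^ 2) ^ T ω) ∂P ≤ ENNReal.ofReal m2) :
    ENNReal.ofReal (m1 ^ 2 / (4 * m2)) ≤ P {ω | m1 / 2 ≤ U ^ T ω} := by
  set H : Set Ω := {ω | m1 / 2 ≤ U ^ T ω} with hH
  have hHm : MeasurableSet H := MeasurableSet.of_discrete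
  have hsplit := lintegral_add_compl (μ := P) (fun ω => ENNReal.ofReal (U ^ T ω)) hHm
  have hc : ∫⁻ ω in Hᶜ, ENNReal.ofReal (U ^ T ω) ∂P ≤ ENNReal.ofReal (m1 / 2) := by
    refine le_trans (setLIntegral_mono' hHm.compl (g := fun _ => ENNReal.ofReal (m1 / 2))
      (fun ω hω => ?_)) ?_
    · have : ¬ (m1 / 2 ≤ U ^ T ω) := hω
      exact ENNReal.ofReal_le_ofReal (not_le.1 this).le
    · rw [lintegral_const]
      calc ENNReal.ofReal (m1 / 2) * (P.restrict Hᶜ) Set.univ ≤ ENNReal.ofReal (m1 / 2) * 1 := by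
            gcongr
            rw [← hP]
            exact Measure.restrict_le_self _
        _ = _ := mul_one _
  have hJ : ENNReal.ofReal (m1 / 2) ≤ ∫⁻ ω in H, ENNReal.ofReal (U ^ T ω) ∂P := by
    have e1 : ENNReal.ofReal m1 = ENNReal.ofReal (m1 / 2) + ENNReal.ofReal (m1 / 2) := by
      rw [← ENNReal.ofReal_add (by positivity) (by positivity)]; congr 1; ring
    have h3 : ENNReal.ofReal (m1 / 2) + ENNReal.ofReal (m1 / 2) ≤
        ∫⁻ ω in H, ENNReal.ofReal (U ^ T ω) ∂P + ENNReal.ofReal (m1 / 2) := by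
      rw [← e1]
      refine h1.trans ?_
      rw [← hsplit]
      gcongr
    exact (ENNReal.add_le_add_iff_right ENNReal.ofReal_ne_top).1 h3
  have hcs := cs_set (P := P) H (fun ω => ENNReal.ofReal (U ^ T ω))
  have e2 : ∀ ω, (ENNReal.ofReal (U ^ T ω)) ^ 2 = ENNReal.ofReal ((U ^ 2) ^ T ω) := by
    intro ω
    rw [← ENNReal.ofReal_pow (by positivity)]
    congr 1
    rw [← pow_mul, ← pow_mul, mul_comm]
  simp only [e2] at hcs
  have h4 : ENNReal.ofReal ((m1 / 2) ^ 2) ≤ ENNReal.ofReal m2 * P H := by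
    calc ENNReal.ofReal ((m1 / 2) ^ 2) = (ENNReal.ofReal (m1 / 2)) ^ 2 :=
          ENNReal.ofReal_pow (by positivity) _
      _ ≤ (∫⁻ ω in H, ENNReal.ofReal (U ^ T ω) ∂P) ^ 2 := by gcongr
      _ ≤ _ := hcs
      _ ≤ _ := by gcongr
  have h5 : ENNReal.ofReal (m1 ^ 2 / (4 * m2)) = ENNReal.ofReal ((m1 / 2) ^ 2) / ENNReal.ofReal m2 := by
    rw [← ENNReal.ofReal_div_of_pos hm2]
    congr 1
    field_simp
    ring
  rw [h5]
  exact ENNReal.div_le_of_le_mul' h4

/-- the deterministic statement on the good event -/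
theorem good_bound {n z0 Δ D : ℕ} (hn : 1 ≤ n) (h2z0 : 2 * z0 < n) (hΔ : 1 ≤ Δ) (e : ℕ × ℕ → ℕ)
    (hg1 : ∀ z', 2 * z0 < z' → z' < n → Az n z' e < Az n z0 e)
    (hg2 : ∀ z z', z < z' → z' ≤ z + Δ → z' < n → Az n z' e < Az n z e + D) :
    ∃ k < 2 * z0 / Δ + 1, GG (hz e) n n ≤ Az n (k * Δ) e + D := by
  obtain ⟨zs, hzs, hG⟩ := exists_Az hn e
  have h1 : zs ≤ 2 * z0 := by
    by_contra hcon
    have := hg1 zs (not_le.1 hcon) hzs
    have h2 := Az_le (z := z0) (by omega : z0 < n) e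
    omega
  refine ⟨zs / Δ, ?_, ?_⟩
  · have := Nat.div_le_div_right (c := Δ) h1
    omega
  · rw [hG]
    have h3 : zs / Δ * Δ ≤ zs := Nat.div_mul_le_self _ _
    have h4 : zs < zs / Δ * Δ + Δ := by
      have := Nat.lt_div_mul_add (a := zs) (b := Δ) (by omega)
      exact this
    rcases h3.eq_or_lt with h5 | h5
    · rw [h5]; omega
    · exact (hg2 _ _ h5 h4.le hzs).le

/-- probability of the bad event -/
theorem bad_prob {s : ℝ} (cs : Cst s) {h : ℝ} (hh0 : 0 < h) (hh1 : h ≤ cs.h0) {n z0 Δ D : ℕ}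
    (h2z0 : 2 * z0 < n) (hz0 : cs.C1 * h * n ≤ z0) (hΔh : h ^ 2 * Δ ≤ 1)
    {P : Measure Ω} {E : Ω → ℕ × ℕ → ℕ} {a : ℝ} {b : ℕ → ℝ} (ha0 : 0 ≤ a) (has : a ≤ s)
    (h01 : ∀ p ∈ bx n n, 0 ≤ sth a b (fun _ => s ^ 2) p ∧ sth a b (fun _ => s ^ 2) p < 1)
    (hE : EnvLaw P (bx n n) (sth a b (fun _ => s ^ 2)) E) :
    P {ω | ¬ ((∀ z', 2 * z0 < z' → z' < n → Az n z' (E ω) < Az n z0 (E ω)) ∧
      (∀ z z', z < z' → z' ≤ z + Δ → z' < n → Az n z' (E ω) < Az n z (E ω) + D))} ≤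
    ENNReal.ofReal (n * (Real.exp (-(3 * s * h ^ 2 * z0)) + Real.exp (-(s * h ^ 3 * n / 4))) +
      n ^ 2 * (Real.exp (-(h * D)) * Real.exp (Cp cs) + Real.exp (-(s * h ^ 3 * n / 4)))) := by
  have hs0 := cs.hs0
  set B1 : ℕ → Set Ω := fun z' => {ω | 2 * z0 < z' ∧ z' < n ∧ Az n z0 (E ω) ≤ Az n z' (E ω)} with hB1
  set B2 : ℕ → ℕ → Set Ω := fun z z' =>
    {ω | z < z' ∧ z' ≤ z + Δ ∧ z' < n ∧ Az n z (E ω) + D ≤ Az n z' (E ω)} with hB2
  have hsub : {ω | ¬ ((∀ z', 2 * z0 < z' → z' < n → Az n z' (E ω) < Az n z0 (E ω)) ∧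
      (∀ z z', z < z' → z' ≤ z + Δ → z' < n → Az n z' (E ω) < Az n z (E ω) + D))} ⊆
      (⋃ z' ∈ range n, B1 z') ∪ (⋃ z ∈ range n, ⋃ z' ∈ range n, B2 z z') := by
    intro ω hω
    have hω' : ¬ ((∀ z', 2 * z0 < z' → z' < n → Az n z' (E ω) < Az n z0 (E ω)) ∧
      (∀ z z', z < z' → z' ≤ z + Δ → z' < n → Az n z' (E ω) < Az n z (E ω) + D)) := hω
    rw [not_and_or] at hω'
    rcases hω' with h1 | h1
    · push Not at h1
      obtain ⟨z', h2, h3, h4⟩ := h1
      left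
      simp only [Set.mem_iUnion]
      exact ⟨z', mem_range.2 h3, h2, h3, h4⟩
    · push Not at h1
      obtain ⟨z, z', h2, h3, h4, h5⟩ := h1
      right
      simp only [Set.mem_iUnion]
      exact ⟨z, mem_range.2 (by omega), z', mem_range.2 h4, h2, h3, h4, h5⟩
  have hp1 : ∀ z' ∈ range n, P (B1 z') ≤
      ENNReal.ofReal (Real.exp (-(3 * s * h ^ 2 * z0)) + Real.exp (-(s * h ^ 3 * n / 4))) := by
    intro z' _
    by_cases hc : 2 * z0 < z' ∧ z' < n
    · refine le_trans (measure_mono (t := {ω | Az n z0 (E ω) ≤ Az n z' (E ω)})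
        (fun ω hω => hω.2.2)) ?_
      refine (cross_far cs hh0 hh1 (by omega) hc.2 ha0 has h01 hE hz0).trans ?_
      rw [← ENNReal.ofReal_add (Real.exp_pos _).le (Real.exp_pos _).le]
      apply ENNReal.ofReal_le_ofReal
      have : (z0 : ℝ) ≤ ((z' - z0 : ℕ) : ℝ) := by exact_mod_cast (by omega : z0 ≤ z' - z0)
      gcongr
    · have : B1 z' = ∅ := by
        rw [Set.eq_empty_iff_forall_notMem]
        intro ω hω
        exact hc ⟨hω.1, hω.2.1⟩
      rw [this]; simp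
  have hp2 : ∀ z ∈ range n, ∀ z' ∈ range n, P (B2 z z') ≤
      ENNReal.ofReal (Real.exp (-(h * D)) * Real.exp (Cp cs) + Real.exp (-(s * h ^ 3 * n / 4))) := by
    intro z _ z' _
    by_cases hc : z < z' ∧ z' ≤ z + Δ ∧ z' < n
    · refine le_trans (measure_mono (t := {ω | Az n z (E ω) + D ≤ Az n z' (E ω)})
        (fun ω hω => hω.2.2.2)) ?_
      refine (cross_near cs hh0 hh1 D hc.1 hc.2.2 ha0 has h01 hE).trans ?_
      rw [← ENNReal.ofReal_add (by positivity) (Real.exp_pos _).le]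
      apply ENNReal.ofReal_le_ofReal
      have h1 : ((z' - z : ℕ) : ℝ) ≤ Δ := by exact_mod_cast (by omega : z' - z ≤ Δ)
      have h2 : Cp cs * h ^ 2 * ((z' - z : ℕ) : ℝ) ≤ Cp cs := by
        have hC := Cp_pos cs
        calc Cp cs * h ^ 2 * ((z' - z : ℕ) : ℝ) ≤ Cp cs * h ^ 2 * Δ := by gcongr
          _ = Cp cs * (h ^ 2 * Δ) := by ring
          _ ≤ Cp cs * 1 := by gcongr
          _ = _ := mul_one _
      gcongr
    · have : B2 z z' = ∅ := by
        rw [Set.eq_empty_iff_forall_notMem]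
        intro ω hω
        exact hc ⟨hω.1, hω.2.1, hω.2.2.1⟩
      rw [this]; simp
  set p1 := Real.exp (-(3 * s * h ^ 2 * z0)) + Real.exp (-(s * h ^ 3 * n / 4)) with hp1d
  set p2 := Real.exp (-(h * D)) * Real.exp (Cp cs) + Real.exp (-(s * h ^ 3 * n / 4)) with hp2d
  have hp1p : 0 < p1 := by positivity
  have hp2p : 0 < p2 := by positivity
  refine (measure_mono hsub).trans ((measure_union_le _ _).trans ?_)
  have q1 : P (⋃ z' ∈ range n, B1 z') ≤ ENNReal.ofReal (n * p1) := by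
    refine (measure_biUnion_finset_le _ _).trans ((Finset.sum_le_sum hp1).trans ?_)
    rw [Finset.sum_const, card_range, nsmul_eq_mul, ENNReal.ofReal_mul (Nat.cast_nonneg _),
      ENNReal.ofReal_natCast]
  have q2 : P (⋃ z ∈ range n, ⋃ z' ∈ range n, B2 z z') ≤ ENNReal.ofReal (n ^ 2 * p2) := by
    refine (measure_biUnion_finset_le _ _).trans ((Finset.sum_le_sum (fun z hz =>
      (measure_biUnion_finset_le _ _).trans (Finset.sum_le_sum (hp2 z hz)))).trans ?_)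
    rw [Finset.sum_const, Finset.sum_const, card_range, nsmul_eq_mul, nsmul_eq_mul, pow_two,
      mul_assoc, ENNReal.ofReal_mul (Nat.cast_nonneg _), ENNReal.ofReal_mul (Nat.cast_nonneg _),
      ENNReal.ofReal_natCast]
  rw [ENNReal.ofReal_add (by positivity) (by positivity)]
  exact add_le_add q1 q2

theorem key_finite {s : ℝ} (cs : Cst s) {h τ pb : ℝ} (hh0 : 0 < h) (hh1 : h ≤ cs.h0) {n z0 Δ D : ℕ}
    (h2z0 : 2 * z0 < n) (hz0 : cs.C1 * h * n ≤ z0) (hΔ : 1 ≤ Δ) (hΔh : h ^ 2 * Δ ≤ 1)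
    (hτ : 0 < τ) (hsτ : s * Real.exp (3 * τ / 2) < 1)
    (hpb : n * (Real.exp (-(3 * s * h ^ 2 * z0)) + Real.exp (-(s * h ^ 3 * n / 4))) +
      n ^ 2 * (Real.exp (-(h * D)) * Real.exp (Cp cs) + Real.exp (-(s * h ^ 3 * n / 4))) ≤ pb)
    (hD2 : Real.exp τ ^ D ≤ 2)
    (hsmall : rho s τ ^ n * rho s (3 * τ) ^ n * pb ≤ rho s τ ^ (4 * n) / 64)
    {P : Measure Ω} {E : Ω → ℕ × ℕ → ℕ}
    (hE : EnvLaw P (bx n n) (sth (s * Real.exp (-(τ / 2))) (fun _ => s * Real.exp (-(τ / 2)))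
      (fun _ => s ^ 2)) E) :
    ∃ z : ℕ, z ≤ 2 * z0 ∧
      ENNReal.ofReal (rho s τ ^ (2 * n - z - 1) / (16 * ((2 * z0 / Δ + 1 : ℕ) : ℝ))) ≤
        ∫⁻ ω, ENNReal.ofReal (Real.exp τ ^ (Tz n z (E ω))) ∂P := by
  have hs0 := cs.hs0
  have hs1 := cs.hs1
  have hn : 1 ≤ n := by omega
  have hsτ2 : s * Real.exp (τ / 2) < 1 := lt_of_le_of_lt (by gcongr; linarith) hsτ
  set a := s * Real.exp (-(τ / 2)) with ha
  have ha0 : 0 < a := by positivity
  have has : a ≤ s := by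
    rw [ha]; exact mul_le_of_le_one_right hs0.le (Real.exp_le_one_iff.2 (by linarith))
  have ha1 : a < 1 := by linarith
  have h01 : ∀ p ∈ bx n n, 0 ≤ sth a (fun _ => a) (fun _ => s ^ 2) p ∧
      sth a (fun _ => a) (fun _ => s ^ 2) p < 1 := fun p _ => sth01 hs0 hs1 ha0.le ha1 ha0.le ha1 p
  have hρ := rho_pos hs0 hτ.le hsτ2
  have hρ3 : 0 < rho s (3 * τ) := rho_pos hs0 (by positivity) (by
    have : 3 * τ / 2 = (3 * τ) / 2 := by ring
    rw [← this]; exact hsτ)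
  have hU0 : 0 < Real.exp τ := Real.exp_pos _
  have hU1 : 1 ≤ Real.exp τ := Real.one_le_exp hτ.le
  set K : ℕ := 2 * z0 / Δ + 1 with hK
  have hKpos : (0 : ℝ) < (K : ℝ) := by rw [hK]; positivity
  -- the good event
  set Gd : Set Ω := {ω | (∀ z', 2 * z0 < z' → z' < n → Az n z' (E ω) < Az n z0 (E ω)) ∧
      (∀ z z', z < z' → z' ≤ z + Δ → z' < n → Az n z' (E ω) < Az n z (E ω) + D)} with hGd
  have hGm : MeasurableSet Gd := MeasurableSet.of_discrete
  have hbad : P Gdᶜ ≤ ENNReal.ofReal pb :=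
    (bad_prob cs hh0 hh1 h2z0 hz0 hΔh (D := D) ha0.le has h01 hE).trans (ENNReal.ofReal_le_ofReal hpb)
  have hkΔ : ∀ k < K, k * Δ ≤ 2 * z0 := by
    intro k hk
    have h1 : k ≤ 2 * z0 / Δ := by omega
    exact (Nat.mul_le_mul_right Δ h1).trans (Nat.div_mul_le_self _ _)
  -- integral over the good event
  have hgood : ∫⁻ ω in Gd, ENNReal.ofReal (Real.exp τ ^ (GG (hz (E ω)) n n)) ∂P ≤
      2 * ∑ k ∈ range K, ∫⁻ ω, ENNReal.ofReal (Real.exp τ ^ (Az n (k * Δ) (E ω))) ∂P := by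
    rw [← lintegral_finsetSum _ (fun k _ => Measurable.of_discrete),
      ← lintegral_const_mul _ (Measurable.of_discrete)]
    refine le_trans (setLIntegral_mono' hGm (fun ω hω => ?_)) (setLIntegral_le_lintegral _ _)
    obtain ⟨k, hk, hle⟩ := good_bound hn h2z0 hΔ (E ω) hω.1 hω.2
    calc ENNReal.ofReal (Real.exp τ ^ (GG (hz (E ω)) n n))
        ≤ ENNReal.ofReal (2 * Real.exp τ ^ (Az n (k * Δ) (E ω))) := by
          apply ENNReal.ofReal_le_ofReal
          calc Real.exp τ ^ (GG (hz (E ω)) n n) ≤ Real.exp τ ^ (Az n (k * Δ) (E ω) + D) :=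
                pow_le_pow_right₀ hU1 hle
            _ = Real.exp τ ^ (Az n (k * Δ) (E ω)) * Real.exp τ ^ D := pow_add _ _ _
            _ ≤ Real.exp τ ^ (Az n (k * Δ) (E ω)) * 2 := by gcongr
            _ = _ := mul_comm _ _
      _ = 2 * ENNReal.ofReal (Real.exp τ ^ (Az n (k * Δ) (E ω))) := by
          rw [ENNReal.ofReal_mul (by norm_num)]; simp
      _ ≤ _ := by
          gcongr
          exact Finset.single_le_sum (f := fun k =>
            ENNReal.ofReal (Real.exp τ ^ (Az n (k * Δ) (E ω)))) (fun _ _ => zero_le)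
            (mem_range.2 hk)
  -- integral over the bad event
  have hbadint : ∫⁻ ω in Gdᶜ, ENNReal.ofReal (Real.exp τ ^ (GG (hz (E ω)) n n)) ∂P ≤
      ENNReal.ofReal (rho s τ ^ (2 * n) / 8) := by
    have hcs := cs_set (P := P) Gdᶜ (fun ω => ENNReal.ofReal (Real.exp τ ^ (GG (hz (E ω)) n n)))
    have e2 : ∀ ω, (ENNReal.ofReal (Real.exp τ ^ (GG (hz (E ω)) n n))) ^ 2 =
        ENNReal.ofReal ((Real.exp (2 * τ)) ^ (GG (hz (E ω)) n n)) := by
      intro ω
      rw [← ENNReal.ofReal_pow (by positivity)]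
      congr 1
      rw [← pow_mul, mul_comm, pow_mul, ← Real.exp_nat_mul]
      norm_num
    simp only [e2] at hcs
    have hup := hor_upper (P := P) (E := E) (n := n) (b := a) hs0 hs1 hτ hsτ ha0.le ha1 hE
    have h3 : (∫⁻ ω in Gdᶜ, ENNReal.ofReal (Real.exp τ ^ (GG (hz (E ω)) n n)) ∂P) ^ 2 ≤
        (ENNReal.ofReal (rho s τ ^ (2 * n) / 8)) ^ 2 := by
      calc _ ≤ _ := hcs
        _ ≤ ENNReal.ofReal (rho s τ ^ n * rho s (3 * τ) ^ n) * ENNReal.ofReal pb := by gcongr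
        _ = ENNReal.ofReal (rho s τ ^ n * rho s (3 * τ) ^ n * pb) := by
          rw [← ENNReal.ofReal_mul (by positivity)]
        _ ≤ ENNReal.ofReal (rho s τ ^ (4 * n) / 64) := ENNReal.ofReal_le_ofReal hsmall
        _ = _ := by
          rw [← ENNReal.ofReal_pow (by positivity)]
          congr 1
          rw [div_pow, ← pow_mul]
          norm_num
          ring_nf
    exact (ENNReal.pow_le_pow_left_iff two_ne_zero).1 h3
  by_contra hcon
  push Not at hcon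
  have hAz : ∀ k ∈ range K, ∫⁻ ω, ENNReal.ofReal (Real.exp τ ^ (Az n (k * Δ) (E ω))) ∂P ≤
      ENNReal.ofReal (rho s τ ^ (2 * n) / (16 * (K : ℝ))) := by
    intro k hk
    have hk' := hkΔ k (mem_range.1 hk)
    rw [mgf_Az (by omega) hs0 hs1 hτ hsτ2 ha0.le ha1 hE]
    calc _ ≤ ENNReal.ofReal (rho s τ ^ (k * Δ + 1)) *
          ENNReal.ofReal (rho s τ ^ (2 * n - k * Δ - 1) / (16 * (K : ℝ))) := by
          gcongr
          exact (hcon (k * Δ) hk').le
      _ = _ := by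
          rw [← ENNReal.ofReal_mul (by positivity)]
          congr 1
          rw [← mul_div_assoc, ← pow_add]
          congr 2
          omega
  have hlow := hor_lower (P := P) (E := E) (n := n) hs0 hs1 hτ hsτ2 hE
  have hsplit := lintegral_add_compl (μ := P)
    (fun ω => ENNReal.ofReal (Real.exp τ ^ (GG (hz (E ω)) n n))) hGm
  have hfinal : ENNReal.ofReal (rho s τ ^ (2 * n)) ≤ ENNReal.ofReal (rho s τ ^ (2 * n) / 2) := by
    calc ENNReal.ofReal (rho s τ ^ (2 * n)) ≤ _ := hlow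
      _ ≤ 2 * (2 * ∑ k ∈ range K, ENNReal.ofReal (rho s τ ^ (2 * n) / (16 * (K : ℝ))) +
            ENNReal.ofReal (rho s τ ^ (2 * n) / 8)) := by
          rw [← hsplit]
          gcongr with k hk
          exact hgood.trans (by gcongr with k hk; exact hAz k hk)
      _ = _ := by
          rw [Finset.sum_const, card_range, nsmul_eq_mul, ← ENNReal.ofReal_natCast K,
            ← ENNReal.ofReal_mul (by positivity)]
          have e1 : (K : ℝ) * (rho s τ ^ (2 * n) / (16 * (K : ℝ))) = rho s τ ^ (2 * n) / 16 := by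
            field_simp
          rw [e1]
          have e2 : (2 : ℝ≥0∞) = ENNReal.ofReal 2 := by simp
          rw [e2, ← ENNReal.ofReal_mul (by norm_num), ← ENNReal.ofReal_add (by positivity) (by positivity),
            ← ENNReal.ofReal_mul (by norm_num)]
          congr 1
          ring
  rw [ENNReal.ofReal_le_ofReal_iff (by positivity)] at hfinal
  have : 0 < rho s τ ^ (2 * n) := by positivity
  linarith

/-- combination of the finite estimates -/
theorem key_LT {s : ℝ} (cs : Cst s) {h τ pb : ℝ} (hh0 : 0 < h) (hh1 : h ≤ cs.h0) {n z0 Δ D : ℕ}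
    (h2z0 : 2 * z0 < n) (hz0 : cs.C1 * h * n ≤ z0) (hΔ : 1 ≤ Δ) (hΔh : h ^ 2 * Δ ≤ 1)
    (hτ : 0 < τ) (hsτ : s * Real.exp (3 * τ / 2) < 1)
    (hpb : n * (Real.exp (-(3 * s * h ^ 2 * z0)) + Real.exp (-(s * h ^ 3 * n / 4))) +
      n ^ 2 * (Real.exp (-(h * D)) * Real.exp (Cp cs) + Real.exp (-(s * h ^ 3 * n / 4))) ≤ pb)
    (hD2 : Real.exp τ ^ D ≤ 2)
    (hsmall : rho s τ ^ n * rho s (3 * τ) ^ n * pb ≤ rho s τ ^ (4 * n) / 64) :
    ∃ z : ℕ, z ≤ 2 * z0 ∧ ∀ t : ℝ,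
      τ * t ≤ Real.log (rho s τ ^ (2 * n - z - 1) / (16 * ((2 * z0 / Δ + 1 : ℕ) : ℝ)) / 2) →
      ENNReal.ofReal ((rho s τ ^ (2 * n - z - 1) / (16 * ((2 * z0 / Δ + 1 : ℕ) : ℝ))) ^ 2 /
        (4 * rho s (2 * τ) ^ (n - z + n))) ≤ LT (s ^ 2) (n - z) n t := by
  have hs0 := cs.hs0
  have hs1 := cs.hs1
  have hsτ2 : s * Real.exp (τ / 2) < 1 := lt_of_le_of_lt (by gcongr; linarith) hsτ
  have hsτ1 : s * Real.exp τ < 1 := lt_of_le_of_lt (by gcongr; linarith) hsτ
  set a := s * Real.exp (-(τ / 2)) with ha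
  have ha0 : 0 < a := by positivity
  have has : a ≤ s := by
    rw [ha]; exact mul_le_of_le_one_right hs0.le (Real.exp_le_one_iff.2 (by linarith))
  have ha1 : a < 1 := by linarith
  have hcan := envLaw_pi (bx n n) (sth a (fun _ => a) (fun _ => s ^ 2))
  obtain ⟨z, hz, hlow⟩ := key_finite cs hh0 hh1 h2z0 hz0 hΔ hΔh hτ hsτ hpb hD2 hsmall hcan
  refine ⟨z, hz, fun t ht => ?_⟩
  have hρ := rho_pos hs0 hτ.le hsτ2
  have hρ2 : 0 < rho s (2 * τ) := rho_pos hs0 (by positivity) (by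
    have : 2 * τ / 2 = τ := by ring
    rw [this]; exact hsτ1)
  have hup := mgf_Tz (z := z) (by omega : z ≤ n) hs0 hs1 hτ hsτ1 ha0.le ha1 ha0.le ha1 hcan
  have hP := hcan.prob (fun p _ => sth01 hs0 hs1 ha0.le ha1 ha0.le ha1 p)
  have hK : (0 : ℝ) < ((2 * z0 / Δ + 1 : ℕ) : ℝ) := by positivity
  have hexp2 : Real.exp (2 * τ) = Real.exp τ ^ 2 := by
    rw [← Real.exp_nat_mul]; norm_num
  rw [hexp2] at hup
  have hm1 : 0 < rho s τ ^ (2 * n - z - 1) / (16 * ((2 * z0 / Δ + 1 : ℕ) : ℝ)) := by positivity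
  have hpz := paley hP (fun x => Tz n z (ext (bx n n) x)) (Real.exp_pos τ) hm1
    (by positivity) hlow hup
  refine hpz.trans ?_
  rw [← LT_eq hs0 hs1 ha0.le ha1 ha0.le ha1 hcan]
  refine measure_mono (fun x hx => ?_)
  have hx' : rho s τ ^ (2 * n - z - 1) / (16 * ((2 * z0 / Δ + 1 : ℕ) : ℝ)) / 2 ≤
    Real.exp τ ^ Tz n z (ext (bx n n) x) := hx
  show t ≤ (Tz n z (ext (bx n n) x) : ℝ)
  have h1 := Real.log_le_log (by positivity) hx'
  rw [Real.log_pow, Real.log_exp] at h1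
  have h2 : τ * t ≤ τ * (Tz n z (ext (bx n n) x) : ℝ) := by linarith
  exact le_of_mul_le_mul_left h2 hτ

end law

end Pool.Agent.MP2c

end

section

/-! The key upper tail estimate (item D1 of MP_2c6138_pr). -/

set_option autoImplicit false
set_option linter.unusedSectionVars false
set_option linter.unusedVariables false
set_option maxHeartbeats 1000000

namespace Pool.Agent.MP2c

open MeasureTheory Finset Filter Topology
open scoped ENNReal

theorem rho_log_bound {s c C t0 : ℝ} (hs0 : 0 < s) (hs1 : s < 1)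
    (hcube : ∀ t : ℝ, 0 < t → t ≤ t0 →
      s * Real.exp (t / 2) < 1 ∧
      s / (1 - s) * t + c * t ^ 3 ≤
        Real.log ((1 - s * Real.exp (-(t / 2))) / (1 - s * Real.exp (t / 2))) ∧
      Real.log ((1 - s * Real.exp (-(t / 2))) / (1 - s * Real.exp (t / 2))) ≤
        s / (1 - s) * t + C * t ^ 3) {t : ℝ} (h0 : 0 < t) (h1 : t ≤ t0) :
    0 < rho s t ∧ s / (1 - s) * t + c * t ^ 3 ≤ Real.log (rho s t) ∧
      Real.log (rho s t) ≤ s / (1 - s) * t + C * t ^ 3 := by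
  obtain ⟨a1, a2, a3⟩ := hcube t h0 h1
  exact ⟨rho_pos hs0 h0.le a1, a2, a3⟩

/-- the main inequality in terms of logarithms -/
theorem final_ineqs {g c C A δ ε τ L x z K f1 f2 : ℝ} (hg : 0 < g) (hc : 0 < c) (hC : 0 < C)
    (hτ : 0 < τ) (hA : c * A = 6) (hτ3 : x * τ ^ 3 = A * δ * L) (hδ : 0 < δ) (hL : 0 ≤ L)
    (hδε : 16 * C * A * δ ≤ ε) (hx : 1 ≤ x) (hz0 : 0 ≤ z) (hz : z + 1 ≤ x) (hK : 1 ≤ K)
    (hKL : Real.log K ≤ 4 * δ * L) (h1 : g * τ + c * τ ^ 3 ≤ f1)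
    (h2 : f2 ≤ g * (2 * τ) + C * (2 * τ) ^ 3)
    (w : ℝ) (hw : τ * x ^ (1 / 3 : ℝ) = w) (e1 : g * τ + Real.log 32 + w ≤ 2 * δ * L)
    (e2 : 2 * (g * τ) + Real.log 1024 ≤ 4 * δ * L) :
    τ * (2 * g * (x - z / 2) + x ^ (1 / 3 : ℝ)) ≤ (2 * x - z - 1) * f1 - Real.log K - Real.log 32 ∧
    -ε * L ≤ 2 * ((2 * x - z - 1) * f1 - Real.log K - Real.log 16) - Real.log 4 - (2 * x - z) * f2 := by
  have hτ3p : 0 < τ ^ 3 := by positivity
  have b1 : (2 * x - z - 1) * (g * τ + c * τ ^ 3) ≤ (2 * x - z - 1) * f1 := by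
    apply mul_le_mul_of_nonneg_left h1; linarith
  have b2 : c * (x * τ ^ 3) = 6 * δ * L := by rw [hτ3]; linear_combination (δ * L) * hA
  have b3 : x * (c * τ ^ 3) ≤ (2 * x - z - 1) * (c * τ ^ 3) := by
    apply mul_le_mul_of_nonneg_right _ (by positivity); linarith
  have b4 : (2 * x - z) * f2 ≤ (2 * x - z) * (g * (2 * τ) + C * (2 * τ) ^ 3) := by
    apply mul_le_mul_of_nonneg_left h2; linarith
  have b5 : (2 * x - z) * (C * (2 * τ) ^ 3) ≤ 16 * C * (x * τ ^ 3) := by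
    have : (2 * x - z) * (C * (2 * τ) ^ 3) ≤ (2 * x) * (C * (2 * τ) ^ 3) := by
      apply mul_le_mul_of_nonneg_right _ (by positivity); linarith
    calc _ ≤ _ := this
      _ = _ := by ring
  have b6 : 16 * C * (x * τ ^ 3) ≤ ε * L := by
    rw [hτ3]
    calc 16 * C * (A * δ * L) = (16 * C * A * δ) * L := by ring
      _ ≤ _ := mul_le_mul_of_nonneg_right hδε hL
  have l1 : Real.log 1024 = 2 * Real.log 16 + Real.log 4 := by
    have : (1024 : ℝ) = 16 ^ 2 * 4 := by norm_num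
    rw [this, Real.log_mul (by norm_num) (by norm_num), Real.log_pow]; norm_num
  have hgτ : 0 < g * τ := by positivity
  have b1' : (2 * x - z - 1) * (g * τ + c * τ ^ 3) =
    (2 * x - z - 1) * (g * τ) + (2 * x - z - 1) * (c * τ ^ 3) := by ring
  have b3' : x * (c * τ ^ 3) = c * (x * τ ^ 3) := by ring
  have b7 : (2 * x - z - 1) * (g * τ) = (2 * x - z) * (g * τ) - g * τ := by ring
  have b4' : (2 * x - z) * (g * (2 * τ) + C * (2 * τ) ^ 3) =
    2 * ((2 * x - z) * (g * τ)) + (2 * x - z) * (C * (2 * τ) ^ 3) := by ring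
  constructor
  · have : τ * (2 * g * (x - z / 2) + x ^ (1 / 3 : ℝ)) = (2 * x - z) * (g * τ) + w := by
      rw [mul_add, hw]; ring
    rw [this]
    linarith
  · linarith

theorem small_aux {x a b G R C A δ L lg y l64 : ℝ} (c1 : x * b ≤ R) (c2 : x * G ≤ x * a)
    (c3 : R = 3 * (x * G) + 27 * C * (A * δ * L))
    (h : (2 + 27 * C * A * δ) * L + (lg + l64) ≤ y) :
    x * a + x * b + (2 * L + lg - y) ≤ 4 * x * a - l64 := by
  have e1 : (2 + 27 * C * A * δ) * L = 2 * L + 27 * C * (A * δ * L) := by ring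
  have e2 : 4 * x * a = 4 * (x * a) := by ring
  rw [e1] at h
  rw [e2]
  linarith

theorem pb_bound {s h x y C1 Cq z0 D : ℝ} (hs0 : 0 < s) (hh0 : 0 < h) (hx1 : 1 ≤ x) (hC1 : 1 ≤ C1)
    (hz0 : C1 * h * x ≤ z0) (hhD : y ≤ h * D) (hy : y ≤ s * h ^ 3 * x / 4) :
    x * (Real.exp (-(3 * s * h ^ 2 * z0)) + Real.exp (-(s * h ^ 3 * x / 4))) +
      x ^ 2 * (Real.exp (-(h * D)) * Real.exp Cq + Real.exp (-(s * h ^ 3 * x / 4))) ≤
    Real.exp (2 * Real.log x + Real.log (Real.exp Cq + 3) - y) := by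
  have hx0 : 0 < x := by linarith
  have hB : Real.exp (-(s * h ^ 3 * x / 4)) ≤ Real.exp (-y) := Real.exp_le_exp.2 (by linarith)
  have hB1 : Real.exp (-(3 * s * h ^ 2 * z0)) ≤ Real.exp (-y) := by
    apply Real.exp_le_exp.2
    have : s * h ^ 3 * x / 4 ≤ 3 * s * h ^ 2 * z0 := by
      calc s * h ^ 3 * x / 4 ≤ 3 * s * h ^ 2 * (1 * h * x) := by
            have : 0 ≤ s * h ^ 3 * x := by positivity
            nlinarith
        _ ≤ 3 * s * h ^ 2 * (C1 * h * x) := by gcongr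
        _ ≤ _ := by gcongr
    linarith
  have hB2 : Real.exp (-(h * D)) ≤ Real.exp (-y) := Real.exp_le_exp.2 (by linarith)
  have e0 : Real.exp (2 * Real.log x + Real.log (Real.exp Cq + 3) - y) =
      x ^ 2 * (Real.exp Cq + 3) * Real.exp (-y) := by
    rw [sub_eq_add_neg, Real.exp_add, Real.exp_add, Real.exp_log (by positivity)]
    congr 2
    have : 2 * Real.log x = Real.log (x ^ 2) := by rw [Real.log_pow]; norm_num
    rw [this, Real.exp_log (by positivity)]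
  rw [e0]
  have a1 : x * (Real.exp (-(3 * s * h ^ 2 * z0)) + Real.exp (-(s * h ^ 3 * x / 4))) ≤
      x ^ 2 * (Real.exp (-y) + Real.exp (-y)) := by
    have : x ≤ x ^ 2 := by nlinarith
    gcongr
  have a2 : x ^ 2 * (Real.exp (-(h * D)) * Real.exp Cq + Real.exp (-(s * h ^ 3 * x / 4))) ≤
      x ^ 2 * (Real.exp (-y) * Real.exp Cq + Real.exp (-y)) := by
    gcongr
  calc _ ≤ _ := add_le_add a1 a2
    _ = _ := by ring

theorem small_bound {n : ℕ} {s τ pb g c C A δ y lg : ℝ} (r1 : 0 < rho s τ) (r3 : 0 < rho s (3 * τ))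
    (hτ : 0 < τ) (hc : 0 < c)
    (l1 : g * τ + c * τ ^ 3 ≤ Real.log (rho s τ))
    (u3 : Real.log (rho s (3 * τ)) ≤ g * (3 * τ) + C * (3 * τ) ^ 3)
    (hτ3 : (n : ℝ) * τ ^ 3 = A * δ * Real.log n)
    (hpb : pb ≤ Real.exp (2 * Real.log n + lg - y))
    (h : (2 + 27 * C * A * δ) * Real.log n + (lg + Real.log 64) ≤ y) :
    rho s τ ^ n * rho s (3 * τ) ^ n * pb ≤ rho s τ ^ (4 * n) / 64 := by
  have q1 : rho s τ ^ n = Real.exp (n * Real.log (rho s τ)) := by
    rw [Real.exp_nat_mul, Real.exp_log r1]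
  have q3 : rho s (3 * τ) ^ n = Real.exp (n * Real.log (rho s (3 * τ))) := by
    rw [Real.exp_nat_mul, Real.exp_log r3]
  have q4 : rho s τ ^ (4 * n) = Real.exp (4 * n * Real.log (rho s τ)) := by
    have : 4 * (n : ℝ) * Real.log (rho s τ) = ((4 * n : ℕ) : ℝ) * Real.log (rho s τ) := by
      push_cast; ring
    rw [this, Real.exp_nat_mul, Real.exp_log r1]
  have q5 : rho s τ ^ (4 * n) / 64 = Real.exp (4 * n * Real.log (rho s τ) - Real.log 64) := by
    rw [Real.exp_sub, Real.exp_log (by norm_num), q4]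
  rw [q5, q1, q3, ← Real.exp_add]
  calc Real.exp (n * Real.log (rho s τ) + n * Real.log (rho s (3 * τ))) * pb
      ≤ Real.exp (n * Real.log (rho s τ) + n * Real.log (rho s (3 * τ))) *
        Real.exp (2 * Real.log n + lg - y) := by gcongr
    _ = Real.exp (n * Real.log (rho s τ) + n * Real.log (rho s (3 * τ)) +
        (2 * Real.log n + lg - y)) := by rw [← Real.exp_add]
    _ ≤ _ := by
      apply Real.exp_le_exp.2
      have c1 : (n : ℝ) * Real.log (rho s (3 * τ)) ≤ n * (g * (3 * τ) + C * (3 * τ) ^ 3) := by gcongr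
      have c2 : (n : ℝ) * (g * τ) ≤ n * Real.log (rho s τ) := by
        have : 0 ≤ c * τ ^ 3 := by positivity
        gcongr
        linarith
      have c3 : (n : ℝ) * (g * (3 * τ) + C * (3 * τ) ^ 3) =
          3 * (n * (g * τ)) + 27 * C * (n * τ ^ 3) := by
        ring
      rw [hτ3] at c3
      exact small_aux c1 c2 c3 h

theorem K_bound {h x C1 : ℝ} {z0 Δ : ℕ} (hh0 : 0 < h) (hh1 : h ≤ 1) (hx : 1 ≤ x) (hC1 : 1 ≤ C1)
    (hz0u : (z0 : ℝ) < C1 * h * x + 1)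
    (hΔ1 : 1 ≤ Δ) (hΔl : (h ^ 2)⁻¹ < Δ + 1) :
    ((2 * z0 / Δ + 1 : ℕ) : ℝ) ≤ 4 * C1 * h ^ 3 * x + 5 := by
  have d1 : ((2 * z0 / Δ : ℕ) : ℝ) ≤ 2 * z0 / Δ := by
    have := Nat.cast_div_le (α := ℝ) (m := 2 * z0) (n := Δ)
    push_cast at this
    exact this
  have hΔ2 : (h ^ 2)⁻¹ / 2 ≤ Δ := by
    have : (1 : ℝ) ≤ Δ := by exact_mod_cast hΔ1
    linarith
  have d2 : 2 * (z0 : ℝ) / Δ ≤ 2 * (C1 * h * x + 1) / ((h ^ 2)⁻¹ / 2) := by
    apply div_le_div₀ (by positivity) (by linarith) (by positivity) hΔ2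
  have d3 : 2 * (C1 * h * x + 1) / ((h ^ 2)⁻¹ / 2) = 4 * C1 * h ^ 3 * x + 4 * h ^ 2 := by
    field_simp
    ring
  have d4 : h ^ 2 ≤ 1 := pow_le_one₀ hh0.le hh1
  push_cast
  linarith

theorem last_step {n z : ℕ} {s τ K ε f2 : ℝ} (hx1 : 1 ≤ (n : ℝ)) (hzn : z < n) (hK : 1 ≤ K)
    (r1 : 0 < rho s τ) (r2 : 0 < rho s (2 * τ))
    (F2 : -ε * Real.log n ≤ 2 * ((2 * n - z - 1) * Real.log (rho s τ) - Real.log K - Real.log 16) -
      Real.log 4 - (2 * n - z) * Real.log (rho s (2 * τ))) :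
    (n : ℝ) ^ (-ε) ≤ (rho s τ ^ (2 * n - z - 1) / (16 * K)) ^ 2 / (4 * rho s (2 * τ) ^ (n - z + n)) := by
  have hx0 : (0 : ℝ) < n := by linarith
  have hN1 : ((2 * n - z - 1 : ℕ) : ℝ) = 2 * n - z - 1 := by
    rw [Nat.cast_sub (by omega), Nat.cast_sub (by omega)]; push_cast; ring
  have hN2 : ((n - z + n : ℕ) : ℝ) = 2 * n - z := by
    rw [Nat.cast_add, Nat.cast_sub (by omega)]; ring
  have hlogm : Real.log (rho s τ ^ (2 * n - z - 1) / (16 * K)) =
      (2 * n - z - 1) * Real.log (rho s τ) - Real.log K - Real.log 16 := by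
    rw [Real.log_div (by positivity) (by positivity), Real.log_pow, hN1,
      Real.log_mul (by norm_num) (by positivity)]
    ring
  have hpos : 0 < (rho s τ ^ (2 * n - z - 1) / (16 * K)) ^ 2 / (4 * rho s (2 * τ) ^ (n - z + n)) := by
    positivity
  rw [← Real.log_le_log_iff (by positivity) hpos, Real.log_rpow hx0,
    Real.log_div (by positivity) (by positivity), Real.log_pow, hlogm,
    Real.log_mul (by norm_num) (by positivity), Real.log_pow, hN2]
  push_cast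
  linarith

theorem t_step {n z : ℕ} {s τ K T : ℝ} (hzn : z < n) (hK : 1 ≤ K)
    (r1 : 0 < rho s τ)
    (F1 : T ≤ (2 * n - z - 1) * Real.log (rho s τ) - Real.log K - Real.log 32) :
    T ≤ Real.log (rho s τ ^ (2 * n - z - 1) / (16 * K) / 2) := by
  have hN1 : ((2 * n - z - 1 : ℕ) : ℝ) = 2 * n - z - 1 := by
    rw [Nat.cast_sub (by omega), Nat.cast_sub (by omega)]; push_cast; ring
  rw [Real.log_div (by positivity) (by norm_num), Real.log_div (by positivity) (by positivity),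
    Real.log_pow, hN1, Real.log_mul (by norm_num) (by positivity)]
  have l32 : Real.log 32 = Real.log 16 + Real.log 2 := by
    rw [← Real.log_mul (by norm_num) (by norm_num)]; norm_num
  linarith

theorem keyZ (s : ℝ) (hs0 : 0 < s) (hs1 : s < 1) : KeyZ s := by
  intro ε hε
  obtain ⟨cs⟩ := exists_cst s hs0 hs1
  obtain ⟨c, C, t0, hc, hC, ht0, hcube⟩ := cube_bound s hs0 hs1
  have hcs0 := cs.hh0
  have hC1 := cs.hC1
  obtain ⟨A, hA⟩ : ∃ A : ℝ, A = 6 / c := ⟨_, rfl⟩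
  have hA0 : 0 < A := by rw [hA]; positivity
  have hcA : c * A = 6 := by rw [hA]; field_simp
  obtain ⟨δ, hδdef⟩ : ∃ δ : ℝ, δ = min (1 / 12) (min (ε / 2) (ε / (16 * C * A))) := ⟨_, rfl⟩
  have hδ : 0 < δ := by
    rw [hδdef, lt_min_iff, lt_min_iff]; exact ⟨by norm_num, by positivity, by positivity⟩
  have hδ1 : δ ≤ 1 / 12 := by rw [hδdef]; exact min_le_left _ _
  have hδ2 : 2 * δ ≤ ε := by
    have : δ ≤ ε / 2 := by rw [hδdef]; exact (min_le_right _ _).trans (min_le_left _ _)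
    linarith
  have hδ3 : 16 * C * A * δ ≤ ε := by
    have : δ ≤ ε / (16 * C * A) := by rw [hδdef]; exact (min_le_right _ _).trans (min_le_right _ _)
    rw [le_div_iff₀ (by positivity)] at this
    linarith
  obtain ⟨g, hg⟩ : ∃ g : ℝ, g = s / (1 - s) := ⟨_, rfl⟩
  have hg0 : 0 < g := by rw [hg]; have : 0 < 1 - s := by linarith
                         positivity
  have hev := params_ev (s := s) (g := g) (t0 := t0) (h0 := cs.h0) (C1 := cs.C1)
    (Cq := Real.log (Real.exp (Cp cs) + 3) + Real.log 64) (A := A) (δ := δ) (ε := ε)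
    (M := 2 + 27 * C * A * δ) hs0 hg0 ht0 hcs0 hC1 hA0 hδ hδ1 hδ2 (by positivity)
  obtain ⟨n0, hn0⟩ := eventually_atTop.1 (tendsto_natCast_atTop_atTop.eventually hev)
  refine ⟨n0, fun n hn => ?_⟩
  obtain ⟨w, p1, p2, p3, p4, p5, p6, p7, p8, p9, p10, p11, p12, p13, p14⟩ := hn0 n hn
  have hx0 : (0 : ℝ) < n := by linarith
  obtain ⟨h, hh⟩ : ∃ h : ℝ, h = (n : ℝ) ^ (δ - 1 / 3 : ℝ) := ⟨_, rfl⟩
  rw [← hh] at p4 p5 p7 p8 p9 p11
  have hh0 : 0 < h := by rw [hh]; positivity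
  obtain ⟨τ, hτdef⟩ : ∃ τ : ℝ, τ = w * (n : ℝ) ^ (-(1 / 3) : ℝ) := ⟨_, rfl⟩
  rw [← hτdef] at p6 p10 p13 p14
  have hτ : 0 < τ := by rw [hτdef]; positivity
  have hτ3 : (n : ℝ) * τ ^ 3 = A * δ * Real.log n := by
    rw [hτdef, mul_pow, p3, ← Real.rpow_natCast, ← Real.rpow_mul hx0.le]
    have : (-(1 / 3) : ℝ) * ((3 : ℕ) : ℝ) = -1 := by norm_num
    rw [this, Real.rpow_neg_one]
    field_simp
  have hτx : τ * (n : ℝ) ^ (1 / 3 : ℝ) = w := by
    rw [hτdef, mul_assoc, ← Real.rpow_add hx0]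
    norm_num
  obtain ⟨z0, hz0def⟩ : ∃ z0 : ℕ, z0 = ⌈cs.C1 * h * n⌉₊ := ⟨_, rfl⟩
  obtain ⟨Δ, hΔdef⟩ : ∃ Δ : ℕ, Δ = ⌊(h ^ 2)⁻¹⌋₊ := ⟨_, rfl⟩
  obtain ⟨D, hDdef⟩ : ∃ D : ℕ, D = ⌈(n : ℝ) ^ (1 / 3 - δ / 2 : ℝ)⌉₊ := ⟨_, rfl⟩
  have hz0l : cs.C1 * h * n ≤ z0 := by rw [hz0def]; exact Nat.le_ceil _
  have hz0u : (z0 : ℝ) < cs.C1 * h * n + 1 := by
    rw [hz0def]; exact Nat.ceil_lt_add_one (by positivity)
  have hDl : (n : ℝ) ^ (1 / 3 - δ / 2 : ℝ) ≤ D := by rw [hDdef]; exact Nat.le_ceil _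
  have hDu : (D : ℝ) < (n : ℝ) ^ (1 / 3 - δ / 2 : ℝ) + 1 := by
    rw [hDdef]; exact Nat.ceil_lt_add_one (by positivity)
  have h2z0 : 2 * z0 < n := by
    have : (2 : ℝ) * z0 < n := by linarith
    exact_mod_cast this
  have hinv : 1 ≤ (h ^ 2)⁻¹ := by
    rw [one_le_inv₀ (by positivity)]
    exact pow_le_one₀ hh0.le p5
  have hΔ1 : 1 ≤ Δ := by rw [hΔdef]; exact Nat.one_le_floor_iff _ |>.2 hinv
  have hΔu : (Δ : ℝ) ≤ (h ^ 2)⁻¹ := by rw [hΔdef]; exact Nat.floor_le (by positivity)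
  have hΔl : (h ^ 2)⁻¹ < Δ + 1 := by rw [hΔdef]; exact Nat.lt_floor_add_one _
  have hΔh : h ^ 2 * Δ ≤ 1 := by
    calc h ^ 2 * Δ ≤ h ^ 2 * (h ^ 2)⁻¹ := by gcongr
      _ = 1 := mul_inv_cancel₀ (by positivity)
  obtain ⟨r1, l1, u1⟩ := rho_log_bound hs0 hs1 hcube hτ (by linarith)
  obtain ⟨r2, l2, u2⟩ := rho_log_bound hs0 hs1 hcube (t := 2 * τ) (by positivity) (by linarith)
  obtain ⟨r3, l3, u3⟩ := rho_log_bound hs0 hs1 hcube (t := 3 * τ) (by positivity) (by linarith)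
  rw [← hg] at l1 u1 l2 u2 l3 u3
  have hL : 0 ≤ Real.log (n : ℝ) := Real.log_nonneg p1
  have hsτ : s * Real.exp (3 * τ / 2) < 1 := (hcube (3 * τ) (by positivity) p6).1
  have hD2 : Real.exp τ ^ D ≤ 2 := by
    rw [← Real.exp_nat_mul]
    calc Real.exp (D * τ) ≤ Real.exp (Real.log 2) := by
          apply Real.exp_le_exp.2
          calc (D : ℝ) * τ ≤ ((n : ℝ) ^ (1 / 3 - δ / 2 : ℝ) + 1) * τ := by gcongr
            _ = τ * ((n : ℝ) ^ (1 / 3 - δ / 2 : ℝ) + 1) := mul_comm _ _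
            _ ≤ _ := p10
      _ = 2 := Real.exp_log (by norm_num)
  -- the bad probability
  obtain ⟨y, hy⟩ : ∃ y : ℝ, y = (n : ℝ) ^ (δ / 2 : ℝ) := ⟨_, rfl⟩
  rw [← hy] at p11 p12
  have hhD : y ≤ h * D := by
    calc y = h * (n : ℝ) ^ (1 / 3 - δ / 2 : ℝ) := by
          rw [hh, hy, ← Real.rpow_add hx0]; congr 1; ring
      _ ≤ _ := by gcongr
  have hpb2 := pb_bound (Cq := Cp cs) hs0 hh0 p1 hC1 hz0l hhD p11
  have hsmall := small_bound r1 r3 hτ hc l1 u3 hτ3 hpb2 p12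
  obtain ⟨z, hz, hLT⟩ := key_LT cs hh0 p4 h2z0 hz0l hΔ1 hΔh hτ hsτ le_rfl hD2 hsmall
  have hzn : z < n := by omega
  have hzx : (z : ℝ) + 1 ≤ n := by exact_mod_cast hzn
  refine ⟨z, hzn, ?_, ?_⟩
  · have : (z : ℝ) ≤ 2 * z0 := by exact_mod_cast hz
    linarith
  -- the number of grid points
  have hKb := K_bound hh0 p5 p1 hC1 hz0u hΔ1 hΔl
  obtain ⟨K, hK⟩ : ∃ K : ℝ, K = ((2 * z0 / Δ + 1 : ℕ) : ℝ) := ⟨_, rfl⟩
  rw [← hK] at hKb
  have hK1 : 1 ≤ K := by
    rw [hK]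
    exact_mod_cast Nat.le_add_left 1 (2 * z0 / Δ)
  have hKL : Real.log K ≤ 4 * δ * Real.log n := by
    have := Real.log_le_log (by linarith) (hKb.trans p9)
    rwa [Real.log_rpow hx0] at this
  obtain ⟨F1, F2⟩ := final_ineqs (z := (z : ℝ)) (x := (n : ℝ)) hg0 hc hC hτ hcA hτ3 hδ hL hδ3 p1
    (Nat.cast_nonneg _) hzx hK1 hKL l1 u2 w hτx p13 p14
  have e1 : 2 * s / (1 - s) = 2 * g := by rw [hg]; ring
  rw [e1]
  have ht := hLT (2 * g * ((n : ℝ) - z / 2) + (n : ℝ) ^ (1 / 3 : ℝ)) (by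
    rw [← hK]; exact t_step hzn hK1 r1 F1)
  rw [← hK] at ht
  exact le_trans (ENNReal.ofReal_le_ofReal (last_step (f2 := 0) p1 hzn hK1 r1 r2 F2)) ht

end Pool.Agent.MP2c

end
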