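import Pool.Agent.Work.MP_2c6138_pr.Bd.B02

/-! Bundle of small proof modules (one section per former module). -/

section

/-! Two-sided comparison of the increments of the point-to-point profile with stationary
increments, with exact independence of the two sides. (helper96, MP_2c6138_pr) -/

set_option autoImplicit false
set_option linter.unusedSectionVars false
set_option linter.unusedVariables false

namespace Pool.Agent.MP2c

open MeasureTheory Finset
open scoped ENNReal

/-- remove both boundaries -/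
def bz (e : ℕ × ℕ → ℕ) : ℕ × ℕ → ℕ := fun p => if p.1 = 0 ∨ p.2 = 0 then 0 else e p

/-- Restart at column `w`. -/
theorem restart_col {e e' : ℕ × ℕ → ℕ} {w N : ℕ} (h0 : ∀ k, e' (0, k + 1) = e (0, w + (k + 1)))
    (h1 : ∀ j < N, e' (j + 1, 0) = VV e j w)
    (h2 : ∀ j < N, ∀ k, e' (j + 1, k + 1) = e (j + 1, w + (k + 1))) :
    ∀ j ≤ N, ∀ k, UU e' j (k + 1) = UU e j (w + (k + 1)) := by
  intro j
  induction j with
  | zero => intro _ k; exact h0 k
  | succ j ih =>
    intro hj k
    have ihj := ih (by omega)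
    have hV : ∀ k, VV e' j k = VV e j (w + k) := by
      intro k
      induction k with
      | zero => exact h1 j (by omega)
      | succ k ihk =>
        have e1 : VV e' j (k + 1) = e' (j + 1, k + 1) + (VV e' j k - UU e' j (k + 1)) := rfl
        have e2 : VV e j (w + (k + 1)) =
            e (j + 1, w + (k + 1)) + (VV e j (w + k) - UU e j (w + (k + 1))) := rfl
        rw [e1, e2, ihk, ihj k, h2 j (by omega) k]
    have e1 : UU e' (j + 1) (k + 1) = e' (j + 1, k + 1) + (UU e' j (k + 1) - VV e' j k) := rfl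
    have e2 : UU e (j + 1) (w + (k + 1)) =
        e (j + 1, w + (k + 1)) + (UU e j (w + (k + 1)) - VV e j (w + k)) := rfl
    rw [e1, e2, hV k, ihj k, h2 j (by omega) k]

/-- kill entry `0` -/
def z0 (u : ℕ → ℕ) : ℕ → ℕ := fun i => if i = 0 then 0 else u i

@[simp] theorem z0_zero (u : ℕ → ℕ) : z0 u 0 = 0 := rfl
@[simp] theorem z0_succ (u : ℕ → ℕ) (i : ℕ) : z0 u (i + 1) = u (i + 1) := rfl

/-- The stack of rows `I_0, ω_0, ω_1, …` is equivalent to the stack of dual rows followed by the
top increments. -/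
theorem swap_stack (X : ℕ → ℕ) (e : ℕ × ℕ → ℕ) (N : ℕ) :
    Gx X (fun r => if r = 0 then z0 (UU e 0) else z0 (row e (r - 1))) (N + 1) =
      up (z0 (UU e N)) (Gx X (fun j => fun i => if i = 0 then 0 else min (UU e j i) (VV e j (i - 1))) N) := by
  induction N with
  | zero => rfl
  | succ N ih =>
    rw [Gx_succ, ih]
    funext i
    simp only [Nat.add_eq_zero_iff, one_ne_zero, and_false, if_false, Nat.add_sub_cancel]
    rw [Gx_succ]
    refine row_swap (y := z0 (UU e N)) (z := z0 (row e N)) (s := VV e N)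
      (R := fun i => if i = 0 then 0 else min (UU e N i) (VV e N (i - 1)))
      (D := z0 (UU e (N + 1))) ?_ ?_ ?_ rfl rfl rfl rfl i
    · intro i; rfl
    · intro i; simp
    · intro i; rfl

/-- renaming of the sites of the upper system -/
def renP (p : ℕ × ℕ) : (ℕ × ℕ) ⊕ (ℕ × ℕ) :=
  if p.1 = 0 ∨ p.2 = 0 then Sum.inr p else Sum.inl (p.1 - 1, p.2)

theorem renP_inj : Function.Injective renP := by
  rintro ⟨a, b⟩ ⟨c, d⟩ h
  simp only [renP] at h
  split_ifs at h with h1 h2 h2
  · simpa using h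
  · simp only [Sum.inl.injEq, Prod.mk.injEq] at h
    simp only [Prod.mk.injEq]
    omega

/-- environment of the upper system from the lower system `x` and the extra boundary `y` -/
def plusE (x y : ℕ × ℕ → ℕ) : ℕ × ℕ → ℕ := fun p => Sum.elim x y (renP p)

theorem plusE_bdry (x y : ℕ × ℕ → ℕ) {p : ℕ × ℕ} (h : p.1 = 0 ∨ p.2 = 0) : plusE x y p = y p := by
  simp [plusE, renP, h]

theorem plusE_bulk (x y : ℕ × ℕ → ℕ) (j i : ℕ) : plusE x y (j + 1, i + 1) = x (j, i + 1) := by
  simp [plusE, renP]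

theorem Xof_plusE (x y : ℕ × ℕ → ℕ) : Xof (plusE x y) = Xof y := by
  funext i
  exact Finset.sum_congr rfl (fun k _ => plusE_bdry x y (Or.inl rfl))

theorem row_hz_plusE (x y : ℕ × ℕ → ℕ) (r : ℕ) :
    row (hz (plusE x y)) r = if r = 0 then z0 (UU x 0) else z0 (row x (r - 1)) := by
  funext i
  cases i with
  | zero => cases r <;> simp [row, hz]
  | succ i =>
    cases r with
    | zero => simp [row, hz, plusE_bulk, UU]
    | succ r => simp [row, hz, plusE_bulk]

/-- profile of the upper system without left boundary, in terms of the final state of the lower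
system -/
theorem GG_hz_plusE (x y : ℕ × ℕ → ℕ) (N : ℕ) :
    GG (hz (plusE x y)) (N + 1) =
      up (z0 (UU x N)) (Gx (Xof y) (fun j => fun i => if i = 0 then 0 else min (UU x j i) (VV x j (i - 1))) N) := by
  have h := swap_stack (Xof y) x N
  rw [← h, GG, Xof_hz, Xof_plusE]
  congr 1
  funext r
  exact row_hz_plusE x y r

theorem Xof_bz (e : ℕ × ℕ → ℕ) : Xof (bz e) = 0 := by
  funext i; simp [Xof, bz]

theorem row_bz (e : ℕ × ℕ → ℕ) (j : ℕ) : row (bz e) j = z0 (row e j) := by
  funext i
  cases i <;> simp [row, bz]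

/-- Upper comparison: the increments of the point-to-point profile are below those of the upper
system without left boundary. -/
theorem UU_bz_le_plus (x y : ℕ × ℕ → ℕ) (N i : ℕ) :
    UU (bz x) N (i + 1) ≤ UU (hz (plusE x y)) (N + 1) (i + 1) := by
  have h1 : GG (hz (plusE x y)) (1 + N) =
      Gx (GG (hz (plusE x y)) 1) (fun r => row (hz (plusE x y)) (1 + r)) N := Gx_add _ _ 1 N
  have h2 : Gx (Xof (bz x)) (row (bz x)) N (i + 1) +
      Gx (GG (hz (plusE x y)) 1) (fun r => row (hz (plusE x y)) (1 + r)) N i ≤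
      Gx (GG (hz (plusE x y)) 1) (fun r => row (hz (plusE x y)) (1 + r)) N (i + 1) +
      Gx (Xof (bz x)) (row (bz x)) N i := by
    refine Gx_attract (fun j => ?_) (fun j i => ?_) (fun i => ?_) N i
    · rw [row_hz_plusE]
      have : 1 + j ≠ 0 := by omega
      simp [this]
    · rw [row_hz_plusE, row_bz]
      have h0 : 1 + j ≠ 0 := by omega
      have h3 : 1 + j - 1 = j := by omega
      simp [h0, h3]
    · rw [Xof_bz, GG_incr]
      simp
  rw [← h1, show 1 + N = N + 1 by omega] at h2
  have h3 := GG_incr (hz (plusE x y)) (N + 1) i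
  have h4 := GG_incr (bz x) N i
  rw [GG] at h4
  omega

/-- Lower comparison: increments of the system with left boundary only. -/
theorem UU_vz_le_bz (x : ℕ × ℕ → ℕ) (N i : ℕ) : UU (vz x) N (i + 1) ≤ UU (bz x) N (i + 1) := by
  have h2 : Gx (Xof (vz x)) (row (vz x)) N (i + 1) + Gx (Xof (bz x)) (row (bz x)) N i ≤
      Gx (Xof (bz x)) (row (bz x)) N (i + 1) + Gx (Xof (vz x)) (row (vz x)) N i := by
    refine Gx_attract (fun j => ?_) (fun j i => ?_) (fun i => ?_) N i
    · rw [row_bz]; simp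
    · rw [row_vz, row_bz]; simp
    · rw [Xof_bz, Xof_vz]
  have h3 := GG_incr (vz x) N i
  have h4 := GG_incr (bz x) N i
  rw [GG] at h3 h4
  omega

/-- If the lower system exits through the left boundary at column `m`, its increments up to
column `m` are those of the system with left boundary only. -/
theorem UU_eq_vz (x : ℕ × ℕ → ℕ) (N m : ℕ) (h : GG (hz x) N m < GG (vz x) N m) (i : ℕ)
    (hi : i + 1 ≤ m) : UU x N (i + 1) = UU (vz x) N (i + 1) := by
  have key : ∀ k ≤ m, GG x N k = GG (vz x) N k := by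
    intro k hk
    have := incr_le_of_step (F := GG (vz x) N) (F' := GG (hz x) N) (GG_vz_hz x N) hk
    rw [GG_max]
    omega
  have h1 := key (i + 1) hi
  have h2 := key i (by omega)
  have h3 := GG_incr x N i
  have h4 := GG_incr (vz x) N i
  omega

/-- If the system exits through the bottom boundary at column `m`, its increments beyond column
`m` are those of the system with bottom boundary only. -/
theorem UU_eq_hz (x : ℕ × ℕ → ℕ) (N m : ℕ) (h : GG (vz x) N m < GG (hz x) N m) (i : ℕ)
    (hi : m ≤ i) : UU x N (i + 1) = UU (hz x) N (i + 1) := by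
  have key : ∀ k, m ≤ k → GG x N k = GG (hz x) N k := by
    intro k hk
    have := incr_le_of_step (F := GG (vz x) N) (F' := GG (hz x) N) (GG_vz_hz x N) hk
    rw [GG_max]
    omega
  have h1 := key (i + 1) (by omega)
  have h2 := key i hi
  have h3 := GG_incr x N i
  have h4 := GG_incr (hz x) N i
  omega

end Pool.Agent.MP2c

end

section

/-! Two-sided comparison: probabilistic part. (helper96, MP_2c6138_pr) -/

set_option autoImplicit false
set_option linter.unusedSectionVars false
set_option linter.unusedVariables false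

namespace Pool.Agent.MP2c

open MeasureTheory Finset
open scoped ENNReal

section general
variable {κ : Type} [DecidableEq κ]
variable {Ω : Type} [MeasurableSpace Ω]

theorem EnvLaw.congr' {P : Measure Ω} {S : Finset κ} {θ θ' : κ → ℝ} {E E' : Ω → κ → ℕ}
    (h : EnvLaw P S θ E) (hE : ∀ ω, ∀ p ∈ S, E ω p = E' ω p) (hθ : ∀ p ∈ S, θ p = θ' p) :
    EnvLaw P S θ' E' := by
  intro x
  have h1 := h x
  have h2 : {ω | ∀ p ∈ S, E' ω p = x p} = {ω | ∀ p ∈ S, E ω p = x p} := by
    ext ω
    simp only [Set.mem_ofPred_eq]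
    exact forall₂_congr (fun p hp => by rw [hE ω p hp])
  rw [h2, h1]
  exact Finset.prod_congr rfl (fun p hp => by rw [hθ p hp])

theorem EnvLaw.prod {κ2 : Type} [DecidableEq κ2] {Ω2 : Type} [MeasurableSpace Ω2]
    {P : Measure Ω} {P2 : Measure Ω2} [SigmaFinite P] [SigmaFinite P2] {S : Finset κ} {S2 : Finset κ2}
    {θ : κ → ℝ} {θ2 : κ2 → ℝ} {E : Ω → κ → ℕ} {E2 : Ω2 → κ2 → ℕ}
    (h : EnvLaw P S θ E) (h2 : EnvLaw P2 S2 θ2 E2) :
    EnvLaw (P.prod P2) (S.disjSum S2) (Sum.elim θ θ2) (fun z => Sum.elim (E z.1) (E2 z.2)) := by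
  intro x
  have hs : {z : Ω × Ω2 | ∀ p ∈ S.disjSum S2, Sum.elim (E z.1) (E2 z.2) p = x p} =
      {ω | ∀ p ∈ S, E ω p = x (Sum.inl p)} ×ˢ {ω | ∀ p ∈ S2, E2 ω p = x (Sum.inr p)} := by
    ext z
    simp only [Set.mem_ofPred_eq, Set.mem_prod]
    constructor
    · intro hz
      exact ⟨fun p hp => hz (Sum.inl p) (Finset.inl_mem_disjSum.2 hp),
        fun p hp => hz (Sum.inr p) (Finset.inr_mem_disjSum.2 hp)⟩
    · rintro ⟨h1, h2⟩ p hp
      cases p with
      | inl p => exact h1 p (Finset.inl_mem_disjSum.1 hp)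
      | inr p => exact h2 p (Finset.inr_mem_disjSum.1 hp)
  rw [hs, Measure.prod_prod, h, h2, Finset.prod_disjSum]
  rfl

end general

/-- Expectation of a function of i.i.d. geometric variables indexed by `A`. -/
noncomputable def GE (A : Finset ℕ) (a : ℝ) (φ : (ℕ → ℕ) → ℝ≥0∞) : ℝ≥0∞ :=
  ∫⁻ x, φ (ext A x) ∂(Measure.pi (fun _ : ↥A => geo a))

section law
variable {Ω : Type} [MeasurableSpace Ω] [DiscreteMeasurableSpace Ω]

/-- Law of the top increments of a stationary system. -/
theorem law_UU {P : Measure Ω} {E : Ω → ℕ × ℕ → ℕ} (m N : ℕ) (a : ℝ) (b : ℕ → ℝ)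
    (ha0 : 0 ≤ a) (ha1 : a < 1) (hb0 : ∀ j, 0 ≤ b j) (hb1 : ∀ j, b j < 1)
    (h : EnvLaw P (bx m N) (sth a b (fun j => a * b j)) E) :
    EnvLaw P (Ioc 0 m) (fun _ => a) (fun ω i => UU (E ω) N i) := by
  have hab1 : ∀ j, a * b j < 1 := fun j => by nlinarith [hb0 j, hb1 j]
  have hab0 : ∀ j, 0 ≤ a * b j := fun j => mul_nonneg ha0 (hb0 j)
  have h01 : ∀ p ∈ bx m N, 0 ≤ sth a b (fun j => a * b j) p ∧ sth a b (fun j => a * b j) p < 1 :=
    fun p _ => sth_mem01 ha0 ha1 hb0 hb1 hab0 hab1 p
  have hB := h.fmv m N (fun i h1 h2 => mem_bx.2 ⟨by simp; omega, by simp, h2⟩)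
    (fun j hj => mem_bx.2 ⟨by simp, hj, by simp⟩)
    (fun j hj i h1 h2 => mem_bx.2 ⟨by simp, hj, h2⟩) h01
    (fun j hj i h1 h2 => by
      have : i ≠ 0 := by omega
      simp [sth, this])
  have hinj : Function.Injective (fun i : ℕ => ((0 : ℕ), i)) := fun a b hab => by simpa using hab
  have hsub : (Ioc 0 m).image (fun i : ℕ => ((0 : ℕ), i)) ⊆ bx m N := by
    intro p hp
    simp only [mem_image, mem_Ioc] at hp
    obtain ⟨i, hi, rfl⟩ := hp
    exact mem_bx.2 ⟨by simp; omega, by simp, hi.2⟩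
  have := (hB.subset hsub h01).rename hinj
  refine this.congr' (fun ω i hi => ?_) (fun i hi => ?_)
  · rw [mem_Ioc] at hi
    rw [fmv_eq]
    have h0 : i ≠ 0 := by omega
    simp [h0, hi.2]
  · simp [sth]

theorem lint_eq_GE {P : Measure Ω} {U : Ω → ℕ → ℕ} {A : Finset ℕ} {a : ℝ}
    (h : EnvLaw P A (fun _ => a) U) (φ : (ℕ → ℕ) → ℝ≥0∞) (hφ : Dep A φ) :
    ∫⁻ ω, φ (U ω) ∂P = GE A a φ :=
  h.lintegral_same (envLaw_pi A (fun _ => a)) φ hφ

end law

section two
variable {Ω : Type} [MeasurableSpace Ω] [Countable Ω] [MeasurableSingletonClass Ω]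

/-- shift of columns -/
def shc (w : ℕ) (e : ℕ × ℕ → ℕ) : ℕ × ℕ → ℕ := fun p => if p.2 = 0 then e (p.1, 0) else e (p.1, w + p.2)

/-- increments of the upper system as a function of the final state of the lower one -/
def LL (N : ℕ) (y e : ℕ × ℕ → ℕ) : ℕ → ℕ := fun i =>
  up (z0 (fun k => e (0, k))) (Gx (Xof y) (fun j => z0 (fun k => e (j + 1, k))) N) i -
  up (z0 (fun k => e (0, k))) (Gx (Xof y) (fun j => z0 (fun k => e (j + 1, k))) N) (i - 1)

theorem LL_eq (w N : ℕ) (x y : ℕ × ℕ → ℕ) (i : ℕ) (hi : 1 ≤ i) (hiw : i ≤ w) :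
    UU (hz (plusE x y)) (N + 1) i = LL N y (fmv w N x) i := by
  obtain ⟨i, rfl⟩ : ∃ k, i = k + 1 := ⟨i - 1, by omega⟩
  have h1 := GG_incr (hz (plusE x y)) (N + 1) i
  rw [GG_hz_plusE] at h1
  have hc : ∀ k ≤ w, up (z0 (fun k => fmv w N x (0, k)))
      (Gx (Xof y) (fun j => z0 (fun k => fmv w N x (j + 1, k))) N) k =
      up (z0 (UU x N)) (Gx (Xof y) (fun j => fun i => if i = 0 then 0 else min (UU x j i) (VV x j (i - 1))) N) k := by
    intro k hk
    refine up_congr (fun l hl => ?_) (fun l hl => ?_)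
    · cases l with
      | zero => rfl
      | succ l =>
        simp only [z0_succ]
        rw [fmv_eq]
        have : l + 1 ≤ w := by omega
        simp [this]
    · refine Gx_congr (i := w) N (fun _ _ => rfl) (fun r hr l hl => ?_) l (by omega)
      cases l with
      | zero => simp
      | succ l =>
        simp only [z0_succ]
        rw [fmv_eq]
        have h3 : r + 1 ≤ N := hr
        simp [hl, h3]
  rw [LL, hc _ hiw, Nat.add_sub_cancel, hc _ (by omega), h1]
  omega

theorem two_sided {P : Measure Ω} [IsProbabilityMeasure P] {E : Ω → ℕ × ℕ → ℕ} (w K N : ℕ)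
    (hKw : K ≤ w) (q am ap : ℝ) (hq0 : 0 < q) (ham : q < am) (hamp : am < ap) (hap : ap < 1)
    (h : EnvLaw P (bx (w + K) N) (sth am (fun _ => q / am) (fun _ => q)) E)
    (φ ψ : (ℕ → ℕ) → ℝ≥0∞) (hφd : Dep (Ioc (w - K) w) φ) (hψd : Dep (Ioc w (w + K)) ψ)
    (hφ1 : ∀ u, φ u ≤ 1) (hψ1 : ∀ u, ψ u ≤ 1)
    (hφm : ∀ u u' : ℕ → ℕ, (∀ i ∈ Ioc (w - K) w, u i ≤ u' i) → φ u ≤ φ u')
    (hψm : ∀ u u' : ℕ → ℕ, (∀ i ∈ Ioc w (w + K), u i ≤ u' i) → ψ u' ≤ ψ u)
    (B1 B2 : ℝ≥0∞)
    (hB1 : P {ω | GG (vz (E ω)) N (w + K) ≤ GG (hz (E ω)) N (w + K)} ≤ B1)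
    (hB2 : (Measure.pi (fun p : ↥(bx w (N + 1)) =>
      geo (sth ap (fun j => if j = 0 then am / ap else q / ap)
        (fun j => ap * (if j = 0 then am / ap else q / ap)) p)))
      {x | GG (hz (ext (bx w (N + 1)) x)) (N + 1) (w - K) ≤
        GG (vz (ext (bx w (N + 1)) x)) (N + 1) (w - K)} ≤ B2) :
    ∫⁻ ω, φ (fun i => UU (bz (E ω)) N i) * ψ (fun i => UU (bz (E ω)) N i) ∂P ≤
      (GE (Ioc (w - K) w) ap φ + B2) * GE (Ioc w (w + K)) am ψ + B1 := by
  have ham0 : 0 < am := hq0.trans ham
  have hap0 : 0 < ap := ham0.trans hamp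
  have hqm0 : 0 < q / am := by positivity
  have hqm1 : q / am < 1 := (div_lt_one ham0).2 ham
  have hqp0 : 0 < q / ap := by positivity
  have hqp1 : q / ap < 1 := (div_lt_one hap0).2 (ham.trans hamp)
  have hmp0 : 0 < am / ap := by positivity
  have hmp1 : am / ap < 1 := (div_lt_one hap0).2 hamp
  have ham1 : am < 1 := hamp.trans hap
  have hq1 : q < 1 := ham.trans ham1
  set m := w + K with hm
  set bp : ℕ → ℝ := fun j => if j = 0 then am / ap else q / ap with hbp
  have hbp0 : ∀ j, 0 ≤ bp j := fun j => by simp only [hbp]; split_ifs <;> positivity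
  have hbp1 : ∀ j, bp j < 1 := fun j => by simp only [hbp]; split_ifs <;> assumption
  have hapbp0 : ∀ j, 0 ≤ ap * bp j := fun j => mul_nonneg hap0.le (hbp0 j)
  have hapbp1 : ∀ j, ap * bp j < 1 := fun j => by nlinarith [hbp0 j, hbp1 j]
  -- extra boundary
  set θ2 := sth ap bp (fun _ => 0) with hθ2
  have hθ2' : ∀ p, 0 ≤ θ2 p ∧ θ2 p < 1 := fun p =>
    sth_mem01 hap0.le hap hbp0 hbp1 (fun _ => le_rfl) (fun _ => zero_lt_one) p
  have hcan2 := envLaw_pi (bx w (N + 1)) θ2
  set P2 := Measure.pi (fun p : ↥(bx w (N + 1)) => geo (θ2 p)) with hP2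
  have hprob2 : IsProbabilityMeasure P2 := ⟨hcan2.prob (fun p _ => hθ2' p)⟩
  set E2 : (↥(bx w (N + 1)) → ℕ) → ℕ × ℕ → ℕ := fun x => ext (bx w (N + 1)) x with hE2
  have h01 : ∀ p ∈ bx m N, 0 ≤ sth am (fun _ => q / am) (fun _ => q) p ∧
      sth am (fun _ => q / am) (fun _ => q) p < 1 :=
    fun p _ => sth_mem01 ham0.le ham1 (fun _ => hqm0.le) (fun _ => hqm1) (fun _ => hq0.le)
      (fun _ => hq1) p
  have h' : EnvLaw P (bx m N) (sth am (fun _ => q / am) (fun j => am * (q / am))) E := by
    have : (fun j : ℕ => am * (q / am)) = (fun _ => q) := by funext j; field_simp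
    rw [this]; exact h
  -- law of the upper system
  have hplus : EnvLaw (P.prod P2) (bx w (N + 1)) (sth ap bp (fun j => ap * bp j))
      (fun z => plusE (E z.1) (E2 z.2)) := by
    have hpr := h.prod hcan2
    have hsub : (bx w (N + 1)).image renP ⊆ (bx m N).disjSum (bx w (N + 1)) := by
      intro p hp
      rw [mem_image] at hp
      obtain ⟨r, hr, rfl⟩ := hp
      by_cases hc : r.1 = 0 ∨ r.2 = 0
      · simp only [renP, if_pos hc]
        exact Finset.inr_mem_disjSum.2 hr
      · simp only [renP, if_neg hc]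
        refine Finset.inl_mem_disjSum.2 ?_
        rw [mem_bx] at hr ⊢
        push Not at hc
        refine ⟨by simp only [ne_eq, Prod.mk.injEq, not_and]; intro _; exact hc.2, ?_, ?_⟩
        · simp only; omega
        · simp only; omega
    have hθs : ∀ p ∈ (bx m N).disjSum (bx w (N + 1)),
        0 ≤ Sum.elim (sth am (fun _ => q / am) (fun _ => q)) θ2 p ∧
        Sum.elim (sth am (fun _ => q / am) (fun _ => q)) θ2 p < 1 := by
      intro p hp
      cases p with
      | inl p => exact h01 p (Finset.inl_mem_disjSum.1 hp)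
      | inr p => exact hθ2' p
    refine ((hpr.subset hsub hθs).rename renP_inj).congr' (fun _ _ _ => rfl) (fun p hp => ?_)
    simp only [renP]
    by_cases h1 : p.1 = 0
    · simp [h1, hθ2, sth]
    · by_cases h2 : p.2 = 0
      · simp [h1, h2, hθ2, sth]
      · simp only [h1, h2, or_self, if_false, Sum.elim_inl, sth]
        by_cases h3 : p.1 - 1 = 0
        · simp only [h3, if_true, hbp]; field_simp
        · simp only [h3, if_false, hbp]; field_simp
  have hplusθ : ∀ p ∈ bx w (N + 1), 0 ≤ sth ap bp (fun j => ap * bp j) p ∧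
      sth ap bp (fun j => ap * bp j) p < 1 := fun p _ => sth_mem01 hap0.le hap hbp0 hbp1 hapbp0 hapbp1 p
  -- law of the partial final state of the lower system
  have hB : EnvLaw P (bx m N) (sth am (fun _ => q / am) (fun _ => q)) (fun ω => fmv w N (E ω)) :=
    h.fmv w N (fun i h1 h2 => mem_bx.2 ⟨by simp; omega, by simp, by simp only; omega⟩)
    (fun j hj => mem_bx.2 ⟨by simp, hj, by simp⟩)
    (fun j hj i h1 h2 => mem_bx.2 ⟨by simp, hj, by simp only; omega⟩) h01
    (fun j hj i h1 h2 => by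
      have : i ≠ 0 := by omega
      simp only [sth]
      simp [this]
      field_simp)
  -- step 1, for fixed y
  have step1 : ∀ y : ℕ × ℕ → ℕ,
      ∫⁻ ω, φ (fun i => UU (bz (E ω)) N i) * ψ (fun i => UU (bz (E ω)) N i) ∂P ≤
      (∫⁻ ω, φ (fun i => UU (hz (plusE (E ω) y)) (N + 1) i) ∂P) *
        (∫⁻ ω, ψ (fun i => UU (E ω) N i) ∂P) + B1 := by
    intro y
    have hpt : ∀ ω, φ (fun i => UU (bz (E ω)) N i) * ψ (fun i => UU (bz (E ω)) N i) ≤
        φ (LL N y (fmv w N (E ω))) * ψ (fun i => UU (shc w (fmv w N (E ω))) N (i - w)) +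
        (if GG (vz (E ω)) N m ≤ GG (hz (E ω)) N m then 1 else 0) := by
      intro ω
      by_cases hH : GG (vz (E ω)) N m ≤ GG (hz (E ω)) N m
      · rw [if_pos hH]
        calc _ ≤ (1 : ℝ≥0∞) * 1 := mul_le_mul' (hφ1 _) (hψ1 _)
          _ ≤ _ := by rw [one_mul]; exact le_add_self
      · rw [if_neg hH, add_zero]
        refine mul_le_mul' (hφm _ _ (fun i hi => ?_)) (hψm _ _ (fun i hi => ?_))
        · rw [mem_Ioc] at hi
          rw [← LL_eq w N (E ω) y i (by omega) hi.2]
          obtain ⟨k, rfl⟩ : ∃ k, i = k + 1 := ⟨i - 1, by omega⟩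
          exact UU_bz_le_plus (E ω) y N k
        · rw [mem_Ioc] at hi
          obtain ⟨k, rfl⟩ : ∃ k, i = w + (k + 1) := ⟨i - w - 1, by omega⟩
          have e1 : UU (shc w (fmv w N (E ω))) N (k + 1) = UU (E ω) N (w + (k + 1)) := by
            refine restart_col (N := N) (fun k => ?_) (fun j hj => ?_) (fun j hj k => ?_) N le_rfl k
            · simp only [shc, Nat.add_eq_zero_iff, one_ne_zero, and_false, if_false]
              rw [fmv_eq]
              have : ¬ (w + (k + 1) ≤ w) := by omega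
              have h2 : w + (k + 1) ≠ 0 := by omega
              simp
            · simp only [shc, if_true]
              rw [fmv_eq]
              have : j + 1 ≤ N := hj
              simp [this]
            · simp only [shc, Nat.add_eq_zero_iff, one_ne_zero, and_false, if_false]
              rw [fmv_eq]
              simp
          have e2 : w + (k + 1) - w = k + 1 := by omega
          rw [e2, e1, show w + (k + 1) = (w + k) + 1 by omega,
            UU_eq_vz (E ω) N m (not_le.1 hH) (w + k) (by omega)]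
          exact UU_vz_le_bz (E ω) N (w + k)
    refine (lintegral_mono hpt).trans ?_
    rw [lintegral_add_left (Measurable.of_discrete), lint_ite]
    refine add_le_add ?_ hB1
    -- independence
    set SL := (bx m N).filter (fun p => 1 ≤ p.2 ∧ p.2 ≤ w) with hSL
    set SR := (bx m N).filter (fun p => ¬ (1 ≤ p.2 ∧ p.2 ≤ w)) with hSR
    have hdL : Dep SL (fun e => φ (LL N y e)) := by
      intro e e' he
      refine hφd _ _ (fun i hi => ?_)
      rw [mem_Ioc] at hi
      have hc : ∀ k ≤ w, up (z0 (fun k => e (0, k))) (Gx (Xof y) (fun j => z0 (fun k => e (j + 1, k))) N) k =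
          up (z0 (fun k => e' (0, k))) (Gx (Xof y) (fun j => z0 (fun k => e' (j + 1, k))) N) k := by
        intro k hk
        refine up_congr (fun l hl => ?_) (fun l hl => ?_)
        · cases l with
          | zero => rfl
          | succ l =>
            simp only [z0_succ]
            exact he _ (mem_filter.2 ⟨mem_bx.2 ⟨by simp, by simp, by simp only; omega⟩,
              by simp only; omega⟩)
        · refine Gx_congr (i := w) N (fun _ _ => rfl) (fun r hr l hl => ?_) l (by omega)
          cases l with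
          | zero => rfl
          | succ l =>
            simp only [z0_succ]
            exact he _ (mem_filter.2 ⟨mem_bx.2 ⟨by simp, by simp only; omega, by simp only; omega⟩,
              by simp only; omega⟩)
      simp only [LL]
      rw [hc i hi.2, hc (i - 1) (by omega)]
    have hdR : Dep SR (fun e => ψ (fun i => UU (shc w e) N (i - w))) := by
      intro e e' he
      refine hψd _ _ (fun i hi => ?_)
      rw [mem_Ioc] at hi
      refine UU_congr (m := K) (N := N) (fun p hp => ?_) N le_rfl (i - w) (by omega) (by omega)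
      rw [mem_bx] at hp
      simp only [shc]
      split_ifs with h0
      · refine he _ (mem_filter.2 ⟨mem_bx.2 ⟨?_, hp.2.1, by simp⟩, by simp⟩)
        intro h1
        rw [Prod.mk.injEq] at h1
        exact hp.1 (Prod.ext h1.1 h0)
      · refine he _ (mem_filter.2 ⟨mem_bx.2 ⟨?_, hp.2.1, ?_⟩, ?_⟩)
        · simp only [ne_eq, Prod.mk.injEq, not_and]; omega
        · simp only; omega
        · simp only; omega
    have hind := hB.indep h01 (S1 := SL) (S2 := SR) (filter_subset _ _) (filter_subset _ _)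
      (Finset.disjoint_filter_filter_not _ _ _) _ _ hdL hdR
    rw [hind]
    refine mul_le_mul' (le_of_eq (lintegral_congr (fun ω => hφd _ _ (fun i hi => ?_))))
      (le_of_eq (lintegral_congr (fun ω => hψd _ _ (fun i hi => ?_))))
    · rw [mem_Ioc] at hi
      exact (LL_eq w N (E ω) y i (by omega) hi.2).symm
    · rw [mem_Ioc] at hi
      obtain ⟨k, rfl⟩ : ∃ k, i = w + (k + 1) := ⟨i - w - 1, by omega⟩
      have e1 : UU (shc w (fmv w N (E ω))) N (k + 1) = UU (E ω) N (w + (k + 1)) := by
        refine restart_col (N := N) (fun k => ?_) (fun j hj => ?_) (fun j hj k => ?_) N le_rfl k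
        · simp only [shc, Nat.add_eq_zero_iff, one_ne_zero, and_false, if_false]
          rw [fmv_eq]
          simp
        · simp only [shc, if_true]
          rw [fmv_eq]
          have : j + 1 ≤ N := hj
          simp [this]
        · simp only [shc, Nat.add_eq_zero_iff, one_ne_zero, and_false, if_false]
          rw [fmv_eq]
          simp
      have e2 : w + (k + 1) - w = k + 1 := by omega
      rw [e2, e1]
  -- law of ψ(U)
  have hψlaw : ∫⁻ ω, ψ (fun i => UU (E ω) N i) ∂P = GE (Ioc w m) am ψ := by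
    have hl := law_UU m N am (fun _ => q / am) ham0.le ham1 (fun _ => hqm0.le) (fun _ => hqm1) h'
    refine lint_eq_GE (hl.subset ?_ (fun _ _ => ⟨ham0.le, ham1⟩)) ψ hψd
    intro i hi
    rw [mem_Ioc] at hi ⊢
    omega
  -- integrate over y
  have step2 : ∫⁻ ω, φ (fun i => UU (bz (E ω)) N i) * ψ (fun i => UU (bz (E ω)) N i) ∂P ≤
      (∫⁻ z, φ (fun i => UU (hz (plusE (E z.1) (E2 z.2))) (N + 1) i) ∂(P.prod P2)) *
        GE (Ioc w m) am ψ + B1 := by
    have e1 : ∫⁻ ω, φ (fun i => UU (bz (E ω)) N i) * ψ (fun i => UU (bz (E ω)) N i) ∂P =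
        ∫⁻ y, (∫⁻ ω, φ (fun i => UU (bz (E ω)) N i) * ψ (fun i => UU (bz (E ω)) N i) ∂P) ∂P2 := by
      rw [lintegral_const, measure_univ, mul_one]
    rw [e1]
    refine (lintegral_mono (fun y => step1 (E2 y))).trans ?_
    rw [lintegral_add_right _ (Measurable.of_discrete), lintegral_const B1, measure_univ, mul_one,
      lintegral_mul_const _ (Measurable.of_discrete), hψlaw]
    refine add_le_add (mul_le_mul' (le_of_eq ?_) le_rfl) le_rfl
    rw [lintegral_prod_symm _ (Measurable.of_discrete.aemeasurable)]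
  refine step2.trans (add_le_add (mul_le_mul' ?_ le_rfl) le_rfl)
  -- compare with the stationary upper system
  have hpt2 : ∀ z : Ω × (↥(bx w (N + 1)) → ℕ),
      φ (fun i => UU (hz (plusE (E z.1) (E2 z.2))) (N + 1) i) ≤
      φ (fun i => UU (plusE (E z.1) (E2 z.2)) (N + 1) i) +
      (if GG (hz (plusE (E z.1) (E2 z.2))) (N + 1) (w - K) ≤
        GG (vz (plusE (E z.1) (E2 z.2))) (N + 1) (w - K) then 1 else 0) := by
    intro z
    by_cases hH : GG (hz (plusE (E z.1) (E2 z.2))) (N + 1) (w - K) ≤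
        GG (vz (plusE (E z.1) (E2 z.2))) (N + 1) (w - K)
    · rw [if_pos hH]
      exact (hφ1 _).trans le_add_self
    · rw [if_neg hH, add_zero]
      refine le_of_eq (hφd _ _ (fun i hi => ?_))
      rw [mem_Ioc] at hi
      obtain ⟨k, rfl⟩ : ∃ k, i = k + 1 := ⟨i - 1, by omega⟩
      exact (UU_eq_hz _ (N + 1) (w - K) (not_le.1 hH) k (by omega)).symm
  refine (lintegral_mono hpt2).trans ?_
  rw [lintegral_add_left (Measurable.of_discrete)]
  refine add_le_add (le_of_eq ?_) ?_
  · have hl := law_UU w (N + 1) ap bp hap0.le hap hbp0 hbp1 hplus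
    refine lint_eq_GE (hl.subset ?_ (fun _ _ => ⟨hap0.le, hap⟩)) φ hφd
    intro i hi
    rw [mem_Ioc] at hi ⊢
    omega
  · have hdep : Dep (bx w (N + 1)) (fun e => (if GG (hz e) (N + 1) (w - K) ≤ GG (vz e) (N + 1) (w - K)
        then (1 : ℝ≥0∞) else 0)) := by
      intro e e' he
      have he' : ∀ p ∈ bx (w - K) (N + 1), e p = e' p := by
        intro p hp
        rw [mem_bx] at hp
        exact he p (mem_bx.2 ⟨hp.1, hp.2.1, by omega⟩)
      simp only
      rw [GG_hz_congr he', GG_vz_congr he']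
    rw [hplus.lintegral_same (envLaw_pi (bx w (N + 1)) (sth ap bp (fun j => ap * bp j))) _ hdep,
      lint_ite]
    exact hB2

end two

end Pool.Agent.MP2c

end
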