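import Pool.Agent.Work.MP_2c6138_pr.Exit2
import Pool.Agent.Work.MP_2c6138_pr.Bd.B01

/-! Bundle of small proof modules (one section per former module). -/

section

/-! Exit bounds (probabilities) and comparison theorems for the bulk. (helper96, MP_2c6138_pr) -/

set_option autoImplicit false
set_option linter.unusedSectionVars false
set_option linter.unusedVariables false

namespace Pool.Agent.MP2c

open MeasureTheory Finset
open scoped ENNReal

theorem sq_le_aux {x : ℝ≥0∞} {t : ℝ} (h : x ^ 2 ≤ ENNReal.ofReal (Real.exp (-(2 * t)))) :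
    x ≤ ENNReal.ofReal (Real.exp (-t)) := by
  have e : ENNReal.ofReal (Real.exp (-(2 * t))) = (ENNReal.ofReal (Real.exp (-t))) ^ 2 := by
    rw [← ENNReal.ofReal_pow (Real.exp_pos _).le, ← Real.exp_nat_mul]
    congr 2; push_cast; ring
  rw [e] at h
  exact (ENNReal.pow_le_pow_left_iff two_ne_zero).1 h

section
variable {s : ℝ} (cs : Cst s) {h : ℝ} (hh0 : 0 < h) (hh1 : h ≤ cs.h0)
include hh0 hh1

theorem exp4_lt_one {t : ℝ} (ht : |t| ≤ 5 * h) : 0 < s * Real.exp t ∧ s * Real.exp t < 1 := by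
  obtain ⟨h1, h2⟩ := exp_bounds cs hh0 hh1 ht
  exact ⟨mul_pos cs.hs0 (Real.exp_pos _), lt_of_le_of_lt h2 cs.hr1⟩

theorem exit_near_x {Ω : Type} [MeasurableSpace Ω] [DiscreteMeasurableSpace Ω] {P : Measure Ω}
    {E : Ω → ℕ × ℕ → ℕ} {m N : ℕ} (hm : (m : ℝ) ≤ N * (1 + cs.c1 * h))
    (hE : EnvLaw P (bx m N) (sth (s * Real.exp (-(2 * h))) (fun _ => s * Real.exp (2 * h))
      (fun _ => s ^ 2)) E) :
    P {ω | GG (vz (E ω)) N m ≤ GG (hz (E ω)) N m} ≤ ENNReal.ofReal (Real.exp (-(s * h ^ 3 * N / 4))) := by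
  have hs := cs.hs0
  have habs : |2 * h| ≤ 5 * h := by rw [abs_of_pos (by positivity)]; linarith
  have habs' : |-(2 * h)| ≤ 5 * h := by rw [abs_neg]; exact habs
  obtain ⟨a1, a2⟩ := exp4_lt_one cs hh0 hh1 habs
  obtain ⟨b1, b2⟩ := exp4_lt_one cs hh0 hh1 habs'
  have hv : 1 < Real.exp h := Real.one_lt_exp_iff.2 hh0
  have e1 : s * Real.exp (-(2 * h)) = s * Real.exp (-h) / Real.exp h := by
    rw [mul_div_assoc, ← Real.exp_sub]; congr 2; ring
  have e2 : s * Real.exp (2 * h) = s * Real.exp h * Real.exp h := by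
    rw [mul_assoc, ← Real.exp_add]; congr 2; ring
  have hbulk : (fun j : ℕ => s * Real.exp (-(2 * h)) * (fun _ : ℕ => s * Real.exp (2 * h)) j) =
      fun _ => s ^ 2 := by
    funext j
    simp only
    have : Real.exp (-(2 * h)) * Real.exp (2 * h) = 1 := by rw [← Real.exp_add]; simp
    calc s * Real.exp (-(2 * h)) * (s * Real.exp (2 * h)) =
        s ^ 2 * (Real.exp (-(2 * h)) * Real.exp (2 * h)) := by ring
      _ = _ := by rw [this, mul_one]
  have hex := exit_x m N (s * Real.exp (-(2 * h))) (Real.exp h) (fun _ => s * Real.exp (2 * h)) hv b1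
    (by
      have : s * Real.exp (-(2 * h)) * Real.exp h ^ 2 = s := by
        rw [← Real.exp_nat_mul, mul_assoc, ← Real.exp_add]
        have : -(2 * h) + ((2 : ℕ) : ℝ) * h = 0 := by push_cast; ring
        rw [this, Real.exp_zero, mul_one]
      rw [this]; exact cs.hs1)
    (fun _ => a1.le) (fun _ => a2) (by rw [hbulk]; exact hE)
  refine sq_le_aux (hex.trans (ENNReal.ofReal_le_ofReal ?_))
  have hr := real_near_x cs hh0 hh1 hm
  have hvne : Real.exp h ≠ 0 := (Real.exp_pos h).ne'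
  rw [Finset.prod_const, card_range]
  have f1 : s * Real.exp (-(2 * h)) * Real.exp h = s * Real.exp (-h) := by rw [e1]; field_simp
  have f2 : s * Real.exp (-(2 * h)) * Real.exp h ^ 2 = s * Real.exp (-h) * Real.exp h := by
    rw [e1]; field_simp
  have f3 : s * Real.exp (2 * h) / Real.exp h = s * Real.exp h := by rw [e2]; field_simp
  have f4 : s * Real.exp (2 * h) / Real.exp h ^ 2 = s * Real.exp h / Real.exp h := by
    rw [e2]; field_simp
  rw [f1, f2, f3, f4, e1, e2]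
  refine hr.trans (le_of_eq ?_)
  congr 1; ring

theorem exit_far_x {Ω : Type} [MeasurableSpace Ω] [DiscreteMeasurableSpace Ω] {P : Measure Ω}
    {E : Ω → ℕ × ℕ → ℕ} {m N : ℕ} (hm : (m : ℝ) ≤ N * (1 - cs.C1 * h))
    (hE : EnvLaw P (bx m N) (sth (s * Real.exp (4 * h)) (fun _ => s * Real.exp (-(4 * h)))
      (fun _ => s ^ 2)) E) :
    P {ω | GG (vz (E ω)) N m ≤ GG (hz (E ω)) N m} ≤ ENNReal.ofReal (Real.exp (-(s * h ^ 3 * N / 4))) := by
  have hs := cs.hs0
  have habs : |4 * h| ≤ 5 * h := by rw [abs_of_pos (by positivity)]; linarith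
  have habs' : |-(4 * h)| ≤ 5 * h := by rw [abs_neg]; exact habs
  obtain ⟨a1, a2⟩ := exp4_lt_one cs hh0 hh1 habs
  obtain ⟨b1, b2⟩ := exp4_lt_one cs hh0 hh1 habs'
  have hv : 1 < Real.exp h := Real.one_lt_exp_iff.2 hh0
  have e1 : s * Real.exp (4 * h) = s * Real.exp (5 * h) / Real.exp h := by
    rw [mul_div_assoc, ← Real.exp_sub]; congr 2; ring
  have e2 : s * Real.exp (-(4 * h)) = s * Real.exp (-(5 * h)) * Real.exp h := by
    rw [mul_assoc, ← Real.exp_add]; congr 2; ring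
  have hbulk : (fun j : ℕ => s * Real.exp (4 * h) * (fun _ : ℕ => s * Real.exp (-(4 * h))) j) =
      fun _ => s ^ 2 := by
    funext j
    simp only
    have : Real.exp (4 * h) * Real.exp (-(4 * h)) = 1 := by rw [← Real.exp_add]; simp
    calc s * Real.exp (4 * h) * (s * Real.exp (-(4 * h))) =
        s ^ 2 * (Real.exp (4 * h) * Real.exp (-(4 * h))) := by ring
      _ = _ := by rw [this, mul_one]
  obtain ⟨d1, d2⟩ := exp_bounds cs hh0 hh1 (t := 5 * h) (by rw [abs_of_pos (by positivity)])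
  have hex := exit_x m N (s * Real.exp (4 * h)) (Real.exp h) (fun _ => s * Real.exp (-(4 * h))) hv a1
    (by
      -- `s e^{6h} < 1`
      have hcurv := cs.hcurv
      have hcurv2 := cs.hcurv2
      have e3 : s * Real.exp (4 * h) * Real.exp h ^ 2 = s * Real.exp (5 * h) * Real.exp h := by
        rw [e1]; field_simp
      rw [e3]
      set x := s * Real.exp (5 * h) with hx
      have hx1 : x < 1 := lt_of_le_of_lt d2 cs.hr1
      have h1x : 0 < 1 - x := by linarith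
      have hg := g_eq x (Real.exp h) hx1 (Real.exp_pos h)
      obtain ⟨k1, k2, k3⟩ := common1 cs hh0 hh1
      have hcu := cv_upper hh0.le k1
      have hkr : kap x ≤ kap cs.r := kap_mono d1 d2 cs.hr1
      have hk0 : 0 ≤ kap x := kap_nonneg d1
      have hc0 : 0 ≤ cv (Real.exp h) := le_trans (by positivity) (cv_lower hh0.le)
      have h5 : kap x * cv (Real.exp h) ≤ 1 / 2 :=
        le_trans (mul_le_mul hkr hcu hc0 (hk0.trans hkr)) k3
      have h6 : 0 < (1 - x * Real.exp h) * (1 - x / Real.exp h) / (1 - x) ^ 2 := by rw [hg]; linarith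
      have h7 : 0 < (1 - x * Real.exp h) * (1 - x / Real.exp h) := by
        by_contra hcon
        push Not at hcon
        have : (1 - x * Real.exp h) * (1 - x / Real.exp h) / (1 - x) ^ 2 ≤ 0 :=
          div_nonpos_of_nonpos_of_nonneg hcon (by positivity)
        linarith
      have h8 : 0 < 1 - x / Real.exp h := by
        have : x / Real.exp h ≤ x := div_le_self d1 hv.le
        linarith
      have h9 : 0 < 1 - x * Real.exp h := by
        by_contra hcon
        push Not at hcon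
        have := mul_nonpos_of_nonpos_of_nonneg hcon h8.le
        linarith
      linarith)
    (fun _ => b1.le) (fun _ => b2) (by rw [hbulk]; exact hE)
  refine sq_le_aux (hex.trans (ENNReal.ofReal_le_ofReal ?_))
  have hr := real_far_x cs hh0 hh1 hm
  have hvne : Real.exp h ≠ 0 := (Real.exp_pos h).ne'
  rw [Finset.prod_const, card_range]
  have f1 : s * Real.exp (4 * h) * Real.exp h = s * Real.exp (5 * h) := by rw [e1]; field_simp
  have f2 : s * Real.exp (4 * h) * Real.exp h ^ 2 = s * Real.exp (5 * h) * Real.exp h := by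
    rw [e1]; field_simp
  have f3 : s * Real.exp (-(4 * h)) / Real.exp h = s * Real.exp (-(5 * h)) := by rw [e2]; field_simp
  have f4 : s * Real.exp (-(4 * h)) / Real.exp h ^ 2 = s * Real.exp (-(5 * h)) / Real.exp h := by
    rw [e2]; field_simp
  rw [f1, f2, f3, f4, e1, e2]
  refine hr.trans (le_of_eq ?_)
  congr 1; ring

/-- upper system with the extra row -/
theorem exit_near_y {Ω : Type} [MeasurableSpace Ω] [DiscreteMeasurableSpace Ω] {P : Measure Ω}
    {E : Ω → ℕ × ℕ → ℕ} {m N : ℕ} (hm : (N : ℝ) * (1 - cs.c1 * h) ≤ m)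
    (hE : EnvLaw P (bx m (N + 1)) (sth (s * Real.exp (2 * h))
      (fun j => if j = 0 then s * Real.exp (-(2 * h)) / (s * Real.exp (2 * h))
        else s ^ 2 / (s * Real.exp (2 * h)))
      (fun j => (s * Real.exp (2 * h)) * (if j = 0 then s * Real.exp (-(2 * h)) / (s * Real.exp (2 * h))
        else s ^ 2 / (s * Real.exp (2 * h))))) E) :
    P {ω | GG (hz (E ω)) (N + 1) m ≤ GG (vz (E ω)) (N + 1) m} ≤
      ENNReal.ofReal (2 * Real.exp (-(s * h ^ 3 * N / 4))) := by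
  have hs := cs.hs0
  have habs : |2 * h| ≤ 5 * h := by rw [abs_of_pos (by positivity)]; linarith
  have habs' : |-(2 * h)| ≤ 5 * h := by rw [abs_neg]; exact habs
  obtain ⟨a1, a2⟩ := exp4_lt_one cs hh0 hh1 habs
  obtain ⟨b1, b2⟩ := exp4_lt_one cs hh0 hh1 habs'
  have hv : 1 < Real.exp h := Real.one_lt_exp_iff.2 hh0
  have e1 : s ^ 2 / (s * Real.exp (2 * h)) = s * Real.exp (-(2 * h)) := by
    rw [Real.exp_neg]; field_simp
  have e2 : s * Real.exp (-(2 * h)) / (s * Real.exp (2 * h)) = Real.exp (-(4 * h)) := by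
    rw [mul_div_mul_left _ _ hs.ne', ← Real.exp_sub]; congr 1; ring
  set t := Real.exp (-h) with ht
  have ht0 : 0 < t := Real.exp_pos _
  have ht1 : t < 1 := by rw [ht, ← Real.exp_zero]; exact Real.exp_lt_exp.2 (by linarith)
  have hvt : Real.exp h = t⁻¹ := by rw [ht, Real.exp_neg, inv_inv]
  have he4 : Real.exp (-(4 * h)) = t ^ 4 := by
    rw [ht, ← Real.exp_nat_mul]; congr 1; push_cast; ring
  have he2 : Real.exp (-(2 * h)) = t ^ 2 := by
    rw [ht, ← Real.exp_nat_mul]; congr 1; push_cast; ring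
  have hex := exit_y m (N + 1) (s * Real.exp (2 * h)) (Real.exp h)
    (fun j => if j = 0 then s * Real.exp (-(2 * h)) / (s * Real.exp (2 * h))
        else s ^ 2 / (s * Real.exp (2 * h))) hv a1 a2
    (fun j => by split_ifs <;> positivity)
    (fun j => by
      split_ifs with h0
      · rw [e2, he4, hvt]
        have : t ^ 4 * t⁻¹ ^ 2 = t ^ 2 := by field_simp
        rw [this]; exact pow_lt_one₀ ht0.le ht1 (n := 2) (by norm_num)
      · rw [e1]
        have : s * Real.exp (-(2 * h)) * Real.exp h ^ 2 = s := by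
          rw [he2, hvt]; field_simp
        rw [this]; exact cs.hs1) hE
  rw [Finset.prod_range_succ'] at hex
  simp only [Nat.add_eq_zero_iff, one_ne_zero, and_false, if_false, if_true, Finset.prod_const,
    card_range, e1, e2] at hex
  have hr := real_near_y cs hh0 hh1 hm
  -- the factor of the extra row
  have hextra : (1 - Real.exp (-(4 * h)) * Real.exp h) ^ 2 /
      ((1 - Real.exp (-(4 * h))) * (1 - Real.exp (-(4 * h)) * Real.exp h ^ 2)) ≤ 4 := by
    rw [he4, hvt]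
    have f1 : t ^ 4 * t⁻¹ = t ^ 3 := by field_simp
    have f2 : t ^ 4 * t⁻¹ ^ 2 = t ^ 2 := by field_simp
    rw [f1, f2]
    have g4 : 0 < 1 - t ^ 4 := sub_pos.2 (pow_lt_one₀ ht0.le ht1 (n := 4) (by norm_num))
    have g2 : 0 < 1 - t ^ 2 := sub_pos.2 (pow_lt_one₀ ht0.le ht1 (n := 2) (by norm_num))
    rw [div_le_iff₀ (by positivity)]
    have e3 : (1 - t ^ 3) ^ 2 = (1 - t) ^ 2 * (1 + t + t ^ 2) ^ 2 := by ring
    have e4 : 4 * ((1 - t ^ 4) * (1 - t ^ 2)) = (1 - t) ^ 2 * (4 * ((1 + t) ^ 2 * (1 + t ^ 2))) := by ring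
    rw [e3, e4]
    apply mul_le_mul_of_nonneg_left _ (by positivity)
    linarith [pow_pos ht0 2, pow_pos ht0 3, pow_pos ht0 4]
  have hextra0 : 0 ≤ (1 - Real.exp (-(4 * h)) * Real.exp h) ^ 2 /
      ((1 - Real.exp (-(4 * h))) * (1 - Real.exp (-(4 * h)) * Real.exp h ^ 2)) := by
    rw [he4, hvt]
    have f2 : t ^ 4 * t⁻¹ ^ 2 = t ^ 2 := by field_simp
    rw [f2]
    have g4 : 0 < 1 - t ^ 4 := sub_pos.2 (pow_lt_one₀ ht0.le ht1 (n := 4) (by norm_num))
    have g2 : 0 < 1 - t ^ 2 := sub_pos.2 (pow_lt_one₀ ht0.le ht1 (n := 2) (by norm_num))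
    positivity
  have hvne : Real.exp h ≠ 0 := (Real.exp_pos h).ne'
  have d1 : s * Real.exp (2 * h) = s * Real.exp h * Real.exp h := by
    rw [mul_assoc, ← Real.exp_add]; congr 2; ring
  have d2 : s * Real.exp (-(2 * h)) = s * Real.exp (-h) / Real.exp h := by
    rw [mul_div_assoc, ← Real.exp_sub]; congr 2; ring
  have f3 : s * Real.exp (2 * h) / Real.exp h = s * Real.exp h := by rw [d1]; field_simp
  have f4 : s * Real.exp (2 * h) / Real.exp h ^ 2 = s * Real.exp h / Real.exp h := by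
    rw [d1]; field_simp
  have f5 : s * Real.exp (-(2 * h)) * Real.exp h = s * Real.exp (-h) := by rw [d2]; field_simp
  have f6 : s * Real.exp (-(2 * h)) * Real.exp h ^ 2 = s * Real.exp (-h) * Real.exp h := by
    rw [d2]; field_simp
  rw [f3, f4, f5, f6, d1, d2] at hex
  have hfin : P {ω | GG (hz (E ω)) (N + 1) m ≤ GG (vz (E ω)) (N + 1) m} ^ 2 ≤
      ENNReal.ofReal (4 * Real.exp (-(s * h ^ 3 * N / 2))) := by
    refine hex.trans (ENNReal.ofReal_le_ofReal ?_)
    rw [← mul_assoc]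
    calc _ ≤ Real.exp (-(s * h ^ 3 * N / 2)) * 4 :=
          mul_le_mul hr hextra hextra0 (Real.exp_pos _).le
      _ = _ := by ring
  have e5 : ENNReal.ofReal (4 * Real.exp (-(s * h ^ 3 * N / 2))) =
      (ENNReal.ofReal (2 * Real.exp (-(s * h ^ 3 * N / 4)))) ^ 2 := by
    rw [← ENNReal.ofReal_pow (by positivity), mul_pow, ← Real.exp_nat_mul]
    congr 1
    norm_num
    ring
  rw [e5] at hfin
  exact (ENNReal.pow_le_pow_left_iff two_ne_zero).1 hfin

/-- plain upper system, near -/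
theorem exit_near_y' {Ω : Type} [MeasurableSpace Ω] [DiscreteMeasurableSpace Ω] {P : Measure Ω}
    {E : Ω → ℕ × ℕ → ℕ} {m N : ℕ} (hm : (N : ℝ) * (1 - cs.c1 * h) ≤ m)
    (hE : EnvLaw P (bx m N) (sth (s * Real.exp (2 * h)) (fun _ => s * Real.exp (-(2 * h)))
      (fun _ => s ^ 2)) E) :
    P {ω | GG (hz (E ω)) N m ≤ GG (vz (E ω)) N m} ≤ ENNReal.ofReal (Real.exp (-(s * h ^ 3 * N / 4))) := by
  have hs := cs.hs0
  have habs : |2 * h| ≤ 5 * h := by rw [abs_of_pos (by positivity)]; linarith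
  have habs' : |-(2 * h)| ≤ 5 * h := by rw [abs_neg]; exact habs
  obtain ⟨a1, a2⟩ := exp4_lt_one cs hh0 hh1 habs
  obtain ⟨b1, b2⟩ := exp4_lt_one cs hh0 hh1 habs'
  have hv : 1 < Real.exp h := Real.one_lt_exp_iff.2 hh0
  have hbulk : (fun j : ℕ => s * Real.exp (2 * h) * (fun _ : ℕ => s * Real.exp (-(2 * h))) j) =
      fun _ => s ^ 2 := by
    funext j
    simp only
    have : Real.exp (2 * h) * Real.exp (-(2 * h)) = 1 := by rw [← Real.exp_add]; simp
    calc s * Real.exp (2 * h) * (s * Real.exp (-(2 * h))) =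
        s ^ 2 * (Real.exp (2 * h) * Real.exp (-(2 * h))) := by ring
      _ = _ := by rw [this, mul_one]
  have hex := exit_y m N (s * Real.exp (2 * h)) (Real.exp h) (fun _ => s * Real.exp (-(2 * h))) hv a1 a2
    (fun _ => b1.le)
    (fun _ => by
      have : s * Real.exp (-(2 * h)) * Real.exp h ^ 2 = s := by
        rw [← Real.exp_nat_mul, mul_assoc, ← Real.exp_add]
        have : -(2 * h) + ((2 : ℕ) : ℝ) * h = 0 := by push_cast; ring
        rw [this, Real.exp_zero, mul_one]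
      rw [this]; exact cs.hs1) (by rw [hbulk]; exact hE)
  refine sq_le_aux (hex.trans (ENNReal.ofReal_le_ofReal ?_))
  have hr := real_near_y cs hh0 hh1 hm
  have hvne : Real.exp h ≠ 0 := (Real.exp_pos h).ne'
  rw [Finset.prod_const, card_range]
  have d1 : s * Real.exp (2 * h) = s * Real.exp h * Real.exp h := by
    rw [mul_assoc, ← Real.exp_add]; congr 2; ring
  have d2 : s * Real.exp (-(2 * h)) = s * Real.exp (-h) / Real.exp h := by
    rw [mul_div_assoc, ← Real.exp_sub]; congr 2; ring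
  have f3 : s * Real.exp (2 * h) / Real.exp h = s * Real.exp h := by rw [d1]; field_simp
  have f4 : s * Real.exp (2 * h) / Real.exp h ^ 2 = s * Real.exp h / Real.exp h := by
    rw [d1]; field_simp
  have f5 : s * Real.exp (-(2 * h)) * Real.exp h = s * Real.exp (-h) := by rw [d2]; field_simp
  have f6 : s * Real.exp (-(2 * h)) * Real.exp h ^ 2 = s * Real.exp (-h) * Real.exp h := by
    rw [d2]; field_simp
  rw [f3, f4, f5, f6, d1, d2]
  refine hr.trans (le_of_eq ?_)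
  congr 1; ring

/-- plain upper system, far -/
theorem exit_far_y {Ω : Type} [MeasurableSpace Ω] [DiscreteMeasurableSpace Ω] {P : Measure Ω}
    {E : Ω → ℕ × ℕ → ℕ} {m N : ℕ} (hm : (N : ℝ) * (1 + cs.C1 * h) ≤ m)
    (hE : EnvLaw P (bx m N) (sth (s * Real.exp (-(4 * h))) (fun _ => s * Real.exp (4 * h))
      (fun _ => s ^ 2)) E) :
    P {ω | GG (hz (E ω)) N m ≤ GG (vz (E ω)) N m} ≤ ENNReal.ofReal (Real.exp (-(s * h ^ 3 * N / 4))) := by
  have hs := cs.hs0
  have habs : |4 * h| ≤ 5 * h := by rw [abs_of_pos (by positivity)]; linarith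
  have habs' : |-(4 * h)| ≤ 5 * h := by rw [abs_neg]; exact habs
  obtain ⟨a1, a2⟩ := exp4_lt_one cs hh0 hh1 habs
  obtain ⟨b1, b2⟩ := exp4_lt_one cs hh0 hh1 habs'
  have hv : 1 < Real.exp h := Real.one_lt_exp_iff.2 hh0
  have hbulk : (fun j : ℕ => s * Real.exp (-(4 * h)) * (fun _ : ℕ => s * Real.exp (4 * h)) j) =
      fun _ => s ^ 2 := by
    funext j
    simp only
    have : Real.exp (-(4 * h)) * Real.exp (4 * h) = 1 := by rw [← Real.exp_add]; simp
    calc s * Real.exp (-(4 * h)) * (s * Real.exp (4 * h)) =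
        s ^ 2 * (Real.exp (-(4 * h)) * Real.exp (4 * h)) := by ring
      _ = _ := by rw [this, mul_one]
  have d1 : s * Real.exp (-(4 * h)) = s * Real.exp (-(5 * h)) * Real.exp h := by
    rw [mul_assoc, ← Real.exp_add]; congr 2; ring
  have d2 : s * Real.exp (4 * h) = s * Real.exp (5 * h) / Real.exp h := by
    rw [mul_div_assoc, ← Real.exp_sub]; congr 2; ring
  obtain ⟨g1, g2⟩ := exp_bounds cs hh0 hh1 (t := 5 * h) (by rw [abs_of_pos (by positivity)])
  have hex := exit_y m N (s * Real.exp (-(4 * h))) (Real.exp h) (fun _ => s * Real.exp (4 * h)) hv b1 b2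
    (fun _ => a1.le)
    (fun _ => by
      have e3 : s * Real.exp (4 * h) * Real.exp h ^ 2 = s * Real.exp (5 * h) * Real.exp h := by
        rw [d2]; field_simp
      rw [e3]
      set x := s * Real.exp (5 * h) with hx
      have hx1 : x < 1 := lt_of_le_of_lt g2 cs.hr1
      have h1x : 0 < 1 - x := by linarith
      have hg := g_eq x (Real.exp h) hx1 (Real.exp_pos h)
      obtain ⟨k1, k2, k3⟩ := common1 cs hh0 hh1
      have hcu := cv_upper hh0.le k1
      have hkr : kap x ≤ kap cs.r := kap_mono g1 g2 cs.hr1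
      have hk0 : 0 ≤ kap x := kap_nonneg g1
      have hc0 : 0 ≤ cv (Real.exp h) := le_trans (by positivity) (cv_lower hh0.le)
      have h5 : kap x * cv (Real.exp h) ≤ 1 / 2 :=
        le_trans (mul_le_mul hkr hcu hc0 (hk0.trans hkr)) k3
      have h6 : 0 < (1 - x * Real.exp h) * (1 - x / Real.exp h) / (1 - x) ^ 2 := by rw [hg]; linarith
      have h7 : 0 < (1 - x * Real.exp h) * (1 - x / Real.exp h) := by
        by_contra hcon
        push Not at hcon
        have : (1 - x * Real.exp h) * (1 - x / Real.exp h) / (1 - x) ^ 2 ≤ 0 :=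
          div_nonpos_of_nonpos_of_nonneg hcon (by positivity)
        linarith
      have h8 : 0 < 1 - x / Real.exp h := by
        have : x / Real.exp h ≤ x := div_le_self g1 hv.le
        linarith
      have h9 : 0 < 1 - x * Real.exp h := by
        by_contra hcon
        push Not at hcon
        have := mul_nonpos_of_nonpos_of_nonneg hcon h8.le
        linarith
      linarith) (by rw [hbulk]; exact hE)
  refine sq_le_aux (hex.trans (ENNReal.ofReal_le_ofReal ?_))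
  have hr := real_far_y cs hh0 hh1 hm
  have hvne : Real.exp h ≠ 0 := (Real.exp_pos h).ne'
  rw [Finset.prod_const, card_range]
  have f3 : s * Real.exp (-(4 * h)) / Real.exp h = s * Real.exp (-(5 * h)) := by rw [d1]; field_simp
  have f4 : s * Real.exp (-(4 * h)) / Real.exp h ^ 2 = s * Real.exp (-(5 * h)) / Real.exp h := by
    rw [d1]; field_simp
  have f5 : s * Real.exp (4 * h) * Real.exp h = s * Real.exp (5 * h) := by rw [d2]; field_simp
  have f6 : s * Real.exp (4 * h) * Real.exp h ^ 2 = s * Real.exp (5 * h) * Real.exp h := by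
    rw [d2]; field_simp
  rw [f3, f4, f5, f6, d1, d2]
  refine hr.trans (le_of_eq ?_)
  congr 1; ring

end

end Pool.Agent.MP2c

end

section

/-! Comparison theorems for the point-to-point increments, bulk form. (helper96, MP_2c6138_pr) -/

set_option autoImplicit false
set_option linter.unusedSectionVars false
set_option linter.unusedVariables false

namespace Pool.Agent.MP2c

open MeasureTheory Finset
open scoped ENNReal

/-- bulk sites -/
def bb (m N : ℕ) : Finset (ℕ × ℕ) := (bx m N).filter (fun p => 1 ≤ p.1 ∧ 1 ≤ p.2)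

theorem mem_bb {m N : ℕ} {p : ℕ × ℕ} : p ∈ bb m N ↔ (1 ≤ p.1 ∧ p.1 ≤ N) ∧ (1 ≤ p.2 ∧ p.2 ≤ m) := by
  simp only [bb, mem_filter, mem_bx]
  constructor
  · rintro ⟨⟨h1, h2, h3⟩, h4, h5⟩; exact ⟨⟨h4, h2⟩, h5, h3⟩
  · rintro ⟨⟨h4, h2⟩, h5, h3⟩
    refine ⟨⟨?_, h2, h3⟩, h4, h5⟩
    intro h; rw [h] at h4; simp at h4

theorem UU_bz_congr {m N : ℕ} {e e' : ℕ × ℕ → ℕ} (h : ∀ p ∈ bb m N, e p = e' p) :
    ∀ i, 1 ≤ i → i ≤ m → UU (bz e) N i = UU (bz e') N i := by
  intro i h1 h2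
  refine UU_congr (m := m) (N := N) (fun p hp => ?_) N le_rfl i h1 h2
  rw [mem_bx] at hp
  simp only [bz]
  split_ifs with h0
  · rfl
  · push Not at h0
    exact h p (mem_bb.2 ⟨⟨by omega, hp.2.1⟩, by omega, hp.2.2⟩)

section
variable {Ω : Type} [MeasurableSpace Ω] [DiscreteMeasurableSpace Ω]
variable {Ω' : Type} [MeasurableSpace Ω'] [DiscreteMeasurableSpace Ω']

/-- replace the bulk environment by a system with boundary -/
theorem bulk_transfer {P : Measure Ω} {W : Ω → ℕ × ℕ → ℕ} {P' : Measure Ω'} {E : Ω' → ℕ × ℕ → ℕ}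
    {m N : ℕ} {q a : ℝ} {b : ℕ → ℝ} (hW : EnvLaw P (bb m N) (fun _ => q) W)
    (hE : EnvLaw P' (bx m N) (sth a b (fun _ => q)) E)
    (h01 : ∀ p ∈ bx m N, 0 ≤ sth a b (fun _ => q) p ∧ sth a b (fun _ => q) p < 1)
    (F : (ℕ → ℕ) → ℝ≥0∞) (hF : Dep (Ioc 0 m) F) :
    ∫⁻ ω, F (fun i => UU (bz (W ω)) N i) ∂P = ∫⁻ ω, F (fun i => UU (bz (E ω)) N i) ∂P' := by
  have h1 : EnvLaw P' (bb m N) (fun _ => q) E := by
    refine (hE.subset (filter_subset _ _) h01).congr' (fun _ _ _ => rfl) (fun p hp => ?_)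
    change p ∈ bb m N at hp
    rw [mem_bb] at hp
    have h2 : p.1 ≠ 0 := by omega
    have h3 : p.2 ≠ 0 := by omega
    simp [sth, h2, h3]
  refine hW.lintegral_same h1 (fun e => F (fun i => UU (bz e) N i)) ?_
  intro e e' he
  refine hF _ _ (fun i hi => ?_)
  rw [mem_Ioc] at hi
  exact UU_bz_congr he i (by omega) hi.2

theorem lower_gen {P : Measure Ω} {W : Ω → ℕ × ℕ → ℕ} (m N : ℕ) (q a : ℝ) (hq0 : 0 < q) (hqa : q < a)
    (ha1 : a < 1) (hW : EnvLaw P (bb m N) (fun _ => q) W) (ψ : (ℕ → ℕ) → ℝ≥0∞)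
    (hψd : Dep (Ioc 0 m) ψ) (hψ1 : ∀ u, ψ u ≤ 1)
    (hψm : ∀ u u' : ℕ → ℕ, (∀ i ∈ Ioc 0 m, u i ≤ u' i) → ψ u' ≤ ψ u) (B : ℝ≥0∞)
    (hB : (Measure.pi (fun p : ↥(bx m N) => geo (sth a (fun _ => q / a) (fun _ => q) p)))
      {x | GG (vz (ext (bx m N) x)) N m ≤ GG (hz (ext (bx m N) x)) N m} ≤ B) :
    ∫⁻ ω, ψ (fun i => UU (bz (W ω)) N i) ∂P ≤ GE (Ioc 0 m) a ψ + B := by
  have ha0 : 0 < a := hq0.trans hqa
  have hqa0 : 0 < q / a := by positivity
  have hqa1 : q / a < 1 := (div_lt_one ha0).2 hqa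
  have hcan := envLaw_pi (bx m N) (sth a (fun _ => q / a) (fun _ => q))
  have h01 : ∀ p ∈ bx m N, 0 ≤ sth a (fun _ => q / a) (fun _ => q) p ∧
      sth a (fun _ => q / a) (fun _ => q) p < 1 := fun p _ =>
    sth_mem01 ha0.le ha1 (fun _ => hqa0.le) (fun _ => hqa1) (fun _ => hq0.le)
      (fun _ => hqa.trans ha1) p
  rw [bulk_transfer hW hcan h01 ψ hψd]
  have h' : EnvLaw (Measure.pi (fun p : ↥(bx m N) => geo (sth a (fun _ => q / a) (fun _ => q) p)))
      (bx m N) (sth a (fun _ => q / a) (fun j => a * (q / a))) (fun x => ext (bx m N) x) := by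
    have : (fun j : ℕ => a * (q / a)) = (fun _ => q) := by funext j; field_simp
    rw [this]; exact hcan
  have hlaw := law_UU m N a (fun _ => q / a) ha0.le ha1 (fun _ => hqa0.le) (fun _ => hqa1) h'
  rw [← lint_eq_GE hlaw ψ hψd]
  refine le_trans (lintegral_mono (g := fun x => ψ (fun i => UU (ext (bx m N) x) N i) +
    (if GG (vz (ext (bx m N) x)) N m ≤ GG (hz (ext (bx m N) x)) N m then 1 else 0)) (fun x => ?_)) ?_
  · by_cases hH : GG (vz (ext (bx m N) x)) N m ≤ GG (hz (ext (bx m N) x)) N m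
    · simp only [if_pos hH]
      exact (hψ1 _).trans le_add_self
    · simp only [if_neg hH, add_zero]
      refine hψm _ _ (fun i hi => ?_)
      rw [mem_Ioc] at hi
      obtain ⟨k, rfl⟩ : ∃ k, i = k + 1 := ⟨i - 1, by omega⟩
      rw [UU_eq_vz _ N m (not_le.1 hH) k hi.2]
      exact UU_vz_le_bz _ N k
  · rw [lintegral_add_left (Measurable.of_discrete), lint_ite]
    exact add_le_add le_rfl hB

theorem UU_bz_le_hz (x : ℕ × ℕ → ℕ) (N i : ℕ) : UU (bz x) N (i + 1) ≤ UU (hz x) N (i + 1) := by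
  have h2 : Gx (Xof (bz x)) (row (bz x)) N (i + 1) + Gx (Xof (hz x)) (row (hz x)) N i ≤
      Gx (Xof (hz x)) (row (hz x)) N (i + 1) + Gx (Xof (bz x)) (row (bz x)) N i := by
    refine Gx_attract (fun j => ?_) (fun j i => ?_) (fun i => ?_) N i
    · rw [row_bz]; simp [row, hz]
    · rw [row_bz]; simp [row, hz]
    · rw [Xof_bz, Xof_hz, Xof_succ]; simp
  have h3 := GG_incr (hz x) N i
  have h4 := GG_incr (bz x) N i
  rw [GG] at h3 h4
  omega

theorem upper_gen {P : Measure Ω} {W : Ω → ℕ × ℕ → ℕ} (m x0 N : ℕ) (hx0 : x0 ≤ m) (q a : ℝ)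
    (hq0 : 0 < q) (hqa : q < a) (ha1 : a < 1) (hW : EnvLaw P (bb m N) (fun _ => q) W)
    (φ : (ℕ → ℕ) → ℝ≥0∞) (hφd : Dep (Ioc x0 m) φ) (hφ1 : ∀ u, φ u ≤ 1)
    (hφm : ∀ u u' : ℕ → ℕ, (∀ i ∈ Ioc x0 m, u i ≤ u' i) → φ u ≤ φ u') (B : ℝ≥0∞)
    (hB : (Measure.pi (fun p : ↥(bx m N) => geo (sth a (fun _ => q / a) (fun _ => q) p)))
      {x | GG (hz (ext (bx m N) x)) N x0 ≤ GG (vz (ext (bx m N) x)) N x0} ≤ B) :
    ∫⁻ ω, φ (fun i => UU (bz (W ω)) N i) ∂P ≤ GE (Ioc x0 m) a φ + B := by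
  have ha0 : 0 < a := hq0.trans hqa
  have hqa0 : 0 < q / a := by positivity
  have hqa1 : q / a < 1 := (div_lt_one ha0).2 hqa
  have hcan := envLaw_pi (bx m N) (sth a (fun _ => q / a) (fun _ => q))
  have h01 : ∀ p ∈ bx m N, 0 ≤ sth a (fun _ => q / a) (fun _ => q) p ∧
      sth a (fun _ => q / a) (fun _ => q) p < 1 := fun p _ =>
    sth_mem01 ha0.le ha1 (fun _ => hqa0.le) (fun _ => hqa1) (fun _ => hq0.le)
      (fun _ => hqa.trans ha1) p
  have hφd' : Dep (Ioc 0 m) φ := hφd.mono (fun i hi => by rw [mem_Ioc] at hi ⊢; omega)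
  rw [bulk_transfer hW hcan h01 φ hφd']
  have h' : EnvLaw (Measure.pi (fun p : ↥(bx m N) => geo (sth a (fun _ => q / a) (fun _ => q) p)))
      (bx m N) (sth a (fun _ => q / a) (fun j => a * (q / a))) (fun x => ext (bx m N) x) := by
    have : (fun j : ℕ => a * (q / a)) = (fun _ => q) := by funext j; field_simp
    rw [this]; exact hcan
  have hlaw := law_UU m N a (fun _ => q / a) ha0.le ha1 (fun _ => hqa0.le) (fun _ => hqa1) h'
  have hlaw' := hlaw.subset (S' := Ioc x0 m) (fun i hi => by rw [mem_Ioc] at hi ⊢; omega)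
    (fun _ _ => ⟨ha0.le, ha1⟩)
  rw [← lint_eq_GE hlaw' φ hφd]
  refine le_trans (lintegral_mono (g := fun x => φ (fun i => UU (ext (bx m N) x) N i) +
    (if GG (hz (ext (bx m N) x)) N x0 ≤ GG (vz (ext (bx m N) x)) N x0 then 1 else 0)) (fun x => ?_)) ?_
  · by_cases hH : GG (hz (ext (bx m N) x)) N x0 ≤ GG (vz (ext (bx m N) x)) N x0
    · simp only [if_pos hH]
      exact (hφ1 _).trans le_add_self
    · simp only [if_neg hH, add_zero]
      refine hφm _ _ (fun i hi => ?_)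
      rw [mem_Ioc] at hi
      obtain ⟨k, rfl⟩ : ∃ k, i = k + 1 := ⟨i - 1, by omega⟩
      rw [UU_eq_hz _ N x0 (not_le.1 hH) k (by omega)]
      exact UU_bz_le_hz _ N k
  · rw [lintegral_add_left (Measurable.of_discrete), lint_ite]
    exact add_le_add le_rfl hB

end

theorem bx_restrict {m x0 N : ℕ} (hx0 : x0 ≤ m) : bx x0 N ⊆ bx m N := by
  intro p hp
  rw [mem_bx] at hp ⊢
  exact ⟨hp.1, hp.2.1, by omega⟩

section final
variable {s : ℝ} (cs : Cst s) {h : ℝ} (hh0 : 0 < h) (hh1 : h ≤ cs.h0)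
include hh0 hh1

theorem sth_param_eq (t : ℝ) : s ^ 2 / (s * Real.exp t) = s * Real.exp (-t) := by
  have := cs.hs0
  rw [Real.exp_neg]; field_simp

theorem q_lt (t : ℝ) (ht : |t| ≤ 5 * h) : s ^ 2 < s * Real.exp t := by
  have hs := cs.hs0
  have h1 := (exp4_lt_one cs hh0 hh1 (t := -t) (by rwa [abs_neg])).2
  rw [pow_two]
  apply mul_lt_mul_of_pos_left _ hs
  rw [Real.exp_neg, ← div_eq_mul_inv, div_lt_one (Real.exp_pos _)] at h1
  exact h1

variable {Ω : Type} [MeasurableSpace Ω] [DiscreteMeasurableSpace Ω]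

/-- lower comparison near the diagonal -/
theorem lower_near {P : Measure Ω} {W : Ω → ℕ × ℕ → ℕ} {m N : ℕ}
    (hm : (m : ℝ) ≤ N * (1 + cs.c1 * h)) (hW : EnvLaw P (bb m N) (fun _ => s ^ 2) W)
    (ψ : (ℕ → ℕ) → ℝ≥0∞) (hψd : Dep (Ioc 0 m) ψ) (hψ1 : ∀ u, ψ u ≤ 1)
    (hψm : ∀ u u' : ℕ → ℕ, (∀ i ∈ Ioc 0 m, u i ≤ u' i) → ψ u' ≤ ψ u) :
    ∫⁻ ω, ψ (fun i => UU (bz (W ω)) N i) ∂P ≤
      GE (Ioc 0 m) (s * Real.exp (-(2 * h))) ψ + ENNReal.ofReal (Real.exp (-(s * h ^ 3 * N / 4))) := by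
  have hs := cs.hs0
  have habs' : |-(2 * h)| ≤ 5 * h := by rw [abs_neg, abs_of_pos (by positivity)]; linarith
  refine lower_gen m N (s ^ 2) _ (by positivity) (q_lt cs hh0 hh1 _ habs')
    (exp4_lt_one cs hh0 hh1 habs').2 hW ψ hψd hψ1 hψm _ ?_
  refine exit_near_x cs hh0 hh1 hm ?_
  rw [sth_param_eq cs hh0 hh1, neg_neg]
  exact envLaw_pi _ _

/-- lower comparison to the left of the diagonal -/
theorem lower_far {P : Measure Ω} {W : Ω → ℕ × ℕ → ℕ} {m N : ℕ}
    (hm : (m : ℝ) ≤ N * (1 - cs.C1 * h)) (hW : EnvLaw P (bb m N) (fun _ => s ^ 2) W)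
    (ψ : (ℕ → ℕ) → ℝ≥0∞) (hψd : Dep (Ioc 0 m) ψ) (hψ1 : ∀ u, ψ u ≤ 1)
    (hψm : ∀ u u' : ℕ → ℕ, (∀ i ∈ Ioc 0 m, u i ≤ u' i) → ψ u' ≤ ψ u) :
    ∫⁻ ω, ψ (fun i => UU (bz (W ω)) N i) ∂P ≤
      GE (Ioc 0 m) (s * Real.exp (4 * h)) ψ + ENNReal.ofReal (Real.exp (-(s * h ^ 3 * N / 4))) := by
  have hs := cs.hs0
  have habs' : |4 * h| ≤ 5 * h := by rw [abs_of_pos (by positivity)]; linarith
  refine lower_gen m N (s ^ 2) _ (by positivity) (q_lt cs hh0 hh1 _ habs')
    (exp4_lt_one cs hh0 hh1 habs').2 hW ψ hψd hψ1 hψm _ ?_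
  refine exit_far_x cs hh0 hh1 hm ?_
  rw [sth_param_eq cs hh0 hh1]
  exact envLaw_pi _ _

/-- upper comparison near the diagonal -/
theorem upper_near {P : Measure Ω} {W : Ω → ℕ × ℕ → ℕ} {m x0 N : ℕ} (hx0 : x0 ≤ m)
    (hm : (N : ℝ) * (1 - cs.c1 * h) ≤ x0) (hW : EnvLaw P (bb m N) (fun _ => s ^ 2) W)
    (φ : (ℕ → ℕ) → ℝ≥0∞) (hφd : Dep (Ioc x0 m) φ) (hφ1 : ∀ u, φ u ≤ 1)
    (hφm : ∀ u u' : ℕ → ℕ, (∀ i ∈ Ioc x0 m, u i ≤ u' i) → φ u ≤ φ u') :
    ∫⁻ ω, φ (fun i => UU (bz (W ω)) N i) ∂P ≤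
      GE (Ioc x0 m) (s * Real.exp (2 * h)) φ + ENNReal.ofReal (Real.exp (-(s * h ^ 3 * N / 4))) := by
  have hs := cs.hs0
  have habs' : |2 * h| ≤ 5 * h := by rw [abs_of_pos (by positivity)]; linarith
  refine upper_gen m x0 N hx0 (s ^ 2) _ (by positivity) (q_lt cs hh0 hh1 _ habs')
    (exp4_lt_one cs hh0 hh1 habs').2 hW φ hφd hφ1 hφm _ ?_
  refine exit_near_y' cs hh0 hh1 hm ?_
  rw [sth_param_eq cs hh0 hh1]
  refine (envLaw_pi (bx m N) _).subset (bx_restrict hx0) (fun p _ => ?_)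
  have h1 := exp4_lt_one cs hh0 hh1 habs'
  have h2 := exp4_lt_one cs hh0 hh1 (t := -(2 * h)) (by rwa [abs_neg])
  exact sth_mem01 h1.1.le h1.2 (fun _ => h2.1.le) (fun _ => h2.2) (fun _ => by positivity)
    (fun _ => by have := cs.hs1; nlinarith) p

/-- upper comparison to the right of the diagonal -/
theorem upper_far {P : Measure Ω} {W : Ω → ℕ × ℕ → ℕ} {m x0 N : ℕ} (hx0 : x0 ≤ m)
    (hm : (N : ℝ) * (1 + cs.C1 * h) ≤ x0) (hW : EnvLaw P (bb m N) (fun _ => s ^ 2) W)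
    (φ : (ℕ → ℕ) → ℝ≥0∞) (hφd : Dep (Ioc x0 m) φ) (hφ1 : ∀ u, φ u ≤ 1)
    (hφm : ∀ u u' : ℕ → ℕ, (∀ i ∈ Ioc x0 m, u i ≤ u' i) → φ u ≤ φ u') :
    ∫⁻ ω, φ (fun i => UU (bz (W ω)) N i) ∂P ≤
      GE (Ioc x0 m) (s * Real.exp (-(4 * h))) φ + ENNReal.ofReal (Real.exp (-(s * h ^ 3 * N / 4))) := by
  have hs := cs.hs0
  have habs' : |-(4 * h)| ≤ 5 * h := by rw [abs_neg, abs_of_pos (by positivity)]; linarith
  refine upper_gen m x0 N hx0 (s ^ 2) _ (by positivity) (q_lt cs hh0 hh1 _ habs')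
    (exp4_lt_one cs hh0 hh1 habs').2 hW φ hφd hφ1 hφm _ ?_
  refine exit_far_y cs hh0 hh1 hm ?_
  rw [sth_param_eq cs hh0 hh1, neg_neg]
  refine (envLaw_pi (bx m N) _).subset (bx_restrict hx0) (fun p _ => ?_)
  have h1 := exp4_lt_one cs hh0 hh1 habs'
  have h2 := exp4_lt_one cs hh0 hh1 (t := 4 * h) (by rwa [abs_neg] at habs')
  exact sth_mem01 h1.1.le h1.2 (fun _ => h2.1.le) (fun _ => h2.2) (fun _ => by positivity)
    (fun _ => by have := cs.hs1; nlinarith) p

end final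

section final2
variable {s : ℝ} (cs : Cst s) {h : ℝ} (hh0 : 0 < h) (hh1 : h ≤ cs.h0)
include hh0 hh1
variable {Ω : Type} [MeasurableSpace Ω] [DiscreteMeasurableSpace Ω]

/-- two-sided comparison near the diagonal -/
theorem two_sided_bulk {P : Measure Ω} {W : Ω → ℕ × ℕ → ℕ} {w K N : ℕ} (hKw : K ≤ w)
    (hm1 : ((w + K : ℕ) : ℝ) ≤ N * (1 + cs.c1 * h)) (hm2 : (N : ℝ) * (1 - cs.c1 * h) ≤ ((w - K : ℕ) : ℝ))
    (hW : EnvLaw P (bb (w + K) N) (fun _ => s ^ 2) W)
    (φ ψ : (ℕ → ℕ) → ℝ≥0∞) (hφd : Dep (Ioc (w - K) w) φ) (hψd : Dep (Ioc w (w + K)) ψ)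
    (hφ1 : ∀ u, φ u ≤ 1) (hψ1 : ∀ u, ψ u ≤ 1)
    (hφm : ∀ u u' : ℕ → ℕ, (∀ i ∈ Ioc (w - K) w, u i ≤ u' i) → φ u ≤ φ u')
    (hψm : ∀ u u' : ℕ → ℕ, (∀ i ∈ Ioc w (w + K), u i ≤ u' i) → ψ u' ≤ ψ u) :
    ∫⁻ ω, φ (fun i => UU (bz (W ω)) N i) * ψ (fun i => UU (bz (W ω)) N i) ∂P ≤
      (GE (Ioc (w - K) w) (s * Real.exp (2 * h)) φ + ENNReal.ofReal (2 * Real.exp (-(s * h ^ 3 * N / 4)))) *
        GE (Ioc w (w + K)) (s * Real.exp (-(2 * h))) ψ +
        ENNReal.ofReal (Real.exp (-(s * h ^ 3 * N / 4))) := by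
  have hs := cs.hs0
  have habs : |2 * h| ≤ 5 * h := by rw [abs_of_pos (by positivity)]; linarith
  have habs' : |-(2 * h)| ≤ 5 * h := by rwa [abs_neg]
  have h1 := exp4_lt_one cs hh0 hh1 habs
  have h2 := exp4_lt_one cs hh0 hh1 habs'
  set q := s ^ 2 with hq
  set am := s * Real.exp (-(2 * h)) with ham
  set ap := s * Real.exp (2 * h) with hap
  have hq0 : 0 < q := by positivity
  have hqam : q < am := q_lt cs hh0 hh1 _ habs'
  have hamp : am < ap := by rw [ham, hap]; gcongr; linarith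
  have ham0 : 0 < am := h2.1
  have hap0 : 0 < ap := h1.1
  have hqm0 : 0 < q / am := by positivity
  have hqm1 : q / am < 1 := (div_lt_one ham0).2 hqam
  set Q := Measure.pi (fun p : ↥(bx (w + K) N) => geo (sth am (fun _ => q / am) (fun _ => q) p)) with hQ
  have hcan : EnvLaw Q (bx (w + K) N) (sth am (fun _ => q / am) (fun _ => q)) (fun x => ext (bx (w + K) N) x) :=
    envLaw_pi _ _
  have h01 : ∀ p ∈ bx (w + K) N, 0 ≤ sth am (fun _ => q / am) (fun _ => q) p ∧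
      sth am (fun _ => q / am) (fun _ => q) p < 1 := fun p _ =>
    sth_mem01 ham0.le h2.2 (fun _ => hqm0.le) (fun _ => hqm1) (fun _ => hq0.le)
      (fun _ => hqam.trans h2.2) p
  have hprob : IsProbabilityMeasure Q := ⟨hcan.prob h01⟩
  have htr : ∫⁻ ω, φ (fun i => UU (bz (W ω)) N i) * ψ (fun i => UU (bz (W ω)) N i) ∂P =
      ∫⁻ x, φ (fun i => UU (bz (ext (bx (w + K) N) x)) N i) *
        ψ (fun i => UU (bz (ext (bx (w + K) N) x)) N i) ∂Q := by
    refine bulk_transfer hW hcan h01 (fun u => φ u * ψ u) ?_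
    intro u u' hu
    simp only
    rw [hφd u u' (fun i hi => hu i (by rw [mem_Ioc] at hi ⊢; omega)),
      hψd u u' (fun i hi => hu i (by rw [mem_Ioc] at hi ⊢; omega))]
  rw [htr]
  refine two_sided (P := Q) (E := fun x => ext (bx (w + K) N) x) w K N hKw q am ap hq0 hqam hamp h1.2
    hcan φ ψ hφd hψd hφ1 hψ1 hφm hψm _ _ ?_ ?_
  · refine exit_near_x cs hh0 hh1 hm1 ?_
    have : q / am = s * Real.exp (2 * h) := by
      rw [hq, ham, sth_param_eq cs hh0 hh1, neg_neg]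
    rw [← this]
    exact hcan
  · refine exit_near_y cs hh0 hh1 hm2 ?_
    refine (envLaw_pi (bx w (N + 1)) _).subset ?_ (fun p _ => ?_)
    · intro p hp
      rw [mem_bx] at hp ⊢
      exact ⟨hp.1, hp.2.1, by omega⟩
    · have hb0 : ∀ j : ℕ, 0 ≤ (if j = 0 then am / ap else q / ap) := fun j => by
        split_ifs <;> positivity
      have hb1 : ∀ j : ℕ, (if j = 0 then am / ap else q / ap) < 1 := fun j => by
        split_ifs
        · exact (div_lt_one hap0).2 hamp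
        · exact (div_lt_one hap0).2 (hqam.trans hamp)
      refine sth_mem01 hap0.le h1.2 hb0 hb1 (fun j => mul_nonneg hap0.le (hb0 j)) (fun j => ?_) p
      have := hb0 j
      have := hb1 j
      nlinarith [h1.2]

end final2

end Pool.Agent.MP2c

end

section

/-! Chain representation of the passage times. (helper96, MP_2c6138_pr) -/

set_option autoImplicit false
set_option linter.unusedSectionVars false
set_option linter.unusedVariables false

namespace Pool.Agent.MP2c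

open MeasureTheory Finset
open scoped ENNReal

open Classical in
/-- maximal weight of a chain in the box with rows in `(a, b]` and columns in `(c, d]` -/
noncomputable def cmax (e : ℕ × ℕ → ℕ) (a b c d : ℕ) : ℕ :=
  ((Ioc a b ×ˢ Ioc c d).powerset.filter (fun S : Finset (ℕ × ℕ) => IsChain (· ≤ ·) (S : Set (ℕ × ℕ)))).sup
    (fun S => ∑ p ∈ S, e p)

theorem le_cmax (e : ℕ × ℕ → ℕ) (a b c d : ℕ) {S : Finset (ℕ × ℕ)} (hS : S ⊆ Ioc a b ×ˢ Ioc c d)
    (hc : IsChain (· ≤ ·) (S : Set (ℕ × ℕ))) : ∑ p ∈ S, e p ≤ cmax e a b c d := by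
  classical
  unfold cmax
  exact Finset.le_sup (f := fun S : Finset (ℕ × ℕ) => ∑ p ∈ S, e p)
    (mem_filter.2 ⟨mem_powerset.2 hS, hc⟩)

theorem exists_cmax (e : ℕ × ℕ → ℕ) (a b c d : ℕ) : ∃ S : Finset (ℕ × ℕ), S ⊆ Ioc a b ×ˢ Ioc c d ∧
    IsChain (· ≤ ·) (S : Set (ℕ × ℕ)) ∧ ∑ p ∈ S, e p = cmax e a b c d := by
  classical
  unfold cmax
  have hne : ((Ioc a b ×ˢ Ioc c d).powerset.filter
      (fun S : Finset (ℕ × ℕ) => IsChain (· ≤ ·) (S : Set (ℕ × ℕ)))).Nonempty :=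
    ⟨∅, mem_filter.2 ⟨mem_powerset.2 (empty_subset _), by simp⟩⟩
  obtain ⟨S, hS, h⟩ := Finset.exists_mem_eq_sup _ hne (fun S : Finset (ℕ × ℕ) => ∑ p ∈ S, e p)
  rw [mem_filter, mem_powerset] at hS
  exact ⟨S, hS.1, hS.2, h.symm⟩

theorem cmax_le {e : ℕ × ℕ → ℕ} {a b c d M : ℕ} (h : ∀ S : Finset (ℕ × ℕ), S ⊆ Ioc a b ×ˢ Ioc c d →
    IsChain (· ≤ ·) (S : Set (ℕ × ℕ)) → ∑ p ∈ S, e p ≤ M) : cmax e a b c d ≤ M := by
  obtain ⟨S, h1, h2, h3⟩ := exists_cmax e a b c d
  rw [← h3]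
  exact h S h1 h2

theorem cmax_congr {e e' : ℕ × ℕ → ℕ} {a b c d : ℕ} (h : ∀ p ∈ Ioc a b ×ˢ Ioc c d, e p = e' p) :
    cmax e a b c d = cmax e' a b c d := by
  refine le_antisymm (cmax_le (fun S hS hc => ?_)) (cmax_le (fun S hS hc => ?_))
  · rw [Finset.sum_congr rfl (fun p hp => h p (hS hp))]
    exact le_cmax e' a b c d hS hc
  · rw [Finset.sum_congr rfl (fun p hp => (h p (hS hp)).symm)]
    exact le_cmax e a b c d hS hc

/-- recursion for `GG` -/
theorem GG_rec (e : ℕ × ℕ → ℕ) (j i : ℕ) :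
    GG e (j + 1) (i + 1) = e (j + 1, i + 1) + max (GG e (j + 1) i) (GG e j (i + 1)) := rfl

theorem GG_rec_zero (e : ℕ × ℕ → ℕ) (j : ℕ) : GG e (j + 1) 0 = GG e j 0 + e (j + 1, 0) := rfl

theorem GG_zero_left (e : ℕ × ℕ → ℕ) (j : ℕ) : GG e j 0 = ∑ k ∈ range j, e (k + 1, 0) := by
  induction j with
  | zero => rfl
  | succ j ih => rw [GG_rec_zero, ih, sum_range_succ]

theorem GG_swap (e : ℕ × ℕ → ℕ) (j i : ℕ) : GG (fun p => e p.swap) i j = GG e j i := by
  induction j generalizing i with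
  | zero =>
    rw [GG_zero_left]
    rfl
  | succ j ih =>
    induction i with
    | zero =>
      rw [GG_zero_left]
      rfl
    | succ i ihi =>
      rw [GG_rec, GG_rec, ih (i + 1), ihi, max_comm]
      rfl

theorem GG_vz_swap (e : ℕ × ℕ → ℕ) (N m : ℕ) : GG (vz e) N m = GG (hz (fun p => e p.swap)) m N := by
  rw [← GG_swap]
  congr 1

theorem cmax_empty_row (e : ℕ × ℕ → ℕ) (a c d : ℕ) : cmax e a a c d = 0 := by
  refine Nat.le_zero.1 (cmax_le (fun S hS _ => ?_))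
  simp only [Ioc_self, empty_product, subset_empty] at hS
  simp [hS]

theorem cmax_empty_col (e : ℕ × ℕ → ℕ) (a b c : ℕ) : cmax e a b c c = 0 := by
  refine Nat.le_zero.1 (cmax_le (fun S hS _ => ?_))
  simp only [Ioc_self, product_empty, subset_empty] at hS
  simp [hS]

theorem cmax_mono {e : ℕ × ℕ → ℕ} {a b c d a' b' c' d' : ℕ} (ha : a' ≤ a) (hb : b ≤ b') (hc : c' ≤ c)
    (hd : d ≤ d') : cmax e a b c d ≤ cmax e a' b' c' d' :=
  cmax_le (fun S hS hcn => le_cmax e a' b' c' d'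
    (hS.trans (Finset.product_subset_product (Ioc_subset_Ioc ha hb) (Ioc_subset_Ioc hc hd))) hcn)

/-- the recursion for the chain maximum -/
theorem cmax_rec (e : ℕ × ℕ → ℕ) (a b c d : ℕ) (hab : a ≤ b) (hcd : c ≤ d) :
    cmax e a (b + 1) c (d + 1) =
      e (b + 1, d + 1) + max (cmax e a (b + 1) c d) (cmax e a b c (d + 1)) := by
  classical
  refine le_antisymm (cmax_le (fun S hS hc => ?_)) ?_
  · -- remove the corner
    set S' := S.erase (b + 1, d + 1) with hS'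
    have hsum : ∑ p ∈ S, e p ≤ e (b + 1, d + 1) + ∑ p ∈ S', e p := by
      by_cases h : (b + 1, d + 1) ∈ S
      · rw [hS', ← Finset.add_sum_erase S e h]
      · rw [hS', Finset.erase_eq_of_notMem h]; exact le_add_self
    have hc' : IsChain (· ≤ ·) (S' : Set (ℕ × ℕ)) := hc.mono (by rw [hS']; exact_mod_cast erase_subset _ _)
    refine hsum.trans (Nat.add_le_add_left ?_ _)
    by_cases hcol : ∀ p ∈ S', p.2 ≤ d
    · refine le_trans (le_cmax e a (b + 1) c d (fun p hp => ?_) hc') (le_max_left _ _)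
      have h1 := hS (erase_subset _ _ hp)
      simp only [mem_product, mem_Ioc] at h1 ⊢
      have := hcol p hp
      omega
    · push Not at hcol
      obtain ⟨p0, hp0, hp0'⟩ := hcol
      refine le_trans (le_cmax e a b c (d + 1) (fun p hp => ?_) hc') (le_max_right _ _)
      have h1 := hS (erase_subset _ _ hp)
      have h2 := hS (erase_subset _ _ hp0)
      have h3 := (mem_erase.1 hp0).1
      have h4 := (mem_erase.1 hp).1
      simp only [mem_product, mem_Ioc] at h1 h2 ⊢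
      refine ⟨⟨h1.1.1, ?_⟩, h1.2⟩
      by_contra hcon
      have hp1 : p.1 = b + 1 := by omega
      have hp01 : p0.2 = d + 1 := by omega
      have hp02 : p0.1 ≠ b + 1 := fun h => h3 (Prod.ext h hp01)
      have hp12 : p.2 ≠ d + 1 := fun h => h4 (Prod.ext hp1 h)
      rcases eq_or_ne p p0 with h | h
      · subst h; omega
      · rcases hc' (mem_coe.2 hp) (mem_coe.2 hp0) h with h5 | h5
        · have := h5.1; omega
        · have := h5.2; omega
  · -- add the corner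
    have key : ∀ S : Finset (ℕ × ℕ), S ⊆ Ioc a (b + 1) ×ˢ Ioc c (d + 1) → (b + 1, d + 1) ∉ S →
        IsChain (· ≤ ·) (S : Set (ℕ × ℕ)) →
        e (b + 1, d + 1) + ∑ p ∈ S, e p ≤ cmax e a (b + 1) c (d + 1) := by
      intro S hS hn hc
      rw [← Finset.sum_insert hn]
      refine le_cmax e a (b + 1) c (d + 1) ?_ ?_
      · intro p hp
        rcases mem_insert.1 hp with h | h
        · subst h
          simp only [mem_product, mem_Ioc]
          omega
        · exact hS h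
      · rw [coe_insert]
        refine hc.insert (fun p hp _ => Or.inr ?_)
        have := hS hp
        simp only [mem_product, mem_Ioc] at this
        exact ⟨this.1.2, this.2.2⟩
    rcases le_total (cmax e a (b + 1) c d) (cmax e a b c (d + 1)) with h | h
    · rw [max_eq_right h]
      obtain ⟨S, h1, h2, h3⟩ := exists_cmax e a b c (d + 1)
      rw [← h3]
      refine key S (h1.trans (product_subset_product (Ioc_subset_Ioc le_rfl (by omega)) le_rfl)) ?_ h2
      intro hm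
      have := h1 hm
      simp only [mem_product, mem_Ioc] at this
      omega
    · rw [max_eq_left h]
      obtain ⟨S, h1, h2, h3⟩ := exists_cmax e a (b + 1) c d
      rw [← h3]
      refine key S (h1.trans (product_subset_product le_rfl (Ioc_subset_Ioc le_rfl (by omega)))) ?_ h2
      intro hm
      have := h1 hm
      simp only [mem_product, mem_Ioc] at this
      omega

/-- the point-to-point passage time is the chain maximum -/
theorem GG_bz (e : ℕ × ℕ → ℕ) (N m : ℕ) : GG (bz e) N m = cmax e 0 N 0 m := by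
  induction N generalizing m with
  | zero =>
    rw [cmax_empty_row, GG, Xof_bz]
    rfl
  | succ N ih =>
    induction m with
    | zero =>
      rw [cmax_empty_col, GG_zero_left]
      refine Finset.sum_eq_zero (fun k _ => ?_)
      simp [bz]
    | succ m ihm =>
      rw [GG_rec, cmax_rec e 0 N 0 m (Nat.zero_le _) (Nat.zero_le _), ihm, ih (m + 1)]
      simp [bz]

theorem Xof_mono (e : ℕ × ℕ → ℕ) : Monotone (Xof e) :=
  monotone_nat_of_le_succ (fun i => by rw [Xof_succ]; exact Nat.le_add_right _ _)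

theorem GG_hz_left (e : ℕ × ℕ → ℕ) (N : ℕ) : GG (hz e) N 0 = 0 := by
  rw [GG_zero_left]
  exact Finset.sum_eq_zero (fun k _ => by simp [hz])

theorem le_GG_hz (e : ℕ × ℕ → ℕ) (N m z : ℕ) (hz' : z < m) :
    Xof e (z + 1) + cmax e 0 N z m ≤ GG (hz e) N m := by
  induction N generalizing m with
  | zero =>
    rw [cmax_empty_row, add_zero]
    have : GG (hz e) 0 m = Xof e m := by rw [GG, Xof_hz]; rfl
    rw [this]
    exact Xof_mono e hz'
  | succ N ih =>
    induction m with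
    | zero => omega
    | succ m ihm =>
      rw [GG_rec, cmax_rec e 0 N z m (Nat.zero_le _) (by omega)]
      have he : hz e (N + 1, m + 1) = e (N + 1, m + 1) := by simp [hz]
      rw [he]
      have h1 := ih (m + 1) hz'
      rcases Nat.lt_or_ge z m with h | h
      · have h2 := ihm h
        omega
      · have : z = m := by omega
        subst this
        rw [cmax_empty_col]
        omega

/-- exit decomposition -/
theorem GG_hz_le (e : ℕ × ℕ → ℕ) (N m : ℕ) (hm : 1 ≤ m) :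
    ∃ z < m, GG (hz e) N m = Xof e (z + 1) + cmax e 0 N z m := by
  induction N generalizing m with
  | zero =>
    refine ⟨m - 1, by omega, ?_⟩
    rw [cmax_empty_row, add_zero, Nat.sub_add_cancel hm, GG, Xof_hz]
    rfl
  | succ N ih =>
    have he : ∀ m, hz e (N + 1, m + 1) = e (N + 1, m + 1) := fun m => by simp [hz]
    -- from the row below
    have key : ∀ m, GG (hz e) (N + 1) m ≤ GG (hz e) N (m + 1) →
        ∃ z < m + 1, GG (hz e) (N + 1) (m + 1) = Xof e (z + 1) + cmax e 0 (N + 1) z (m + 1) := by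
      intro m h
      obtain ⟨z, hz1, hz2⟩ := ih (m + 1) (by omega)
      refine ⟨z, hz1, le_antisymm ?_ (le_GG_hz e (N + 1) (m + 1) z hz1)⟩
      rw [GG_rec, he, max_eq_right h, hz2, cmax_rec e 0 N z m (Nat.zero_le _) (by omega)]
      omega
    induction m with
    | zero => omega
    | succ m ihm =>
      rcases le_total (GG (hz e) (N + 1) m) (GG (hz e) N (m + 1)) with h | h
      · exact key m h
      · rcases Nat.eq_zero_or_pos m with h0 | h0
        · subst h0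
          refine key 0 ?_
          rw [GG_hz_left] 
          exact Nat.zero_le _
        · obtain ⟨z, hz1, hz2⟩ := ihm h0
          refine ⟨z, by omega, le_antisymm ?_ (le_GG_hz e (N + 1) (m + 1) z (by omega))⟩
          rw [GG_rec, he, max_eq_left h, hz2, cmax_rec e 0 N z m (Nat.zero_le _) (by omega)]
          omega

/-- reflection of the box with `N` rows and `m` columns -/
def rfl2 (N m : ℕ) (e : ℕ × ℕ → ℕ) : ℕ × ℕ → ℕ := fun p => e (N + 1 - p.1, m + 1 - p.2)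

theorem cmax_map {e e' : ℕ × ℕ → ℕ} {a b c d a' b' c' d' : ℕ} (φ : ℕ × ℕ → ℕ × ℕ)
    (h1 : ∀ p ∈ Ioc a b ×ˢ Ioc c d, φ p ∈ Ioc a' b' ×ˢ Ioc c' d')
    (h2 : ∀ p ∈ Ioc a b ×ˢ Ioc c d, ∀ r ∈ Ioc a b ×ˢ Ioc c d, φ p = φ r → p = r)
    (h3 : ∀ p ∈ Ioc a b ×ˢ Ioc c d, ∀ r ∈ Ioc a b ×ˢ Ioc c d, p ≤ r → φ p ≤ φ r ∨ φ r ≤ φ p)
    (h4 : ∀ p ∈ Ioc a b ×ˢ Ioc c d, e' (φ p) = e p) : cmax e a b c d ≤ cmax e' a' b' c' d' := by
  classical
  refine cmax_le (fun S hS hc => ?_)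
  have h5 : ∑ p ∈ S, e p = ∑ p ∈ S.image φ, e' p := by
    rw [Finset.sum_image (fun p hp r hr h => h2 p (hS hp) r (hS hr) h)]
    exact Finset.sum_congr rfl (fun p hp => (h4 p (hS hp)).symm)
  rw [h5]
  refine le_cmax e' a' b' c' d' ?_ ?_
  · intro p hp
    obtain ⟨r, hr, rfl⟩ := mem_image.1 hp
    exact h1 r (hS hr)
  · intro x hx y hy hxy
    rw [mem_coe, mem_image] at hx hy
    obtain ⟨p, hp, rfl⟩ := hx
    obtain ⟨r, hr, rfl⟩ := hy
    have hpr : p ≠ r := fun h => hxy (by rw [h])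
    rcases hc (mem_coe.2 hp) (mem_coe.2 hr) hpr with h | h
    · exact h3 p (hS hp) r (hS hr) h
    · exact (h3 r (hS hr) p (hS hp) h).symm

theorem cmax_rfl2 (e : ℕ × ℕ → ℕ) (N m N' m' : ℕ) (hN : N' ≤ N) (hm : m' ≤ m) :
    cmax (rfl2 N m e) 0 N' 0 m' = cmax e (N - N') N (m - m') m := by
  refine le_antisymm (cmax_map (fun p => (N + 1 - p.1, m + 1 - p.2)) ?_ ?_ ?_ ?_)
    (cmax_map (fun p => (N + 1 - p.1, m + 1 - p.2)) ?_ ?_ ?_ ?_)
  · rintro ⟨i, j⟩ hp
    simp only [mem_product, mem_Ioc] at hp ⊢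
    omega
  · rintro ⟨i, j⟩ hp ⟨i', j'⟩ hp' h
    simp only [mem_product, mem_Ioc, Prod.mk.injEq] at hp hp' h ⊢
    omega
  · rintro ⟨i, j⟩ hp ⟨i', j'⟩ hp' h
    simp only [mem_product, mem_Ioc, Prod.mk_le_mk] at hp hp' h ⊢
    omega
  · rintro ⟨i, j⟩ hp
    rfl
  · rintro ⟨i, j⟩ hp
    simp only [mem_product, mem_Ioc] at hp ⊢
    omega
  · rintro ⟨i, j⟩ hp ⟨i', j'⟩ hp' h
    simp only [mem_product, mem_Ioc, Prod.mk.injEq] at hp hp' h ⊢
    omega
  · rintro ⟨i, j⟩ hp ⟨i', j'⟩ hp' h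
    simp only [mem_product, mem_Ioc, Prod.mk_le_mk] at hp hp' h ⊢
    omega
  · rintro ⟨i, j⟩ hp
    simp only [mem_product, mem_Ioc] at hp
    simp only [rfl2]
    congr 2 <;> omega

theorem cmax_swap (e : ℕ × ℕ → ℕ) (a b c d : ℕ) : cmax (fun p => e p.swap) c d a b = cmax e a b c d := by
  refine le_antisymm (cmax_map Prod.swap ?_ ?_ ?_ ?_) (cmax_map Prod.swap ?_ ?_ ?_ ?_)
  · rintro ⟨i, j⟩ hp
    simp only [mem_product, mem_Ioc, Prod.swap_prod_mk] at hp ⊢
    omega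
  · rintro ⟨i, j⟩ hp ⟨i', j'⟩ hp' h
    simp only [Prod.swap_prod_mk, Prod.mk.injEq] at h ⊢
    omega
  · rintro ⟨i, j⟩ hp ⟨i', j'⟩ hp' h
    simp only [Prod.mk_le_mk, Prod.swap_prod_mk] at h ⊢
    omega
  · rintro ⟨i, j⟩ hp
    rfl
  · rintro ⟨i, j⟩ hp
    simp only [mem_product, mem_Ioc, Prod.swap_prod_mk] at hp ⊢
    omega
  · rintro ⟨i, j⟩ hp ⟨i', j'⟩ hp' h
    simp only [Prod.swap_prod_mk, Prod.mk.injEq] at h ⊢
    omega
  · rintro ⟨i, j⟩ hp ⟨i', j'⟩ hp' h
    simp only [Prod.mk_le_mk, Prod.swap_prod_mk] at h ⊢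
    omega
  · rintro ⟨i, j⟩ hp
    rfl

theorem cmax_shift (e : ℕ × ℕ → ℕ) (k l a b c d : ℕ) :
    cmax (fun p => e (k + p.1, l + p.2)) a b c d = cmax e (k + a) (k + b) (l + c) (l + d) := by
  refine le_antisymm (cmax_map (fun p => (k + p.1, l + p.2)) ?_ ?_ ?_ ?_)
    (cmax_map (fun p => (p.1 - k, p.2 - l)) ?_ ?_ ?_ ?_)
  · rintro ⟨i, j⟩ hp
    simp only [mem_product, mem_Ioc] at hp ⊢
    omega
  · rintro ⟨i, j⟩ hp ⟨i', j'⟩ hp' h
    simp only [Prod.mk.injEq] at h ⊢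
    omega
  · rintro ⟨i, j⟩ hp ⟨i', j'⟩ hp' h
    simp only [Prod.mk_le_mk] at h ⊢
    omega
  · rintro ⟨i, j⟩ hp
    rfl
  · rintro ⟨i, j⟩ hp
    simp only [mem_product, mem_Ioc] at hp ⊢
    omega
  · rintro ⟨i, j⟩ hp ⟨i', j'⟩ hp' h
    simp only [mem_product, mem_Ioc, Prod.mk.injEq] at hp hp' h ⊢
    omega
  · rintro ⟨i, j⟩ hp ⟨i', j'⟩ hp' h
    simp only [mem_product, mem_Ioc, Prod.mk_le_mk] at hp hp' h ⊢
    omega
  · rintro ⟨i, j⟩ hp
    simp only [mem_product, mem_Ioc] at hp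
    simp only
    congr 2 <;> omega

/-- superadditivity; the two boxes may share a column -/
theorem cmax_add (e : ℕ × ℕ → ℕ) {a b b' c d d1 d' : ℕ} (hab : a ≤ b) (hbb : b ≤ b') (hc : c ≤ d1)
    (hd : d ≤ d1 + 1) (hd' : d ≤ d') :
    cmax e a b c d + cmax e b b' d1 d' ≤ cmax e a b' c d' := by
  classical
  obtain ⟨S, hS1, hS2, hS3⟩ := exists_cmax e a b c d
  obtain ⟨R, hR1, hR2, hR3⟩ := exists_cmax e b b' d1 d'
  rw [← hS3, ← hR3]
  have hdis : Disjoint S R := by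
    rw [Finset.disjoint_left]
    intro p hp hp'
    have h1 := hS1 hp
    have h2 := hR1 hp'
    simp only [mem_product, mem_Ioc] at h1 h2
    omega
  rw [← Finset.sum_union hdis]
  refine le_cmax e a b' c d' ?_ ?_
  · intro p hp
    rcases mem_union.1 hp with h | h
    · have h1 := hS1 h
      simp only [mem_product, mem_Ioc] at h1 ⊢
      omega
    · have h1 := hR1 h
      simp only [mem_product, mem_Ioc] at h1 ⊢
      omega
  · have cross : ∀ p ∈ S, ∀ r ∈ R, p ≤ r := by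
      intro p hp r hr
      have h1 := hS1 hp
      have h2 := hR1 hr
      simp only [mem_product, mem_Ioc] at h1 h2
      exact ⟨by omega, by omega⟩
    intro p hp r hr hne
    rw [mem_coe, mem_union] at hp hr
    rcases hp with hp | hp <;> rcases hr with hr | hr
    · exact hS2 (mem_coe.2 hp) (mem_coe.2 hr) hne
    · exact Or.inl (cross p hp r hr)
    · exact Or.inr (cross r hr p hp)
    · exact hR2 (mem_coe.2 hp) (mem_coe.2 hr) hne

/-- environment on `ℕ × ℕ` of a box of weights -/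
def WA {n : ℕ} (x : Fin n × Fin n → ℕ) : ℕ × ℕ → ℕ := fun p =>
  if h : (1 ≤ p.1 ∧ p.1 ≤ n) ∧ (1 ≤ p.2 ∧ p.2 ≤ n) then
    x (⟨p.1 - 1, by omega⟩, ⟨p.2 - 1, by omega⟩) else 0

theorem WA_succ {n : ℕ} (x : Fin n × Fin n → ℕ) (v : Fin n × Fin n) :
    WA x (v.1.1 + 1, v.2.1 + 1) = x v := by
  obtain ⟨⟨i, hi⟩, ⟨j, hj⟩⟩ := v
  have : (1 ≤ i + 1 ∧ i + 1 ≤ n) ∧ (1 ≤ j + 1 ∧ j + 1 ≤ n) := by omega
  simp only [WA]
  rw [dif_pos this]
  rfl

/-- chains in `Fin n × Fin n` versus chains in the box -/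
theorem chain_le_cmax {n : ℕ} (x : Fin n × Fin n → ℕ) {a b c d : ℕ} {S : Finset (Fin n × Fin n)}
    (hc : IsChain (· ≤ ·) (S : Set (Fin n × Fin n)))
    (hS : ∀ v ∈ S, (a ≤ v.1.1 ∧ v.1.1 < b) ∧ (c ≤ v.2.1 ∧ v.2.1 < d)) :
    ∑ v ∈ S, x v ≤ cmax (WA x) a b c d := by
  classical
  have hinj : Function.Injective (fun v : Fin n × Fin n => (v.1.1 + 1, v.2.1 + 1)) := by
    rintro ⟨i, j⟩ ⟨i', j'⟩ h
    simp only [Prod.mk.injEq, Nat.add_right_cancel_iff] at h
    exact Prod.ext (Fin.ext h.1) (Fin.ext h.2)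
  have h5 : ∑ v ∈ S, x v = ∑ p ∈ S.image (fun v : Fin n × Fin n => (v.1.1 + 1, v.2.1 + 1)), WA x p := by
    rw [Finset.sum_image (fun p _ r _ h => hinj h)]
    exact Finset.sum_congr rfl (fun p _ => (WA_succ x p).symm)
  rw [h5]
  refine le_cmax _ a b c d ?_ ?_
  · intro p hp
    obtain ⟨v, hv, rfl⟩ := mem_image.1 hp
    have := hS v hv
    simp only [mem_product, mem_Ioc]
    omega
  · intro p hp r hr hne
    rw [mem_coe, mem_image] at hp hr
    obtain ⟨v, hv, rfl⟩ := hp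
    obtain ⟨w, hw, rfl⟩ := hr
    have hvw : v ≠ w := fun h => hne (by rw [h])
    rcases hc (mem_coe.2 hv) (mem_coe.2 hw) hvw with h | h
    · left
      exact ⟨Nat.add_le_add_right h.1 1, Nat.add_le_add_right h.2 1⟩
    · right
      exact ⟨Nat.add_le_add_right h.1 1, Nat.add_le_add_right h.2 1⟩

theorem cmax_le_Tch {n : ℕ} (x : Fin n × Fin n → ℕ) (a b c d : ℕ) (hb : b ≤ n) (hd : d ≤ n) :
    cmax (WA x) a b c d ≤ Tch x := by
  classical
  refine cmax_le (fun S hS hc => ?_)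
  set f : ℕ × ℕ → Option (Fin n × Fin n) := fun p =>
    if h : (1 ≤ p.1 ∧ p.1 ≤ n) ∧ (1 ≤ p.2 ∧ p.2 ≤ n) then
      some (⟨p.1 - 1, by omega⟩, ⟨p.2 - 1, by omega⟩) else none with hf
  set R : Finset (Fin n × Fin n) := univ.filter (fun v => (v.1.1 + 1, v.2.1 + 1) ∈ S) with hR
  have hinj : Function.Injective (fun v : Fin n × Fin n => (v.1.1 + 1, v.2.1 + 1)) := by
    rintro ⟨i, j⟩ ⟨i', j'⟩ h
    simp only [Prod.mk.injEq, Nat.add_right_cancel_iff] at h
    exact Prod.ext (Fin.ext h.1) (Fin.ext h.2)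
  have himg : R.image (fun v : Fin n × Fin n => (v.1.1 + 1, v.2.1 + 1)) = S := by
    ext p
    rw [mem_image]
    constructor
    · rintro ⟨v, hv, rfl⟩
      exact (mem_filter.1 hv).2
    · intro hp
      have h1 := hS hp
      simp only [mem_product, mem_Ioc] at h1
      refine ⟨(⟨p.1 - 1, by omega⟩, ⟨p.2 - 1, by omega⟩), mem_filter.2 ⟨mem_univ _, ?_⟩, ?_⟩
      · have : ((p.1 - 1) + 1, (p.2 - 1) + 1) = p := Prod.ext (by simp only; omega) (by simp only; omega)
        simp only [this]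
        exact hp
      · exact Prod.ext (by simp only; omega) (by simp only; omega)
  have hsum : ∑ p ∈ S, WA x p = ∑ v ∈ R, x v := by
    rw [← himg, Finset.sum_image (fun p _ r _ h => hinj h)]
    exact Finset.sum_congr rfl (fun p _ => WA_succ x p)
  rw [hsum]
  unfold Tch
  refine Finset.le_sup (f := fun S : Finset (Fin n × Fin n) => ∑ v ∈ S, x v)
    (mem_filter.2 ⟨mem_univ _, ?_⟩)
  intro v hv w hw hvw
  rw [mem_coe, hR, mem_filter] at hv hw
  have hne : (v.1.1 + 1, v.2.1 + 1) ≠ (w.1.1 + 1, w.2.1 + 1) := fun h => hvw (hinj h)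
  rcases hc (mem_coe.2 hv.2) (mem_coe.2 hw.2) hne with h | h
  · left
    exact ⟨Nat.le_of_add_le_add_right h.1, Nat.le_of_add_le_add_right h.2⟩
  · right
    exact ⟨Nat.le_of_add_le_add_right h.1, Nat.le_of_add_le_add_right h.2⟩

theorem Tch_eq_cmax {n : ℕ} (x : Fin n × Fin n → ℕ) : Tch x = cmax (WA x) 0 n 0 n := by
  classical
  refine le_antisymm ?_ (cmax_le_Tch x 0 n 0 n le_rfl le_rfl)
  unfold Tch
  refine Finset.sup_le (fun S hS => ?_)
  rw [mem_filter] at hS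
  exact chain_le_cmax x hS.2 (fun v _ => ⟨⟨Nat.zero_le _, v.1.2⟩, ⟨Nat.zero_le _, v.2.2⟩⟩)

theorem Tch_eq {n : ℕ} (x : Fin n × Fin n → ℕ) : Tch x = GG (bz (WA x)) n n := by
  rw [GG_bz, Tch_eq_cmax]

theorem envLaw_WA (n : ℕ) (q : ℝ) :
    EnvLaw (Measure.pi (fun _ : Fin n × Fin n => geo q)) (bb n n) (fun _ => q) (fun x => WA x) := by
  intro x
  have h1 : {ω : Fin n × Fin n → ℕ | ∀ p ∈ bb n n, WA ω p = x p} =
      {fun v : Fin n × Fin n => x (v.1.1 + 1, v.2.1 + 1)} := by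
    ext ω
    simp only [Set.mem_ofPred_eq, Set.mem_singleton_iff]
    constructor
    · intro h
      funext v
      rw [← WA_succ ω v]
      exact h _ (mem_bb.2 (by have := v.1.2; have := v.2.2; simp only; omega))
    · rintro rfl p hp
      have h2 := mem_bb.1 hp
      have h3 : WA (fun v : Fin n × Fin n => x (v.1.1 + 1, v.2.1 + 1)) p = x (p.1 - 1 + 1, p.2 - 1 + 1) := by
        simp only [WA]
        rw [dif_pos h2]
      rw [h3]
      congr 1
      exact Prod.ext (by simp only; omega) (by simp only; omega)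
  rw [h1, Measure.pi_singleton]
  refine Finset.prod_nbij (fun v : Fin n × Fin n => (v.1.1 + 1, v.2.1 + 1)) ?_ ?_ ?_ ?_
  · intro v _
    exact mem_bb.2 (by have := v.1.2; have := v.2.2; simp only; omega)
  · rintro ⟨i, j⟩ _ ⟨i', j'⟩ _ h
    simp only [Prod.mk.injEq, Nat.add_right_cancel_iff] at h
    exact Prod.ext (Fin.ext h.1) (Fin.ext h.2)
  · intro p hp
    have h2 := mem_bb.1 (mem_coe.1 hp)
    refine ⟨(⟨p.1 - 1, by omega⟩, ⟨p.2 - 1, by omega⟩), mem_coe.2 (mem_univ _), ?_⟩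
    exact Prod.ext (by simp only; omega) (by simp only; omega)
  · intro v _
    rfl

/-- probability that the passage time of the box with `N` rows and `m` columns is at least `t` -/
noncomputable def LT (q : ℝ) (m N : ℕ) (t : ℝ) : ℝ≥0∞ :=
  (Measure.pi (fun _ : ↥(bb m N) => geo q)) {x | t ≤ (GG (bz (ext (bb m N) x)) N m : ℝ)}

/-- the reflected environment -/
def WB {n : ℕ} (x : Fin n × Fin n → ℕ) : ℕ × ℕ → ℕ := rfl2 n n (WA x)

/-- column `c0` is a `y`-near maximiser of the crossing functional between the rows `< r0` and the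
rows `≥ r0` -/
def crossE {n : ℕ} (y c0 r0 : ℕ) (x : Fin n × Fin n → ℕ) : Prop :=
  ∀ c < n, GG (bz (WA x)) r0 (c + 1) + GG (bz (WB x)) (n - r0) (n - c) ≤
    GG (bz (WA x)) r0 (c0 + 1) + GG (bz (WB x)) (n - r0) (n - c0) + y

/-- crossing estimate near the diagonal (helper96 proves it) -/
def NearCross (q : ℝ) : Prop :=
  ∃ C c c2 h0 : ℝ, 0 < C ∧ 0 < c ∧ 0 < c2 ∧ 0 < h0 ∧ ∀ h : ℝ, 0 < h → h ≤ h0 →
    ∀ n N r0 c0 y : ℕ, c0 < n → N ≤ r0 → N ≤ n - r0 → |(c0 : ℝ) - r0| + 2 ≤ c2 * h * N →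
      (Measure.pi (fun _ : Fin n × Fin n => geo q)) {x | crossE y c0 r0 x} ≤
        ENNReal.ofReal (C * ((y : ℝ) + 1) ^ 2 * h ^ 2 + C * Real.exp (-(c * h ^ 3 * N)))

/-- crossing estimate far to the left of the diagonal (helper96 proves it) -/
def FarCross (q : ℝ) : Prop :=
  ∃ c C2 h0 : ℝ, 0 < c ∧ 0 < C2 ∧ 0 < h0 ∧ ∀ h : ℝ, 0 < h → h ≤ h0 →
    ∀ n N K r0 c0 y : ℕ, c0 < n → N ≤ r0 → N ≤ n - r0 → (c0 : ℝ) + 1 + K ≤ r0 * (1 - C2 * h) →
      (Measure.pi (fun _ : Fin n × Fin n => geo q)) {x | crossE y c0 r0 x} ≤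
        ENNReal.ofReal (Real.exp (h * y - c * h ^ 2 * K) + 2 * Real.exp (-(c * h ^ 3 * N)))

/-- the key lower tail estimate for the variance lower bound (`q = s ^ 2`) -/
def KeyZ (s : ℝ) : Prop :=
  ∀ ε : ℝ, 0 < ε → ∃ n0 : ℕ, ∀ n : ℕ, n0 ≤ n → ∃ z : ℕ, z < n ∧ (z : ℝ) ≤ (n : ℝ) ^ (2 / 3 + ε : ℝ) ∧
    ENNReal.ofReal ((n : ℝ) ^ (-ε)) ≤
      LT (s ^ 2) (n - z) n (2 * s / (1 - s) * ((n : ℝ) - z / 2) + (n : ℝ) ^ (1 / 3 : ℝ))

section law
variable {κ : Type} [DecidableEq κ]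
variable {Ω : Type} [MeasurableSpace Ω] [DiscreteMeasurableSpace Ω]

/-- Renaming of sites, injective on the relevant set. -/
theorem EnvLaw.renameOn {κ' : Type} [DecidableEq κ'] {P : Measure Ω} {S' : Finset κ'} {θ : κ → ℝ}
    {E : Ω → κ → ℕ} {ren : κ' → κ} (hren : Set.InjOn ren (S' : Set κ'))
    (h : EnvLaw P (S'.image ren) θ E) :
    EnvLaw P S' (fun p => θ (ren p)) (fun ω p => E ω (ren p)) := by
  classical
  intro x
  -- a function with values `x` along `ren` on `S'`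
  set y : κ → ℕ := fun k => if h : ∃ p ∈ S', ren p = k then x h.choose else 0 with hy
  have hyx : ∀ p ∈ S', y (ren p) = x p := by
    intro p hp
    have hex : ∃ r ∈ S', ren r = ren p := ⟨p, hp, rfl⟩
    simp only [hy]
    rw [dif_pos hex]
    congr 1
    exact hren (mem_coe.2 hex.choose_spec.1) (mem_coe.2 hp) hex.choose_spec.2
  have h1 := h y
  have h2 : {ω | ∀ p ∈ S'.image ren, E ω p = y p} = {ω | ∀ p ∈ S', E ω (ren p) = x p} := by
    ext ω
    simp only [Set.mem_ofPred_eq, mem_image, forall_exists_index, and_imp,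
      forall_apply_eq_imp_iff₂]
    exact forall₂_congr (fun p hp => by rw [hyx p hp])
  rw [h2] at h1
  rw [h1, Finset.prod_image (fun a ha b hb hab => hren (mem_coe.2 ha) (mem_coe.2 hb) hab)]
  exact Finset.prod_congr rfl (fun p hp => by rw [hyx p hp])

/-- Fubini for functions of disjoint sets of sites. -/
theorem EnvLaw.indep2 {P : Measure Ω} {S : Finset κ} {θ : κ → ℝ} {E : Ω → κ → ℕ}
    (h : EnvLaw P S θ E) (hθ : ∀ p ∈ S, 0 ≤ θ p ∧ θ p < 1) {S1 S2 : Finset κ} (h1 : S1 ⊆ S)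
    (h2 : S2 ⊆ S) (hd : Disjoint S1 S2) (F : (κ → ℕ) → (κ → ℕ) → ℝ≥0∞)
    (hF1 : ∀ e', Dep S1 (fun e => F e e')) (hF2 : ∀ e, Dep S2 (F e)) :
    ∫⁻ ω, F (E ω) (E ω) ∂P = ∫⁻ ω, ∫⁻ ω', F (E ω) (E ω') ∂P ∂P := by
  have hl1 := h.subset h1 hθ
  have hl2 := h.subset h2 hθ
  have hl12 := h.subset (union_subset h1 h2) hθ
  have hjoint : P.map (fun ω => (rst S1 (E ω), rst S2 (E ω))) =
      (P.map (fun ω => rst S1 (E ω))).prod (P.map (fun ω => rst S2 (E ω))) := by
    rw [hl1.map_eq, hl2.map_eq]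
    refine Measure.ext_of_singleton fun x => ?_
    rw [Measure.map_apply (Measurable.of_discrete) (measurableSet_singleton _)]
    obtain ⟨x, y⟩ := x
    have hs : ({(x, y)} : Set ((↥S1 → ℕ) × (↥S2 → ℕ))) = {x} ×ˢ {y} := by simp
    rw [hs, Measure.prod_prod, Measure.pi_singleton, Measure.pi_singleton]
    have h3 : (fun ω => (rst S1 (E ω), rst S2 (E ω))) ⁻¹' ({x} ×ˢ {y}) =
        {ω | ∀ p ∈ S1 ∪ S2, E ω p = (if p ∈ S1 then ext S1 x p else ext S2 y p)} := by
      ext ω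
      simp only [Set.mem_preimage, Set.mem_prod, Set.mem_singleton_iff, Set.mem_ofPred_eq, mem_union]
      constructor
      · rintro ⟨hx, hy⟩ p hp
        by_cases hp1 : p ∈ S1
        · rw [if_pos hp1, ← hx, ext_rst_apply S1 (E ω) hp1]
        · rw [if_neg hp1, ← hy, ext_rst_apply S2 (E ω) (hp.resolve_left hp1)]
      · intro hx
        constructor
        · funext p
          have := hx p.1 (Or.inl p.2)
          rw [if_pos p.2] at this
          simp only [ext, p.2, dite_true] at this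
          exact this
        · funext p
          have hp1 : p.1 ∉ S1 := fun hp => (Finset.disjoint_left.1 hd) hp p.2
          have := hx p.1 (Or.inr p.2)
          rw [if_neg hp1] at this
          simp only [ext, p.2, dite_true] at this
          exact this
    rw [h3, hl12, Finset.prod_union hd]
    congr 1
    · rw [← Finset.prod_coe_sort]
      refine Finset.prod_congr rfl (fun p _ => ?_)
      simp [ext]
    · rw [← Finset.prod_coe_sort]
      refine Finset.prod_congr rfl (fun p _ => ?_)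
      have hp1 : p.1 ∉ S1 := fun hp => (Finset.disjoint_left.1 hd) hp p.2
      simp [ext, hp1]
  have e12 : ∀ ω ω', F (E ω) (E ω') = F (ext S1 (rst S1 (E ω))) (ext S2 (rst S2 (E ω'))) := by
    intro ω ω'
    rw [(hF2 _).ext_rst (E ω')]
    exact ((hF1 (E ω')).ext_rst (E ω)).symm
  have hA : ∫⁻ ω, F (E ω) (E ω) ∂P =
      ∫⁻ z, F (ext S1 z.1) (ext S2 z.2) ∂(P.map (fun ω => (rst S1 (E ω), rst S2 (E ω)))) := by
    rw [lintegral_map (Measurable.of_discrete) (Measurable.of_discrete)]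
    exact MeasureTheory.lintegral_congr (fun ω => e12 ω ω)
  have : SigmaFinite (P.map (fun ω => rst S1 (E ω))) := by rw [hl1.map_eq]; infer_instance
  have : SigmaFinite (P.map (fun ω => rst S2 (E ω))) := by rw [hl2.map_eq]; infer_instance
  rw [hA, hjoint, lintegral_prod _ (Measurable.of_discrete.aemeasurable),
    lintegral_map (Measurable.of_discrete) (Measurable.of_discrete)]
  refine MeasureTheory.lintegral_congr (fun ω => ?_)
  rw [lintegral_map (Measurable.of_discrete) (Measurable.of_discrete)]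
  exact MeasureTheory.lintegral_congr (fun ω' => (e12 ω ω').symm)

end law

end Pool.Agent.MP2c

end

section

/-! Persistence and far walk bounds in GE form. (helper80 for helper96, MP_2c6138_pr) -/

set_option autoImplicit false
set_option linter.unusedSectionVars false
set_option linter.unusedVariables false

namespace Pool.Agent.MP2c

open MeasureTheory Finset
open scoped ENNReal

namespace PG

/-- relabelling of `K` independent geometric variables -/
theorem envLaw_fin (K : ℕ) (r : Fin K → ℕ) (hr : Function.Injective r) (a : ℝ)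
    (E : (Fin K → ℕ) → ℕ → ℕ) (hE : ∀ X j, E X (r j) = X j) :
    EnvLaw (Measure.pi (fun _ : Fin K => geo a)) (univ.image r) (fun _ => a) E := by
  intro x
  have h : {X : Fin K → ℕ | ∀ p ∈ univ.image r, E X p = x p} = {fun j => x (r j)} := by
    ext X
    simp only [mem_image, mem_univ, true_and, forall_exists_index, forall_apply_eq_imp_iff,
      Set.mem_ofPred_eq, Set.mem_singleton_iff, hE]
    exact ⟨fun h => funext h, fun h j => by rw [h]⟩
  rw [h, Measure.pi_singleton, prod_image (fun a _ b _ hab => hr hab)]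

/-- window to the right -/
def ER (w K : ℕ) (X : Fin K → ℕ) : ℕ → ℕ := fun i =>
  if h : i - w - 1 < K then X ⟨i - w - 1, h⟩ else 0

/-- window to the left -/
def EL (w' K : ℕ) (X : Fin K → ℕ) : ℕ → ℕ := fun i =>
  if h : w' - i < K then X ⟨w' - i, h⟩ else 0

theorem ER_apply (w K : ℕ) (X : Fin K → ℕ) (j : Fin K) : ER w K X (w + j + 1) = X j := by
  have h : w + (j : ℕ) + 1 - w - 1 = j := by omega
  simp only [ER, h, j.2, dite_true]

theorem EL_apply (w' K : ℕ) (hK : K ≤ w') (X : Fin K → ℕ) (j : Fin K) : EL w' K X (w' - j) = X j := by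
  have h : w' - (w' - (j : ℕ)) = j := by omega
  simp only [EL, h, j.2, dite_true]

theorem law_ER (w K : ℕ) (a : ℝ) :
    EnvLaw (Measure.pi (fun _ : Fin K => geo a)) (Ioc w (w + K)) (fun _ => a) (ER w K) := by
  have h := envLaw_fin K (fun j => w + j + 1) (fun a b hab => by
    simp only at hab; ext; omega) a (ER w K) (ER_apply w K)
  have h2 : univ.image (fun j : Fin K => w + (j : ℕ) + 1) = Ioc w (w + K) := by
    ext i
    simp only [mem_image, mem_univ, true_and, mem_Ioc]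
    constructor
    · rintro ⟨j, rfl⟩
      have := j.2
      omega
    · intro hi
      exact ⟨⟨i - w - 1, by omega⟩, by simp only; omega⟩
  rwa [h2] at h

theorem law_EL (w' K : ℕ) (hK : K ≤ w') (a : ℝ) :
    EnvLaw (Measure.pi (fun _ : Fin K => geo a)) (Ioc (w' - K) w') (fun _ => a) (EL w' K) := by
  have h := envLaw_fin K (fun j => w' - j) (fun a b hab => by
    simp only at hab
    have := a.2
    have := b.2
    ext; omega) a (EL w' K) (EL_apply w' K hK)
  have h2 : univ.image (fun j : Fin K => w' - (j : ℕ)) = Ioc (w' - K) w' := by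
    ext i
    simp only [mem_image, mem_univ, true_and, mem_Ioc]
    constructor
    · rintro ⟨j, rfl⟩
      have := j.2
      omega
    · intro hi
      exact ⟨⟨w' - i, by omega⟩, by simp only; omega⟩
  rwa [h2] at h

theorem sum_range_fin {K k : ℕ} (hk : k ≤ K) (f : ℕ → ℕ) (X : Fin K → ℕ) (hf : ∀ j : Fin K, f j = X j) :
    ∑ l ∈ range k, f l = ∑ i ∈ univ.filter (fun i : Fin K => i.1 < k), X i := by
  symm
  refine Finset.sum_bij (fun i _ => i.1) ?_ ?_ ?_ ?_
  · intro i hi; rw [mem_filter] at hi; rw [mem_range]; exact hi.2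
  · intro i _ j _ hij; exact Fin.ext hij
  · intro l hl
    rw [mem_range] at hl
    exact ⟨⟨l, by omega⟩, by rw [mem_filter]; exact ⟨mem_univ _, hl⟩, rfl⟩
  · intro i _; exact (hf i).symm

theorem GE_eq_ER (w K : ℕ) (a : ℝ) (φ : (ℕ → ℕ) → ℝ≥0∞) (hφ : Dep (Ioc w (w + K)) φ) :
    GE (Ioc w (w + K)) a φ = ∫⁻ X, φ (ER w K X) ∂(Measure.pi (fun _ : Fin K => geo a)) :=
  (lint_eq_GE (law_ER w K a) φ hφ).symm

theorem GE_eq_EL (w' K : ℕ) (hK : K ≤ w') (a : ℝ) (φ : (ℕ → ℕ) → ℝ≥0∞)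
    (hφ : Dep (Ioc (w' - K) w') φ) :
    GE (Ioc (w' - K) w') a φ = ∫⁻ X, φ (EL w' K X) ∂(Measure.pi (fun _ : Fin K => geo a)) :=
  (lint_eq_GE (law_EL w' K hK a) φ hφ).symm

theorem sumR_congr {w K k : ℕ} (hk : k ≤ K) {u v : ℕ → ℕ} (h : ∀ i ∈ Ioc w (w + K), u i = v i) :
    ∑ l ∈ range k, u (w + l + 1) = ∑ l ∈ range k, v (w + l + 1) := by
  refine sum_congr rfl (fun l hl => h _ ?_)
  rw [mem_range] at hl
  rw [mem_Ioc]; omega

theorem sumL_congr {w' K k : ℕ} (hK : K ≤ w') (hk : k ≤ K) {u v : ℕ → ℕ}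
    (h : ∀ i ∈ Ioc (w' - K) w', u i = v i) :
    ∑ l ∈ range k, u (w' - l) = ∑ l ∈ range k, v (w' - l) := by
  refine sum_congr rfl (fun l hl => h _ ?_)
  rw [mem_range] at hl
  rw [mem_Ioc]; omega

open Classical in
theorem persist_eq1 (α β : ℝ) (w w' K y : ℕ) (hK : K ≤ w') :
    GE (Ioc w (w + K)) α (fun u => GE (Ioc (w' - K) w') β (fun u' =>
      if ∀ k ≤ K, ∑ l ∈ range k, u (w + l + 1) ≤ y + ∑ l ∈ range k, u' (w' - l) then 1 else 0)) =
    uu α β K y := by
  rw [GE_eq_ER, ← measure_evt]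
  · refine lintegral_congr (fun X => ?_)
    rw [GE_eq_EL w' K hK]
    · refine lintegral_congr (fun Y => ?_)
      refine if_congr ?_ rfl rfl
      simp only [evt, Set.mem_ofPred_eq]
      refine forall_congr' (fun k => forall_congr' (fun hk => ?_))
      rw [sum_range_fin hk (fun l => ER w K X (w + l + 1)) X (ER_apply w K X),
        sum_range_fin hk (fun l => EL w' K Y (w' - l)) Y (EL_apply w' K hK Y)]
    · intro u v huv
      simp only
      refine if_congr ?_ rfl rfl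
      refine forall_congr' (fun k => forall_congr' (fun hk => ?_))
      rw [sumL_congr hK hk huv]
  · intro u v huv
    simp only [GE]
    refine lintegral_congr (fun Y => ?_)
    refine if_congr ?_ rfl rfl
    refine forall_congr' (fun k => forall_congr' (fun hk => ?_))
    rw [sumR_congr hk huv]

open Classical in
theorem persist_eq2 (α β : ℝ) (w w' K y : ℕ) (hK : K ≤ w') :
    GE (Ioc (w' - K) w') β (fun u' => GE (Ioc w (w + K)) α (fun u =>
      if ∀ k ≤ K, ∑ l ∈ range k, u (w + l + 1) ≤ y + ∑ l ∈ range k, u' (w' - l) then 1 else 0)) =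
    uu α β K y := by
  rw [← persist_eq1 α β w w' K y hK]
  simp only [GE]
  rw [lintegral_lintegral_swap (Measurable.aemeasurable Measurable.of_discrete)]

theorem uu_le (α β : ℝ) (hα : 0 < α) (hαβ : α ≤ β) (hβ : β < 1) (K y : ℕ) :
    uu α β K y ≤
  ENNReal.ofReal (1 - (α / β) ^ (y + 1) * ((1 - β) / (1 - α)) +
    (β / α) ^ ((y : ℝ) / 2) * ((1 - α) * (1 - β) / (1 - Real.sqrt (α * β)) ^ 2) ^ K) := by
  rw [← persist_measure]
  exact persistence α β hα hαβ hβ K y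

end PG

open Classical in
theorem persist_GE (α β : ℝ) (hα : 0 < α) (hαβ : α ≤ β) (hβ : β < 1) (w w' K y : ℕ) (hK : K ≤ w') :
  GE (Ioc w (w + K)) α (fun u => GE (Ioc (w' - K) w') β (fun u' =>
    if ∀ k ≤ K, ∑ l ∈ range k, u (w + l + 1) ≤ y + ∑ l ∈ range k, u' (w' - l) then 1 else 0)) ≤
  ENNReal.ofReal (1 - (α / β) ^ (y + 1) * ((1 - β) / (1 - α)) + (β / α) ^ ((y : ℝ) / 2) * ((1 - α) * (1 - β) / (1 - Real.sqrt (α * β)) ^ 2) ^ K) := by
  rw [PG.persist_eq1 α β w w' K y hK]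
  exact PG.uu_le α β hα hαβ hβ K y

open Classical in
theorem persist_GE_swap (α β : ℝ) (hα : 0 < α) (hαβ : α ≤ β) (hβ : β < 1) (w w' K y : ℕ) (hK : K ≤ w') :
  GE (Ioc (w' - K) w') β (fun u' => GE (Ioc w (w + K)) α (fun u =>
    if ∀ k ≤ K, ∑ l ∈ range k, u (w + l + 1) ≤ y + ∑ l ∈ range k, u' (w' - l) then 1 else 0)) ≤
  ENNReal.ofReal (1 - (α / β) ^ (y + 1) * ((1 - β) / (1 - α)) + (β / α) ^ ((y : ℝ) / 2) * ((1 - α) * (1 - β) / (1 - Real.sqrt (α * β)) ^ 2) ^ K) := by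
  rw [PG.persist_eq2 α β w w' K y hK]
  exact PG.uu_le α β hα hαβ hβ K y

open Classical in
theorem persist_GE' (α β : ℝ) (hα : 0 < α) (hαβ : α ≤ β) (hβ : β < 1) (w w' K y : ℕ) (hK : K ≤ w) :
  GE (Ioc w' (w' + K)) α (fun u' => GE (Ioc (w - K) w) β (fun u =>
    if ∀ k ≤ K, ∑ l ∈ range k, u' (w' + l + 1) ≤ y + ∑ l ∈ range k, u (w - l) then 1 else 0)) ≤
  ENNReal.ofReal (1 - (α / β) ^ (y + 1) * ((1 - β) / (1 - α)) + (β / α) ^ ((y : ℝ) / 2) * ((1 - α) * (1 - β) / (1 - Real.sqrt (α * β)) ^ 2) ^ K) :=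
  persist_GE α β hα hαβ hβ w' w K y hK

open Classical in
theorem persist_GE'_swap (α β : ℝ) (hα : 0 < α) (hαβ : α ≤ β) (hβ : β < 1) (w w' K y : ℕ) (hK : K ≤ w) :
  GE (Ioc (w - K) w) β (fun u => GE (Ioc w' (w' + K)) α (fun u' =>
    if ∀ k ≤ K, ∑ l ∈ range k, u' (w' + l + 1) ≤ y + ∑ l ∈ range k, u (w - l) then 1 else 0)) ≤
  ENNReal.ofReal (1 - (α / β) ^ (y + 1) * ((1 - β) / (1 - α)) + (β / α) ^ ((y : ℝ) / 2) * ((1 - α) * (1 - β) / (1 - Real.sqrt (α * β)) ^ 2) ^ K) :=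
  persist_GE_swap α β hα hαβ hβ w' w K y hK

namespace PG

theorem sinh_diff {h : ℝ} (h0 : 0 ≤ h) (h1 : 2 * h ≤ 1) : Real.exp (2 * h) - Real.exp (-(2 * h)) ≤ 6 * h := by
  have e1 := exp_sub_one_le (h := 2 * h) (by linarith) h1
  have e2 := Real.add_one_le_exp (-(2 * h))
  linarith

theorem GE_mgf (A : Finset ℕ) (a u : ℝ) (ha0 : 0 ≤ a) (ha1 : a < 1) (hu : 0 < u) (hau : a * u < 1) :
    GE A a (fun x => ENNReal.ofReal (u ^ (∑ p ∈ A, x p))) =
      ENNReal.ofReal (((1 - a) / (1 - a * u)) ^ A.card) := by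
  have h := (envLaw_pi A (fun _ => a)).tilt (envLaw_pi A (fun _ => a * u)) (A := A)
    (Finset.Subset.refl A) u hu (fun _ _ => rfl) (fun p hp hp' => absurd hp hp')
    (fun _ _ => ⟨ha0, ha1⟩) (fun _ _ => hau) (fun _ => 1) (fun _ _ _ => rfl)
  have h2 := (envLaw_pi A (fun _ => a * u)).prob (fun _ _ => ⟨by positivity, hau⟩)
  simp only [mul_one, lintegral_one, h2, prod_const] at h
  exact h

end PG

theorem persist_num {s : ℝ} (cs : Cst s) : ∃ C c : ℝ, 0 < C ∧ 0 < c ∧ ∀ h : ℝ, 0 < h → h ≤ cs.h0 → ∀ K y : ℕ, ((y : ℝ) + 1) * h ≤ 1 →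
   1 - (s * Real.exp (-(2 * h)) / (s * Real.exp (2 * h))) ^ (y + 1) * ((1 - s * Real.exp (2 * h)) / (1 - s * Real.exp (-(2 * h)))) + (s * Real.exp (2 * h) / (s * Real.exp (-(2 * h)))) ^ ((y : ℝ) / 2) * ((1 - s * Real.exp (-(2 * h))) * (1 - s * Real.exp (2 * h)) / (1 - Real.sqrt (s * Real.exp (-(2 * h)) * (s * Real.exp (2 * h)))) ^ 2) ^ K ≤ C * ((y : ℝ) + 1) * h + C * Real.exp (-(c * h ^ 2 * K)) := by
  have hs0 := cs.hs0
  have hs1 := cs.hs1
  have hs1' : 0 < 1 - s := by linarith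
  refine ⟨4 + 6 * s / (1 - s) + Real.exp 2, 4 * s / (1 - s) ^ 2, by positivity, by positivity, ?_⟩
  intro h hh0 hh1 K y hy
  have hc := cs.hh1
  have hh5 : 5 * h ≤ 1 := by linarith
  set α := s * Real.exp (-(2 * h)) with hα
  set β := s * Real.exp (2 * h) with hβ
  obtain ⟨hβ0, hβ1⟩ := exp4_lt_one cs hh0 hh1 (t := 2 * h) (by rw [abs_of_nonneg (by linarith)]; linarith)
  have hα0 : 0 < α := by positivity
  have hαs : α ≤ s := by
    rw [hα]
    have : Real.exp (-(2 * h)) ≤ 1 := Real.exp_le_one_iff.2 (by linarith)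
    nlinarith
  have hsβ : s ≤ β := by
    rw [hβ]
    have : 1 ≤ Real.exp (2 * h) := Real.one_le_exp (by linarith)
    nlinarith
  rw [← hβ] at hβ1
  have e1 : α / β = Real.exp (-(4 * h)) := by
    rw [hα, hβ, mul_div_mul_left _ _ hs0.ne', ← Real.exp_sub]; congr 1; ring
  have e2 : β / α = Real.exp (4 * h) := by
    rw [hα, hβ, mul_div_mul_left _ _ hs0.ne', ← Real.exp_sub]; congr 1; ring
  have e3 : α * β = s ^ 2 := by
    rw [hα, hβ, mul_mul_mul_comm, ← Real.exp_add]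
    have : -(2 * h) + 2 * h = 0 := by ring
    rw [this, Real.exp_zero]; ring
  have e4 : Real.sqrt (α * β) = s := by rw [e3, Real.sqrt_sq hs0.le]
  -- first part
  have p1 : 1 - 4 * h * (y + 1) ≤ (α / β) ^ (y + 1) := by
    rw [e1, ← Real.exp_nat_mul]
    have := Real.add_one_le_exp (((y + 1 : ℕ) : ℝ) * -(4 * h))
    push_cast at this ⊢
    linarith
  have p1' : (α / β) ^ (y + 1) ≤ 1 := by
    rw [e1]
    exact pow_le_one₀ (Real.exp_pos _).le (Real.exp_le_one_iff.2 (by linarith))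
  have p1'' : 0 ≤ (α / β) ^ (y + 1) := by positivity
  have p2 : 1 - 6 * s / (1 - s) * h ≤ (1 - β) / (1 - α) := by
    have h1α : 0 < 1 - α := by linarith
    rw [le_div_iff₀ h1α]
    have h3 := PG.sinh_diff hh0.le (by linarith)
    have h4 : β - α ≤ s * (6 * h) := by
      rw [hα, hβ, ← mul_sub]
      exact mul_le_mul_of_nonneg_left h3 hs0.le
    have h5 : s * (6 * h) ≤ 6 * s / (1 - s) * h * (1 - α) := by
      rw [div_mul_eq_mul_div, div_mul_eq_mul_div, le_div_iff₀ hs1']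
      have : 0 ≤ 6 * s * h := by positivity
      nlinarith
    nlinarith
  have p2' : (1 - β) / (1 - α) ≤ 1 := by
    rw [div_le_one (by linarith)]; linarith
  have p3 : 1 - (α / β) ^ (y + 1) * ((1 - β) / (1 - α)) ≤ (4 + 6 * s / (1 - s)) * (y + 1) * h := by
    set X := (α / β) ^ (y + 1)
    set Y := (1 - β) / (1 - α)
    have q1 : 1 - X * Y = (1 - X) + X * (1 - Y) := by ring
    have q2 : X * (1 - Y) ≤ 1 * (1 - Y) := mul_le_mul_of_nonneg_right p1' (by linarith)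
    have q3 : 6 * s / (1 - s) * h ≤ 6 * s / (1 - s) * (y + 1) * h := by
      have : 0 ≤ 6 * s / (1 - s) * h := by positivity
      have hy0 : (0 : ℝ) ≤ y := Nat.cast_nonneg _
      nlinarith
    rw [q1]
    nlinarith
  -- second part
  have p4 : (β / α) ^ ((y : ℝ) / 2) ≤ Real.exp 2 := by
    rw [e2, ← Real.exp_mul]
    refine Real.exp_le_exp.2 ?_
    have hy0 : (0 : ℝ) ≤ y := Nat.cast_nonneg _
    nlinarith
  have p5 : (1 - α) * (1 - β) / (1 - Real.sqrt (α * β)) ^ 2 ≤ Real.exp (-(4 * s / (1 - s) ^ 2 * h ^ 2)) := by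
    rw [e4]
    have q1 : (1 - α) * (1 - β) = (1 - s) ^ 2 - s * (Real.exp h - Real.exp (-h)) ^ 2 := by
      have r1 : Real.exp (2 * h) = Real.exp h ^ 2 := by rw [← Real.exp_nat_mul]; congr 1
      have r2 : Real.exp (-(2 * h)) = Real.exp (-h) ^ 2 := by
        rw [← Real.exp_nat_mul]; congr 1; push_cast; ring
      have r3 : Real.exp h * Real.exp (-h) = 1 := by rw [← Real.exp_add]; simp
      have r4 : (1 - α) * (1 - β) = 1 - α - β + α * β := by ring
      rw [r4, e3, hα, hβ, r1, r2]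
      have r5 : (Real.exp h - Real.exp (-h)) ^ 2 = Real.exp h ^ 2 + Real.exp (-h) ^ 2 - 2 := by
        have : (Real.exp h - Real.exp (-h)) ^ 2 =
          Real.exp h ^ 2 + Real.exp (-h) ^ 2 - 2 * (Real.exp h * Real.exp (-h)) := by ring
        rw [this, r3]; ring
      rw [r5]; ring
    have q2 : 4 * h ^ 2 ≤ (Real.exp h - Real.exp (-h)) ^ 2 := by
      have r1 : h ≤ Real.sinh h := Real.self_le_sinh_iff.2 hh0.le
      rw [Real.sinh_eq] at r1
      have r2 : 2 * h ≤ Real.exp h - Real.exp (-h) := by linarith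
      nlinarith
    have q3 : (1 - α) * (1 - β) / (1 - s) ^ 2 ≤ 1 - 4 * s / (1 - s) ^ 2 * h ^ 2 := by
      rw [q1, sub_div, div_self (by positivity)]
      have : 4 * s / (1 - s) ^ 2 * h ^ 2 ≤ s * (Real.exp h - Real.exp (-h)) ^ 2 / (1 - s) ^ 2 := by
        rw [div_mul_eq_mul_div]
        refine div_le_div_of_nonneg_right ?_ (by positivity)
        have := mul_le_mul_of_nonneg_left q2 hs0.le
        linarith
      linarith
    have q4 := Real.add_one_le_exp (-(4 * s / (1 - s) ^ 2 * h ^ 2))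
    linarith
  have p6 : 0 ≤ (1 - α) * (1 - β) / (1 - Real.sqrt (α * β)) ^ 2 := by
    have : 0 ≤ 1 - α := by linarith
    have : 0 ≤ 1 - β := by linarith
    positivity
  have p7 : ((1 - α) * (1 - β) / (1 - Real.sqrt (α * β)) ^ 2) ^ K ≤
      Real.exp (-(4 * s / (1 - s) ^ 2 * h ^ 2 * K)) := by
    calc _ ≤ (Real.exp (-(4 * s / (1 - s) ^ 2 * h ^ 2))) ^ K := pow_le_pow_left₀ p6 p5 K
      _ = _ := by rw [← Real.exp_nat_mul]; congr 1; ring
  have p8 : (β / α) ^ ((y : ℝ) / 2) * ((1 - α) * (1 - β) / (1 - Real.sqrt (α * β)) ^ 2) ^ K ≤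
      Real.exp 2 * Real.exp (-(4 * s / (1 - s) ^ 2 * h ^ 2 * K)) :=
    mul_le_mul p4 p7 (by positivity) (Real.exp_pos _).le
  have hy0 : (0 : ℝ) ≤ y := Nat.cast_nonneg _
  have hA : 0 ≤ 4 + 6 * s / (1 - s) := by positivity
  have hE : 0 < Real.exp 2 := Real.exp_pos _
  have r1 : (4 + 6 * s / (1 - s)) * (y + 1) * h ≤ (4 + 6 * s / (1 - s) + Real.exp 2) * (y + 1) * h :=
    mul_le_mul_of_nonneg_right (mul_le_mul_of_nonneg_right (by linarith) (by linarith)) hh0.le
  have r2 : Real.exp 2 * Real.exp (-(4 * s / (1 - s) ^ 2 * h ^ 2 * K)) ≤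
      (4 + 6 * s / (1 - s) + Real.exp 2) * Real.exp (-(4 * s / (1 - s) ^ 2 * h ^ 2 * K)) :=
    mul_le_mul_of_nonneg_right (by linarith) (Real.exp_pos _).le
  linarith

namespace PG

theorem sumR_eq (w K : ℕ) (u : ℕ → ℕ) :
    ∑ l ∈ range K, u (w + l + 1) = ∑ p ∈ Ioc w (w + K), u p := by
  refine Finset.sum_bij (fun l _ => w + l + 1) ?_ ?_ ?_ ?_
  · intro l hl; rw [mem_range] at hl; rw [mem_Ioc]; omega
  · intro i _ j _ hij; omega
  · intro p hp
    rw [mem_Ioc] at hp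
    exact ⟨p - w - 1, by rw [mem_range]; omega, by omega⟩
  · intro l _; rfl

theorem sumL_eq (w' K : ℕ) (hK : K ≤ w') (u : ℕ → ℕ) :
    ∑ l ∈ range K, u (w' - l) = ∑ p ∈ Ioc (w' - K) w', u p := by
  refine Finset.sum_bij (fun l _ => w' - l) ?_ ?_ ?_ ?_
  · intro l hl; rw [mem_range] at hl; rw [mem_Ioc]; omega
  · intro i hi j hj hij
    rw [mem_range] at hi hj
    omega
  · intro p hp
    rw [mem_Ioc] at hp
    exact ⟨w' - p, by rw [mem_range]; omega, by omega⟩
  · intro l _; rfl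

theorem far_ratio {s : ℝ} (cs : Cst s) {h : ℝ} (hh0 : 0 < h) (hh1 : h ≤ cs.h0) :
    0 ≤ (1 - s * Real.exp (2 * h)) * (1 - s * Real.exp (4 * h)) / (1 - s * Real.exp (3 * h)) ^ 2 ∧
    (1 - s * Real.exp (2 * h)) * (1 - s * Real.exp (4 * h)) / (1 - s * Real.exp (3 * h)) ^ 2 ≤
      Real.exp (-(s * h ^ 2)) := by
  have hs0 := cs.hs0
  have hb : ∀ c : ℝ, 0 ≤ c → c ≤ 5 → 0 < s * Real.exp (c * h) ∧ s * Real.exp (c * h) < 1 := by
    intro c hc0 hc1
    refine exp4_lt_one cs hh0 hh1 ?_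
    rw [abs_of_nonneg (by positivity)]
    nlinarith
  obtain ⟨a1, a2⟩ := hb 2 (by norm_num) (by norm_num)
  obtain ⟨b1, b2⟩ := hb 3 (by norm_num) (by norm_num)
  obtain ⟨c1, c2⟩ := hb 4 (by norm_num) (by norm_num)
  have h3 : 0 < 1 - s * Real.exp (3 * h) := by linarith
  refine ⟨div_nonneg (mul_nonneg (by linarith) (by linarith)) (by positivity), ?_⟩
  have q1 : (1 - s * Real.exp (2 * h)) * (1 - s * Real.exp (4 * h)) =
      (1 - s * Real.exp (3 * h)) ^ 2 - s * Real.exp (2 * h) * (Real.exp h - 1) ^ 2 := by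
    have r2 : Real.exp (2 * h) = Real.exp h ^ 2 := by rw [← Real.exp_nat_mul]; congr 1
    have r3 : Real.exp (3 * h) = Real.exp h ^ 3 := by rw [← Real.exp_nat_mul]; congr 1
    have r4 : Real.exp (4 * h) = Real.exp h ^ 4 := by rw [← Real.exp_nat_mul]; congr 1
    rw [r2, r3, r4]; ring
  have q2 : s * h ^ 2 ≤ s * Real.exp (2 * h) * (Real.exp h - 1) ^ 2 := by
    have r1 : h ≤ Real.exp h - 1 := by have := Real.add_one_le_exp h; linarith
    have r2 : 1 ≤ Real.exp (2 * h) := Real.one_le_exp (by linarith)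
    have r3 : h ^ 2 ≤ (Real.exp h - 1) ^ 2 := by nlinarith
    have r4 : s ≤ s * Real.exp (2 * h) := by nlinarith
    have r5 : 0 ≤ h ^ 2 := by positivity
    calc s * h ^ 2 ≤ s * Real.exp (2 * h) * h ^ 2 := by gcongr
      _ ≤ _ := by gcongr
  have q3 : (1 - s * Real.exp (3 * h)) ^ 2 ≤ 1 := by
    rw [sq_le_one_iff_abs_le_one, abs_of_pos h3]; linarith
  rw [q1, sub_div, div_self (by positivity)]
  have q4 : s * h ^ 2 ≤ s * Real.exp (2 * h) * (Real.exp h - 1) ^ 2 / (1 - s * Real.exp (3 * h)) ^ 2 := by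
    rw [le_div_iff₀ (by positivity)]
    have : 0 ≤ s * h ^ 2 := by positivity
    nlinarith
  have q5 := Real.add_one_le_exp (-(s * h ^ 2))
  linarith

end PG

open Classical in
theorem far_GE {s : ℝ} (cs : Cst s) {h : ℝ} (hh0 : 0 < h) (hh1 : h ≤ cs.h0) (w w' K y : ℕ) (hK : K ≤ w') :
  GE (Ioc (w' - K) w') (s * Real.exp (2 * h)) (fun u' => GE (Ioc w (w + K)) (s * Real.exp (4 * h)) (fun u =>
    if ∑ l ∈ range K, u (w + l + 1) ≤ y + ∑ l ∈ range K, u' (w' - l) then 1 else 0)) ≤ ENNReal.ofReal (Real.exp (h * y - s * h ^ 2 * K)) := by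
  have hs0 := cs.hs0
  have hb : ∀ c : ℝ, 0 ≤ c → c ≤ 5 → 0 < s * Real.exp (c * h) ∧ s * Real.exp (c * h) < 1 := by
    intro c hc0 hc1
    refine exp4_lt_one cs hh0 hh1 ?_
    rw [abs_of_nonneg (by positivity)]
    nlinarith
  obtain ⟨a1, a2⟩ := hb 2 (by norm_num) (by norm_num)
  obtain ⟨b1, b2⟩ := hb 3 (by norm_num) (by norm_num)
  obtain ⟨c1, c2⟩ := hb 4 (by norm_num) (by norm_num)
  set v := Real.exp h with hv
  have hv0 : 0 < v := Real.exp_pos _
  have hv1 : 1 ≤ v := Real.one_le_exp hh0.le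
  have e1 : s * Real.exp (2 * h) * v = s * Real.exp (3 * h) := by
    rw [hv, mul_assoc, ← Real.exp_add]; congr 2; ring
  have e2 : s * Real.exp (4 * h) * v⁻¹ = s * Real.exp (3 * h) := by
    rw [hv, ← Real.exp_neg, mul_assoc, ← Real.exp_add]; congr 2; ring
  have m1 := PG.GE_mgf (Ioc (w' - K) w') (s * Real.exp (2 * h)) v a1.le a2 hv0 (by rw [e1]; exact b2)
  have m2 := PG.GE_mgf (Ioc w (w + K)) (s * Real.exp (4 * h)) v⁻¹ c1.le c2 (by positivity)
    (by rw [e2]; exact b2)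
  rw [e1, Nat.card_Ioc] at m1
  rw [e2, Nat.card_Ioc] at m2
  have k1 : w' - (w' - K) = K := by omega
  have k2 : w + K - w = K := by omega
  rw [k1] at m1
  rw [k2] at m2
  simp only [PG.sumR_eq, PG.sumL_eq w' K hK]
  have key : ∀ u u' : ℕ → ℕ, (if ∑ p ∈ Ioc w (w + K), u p ≤ y + ∑ p ∈ Ioc (w' - K) w', u' p
      then (1 : ℝ≥0∞) else 0) ≤
      ENNReal.ofReal (v ^ y) * ENNReal.ofReal (v ^ (∑ p ∈ Ioc (w' - K) w', u' p)) *
        ENNReal.ofReal (v⁻¹ ^ (∑ p ∈ Ioc w (w + K), u p)) := by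
    intro u u'
    split_ifs with hc
    · rw [← ENNReal.ofReal_mul (by positivity), ← ENNReal.ofReal_mul (by positivity),
        ← ENNReal.ofReal_one]
      refine ENNReal.ofReal_le_ofReal ?_
      rw [← pow_add, inv_pow, ← div_eq_mul_inv, le_div_iff₀ (by positivity), one_mul]
      exact pow_le_pow_right₀ hv1 hc
    · exact zero_le
  calc _ ≤ GE (Ioc (w' - K) w') (s * Real.exp (2 * h)) (fun u' => GE (Ioc w (w + K)) (s * Real.exp (4 * h))
          (fun u => ENNReal.ofReal (v ^ y) * ENNReal.ofReal (v ^ (∑ p ∈ Ioc (w' - K) w', u' p)) *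
            ENNReal.ofReal (v⁻¹ ^ (∑ p ∈ Ioc w (w + K), u p)))) := by
        refine lintegral_mono (fun x => lintegral_mono (fun x' => ?_))
        exact key _ _
    _ = GE (Ioc (w' - K) w') (s * Real.exp (2 * h)) (fun u' =>
          ENNReal.ofReal (v ^ y) * ENNReal.ofReal (v ^ (∑ p ∈ Ioc (w' - K) w', u' p)) *
            ENNReal.ofReal (((1 - s * Real.exp (4 * h)) / (1 - s * Real.exp (3 * h))) ^ K)) := by
        refine lintegral_congr (fun x => ?_)
        rw [← m2]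
        exact lintegral_const_mul _ Measurable.of_discrete
    _ = ENNReal.ofReal (v ^ y) * ENNReal.ofReal (((1 - s * Real.exp (2 * h)) / (1 - s * Real.exp (3 * h))) ^ K) *
            ENNReal.ofReal (((1 - s * Real.exp (4 * h)) / (1 - s * Real.exp (3 * h))) ^ K) := by
        rw [← m1]
        refine (lintegral_mul_const _ Measurable.of_discrete).trans ?_
        congr 1
        exact lintegral_const_mul _ Measurable.of_discrete
    _ = ENNReal.ofReal (v ^ y * ((1 - s * Real.exp (2 * h)) * (1 - s * Real.exp (4 * h)) /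
          (1 - s * Real.exp (3 * h)) ^ 2) ^ K) := by
        have n1 : 0 ≤ (1 - s * Real.exp (2 * h)) / (1 - s * Real.exp (3 * h)) :=
          div_nonneg (by linarith) (by linarith)
        rw [← ENNReal.ofReal_mul (by positivity), ← ENNReal.ofReal_mul (by positivity)]
        congr 1
        rw [mul_assoc, ← mul_pow, div_mul_div_comm, ← pow_two]
    _ ≤ _ := by
        refine ENNReal.ofReal_le_ofReal ?_
        obtain ⟨f1, f2⟩ := PG.far_ratio cs hh0 hh1
        have f3 := pow_le_pow_left₀ f1 f2 K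
        rw [← Real.exp_nat_mul] at f3
        have f4 : v ^ y = Real.exp (y * h) := by rw [hv, Real.exp_nat_mul]
        rw [f4]
        calc _ ≤ Real.exp (y * h) * Real.exp (K * -(s * h ^ 2)) :=
              mul_le_mul_of_nonneg_left f3 (Real.exp_pos _).le
          _ = _ := by rw [← Real.exp_add]; congr 1; ring

end Pool.Agent.MP2c

end

section

/-! Crossing estimates, deterministic part and reduction to independent windows.
(helper96, MP_2c6138_pr) -/

set_option autoImplicit false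
set_option linter.unusedSectionVars false
set_option linter.unusedVariables false

namespace Pool.Agent.MP2c

open MeasureTheory Finset
open scoped ENNReal

theorem GG_sum_up (e : ℕ × ℕ → ℕ) (j w k : ℕ) :
    GG e j (w + k) = GG e j w + ∑ l ∈ range k, UU e j (w + l + 1) := by
  induction k with
  | zero => simp
  | succ k ih => rw [sum_range_succ, ← add_assoc, GG_incr, ih]; ring

theorem GG_sum_down (e : ℕ × ℕ → ℕ) (j w k : ℕ) (hk : k ≤ w) :
    GG e j w = GG e j (w - k) + ∑ l ∈ range k, UU e j (w - l) := by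
  induction k with
  | zero => simp
  | succ k ih =>
    rw [sum_range_succ, ih (by omega)]
    have h1 : w - k = (w - (k + 1)) + 1 := by omega
    have h2 : GG e j (w - k) = GG e j (w - (k + 1)) + UU e j (w - k) := by
      rw [h1, GG_incr]
    rw [h2]; ring

/-- right competitor event -/
def RR (K y wA wB : ℕ) (u u' : ℕ → ℕ) : Prop :=
  ∀ k ≤ K, ∑ l ∈ range k, u (wA + l + 1) ≤ y + ∑ l ∈ range k, u' (wB - l)

theorem crossE_right {n : ℕ} {y c0 r0 K : ℕ} {x : Fin n × Fin n → ℕ} (hc : c0 + K < n)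
    (h : crossE y c0 r0 x) :
    RR K y (c0 + 1) (n - c0) (UU (bz (WA x)) r0) (UU (bz (WB x)) (n - r0)) := by
  intro k hk
  have h1 := h (c0 + k) (by omega)
  have h2 := GG_sum_up (bz (WA x)) r0 (c0 + 1) k
  have h3 := GG_sum_down (bz (WB x)) (n - r0) (n - c0) k (by omega)
  have e1 : c0 + k + 1 = c0 + 1 + k := by omega
  have e2 : n - (c0 + k) = n - c0 - k := by omega
  rw [e1, e2] at h1
  omega

theorem crossE_left {n : ℕ} {y c0 r0 K : ℕ} {x : Fin n × Fin n → ℕ} (hc0 : c0 < n) (hc : K ≤ c0)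
    (h : crossE y c0 r0 x) :
    RR K y (n - c0) (c0 + 1) (UU (bz (WB x)) (n - r0)) (UU (bz (WA x)) r0) := by
  intro k hk
  have h1 := h (c0 - k) (by omega)
  have h2 := GG_sum_up (bz (WB x)) (n - r0) (n - c0) k
  have h3 := GG_sum_down (bz (WA x)) r0 (c0 + 1) k (by omega)
  have e1 : c0 - k + 1 = c0 + 1 - k := by omega
  have e2 : n - (c0 - k) = n - c0 + k := by omega
  rw [e1, e2] at h1
  omega

/-- the law of the reflected environment -/
theorem envLaw_WB (n : ℕ) (q : ℝ) :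
    EnvLaw (Measure.pi (fun _ : Fin n × Fin n => geo q)) (bb n n) (fun _ => q) (fun x => WB x) := by
  have himg : (bb n n).image (fun p : ℕ × ℕ => (n + 1 - p.1, n + 1 - p.2)) = bb n n := by
    ext ⟨a, b⟩
    simp only [mem_image, mem_bb, Prod.mk.injEq]
    constructor
    · rintro ⟨⟨i, j⟩, h1, h2, h3⟩
      simp only at h1 h2 h3
      omega
    · intro h
      exact ⟨(n + 1 - a, n + 1 - b), by simp only; omega, by simp only; omega, by simp only; omega⟩
  have h1 := envLaw_WA n q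
  rw [← himg] at h1
  refine h1.renameOn ?_
  rintro ⟨i, j⟩ hi ⟨i', j'⟩ hj h
  simp only [mem_coe, mem_bb, Prod.mk.injEq] at hi hj h ⊢
  omega

theorem bb_mono {m N m' N' : ℕ} (hm : m ≤ m') (hN : N ≤ N') : bb m N ⊆ bb m' N' := by
  intro p hp
  rw [mem_bb] at hp ⊢
  omega

theorem geo_par {q : ℝ} (h0 : 0 ≤ q) (h1 : q < 1) (S : Finset (ℕ × ℕ)) :
    ∀ p ∈ S, 0 ≤ (fun _ : ℕ × ℕ => q) p ∧ (fun _ : ℕ × ℕ => q) p < 1 := fun _ _ => ⟨h0, h1⟩

/-- Fubini for functions of the profiles below and above a horizontal line. -/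
theorem fubini_AB {n : ℕ} {q : ℝ} (h0 : 0 ≤ q) (h1 : q < 1) (r0 mA mB : ℕ) (hr : r0 ≤ n)
    (hmA : mA ≤ n) (hmB : mB ≤ n) (F : (ℕ → ℕ) → (ℕ → ℕ) → ℝ≥0∞)
    (hF1 : ∀ u', Dep (Ioc 0 mA) (fun u => F u u')) (hF2 : ∀ u, Dep (Ioc 0 mB) (F u)) :
    ∫⁻ x, F (UU (bz (WA x)) r0) (UU (bz (WB x)) (n - r0)) ∂(Measure.pi (fun _ : Fin n × Fin n => geo q)) =
      ∫⁻ x', ∫⁻ x, F (UU (bz (WA x)) r0) (UU (bz (WB x')) (n - r0))
        ∂(Measure.pi (fun _ : Fin n × Fin n => geo q)) ∂(Measure.pi (fun _ : Fin n × Fin n => geo q)) := by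
  have hE := envLaw_WA n q
  set S1 : Finset (ℕ × ℕ) := (bb n n).filter (fun p => p.1 ≤ r0) with hS1
  set S2 : Finset (ℕ × ℕ) := (bb n n).filter (fun p => ¬ p.1 ≤ r0) with hS2
  have hd1 : ∀ u' , Dep S1 (fun e : ℕ × ℕ → ℕ => F (UU (bz e) r0) u') := by
    intro u' e e' he
    refine hF1 u' _ _ (fun i hi => ?_)
    rw [mem_Ioc] at hi
    refine UU_bz_congr (m := mA) (N := r0) (fun p hp => he p ?_) i (by omega) hi.2
    rw [mem_bb] at hp
    exact mem_filter.2 ⟨mem_bb.2 (by omega), hp.1.2⟩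
  have hd2 : ∀ u, Dep S2 (fun e : ℕ × ℕ → ℕ => F u (UU (bz (rfl2 n n e)) (n - r0))) := by
    intro u e e' he
    refine hF2 u _ _ (fun i hi => ?_)
    rw [mem_Ioc] at hi
    refine UU_bz_congr (m := mB) (N := n - r0) (fun p hp => ?_) i (by omega) hi.2
    rw [mem_bb] at hp
    simp only [rfl2]
    refine he _ (mem_filter.2 ⟨mem_bb.2 ?_, ?_⟩)
    · simp only; omega
    · simp only; omega
  have := hE.indep2 (geo_par h0 h1 _) (S1 := S2) (S2 := S1) (filter_subset _ _) (filter_subset _ _)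
    (Finset.disjoint_filter_filter_not _ _ _).symm
    (fun e' e => F (UU (bz e) r0) (UU (bz (rfl2 n n e')) (n - r0)))
    (fun e => hd2 _) (fun e => hd1 _)
  exact this

end Pool.Agent.MP2c

end

section

/-! Crossing probabilities for the exit profile (helpwanted item D1 of MP_2c6138_pr). -/

set_option autoImplicit false
set_option linter.unusedSectionVars false
set_option linter.unusedVariables false

namespace Pool.Agent.MP2c

open MeasureTheory Finset
open scoped ENNReal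

/-- passage time from the bottom row, columns `> z`, in reflected form -/
noncomputable def Tz (n z : ℕ) (e : ℕ × ℕ → ℕ) : ℕ := GG (bz (rfl2 n n e)) n (n - z)

/-- the exit profile -/
noncomputable def Az (n z : ℕ) (e : ℕ × ℕ → ℕ) : ℕ := Xof e (z + 1) + Tz n z e

theorem Tz_eq {n z : ℕ} (h : z ≤ n) (e : ℕ × ℕ → ℕ) : Tz n z e = cmax e 0 n z n := by
  unfold Tz
  rw [GG_bz, cmax_rfl2 e n n n (n - z) le_rfl (Nat.sub_le _ _)]
  congr 1
  · omega
  · omega

theorem exists_Az {n : ℕ} (hn : 1 ≤ n) (e : ℕ × ℕ → ℕ) : ∃ z < n, GG (hz e) n n = Az n z e := by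
  obtain ⟨z, hz1, h⟩ := GG_hz_le e n n hn
  exact ⟨z, hz1, by rw [h, Az, Tz_eq hz1.le]⟩

theorem Az_le {n z : ℕ} (h : z < n) (e : ℕ × ℕ → ℕ) : Az n z e ≤ GG (hz e) n n := by
  rw [Az, Tz_eq h.le]
  exact le_GG_hz e n n z h

theorem GG_sum_UU (e : ℕ × ℕ → ℕ) (N x m : ℕ) (h : x ≤ m) :
    GG e N m = GG e N x + ∑ i ∈ Ioc x m, UU e N i := by
  induction m, h using Nat.le_induction with
  | base => simp
  | succ m hm ih =>
    rw [GG_incr, ih, Finset.sum_Ioc_succ_top hm]; ring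

theorem Xof_sum (e : ℕ × ℕ → ℕ) (x m : ℕ) (h : x ≤ m) :
    Xof e m = Xof e x + ∑ i ∈ Ioc x m, e (0, i) := by
  induction m, h using Nat.le_induction with
  | base => simp
  | succ m hm ih =>
    rw [Xof_succ, ih, Finset.sum_Ioc_succ_top hm]; ring

theorem Az_diff {n z z' : ℕ} (h : z ≤ z') (h' : z' < n) (e : ℕ × ℕ → ℕ) :
    Az n z' e + ∑ i ∈ Ioc (n - z') (n - z), UU (bz (rfl2 n n e)) n i =
      Az n z e + ∑ i ∈ Ioc (z + 1) (z' + 1), e (0, i) := by
  unfold Az Tz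
  rw [GG_sum_UU (bz (rfl2 n n e)) n (n - z') (n - z) (by omega),
    Xof_sum e (z + 1) (z' + 1) (by omega)]
  ring

section law
variable {Ω : Type} [MeasurableSpace Ω] [DiscreteMeasurableSpace Ω]

theorem EnvLaw.exp_sum {κ : Type} [DecidableEq κ] {P : Measure Ω} {S : Finset κ} {θ : κ → ℝ}
    {E : Ω → κ → ℕ} (h : EnvLaw P S θ E) (hθ : ∀ p ∈ S, 0 ≤ θ p ∧ θ p < 1) {A : Finset κ}
    (hA : A ⊆ S) (u : ℝ) (hu : 0 < u) (hu1 : ∀ p ∈ A, θ p * u < 1) :
    ∫⁻ ω, ENNReal.ofReal (u ^ (∑ p ∈ A, E ω p)) ∂P =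
      ENNReal.ofReal (∏ p ∈ A, (1 - θ p) / (1 - θ p * u)) := by
  classical
  set θ' : κ → ℝ := fun p => if p ∈ A then θ p * u else θ p with hθ'
  have hcan := envLaw_pi S θ'
  have hT := h.tilt hcan hA u hu (fun p hp => by simp [hθ', hp]) (fun p _ hp => by simp [hθ', hp])
    (fun p hp => hθ p (hA hp)) hu1 (fun _ => 1) (fun _ _ _ => rfl)
  simp only [mul_one] at hT
  rw [hT]
  have h01 : ∀ p ∈ S, 0 ≤ θ' p ∧ θ' p < 1 := by
    intro p hp
    simp only [hθ']
    split_ifs with hpA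
    · exact ⟨mul_nonneg (hθ p hp).1 hu.le, hu1 p hpA⟩
    · exact hθ p hp
  rw [lintegral_one, hcan.prob h01, mul_one]

theorem GE_exp {A I : Finset ℕ} (hI : I ⊆ A) {a w : ℝ} (ha0 : 0 ≤ a) (ha1 : a < 1) (hw : 0 < w)
    (haw : a * w < 1) :
    GE A a (fun u => ENNReal.ofReal (w ^ (∑ i ∈ I, u i))) =
      ENNReal.ofReal (((1 - a) / (1 - a * w)) ^ I.card) := by
  have h := (envLaw_pi A (fun _ : ℕ => a)).exp_sum (fun _ _ => ⟨ha0, ha1⟩) hI w hw (fun _ _ => haw)
  rw [Finset.prod_const] at h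
  exact h

/-- the reflected bulk -/
theorem law_rfl2 {P : Measure Ω} {E : Ω → ℕ × ℕ → ℕ} {n m : ℕ} (hm : m ≤ n) {a q : ℝ} {b : ℕ → ℝ}
    (h01 : ∀ p ∈ bx n n, 0 ≤ sth a b (fun _ => q) p ∧ sth a b (fun _ => q) p < 1)
    (hE : EnvLaw P (bx n n) (sth a b (fun _ => q)) E) :
    EnvLaw P (bb m n) (fun _ => q) (fun ω => rfl2 n n (E ω)) := by
  set ren : ℕ × ℕ → ℕ × ℕ := fun p => (n + 1 - p.1, n + 1 - p.2) with hren
  have hsub : (bb m n).image ren ⊆ bx n n := by
    intro p hp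
    rw [mem_image] at hp
    obtain ⟨p', hp', rfl⟩ := hp
    rw [mem_bb] at hp'
    rw [mem_bx]
    refine ⟨?_, ?_, ?_⟩
    · simp only [hren, ne_eq, Prod.mk.injEq, not_and]
      intro h; omega
    · simp only [hren]; omega
    · simp only [hren]; omega
  have hinj : Set.InjOn ren (bb m n : Set (ℕ × ℕ)) := by
    intro p hp p' hp' h
    rw [mem_coe, mem_bb] at hp hp'
    simp only [hren, Prod.mk.injEq] at h
    ext
    · omega
    · omega
  have h1 := EnvLaw.renameOn hinj (hE.subset hsub h01)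
  refine h1.congr' (fun ω p _ => rfl) (fun p hp => ?_)
  rw [mem_bb] at hp
  simp only [hren, sth]
  rw [if_neg (by omega), if_neg (by omega)]

theorem cross_aux {P : Measure Ω} {E : Ω → ℕ × ℕ → ℕ} {n z z' : ℕ} (D : ℕ) (hz : z < z')
    (hz' : z' < n) {a a' q v : ℝ} {b : ℕ → ℝ} {B : ℝ≥0∞}
    (h01 : ∀ p ∈ bx n n, 0 ≤ sth a b (fun _ => q) p ∧ sth a b (fun _ => q) p < 1)
    (hE : EnvLaw P (bx n n) (sth a b (fun _ => q)) E)
    (ha0 : 0 ≤ a) (ha1 : a < 1) (hv : 1 < v) (hav : a * v < 1) (ha0' : 0 ≤ a') (ha1' : a' < 1)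
    (hcomp : ∀ ψ : (ℕ → ℕ) → ℝ≥0∞, Dep (Ioc 0 (n - z)) ψ → (∀ u, ψ u ≤ 1) →
      (∀ u u' : ℕ → ℕ, (∀ i ∈ Ioc 0 (n - z), u i ≤ u' i) → ψ u' ≤ ψ u) →
      ∫⁻ ω, ψ (fun i => UU (bz (rfl2 n n (E ω))) n i) ∂P ≤ GE (Ioc 0 (n - z)) a' ψ + B) :
    P {ω | Az n z (E ω) + D ≤ Az n z' (E ω)} ≤
      ENNReal.ofReal ((v⁻¹) ^ D * ((1 - a) / (1 - a * v) * ((1 - a') / (1 - a' / v))) ^ (z' - z)) + B := by
  classical
  have hv0 : 0 < v := by linarith
  have hprob : P Set.univ = 1 := hE.prob h01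
  set I : Finset ℕ := Ioc (n - z') (n - z) with hI
  set J : Finset ℕ := Ioc (z + 1) (z' + 1) with hJ
  have hIc : I.card = z' - z := by rw [hI, Nat.card_Ioc]; omega
  have hJc : J.card = z' - z := by rw [hJ, Nat.card_Ioc]; omega
  have hIsub : I ⊆ Ioc 0 (n - z) := by
    intro i hi; rw [hI, mem_Ioc] at hi; rw [mem_Ioc]; omega
  set F : (ℕ × ℕ → ℕ) → (ℕ × ℕ → ℕ) → ℝ≥0∞ := fun e e' =>
    if ∑ i ∈ I, UU (bz (rfl2 n n e')) n i + D ≤ ∑ i ∈ J, e (0, i) then 1 else 0 with hF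
  have hset : P {ω | Az n z (E ω) + D ≤ Az n z' (E ω)} = ∫⁻ ω, F (E ω) (E ω) ∂P := by
    rw [← lint_ite]
    refine lintegral_congr (fun ω => ?_)
    have h1 := Az_diff hz.le hz' (E ω)
    rw [← hI, ← hJ] at h1
    simp only [hF]
    have h2 : (Az n z (E ω) + D ≤ Az n z' (E ω)) ↔
        (∑ i ∈ I, UU (bz (rfl2 n n (E ω))) n i + D ≤ ∑ i ∈ J, (E ω) (0, i)) := by omega
    simp only [h2]
  set S1 : Finset (ℕ × ℕ) := J.image (fun i => ((0 : ℕ), i)) with hS1
  have hS1sub : S1 ⊆ bx n n := by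
    intro p hp
    rw [hS1, mem_image] at hp
    obtain ⟨i, hi, rfl⟩ := hp
    rw [hJ, mem_Ioc] at hi
    rw [mem_bx]
    refine ⟨?_, ?_, ?_⟩
    · simp only [ne_eq, Prod.mk.injEq, true_and]; omega
    · simp
    · simp only; omega
  have hdisj : Disjoint S1 (bb n n) := by
    rw [Finset.disjoint_left]
    intro p hp hp'
    rw [hS1, mem_image] at hp
    obtain ⟨i, hi, rfl⟩ := hp
    rw [mem_bb] at hp'
    simp at hp'
  have hdep1 : ∀ e', Dep S1 (fun e => F e e') := by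
    intro e' e1 e2 he
    simp only [hF]
    have : ∑ i ∈ J, e1 (0, i) = ∑ i ∈ J, e2 (0, i) :=
      Finset.sum_congr rfl (fun i hi => he _ (mem_image_of_mem _ hi))
    rw [this]
  have hdep2 : ∀ e, Dep (bb n n) (F e) := by
    intro e e1 e2 he
    simp only [hF]
    have : ∑ i ∈ I, UU (bz (rfl2 n n e1)) n i = ∑ i ∈ I, UU (bz (rfl2 n n e2)) n i := by
      refine Finset.sum_congr rfl (fun i hi => ?_)
      rw [hI, mem_Ioc] at hi
      refine UU_bz_congr (m := n) (fun p hp => ?_) i (by omega) (by omega)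
      rw [mem_bb] at hp
      simp only [rfl2]
      refine he _ ?_
      rw [mem_bb]
      simp only
      omega
    rw [this]
  rw [hset, hE.indep2 h01 hS1sub (filter_subset _ _) hdisj F hdep1 hdep2]
  -- inner integral
  have hinner : ∀ ω, ∫⁻ ω', F (E ω) (E ω') ∂P ≤
      ENNReal.ofReal (v ^ (∑ p ∈ S1, E ω p)) *
        ENNReal.ofReal ((v⁻¹) ^ D * ((1 - a') / (1 - a' / v)) ^ (z' - z)) + B := by
    intro ω
    set x := ∑ i ∈ J, (E ω) (0, i) with hx
    have hxS : ∑ p ∈ S1, E ω p = x := by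
      rw [hS1, Finset.sum_image]
      intro i _ j _ hij
      simpa using hij
    rw [hxS]
    set ψ : (ℕ → ℕ) → ℝ≥0∞ := fun u => if ∑ i ∈ I, u i + D ≤ x then 1 else 0 with hψ
    have h1 := hcomp ψ (by
        intro u u' hu
        simp only [hψ]
        rw [Finset.sum_congr rfl (fun i hi => hu i (hIsub hi))])
      (by intro u; simp only [hψ]; split_ifs <;> simp)
      (by
        intro u u' hu
        simp only [hψ]
        have : ∑ i ∈ I, u i ≤ ∑ i ∈ I, u' i := Finset.sum_le_sum (fun i hi => hu i (hIsub hi))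
        split_ifs with h1 h2
        · exact le_rfl
        · omega
        · exact zero_le_one
        · exact le_rfl)
    refine h1.trans (add_le_add ?_ le_rfl)
    have h2 : GE (Ioc 0 (n - z)) a' ψ ≤ ENNReal.ofReal (v ^ x * (v⁻¹) ^ D) *
        GE (Ioc 0 (n - z)) a' (fun u => ENNReal.ofReal ((v⁻¹) ^ (∑ i ∈ I, u i))) := by
      unfold GE
      rw [← lintegral_const_mul _ (Measurable.of_discrete)]
      refine lintegral_mono (fun u => ?_)
      simp only [hψ]
      split_ifs with hle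
      · rw [← ENNReal.ofReal_mul (by positivity), ← ENNReal.ofReal_one]
        refine ENNReal.ofReal_le_ofReal ?_
        obtain ⟨k, hk⟩ := Nat.exists_eq_add_of_le hle
        rw [hk, pow_add, pow_add]
        have e1 : v ^ (∑ i ∈ I, ext (Ioc 0 (n - z)) u i) * (v⁻¹) ^ (∑ i ∈ I, ext (Ioc 0 (n - z)) u i) = 1 :=
          pow_int_aux hv _
        have e2 : v ^ D * (v⁻¹) ^ D = 1 := pow_int_aux hv _
        have e3 : 1 ≤ v ^ k := one_le_pow₀ hv.le
        calc (1 : ℝ) ≤ v ^ k := e3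
          _ = (v ^ (∑ i ∈ I, ext (Ioc 0 (n - z)) u i) * (v⁻¹) ^ (∑ i ∈ I, ext (Ioc 0 (n - z)) u i)) *
              (v ^ D * (v⁻¹) ^ D) * v ^ k := by rw [e1, e2]; ring
          _ = _ := by ring
      · exact zero_le
    refine h2.trans ?_
    have hw : a' * v⁻¹ < 1 := by
      have : a' * v⁻¹ ≤ a' := mul_le_of_le_one_right ha0' (inv_le_one_of_one_le₀ hv.le)
      linarith
    rw [GE_exp hIsub ha0' ha1' (by positivity) hw, hIc, ← ENNReal.ofReal_mul (by positivity),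
      ← ENNReal.ofReal_mul (by positivity)]
    refine ENNReal.ofReal_le_ofReal (le_of_eq ?_)
    rw [div_eq_mul_inv a' v]; ring
  refine (lintegral_mono hinner).trans ?_
  rw [lintegral_add_right _ (Measurable.of_discrete), lintegral_mul_const _ (Measurable.of_discrete),
    lintegral_const, hprob, mul_one, hE.exp_sum h01 hS1sub v hv0 (by
      intro p hp
      rw [hS1, mem_image] at hp
      obtain ⟨i, hi, rfl⟩ := hp
      simpa [sth] using hav)]
  refine add_le_add ?_ le_rfl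
  have hprod : ∏ p ∈ S1, (1 - sth a b (fun _ => q) p) / (1 - sth a b (fun _ => q) p * v) =
      ((1 - a) / (1 - a * v)) ^ (z' - z) := by
    rw [hS1, Finset.prod_image]
    · simp only [sth, if_true]
      rw [Finset.prod_const, hJc]
    · intro i _ j _ hij
      simpa using hij
  rw [hprod, ← ENNReal.ofReal_mul (by
    have : 0 ≤ (1 - a) / (1 - a * v) := div_nonneg (by linarith) (by linarith)
    positivity)]
  refine ENNReal.ofReal_le_ofReal (le_of_eq ?_)
  rw [mul_pow]; ring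

end law

end Pool.Agent.MP2c

end

section

/-! Near geodesics and crossing events: deterministic part and symmetries. (helper2, MP_2c6138_pr) -/

set_option autoImplicit false

namespace Pool.Agent.MP2c

open MeasureTheory Finset
open scoped ENNReal

section det
variable {n : ℕ}

def JJ (p : Fin n × Fin n) : ℕ × ℕ := (p.1.1 + 1, p.2.1 + 1)

theorem JJ_inj : Function.Injective (JJ : Fin n × Fin n → ℕ × ℕ) := by
  rintro ⟨a, b⟩ ⟨c, d⟩ h
  simp only [JJ, Prod.mk.injEq, Nat.add_right_cancel_iff] at h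
  ext
  · exact h.1
  · exact h.2

theorem WA_JJ (x : Fin n × Fin n → ℕ) (p : Fin n × Fin n) : WA x (JJ p) = x p := by
  have h1 := p.1.2
  have h2 := p.2.2
  have h : (1 ≤ (JJ p).1 ∧ (JJ p).1 ≤ n) ∧ (1 ≤ (JJ p).2 ∧ (JJ p).2 ≤ n) := by
    simp only [JJ]; omega
  rw [WA, dif_pos h]
  rfl

theorem sum_le_cmax (x : Fin n × Fin n → ℕ) (a b c d : ℕ) {S : Finset (Fin n × Fin n)}
    (hc : IsChain (· ≤ ·) (S : Set (Fin n × Fin n)))
    (hS : ∀ p ∈ S, (a ≤ p.1.1 ∧ p.1.1 < b) ∧ (c ≤ p.2.1 ∧ p.2.1 < d)) :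
    ∑ p ∈ S, x p ≤ cmax (WA x) a b c d := by
  classical
  have e : ∑ p ∈ S, x p = ∑ p ∈ S.image JJ, WA x p := by
    rw [sum_image (fun p _ q _ h => JJ_inj h)]
    exact sum_congr rfl (fun p _ => (WA_JJ x p).symm)
  rw [e]
  apply le_cmax
  · intro p hp
    rw [mem_image] at hp
    obtain ⟨p', hp', rfl⟩ := hp
    have := hS p' hp'
    simp only [JJ, mem_product, mem_Ioc]
    omega
  · intro p hp q hq hpq
    rw [mem_coe, mem_image] at hp hq
    obtain ⟨p', hp', rfl⟩ := hp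
    obtain ⟨q', hq', rfl⟩ := hq
    rcases hc hp' hq' (fun h => hpq (by rw [h])) with h | h
    · left
      exact ⟨Nat.succ_le_succ h.1, Nat.succ_le_succ h.2⟩
    · right
      exact ⟨Nat.succ_le_succ h.1, Nat.succ_le_succ h.2⟩

theorem GG_WB (x : Fin n × Fin n → ℕ) (r0 c : ℕ) (hr : r0 ≤ n) (hc : c ≤ n) :
    GG (bz (WB x)) (n - r0) (n - c) = cmax (WA x) r0 n c n := by
  rw [GG_bz, WB, cmax_rfl2 _ _ _ _ _ (Nat.sub_le _ _) (Nat.sub_le _ _)]
  congr 1 <;> omega

theorem crossE_of (x : Fin n × Fin n → ℕ) (y c0 r0 : ℕ) (hr : r0 ≤ n) (hc0 : c0 < n)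
    (S : Finset (Fin n × Fin n)) (hch : IsChain (· ≤ ·) (S : Set (Fin n × Fin n)))
    (h1 : ∀ p ∈ S, p.1.1 < r0 → p.2.1 ≤ c0) (h2 : ∀ p ∈ S, r0 ≤ p.1.1 → c0 ≤ p.2.1)
    (hT : Tch x ≤ ∑ w ∈ S, x w + y) : crossE y c0 r0 x := by
  classical
  intro c hc
  rw [GG_bz, GG_bz _ r0 (c0 + 1), GG_WB x r0 c hr hc.le, GG_WB x r0 c0 hr hc0.le]
  have h3 : cmax (WA x) 0 r0 0 (c + 1) + cmax (WA x) r0 n c n ≤ Tch x := by
    rw [Tch_eq_cmax]
    exact cmax_add _ (Nat.zero_le _) hr (Nat.zero_le _) le_rfl hc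
  have h4 : ∑ w ∈ S, x w = ∑ w ∈ S.filter (fun p => p.1.1 < r0), x w +
      ∑ w ∈ S.filter (fun p => ¬ p.1.1 < r0), x w :=
    (sum_filter_add_sum_filter_not S _ _).symm
  have h5 : ∑ w ∈ S.filter (fun p => p.1.1 < r0), x w ≤ cmax (WA x) 0 r0 0 (c0 + 1) := by
    apply sum_le_cmax
    · exact hch.mono (by intro p hp; exact (mem_filter.mp (mem_coe.mp hp)).1)
    · intro p hp
      rw [mem_filter] at hp
      have := h1 p hp.1 hp.2
      omega
  have h6 : ∑ w ∈ S.filter (fun p => ¬ p.1.1 < r0), x w ≤ cmax (WA x) r0 n c0 n := by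
    apply sum_le_cmax
    · exact hch.mono (by intro p hp; exact (mem_filter.mp (mem_coe.mp hp)).1)
    · intro p hp
      rw [mem_filter] at hp
      have := h2 p hp.1 (by omega)
      have h7 := p.1.2
      have h8 := p.2.2
      omega
  omega

/-- an involution preserving comparability -/
structure Sym (σ : Fin n × Fin n → Fin n × Fin n) : Prop where
  inv : ∀ p, σ (σ p) = p
  cmp : ∀ p q, p ≤ q → σ p ≤ σ q ∨ σ q ≤ σ p

theorem Sym.inj {σ : Fin n × Fin n → Fin n × Fin n} (h : Sym σ) : Function.Injective σ := by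
  intro a b hab
  rw [← h.inv a, hab, h.inv]

theorem Sym.chain [DecidableEq (Fin n × Fin n)] {σ : Fin n × Fin n → Fin n × Fin n} (h : Sym σ)
    {S : Finset (Fin n × Fin n)}
    (hS : IsChain (· ≤ ·) (S : Set (Fin n × Fin n))) :
    IsChain (· ≤ ·) ((S.image σ : Finset (Fin n × Fin n)) : Set (Fin n × Fin n)) := by
  intro p hp q hq hpq
  rw [mem_coe, mem_image] at hp hq
  obtain ⟨p', hp', rfl⟩ := hp
  obtain ⟨q', hq', rfl⟩ := hq
  rcases hS hp' hq' (fun h => hpq (by rw [h])) with h' | h'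
  · exact h.cmp _ _ h'
  · exact (h.cmp _ _ h').symm

theorem Sym.Tch_le {σ : Fin n × Fin n → Fin n × Fin n} (h : Sym σ) (x : Fin n × Fin n → ℕ) :
    Tch (fun p => x (σ p)) ≤ Tch x := by
  classical
  rw [Tch]
  apply Finset.sup_le
  intro S hS
  rw [mem_filter] at hS
  have e : ∑ v ∈ S, x (σ v) = ∑ w ∈ S.image σ, x w := by
    rw [sum_image (fun p _ q _ h' => h.inj h')]
  rw [e, Tch]
  exact Finset.le_sup (f := fun S : Finset (Fin n × Fin n) => ∑ v ∈ S, x v)
    (mem_filter.mpr ⟨mem_univ _, h.chain hS.2⟩)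

theorem Sym.Tch_eq {σ : Fin n × Fin n → Fin n × Fin n} (h : Sym σ) (x : Fin n × Fin n → ℕ) :
    Tch (fun p => x (σ p)) = Tch x := by
  apply le_antisymm (h.Tch_le x)
  have := h.Tch_le (fun p => x (σ p))
  simp only [h.inv] at this
  exact this

theorem Sym.NG {σ : Fin n × Fin n → Fin n × Fin n} (h : Sym σ) {y : ℕ} {v : Fin n × Fin n}
    {x : Fin n × Fin n → ℕ} (hx : NG y v (fun p => x (σ p))) : NG y (σ v) x := by
  classical
  obtain ⟨S, hS, hv, hT⟩ := hx
  refine ⟨S.image σ, h.chain hS, mem_image_of_mem σ hv, ?_⟩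
  rw [h.Tch_eq] at hT
  rw [sum_image (fun p _ q _ h' => h.inj h')]
  exact hT

theorem sym_swap : Sym (Prod.swap : Fin n × Fin n → Fin n × Fin n) where
  inv := fun p => Prod.swap_swap p
  cmp := fun p q h => Or.inl ⟨h.2, h.1⟩

/-- reflection of the box -/
def rv (p : Fin n × Fin n) : Fin n × Fin n := (Fin.rev p.1, Fin.rev p.2)

theorem sym_rv : Sym (rv : Fin n × Fin n → Fin n × Fin n) where
  inv := fun p => by simp [rv]
  cmp := fun p q h => Or.inr ⟨Fin.rev_le_rev.mpr h.1, Fin.rev_le_rev.mpr h.2⟩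

/-- a near geodesic through `v` gives a crossing event at `v` -/
theorem NG_cross {y : ℕ} {v : Fin n × Fin n} {x : Fin n × Fin n → ℕ} (h : NG y v x) :
    crossE y v.2.1 v.1.1 x ∨ crossE y v.1.1 v.2.1 (fun p => x p.swap) := by
  classical
  obtain ⟨S, hS, hv, hT⟩ := h
  have hcmp : ∀ p ∈ S, ∀ p' ∈ S, p ≤ p' ∨ p' ≤ p := by
    intro p hp p' hp'
    by_cases h : p = p'
    · left; rw [h]
    · exact hS hp hp' h
  by_cases hex : ∃ p ∈ S, p.1 = v.1 ∧ p.2 < v.2
  · right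
    obtain ⟨p0, hp0, hp01, hp02⟩ := hex
    apply crossE_of (fun p => x p.swap) y v.1.1 v.2.1 v.2.2.le v.1.2 (S.image Prod.swap)
      (sym_swap.chain hS)
    · intro p hp hlt
      rw [mem_image] at hp
      obtain ⟨p', hp', rfl⟩ := hp
      simp only [Prod.fst_swap, Prod.snd_swap] at hlt ⊢
      rcases hcmp p' hp' v hv with h | h
      · exact h.1
      · exact absurd h.2 (not_le.mpr hlt)
    · intro p hp hle
      rw [mem_image] at hp
      obtain ⟨p', hp', rfl⟩ := hp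
      simp only [Prod.fst_swap, Prod.snd_swap] at hle ⊢
      by_contra hcon
      push Not at hcon
      rcases hcmp p' hp' p0 hp0 with h | h
      · have h1 : p'.2.1 ≤ p0.2.1 := h.2
        have h2 : p0.2.1 < v.2.1 := hp02
        omega
      · have h1 : p0.1.1 ≤ p'.1.1 := h.1
        rw [hp01] at h1
        omega
    · rw [sym_swap.Tch_eq, sum_image (fun p _ q _ h' => sym_swap.inj h')]
      simpa using hT
  · left
    push Not at hex
    apply crossE_of x y v.2.1 v.1.1 v.1.2.le v.2.2 S hS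
    · intro p hp hlt
      rcases hcmp p hp v hv with h | h
      · exact h.2
      · exact absurd h.1 (not_le.mpr hlt)
    · intro p hp hle
      rcases hcmp p hp v hv with h | h
      · have h1 : p.1 = v.1 := le_antisymm h.1 hle
        exact hex p hp h1
      · exact h.2
    · exact hT

/-- a near geodesic through `v` crosses row `r'` at some column `≤ v.2` -/
theorem NG_col {y : ℕ} {v : Fin n × Fin n} {x : Fin n × Fin n → ℕ} (h : NG y v x) (r' : ℕ)
    (hr' : r' ≤ v.1.1) : ∃ c0 ≤ v.2.1, crossE y c0 r' x := by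
  classical
  obtain ⟨S, hS, hv, hT⟩ := h
  have hcmp : ∀ p ∈ S, ∀ p' ∈ S, p ≤ p' ∨ p' ≤ p := by
    intro p hp p' hp'
    by_cases h : p = p'
    · left; rw [h]
    · exact hS hp hp' h
  have hle : ∀ p ∈ S, p.1.1 < r' → p.2.1 ≤ v.2.1 := by
    intro p hp hlt
    rcases hcmp p hp v hv with h | h
    · exact h.2
    · have h1 : v.1.1 ≤ p.1.1 := h.1
      omega
  by_cases hne : (S.filter (fun p => p.1.1 < r')).Nonempty
  · obtain ⟨M, hM, hMmax⟩ := exists_max_image (S.filter (fun p => p.1.1 < r'))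
      (fun p => p.2.1) hne
    rw [mem_filter] at hM
    refine ⟨M.2.1, hle M hM.1 hM.2, ?_⟩
    apply crossE_of x y _ _ (le_trans hr' v.1.2.le) M.2.2 S hS
    · intro p hp hlt
      exact hMmax p (mem_filter.mpr ⟨hp, hlt⟩)
    · intro p hp hle'
      rcases hcmp p hp M hM.1 with h | h
      · have h1 : p.1.1 ≤ M.1.1 := h.1
        omega
      · exact h.2
    · exact hT
  · refine ⟨0, Nat.zero_le _, ?_⟩
    have h0 : 0 < n := lt_of_le_of_lt (Nat.zero_le _) v.1.2
    apply crossE_of x y _ _ (le_trans hr' v.1.2.le) h0 S hS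
    · intro p hp hlt
      exact absurd ⟨p, mem_filter.mpr ⟨hp, hlt⟩⟩ hne
    · intro p hp hle'
      exact Nat.zero_le _
    · exact hT

end det

section prob
variable {n : ℕ}

theorem pi_comp (q : ℝ) {σ : Fin n × Fin n → Fin n × Fin n} (hσ : ∀ p, σ (σ p) = p)
    (A : Set (Fin n × Fin n → ℕ)) :
    (Measure.pi (fun _ : Fin n × Fin n => geo q)) {x | (fun p => x (σ p)) ∈ A} =
      (Measure.pi (fun _ : Fin n × Fin n => geo q)) A := by
  have hmp := measurePreserving_piCongrLeft (α := fun _ : Fin n × Fin n => ℕ)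
    (fun _ : Fin n × Fin n => geo q) (Function.Involutive.toPerm σ hσ)
  have h1 := hmp.measure_preimage (s := A) (MeasurableSet.of_discrete.nullMeasurableSet)
  rw [← h1]
  congr 1
  ext x
  simp only [Set.mem_ofPred_eq, Set.mem_preimage]
  have : (fun p => x (σ p)) = (MeasurableEquiv.piCongrLeft (fun _ : Fin n × Fin n => ℕ)
      (Function.Involutive.toPerm σ hσ)) x := by
    funext p
    have := MeasurableEquiv.piCongrLeft_apply_apply (β := fun _ : Fin n × Fin n => ℕ)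
      (Function.Involutive.toPerm σ hσ) x (σ p)
    rw [Function.Involutive.coe_toPerm, hσ] at this
    exact this.symm
  rw [this]

theorem NG_sym (q : ℝ) {σ : Fin n × Fin n → Fin n × Fin n} (h : Sym σ) (y : ℕ)
    (v : Fin n × Fin n) :
    (Measure.pi (fun _ : Fin n × Fin n => geo q)) {x | NG y v x} ≤
      (Measure.pi (fun _ : Fin n × Fin n => geo q)) {x | NG y (σ v) x} := by
  rw [← pi_comp q h.inv {x | NG y v x}]
  apply measure_mono
  intro x hx
  exact h.NG hx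

theorem pi_crossE_swap (q : ℝ) (y c0 r0 : ℕ) :
    (Measure.pi (fun _ : Fin n × Fin n => geo q)) {x | crossE y c0 r0 (fun p => x p.swap)} =
      (Measure.pi (fun _ : Fin n × Fin n => geo q)) {x | crossE y c0 r0 x} :=
  pi_comp q (σ := Prod.swap) (fun p => Prod.swap_swap p) {x | crossE y c0 r0 x}

end prob

end Pool.Agent.MP2c

end
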